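import Pool.Agent.H981R3.IS.Stubs

set_option autoImplicit false

namespace Pool.Agent.H981R3.IS

open Finset

variable {d : ℕ}

theorem acm_adj_symm (x y : Vx d) : adj x y ↔ adj y x := by
  unfold adj
  simp only [abs_sub_comm]

theorem acm_adj_iff (x y : Vx d) : adj x y ↔ ∃ k, y = x + ev k ∨ x = y + ev k := by
  constructor
  · intro h
    unfold adj at h
    have h0 : ∀ k ∈ (univ : Finset (Fin d)), 0 ≤ |x k - y k| := fun k _ => abs_nonneg _
    obtain ⟨k, hk⟩ : ∃ k, |x k - y k| ≠ 0 := by
      by_contra hne
      push Not at hne
      rw [Finset.sum_eq_zero (fun k _ => hne k)] at h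
      omega
    have h1 : |x k - y k| ≤ 1 := by
      rw [← h]
      exact Finset.single_le_sum h0 (mem_univ k)
    have h2 : ∀ j, j ≠ k → x j - y j = 0 := by
      intro j hj
      have h3 : |x j - y j| + |x k - y k| ≤ 1 := by
        rw [← h]
        rw [← Finset.sum_pair (f := fun k => |x k - y k|) hj]
        exact Finset.sum_le_sum_of_subset_of_nonneg (Finset.subset_univ _)
          (fun i hi _ => h0 i hi)
      have h4 := abs_nonneg (x j - y j)
      have h5 := abs_nonneg (x k - y k)
      have h6 : |x j - y j| = 0 := by omega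
      exact abs_eq_zero.mp h6
    refine ⟨k, ?_⟩
    have h7 : |x k - y k| = 1 := by
      have h5 := abs_nonneg (x k - y k)
      omega
    rcases (abs_eq (by norm_num)).mp h7 with h8 | h8
    · right
      funext j
      by_cases hj : j = k
      · subst hj
        simp [ev]
        omega
      · have := h2 j hj
        simp [ev, Pi.single_eq_of_ne hj]
        omega
    · left
      funext j
      by_cases hj : j = k
      · subst hj
        simp [ev]
        omega
      · have := h2 j hj
        simp [ev, Pi.single_eq_of_ne hj]
        omega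
  · rintro ⟨k, h | h⟩
    · subst h
      unfold adj
      rw [Finset.sum_eq_single k]
      · simp [ev]
      · intro j _ hj
        simp [ev, Pi.single_eq_of_ne hj]
      · simp
    · subst h
      unfold adj
      rw [Finset.sum_eq_single k]
      · simp [ev]
      · intro j _ hj
        simp [ev, Pi.single_eq_of_ne hj]
      · simp

theorem acm_mono (S T : Finset (Vx d)) (h : S ⊆ T) : Ac S ≤ Ac T := by
  unfold Ac
  apply Finset.card_le_card
  intro p hp
  simp only [mem_filter, mem_product, mem_univ, and_true] at hp ⊢
  exact ⟨h hp.1, h hp.2⟩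

theorem acm_super (S T : Finset (Vx d)) (h : Disjoint S T) : Ac S + Ac T ≤ Ac (S ∪ T) := by
  unfold Ac
  rw [← Finset.card_union_of_disjoint]
  · apply Finset.card_le_card
    intro p hp
    simp only [mem_union, mem_filter, mem_product, mem_univ, and_true] at hp ⊢
    rcases hp with hp | hp
    · exact ⟨Or.inl hp.1, Or.inl hp.2⟩
    · exact ⟨Or.inr hp.1, Or.inr hp.2⟩
  · rw [Finset.disjoint_left]
    intro p hp hp'
    simp only [mem_filter, mem_product, mem_univ, and_true] at hp hp'
    exact Finset.disjoint_left.mp h hp.1 hp'.1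

theorem acm_le (S : Finset (Vx d)) : Ac S ≤ d * S.card := by
  unfold Ac
  refine (Finset.card_filter_le _ _).trans ?_
  rw [Finset.card_product, Finset.card_univ, Fintype.card_fin, Nat.mul_comm]

theorem acm_chain_rev (P : List (Vx d)) (h : P.IsChain adj) : P.reverse.IsChain adj := by
  rw [List.isChain_reverse]
  exact h.imp (fun a b hab => (acm_adj_symm a b).mp hab)

theorem acm_isp_rev (P : List (Vx d)) (h : IsP P) : IsP P.reverse :=
  ⟨acm_chain_rev P h.1, List.nodup_reverse.mpr h.2⟩

theorem acm_st_rev (P : List (Vx d)) (x y : Vx d) : St P.reverse x y ↔ St P x y := by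
  unfold St
  have h1 : ∀ a b : Vx d, [a, b] <:+: P.reverse ↔ [b, a] <:+: P := by
    intro a b
    constructor
    · intro h
      have := List.reverse_infix.mpr h
      simpa using this
    · intro h
      have := List.reverse_infix.mpr h
      simpa using this
  rw [h1, h1]
  exact Or.comm

theorem acm_st_mem (P : List (Vx d)) (x y : Vx d) (h : St P x y) : x ∈ P ∧ y ∈ P := by
  rcases h with h | h
  · have := h.subset
    exact ⟨this (by simp), this (by simp)⟩
  · have := h.subset
    exact ⟨this (by simp), this (by simp)⟩

/-- an infix of length two of an append -/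
theorem acm_infix_app (P Q : List (Vx d)) (a b x y : Vx d) :
    [x, y] <:+: (P ++ a :: b :: Q) ↔
      [x, y] <:+: (P ++ [a]) ∨ [x, y] <:+: (b :: Q) ∨ (x = a ∧ y = b) := by
  constructor
  · rintro ⟨s, t, h⟩
    rw [List.append_assoc] at h
    rcases List.append_eq_append_iff.mp h with ⟨as, h1, h2⟩ | ⟨bs, h1, h2⟩
    · -- P = s ++ as, [x,y] ++ t = as ++ a :: b :: Q
      rcases as with _ | ⟨c, as⟩
      · simp at h2
        right; right
        exact ⟨h2.1, h2.2.1⟩
      · rcases as with _ | ⟨c', as⟩
        · simp at h2
          obtain ⟨h2a, h2b, h2c⟩ := h2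
          left
          refine ⟨s, [], ?_⟩
          subst h2a; subst h2b
          simp [h1]
        · simp at h2
          obtain ⟨h2a, h2b, h2c⟩ := h2
          left
          refine ⟨s, as ++ [a], ?_⟩
          subst h2a; subst h2b
          simp [h1]
    · -- s = P ++ bs, a :: b :: Q = bs ++ ([x,y] ++ t)
      rcases bs with _ | ⟨c, bs⟩
      · simp at h2
        right; right
        exact ⟨h2.1.symm, h2.2.1.symm⟩
      · simp at h2
        obtain ⟨h2a, h2b⟩ := h2
        right; left
        refine ⟨bs, t, ?_⟩
        simp [h2b]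
  · rintro (h | h | ⟨rfl, rfl⟩)
    · refine h.trans ?_
      exact ⟨[], b :: Q, by simp⟩
    · refine h.trans ?_
      exact ⟨P ++ [a], [], by simp⟩
    · exact ⟨P, Q, by simp⟩

theorem acm_st_app (P Q : List (Vx d)) (a b x y : Vx d) :
    St (P ++ a :: b :: Q) x y ↔
      St (P ++ [a]) x y ∨ St (b :: Q) x y ∨ (x = a ∧ y = b) ∨ (x = b ∧ y = a) := by
  unfold St
  rw [acm_infix_app, acm_infix_app]
  tauto

theorem acm_cube (n : ℕ) (P : List (Vx d)) (h1 : P.IsChain adj) (h2 : P.head? = some 0)
    (h3 : P.length ≤ n + 1) : ∀ x ∈ P, x ∈ cube d n := by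
  have key : ∀ (P : List (Vx d)) (v : Vx d), P.IsChain adj → P.head? = some v →
      ∀ x ∈ P, ∀ k, |x k - v k| + 1 ≤ P.length := by
    intro P
    induction P with
    | nil => intro v _ _ x hx; simp at hx
    | cons a P ih =>
      intro v hc hh x hx k
      simp at hh
      subst hh
      rcases List.mem_cons.mp hx with rfl | hx
      · simp
      · rcases P with _ | ⟨b, P⟩
        · simp at hx
        · have hc' := List.isChain_cons_cons.mp hc
          have h4 := ih b hc'.2 rfl x hx k
          have h5 : |a k - b k| ≤ 1 := by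
            have h6 := hc'.1
            unfold adj at h6
            rw [← h6]
            exact Finset.single_le_sum (f := fun k => |a k - b k|)
              (fun k _ => abs_nonneg _) (mem_univ k)
          have h7 : |x k - a k| ≤ |x k - b k| + |a k - b k| := by
            have : x k - a k = (x k - b k) - (a k - b k) := by ring
            rw [this]
            exact abs_sub _ _
          simp only [List.length_cons] at h4 ⊢
          push_cast at h4 ⊢
          omega
  intro x hx
  unfold cube
  rw [Fintype.mem_piFinset]
  intro k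
  have h4 := key P 0 h1 h2 x hx k
  simp at h4
  rw [mem_Icc]
  have h5 : |x k| ≤ n := by
    have : (P.length : ℤ) ≤ n + 1 := by exact_mod_cast h3
    omega
  exact abs_le.mp h5

theorem p_ACM (d : ℕ) : St_ACM d :=
  ⟨acm_mono, acm_super, acm_le, acm_adj_symm, acm_adj_iff, acm_isp_rev, acm_st_rev, acm_st_mem,
    acm_st_app, fun P n => acm_cube (P := P) (n := n)⟩

end Pool.Agent.H981R3.IS
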