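import Pool.Agent.H981R3.IS.Stubs

/-! TEAM IS, task ARI (helper930): arithmetic of cells and groups. -/

set_option autoImplicit false

namespace Pool.Agent.H981R3.IS

open Finset

variable {d : ℕ}

theorem ari_adj {u v : Vx d} (h : adj u v) :
    ∃ i, |u i - v i| = 1 ∧ ∀ k, k ≠ i → u k = v k := by
  unfold adj at h
  have h1 : ∃ i, u i ≠ v i := by
    by_contra hc
    push Not at hc
    rw [Finset.sum_eq_zero] at h
    · omega
    · intro k _
      rw [hc k, sub_self, abs_zero]
  obtain ⟨i, hi⟩ := h1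
  have h2 : 1 ≤ |u i - v i| := by
    apply Int.one_le_abs
    omega
  have h3 := Finset.add_sum_erase univ (fun k => |u k - v k|) (mem_univ i)
  have h4 : 0 ≤ ∑ k ∈ univ.erase i, |u k - v k| := Finset.sum_nonneg fun _ _ => abs_nonneg _
  refine ⟨i, by omega, fun k hk => ?_⟩
  have h5 : ∑ k ∈ univ.erase i, |u k - v k| = 0 := by omega
  rw [Finset.sum_eq_zero_iff_of_nonneg (fun _ _ => abs_nonneg _)] at h5
  have h6 := h5 k (mem_erase.2 ⟨hk, mem_univ _⟩)
  rw [abs_eq_zero] at h6
  omega

theorem ari_step {x y h : ℤ} (hh : 2 ≤ h) (hxy : |x - y| = 1) (hne : x / h ≠ y / h) :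
    x / h - y / h = x - y := by
  have h1 := Int.mul_ediv_add_emod x h
  have h2 := Int.mul_ediv_add_emod y h
  have h3 := Int.emod_nonneg x (show h ≠ 0 by omega)
  have h4 := Int.emod_nonneg y (show h ≠ 0 by omega)
  have h5 := Int.emod_lt_of_pos x (show 0 < h by omega)
  have h6 := Int.emod_lt_of_pos y (show 0 < h by omega)
  obtain ⟨a, ha⟩ : ∃ a, a = x / h := ⟨_, rfl⟩
  obtain ⟨b, hb⟩ : ∃ b, b = y / h := ⟨_, rfl⟩
  rw [← ha, ← hb] at hne ⊢
  rw [← ha] at h1
  rw [← hb] at h2
  rcases (abs_eq one_pos.le).1 hxy with h7 | h7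
  · have h8 : b ≤ a := by
      rw [ha, hb]
      exact Int.ediv_le_ediv (by omega) (by omega)
    have h9 : b + 1 ≤ a := by omega
    have h10 : h * (a - b - 1) < 1 := by
      have : h * (a - b - 1) = h * a - h * b - h := by ring
      omega
    have h11 : a - b - 1 < 1 := by
      by_contra hc
      push Not at hc
      nlinarith
    omega
  · have h8 : a ≤ b := by
      rw [ha, hb]
      exact Int.ediv_le_ediv (by omega) (by omega)
    have h9 : a + 1 ≤ b := by omega
    have h10 : h * (b - a - 1) < 1 := by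
      have : h * (b - a - 1) = h * b - h * a - h := by ring
      omega
    have h11 : b - a - 1 < 1 := by
      by_contra hc
      push Not at hc
      nlinarith
    omega

theorem ari_h2 (D : Dt d) (hρ : 2 ≤ D.ρ) (hg : 1 ≤ D.g) : (2 : ℤ) ≤ (D.h : ℤ) := by
  unfold Dt.h
  have : 2 * 1 ≤ D.ρ * D.g := Nat.mul_le_mul hρ hg
  exact_mod_cast this

theorem ari_ediv (D : Dt d) (x : Vx d) (k : Fin d) :
    D.ci x k = ((x k - D.a k) / (D.g : ℤ)) / (D.ρ : ℤ) := by
  unfold Dt.ci Dt.h
  rw [Int.ediv_ediv_of_nonneg (Int.natCast_nonneg _)]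
  push_cast
  rw [mul_comm (D.ρ : ℤ)]

theorem ari_crs (D : Dt d) (hρ : 2 ≤ D.ρ) (hg : 1 ≤ D.g) (hw : Sw D.w D.n) (p : ℕ)
    (hp : p ∈ D.crs) : ∃ i : Fin d, (D.gc p).1 = ev i ∧ |D.w (p + 1) i - D.w p i| = 1 ∧
    (D.gc p).2 i = max (D.ci (D.w p) i) (D.ci (D.w (p + 1)) i) ∧
    D.ci (D.w (p + 1)) i - D.ci (D.w p) i = D.w (p + 1) i - D.w p i ∧
    ∀ k, k ≠ i → D.w (p + 1) k = D.w p k ∧ D.ci (D.w (p + 1)) k = D.ci (D.w p) k ∧
      (D.gc p).2 k = (D.w p k - D.a k) / (D.g : ℤ) ∧ D.ci (D.w p) k = (D.gc p).2 k / (D.ρ : ℤ) := by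
  unfold Dt.crs at hp
  rw [mem_filter, mem_range] at hp
  obtain ⟨hpn, hne⟩ := hp
  obtain ⟨i, hi, hk⟩ := ari_adj (hw.1 p hpn)
  have hi' : |D.w (p + 1) i - D.w p i| = 1 := by rw [abs_sub_comm]; exact hi
  have hz : ∀ k, k ≠ i → |D.w (p + 1) k - D.w p k| = 0 := by
    intro k hki
    rw [hk k hki, sub_self, abs_zero]
  have hck : ∀ k, k ≠ i → D.ci (D.w (p + 1)) k = D.ci (D.w p) k := by
    intro k hki
    unfold Dt.ci
    rw [hk k hki]
  have hgk : ∀ k, k ≠ i → (D.gc p).2 k = (D.w p k - D.a k) / (D.g : ℤ) := by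
    intro k hki
    unfold Dt.gc
    simp only
    rw [if_neg]
    rw [hz k hki]
    omega
  refine ⟨i, ?_, hi', ?_, ?_, fun k hki => ⟨(hk k hki).symm, hck k hki, hgk k hki, ?_⟩⟩
  · funext k
    unfold Dt.gc ev
    simp only
    by_cases hki : k = i
    · subst hki
      rw [Pi.single_eq_same, hi']
    · rw [Pi.single_eq_of_ne hki, hz k hki]
  · unfold Dt.gc
    simp only
    rw [if_pos hi']
  · have hcne : D.ci (D.w (p + 1)) i ≠ D.ci (D.w p) i := by
      intro h
      apply hne
      funext k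
      by_cases hki : k = i
      · rw [hki, h]
      · exact (hck k hki).symm
    have h1 := ari_step (x := D.w (p + 1) i - D.a i) (y := D.w p i - D.a i)
      (ari_h2 D hρ hg) (by rw [sub_sub_sub_cancel_right]; exact hi') hcne
    rw [sub_sub_sub_cancel_right] at h1
    exact h1
  · rw [hgk k hki]
    exact ari_ediv D _ k

theorem p_ARI (d : ℕ) : St_ARI d := by
  intro D hρ hg hw
  have hh := ari_h2 D hρ hg
  refine ⟨?_, ?_, fun x k => ari_ediv D x k, ?_, ?_, fun p hp => ari_crs D hρ hg hw p hp, ?_⟩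
  · intro x y
    constructor
    · intro h
      funext k
      have h1 := h k
      unfold Dt.og at h1
      have h2 : D.ci x k = (x k - D.a k) / (D.h : ℤ) := rfl
      rw [h2]
      apply le_antisymm
      · apply Int.le_of_lt_add_one
        apply (Int.ediv_lt_iff_lt_mul (by omega)).2
        have : (D.ci y k + 1) * (D.h : ℤ) = D.h * D.ci y k + D.h := by ring
        rw [this]
        omega
      · apply (Int.le_ediv_iff_mul_le (by omega)).2
        have : D.ci y k * (D.h : ℤ) = D.h * D.ci y k := by ring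
        rw [this]
        omega
    · intro h k
      have h2 : D.ci y k = (x k - D.a k) / (D.h : ℤ) := by rw [← h]; rfl
      unfold Dt.og
      rw [h2]
      have h3 := Int.mul_ediv_add_emod (x k - D.a k) (D.h : ℤ)
      have h4 := Int.emod_nonneg (x k - D.a k) (show (D.h : ℤ) ≠ 0 by omega)
      have h5 := Int.emod_lt_of_pos (x k - D.a k) (show (0 : ℤ) < D.h by omega)
      constructor <;> omega
  · intro x y
    constructor
    · intro h
      funext k
      have h1 := congrFun h k
      unfold Dt.og at h1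
      have h2 : (D.h : ℤ) * D.ci x k = D.h * D.ci y k := by omega
      exact mul_left_cancel₀ (show (D.h : ℤ) ≠ 0 by omega) h2
    · intro h
      unfold Dt.og
      rw [h]
  · intro p hp
    unfold Dt.crs at hp
    rw [mem_filter, mem_range] at hp
    exact hp
  · intro p hp hc
    by_contra h
    apply hc
    unfold Dt.crs
    rw [mem_filter, mem_range]
    exact ⟨hp, h⟩
  · intro p hp q hq hpq
    obtain ⟨i, hi1, hi2, hi3, hi4, hi5⟩ := ari_crs D hρ hg hw p hp
    obtain ⟨j, hj1, hj2, hj3, hj4, hj5⟩ := ari_crs D hρ hg hw q hq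
    have hij : i = j := by
      rw [hpq, hj1] at hi1
      have h1 := congrFun hi1 i
      unfold ev at h1
      by_contra hne
      rw [Pi.single_eq_same, Pi.single_eq_of_ne hne] at h1
      omega
    subst hij
    have hk : ∀ k, k ≠ i → D.ci (D.w p) k = D.ci (D.w q) k := by
      intro k hki
      rw [(hi5 k hki).2.2.2, (hj5 k hki).2.2.2, hpq]
    have hmax : max (D.ci (D.w p) i) (D.ci (D.w (p + 1)) i) =
        max (D.ci (D.w q) i) (D.ci (D.w (q + 1)) i) := by
      rw [← hi3, ← hj3, hpq]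
    rcases (abs_eq one_pos.le).1 hi2 with h1 | h1 <;> rcases (abs_eq one_pos.le).1 hj2 with h2 | h2
    · left
      have h3 : D.ci (D.w p) i = D.ci (D.w q) i := by omega
      have h4 : D.ci (D.w (p + 1)) i = D.ci (D.w (q + 1)) i := by omega
      refine ⟨funext fun k => ?_, funext fun k => ?_⟩
      · by_cases hki : k = i
        · rw [hki, h3]
        · exact hk k hki
      · by_cases hki : k = i
        · rw [hki, h4]
        · rw [(hi5 k hki).2.1, (hj5 k hki).2.1, hk k hki]
    · right
      have h3 : D.ci (D.w p) i = D.ci (D.w (q + 1)) i := by omega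
      have h4 : D.ci (D.w (p + 1)) i = D.ci (D.w q) i := by omega
      refine ⟨funext fun k => ?_, funext fun k => ?_⟩
      · by_cases hki : k = i
        · rw [hki, h3]
        · rw [(hj5 k hki).2.1, hk k hki]
      · by_cases hki : k = i
        · rw [hki, h4]
        · rw [(hi5 k hki).2.1, hk k hki]
    · right
      have h3 : D.ci (D.w p) i = D.ci (D.w (q + 1)) i := by omega
      have h4 : D.ci (D.w (p + 1)) i = D.ci (D.w q) i := by omega
      refine ⟨funext fun k => ?_, funext fun k => ?_⟩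
      · by_cases hki : k = i
        · rw [hki, h3]
        · rw [(hj5 k hki).2.1, hk k hki]
      · by_cases hki : k = i
        · rw [hki, h4]
        · rw [(hi5 k hki).2.1, hk k hki]
    · left
      have h3 : D.ci (D.w p) i = D.ci (D.w q) i := by omega
      have h4 : D.ci (D.w (p + 1)) i = D.ci (D.w (q + 1)) i := by omega
      refine ⟨funext fun k => ?_, funext fun k => ?_⟩
      · by_cases hki : k = i
        · rw [hki, h3]
        · exact hk k hki
      · by_cases hki : k = i
        · rw [hki, h4]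
        · rw [(hi5 k hki).2.1, (hj5 k hki).2.1, hk k hki]

end Pool.Agent.H981R3.IS
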