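import Pool.Agent.H981R3.IS.JOIN

/-!
# BL: reducing the tips in one block to at most two
-/

set_option autoImplicit false

namespace Pool.Agent.H981R3.IS

open Finset

variable {d : ℕ}

/-- the effect of one join on tips, steps, vertices and lengths -/
lemma bl_eff {α : Vx d} {h : ℕ} {F : Finset (List (Vx d))} {L1 L3 N : List (Vx d)}
    {z1 w1 z2 w2 : Vx d} (hF : Sys α h F) (hL1 : L1 ∈ F) (hL3 : L3 ∈ F) (h31 : L3 ≠ L1)
    (n1 : z1 ≠ w1) (n3 : z2 ≠ w2) (t1 : ∀ z, tipz L1 z ↔ z = z1 ∨ z = w1)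
    (t3 : ∀ z, tipz L3 z ↔ z = z2 ∨ z = w2) (tN : ∀ z, tipz N z ↔ z = w1 ∨ z = w2) (hNF : N ∉ F)
    (hst : ∀ u ∈ cel α h, ∀ v, St N u v ↔ St L1 u v ∨ St L3 u v)
    (hsub : ∀ u, u ∈ L1 ∨ u ∈ L3 → u ∈ N) :
    (∀ z, Tp (insert N ((F.erase L1).erase L3)) z ↔ Tp F z ∧ z ≠ z1 ∧ z ≠ z2) ∧
    tot (insert N ((F.erase L1).erase L3)) + L1.length + L3.length = tot F + N.length ∧
    (∀ x ∈ cel α h, ∀ y, (∃ L ∈ insert N ((F.erase L1).erase L3), St L x y) ↔
      ∃ L ∈ F, St L x y) ∧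
    (∀ L ∈ F, ∀ x ∈ L, ∃ L' ∈ insert N ((F.erase L1).erase L3), x ∈ L') ∧
    (insert N ((F.erase L1).erase L3)).card + 1 = F.card ∧ z1 ≠ z2 ∧ Tp F z1 ∧ Tp F z2 := by
  have memF' : ∀ L, L ∈ insert N ((F.erase L1).erase L3) ↔
      L = N ∨ (L ≠ L3 ∧ L ≠ L1 ∧ L ∈ F) := by
    intro L
    rw [Finset.mem_insert, Finset.mem_erase, Finset.mem_erase]
  have d13 : ∀ u, u ∈ L1 → u ∈ L3 → False := fun u h1 h3 => hF.dis L3 hL3 L1 hL1 h31 h3 h1
  have hz1 : tipz L1 z1 := (t1 z1).2 (Or.inl rfl)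
  have hw1 : tipz L1 w1 := (t1 w1).2 (Or.inr rfl)
  have hz2 : tipz L3 z2 := (t3 z2).2 (Or.inl rfl)
  have hw2 : tipz L3 w2 := (t3 w2).2 (Or.inr rfl)
  have hNr : N ∉ (F.erase L1).erase L3 := fun hm =>
    hNF (Finset.mem_of_mem_erase (Finset.mem_of_mem_erase hm))
  have hL3r : L3 ∈ F.erase L1 := Finset.mem_erase.2 ⟨h31, hL3⟩
  refine ⟨fun z => ⟨?_, ?_⟩, ?_, ?_, ?_, ?_, ?_, ⟨L1, hL1, hz1⟩, ⟨L3, hL3, hz2⟩⟩
  · rintro ⟨L, hL, hzL⟩
    rcases (memF' L).1 hL with rfl | ⟨h3, h1, hLF⟩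
    · rcases (tN z).1 hzL with rfl | rfl
      · refine ⟨⟨L1, hL1, hw1⟩, n1.symm, ?_⟩
        rintro rfl
        exact d13 _ (join_tip_mem hw1) (join_tip_mem hz2)
      · refine ⟨⟨L3, hL3, hw2⟩, ?_, n3.symm⟩
        rintro rfl
        exact d13 _ (join_tip_mem hz1) (join_tip_mem hw2)
    · refine ⟨⟨L, hLF, hzL⟩, ?_, ?_⟩
      · rintro rfl
        exact hF.dis L hLF L1 hL1 h1 (join_tip_mem hzL) (join_tip_mem hz1)
      · rintro rfl
        exact hF.dis L hLF L3 hL3 h3 (join_tip_mem hzL) (join_tip_mem hz2)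
  · rintro ⟨⟨L, hLF, hzL⟩, hne1, hne2⟩
    by_cases h1 : L = L1
    · subst h1
      rcases (t1 z).1 hzL with e | e
      · exact absurd e hne1
      · exact ⟨N, (memF' N).2 (Or.inl rfl), (tN z).2 (Or.inl e)⟩
    · by_cases h3 : L = L3
      · subst h3
        rcases (t3 z).1 hzL with e | e
        · exact absurd e hne2
        · exact ⟨N, (memF' N).2 (Or.inl rfl), (tN z).2 (Or.inr e)⟩
      · exact ⟨L, (memF' L).2 (Or.inr ⟨h3, h1, hLF⟩), hzL⟩
  · unfold tot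
    rw [Finset.sum_insert hNr]
    have e1 := Finset.add_sum_erase F List.length hL1
    have e3 := Finset.add_sum_erase (F.erase L1) List.length hL3r
    omega
  · intro x hx y
    constructor
    · rintro ⟨L, hL, hs⟩
      rcases (memF' L).1 hL with rfl | ⟨-, -, hLF⟩
      · rcases (hst x hx y).1 hs with h | h
        · exact ⟨L1, hL1, h⟩
        · exact ⟨L3, hL3, h⟩
      · exact ⟨L, hLF, hs⟩
    · rintro ⟨L, hLF, hs⟩
      by_cases h1 : L = L1
      · subst h1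
        exact ⟨N, (memF' N).2 (Or.inl rfl), (hst x hx y).2 (Or.inl hs)⟩
      · by_cases h3 : L = L3
        · subst h3
          exact ⟨N, (memF' N).2 (Or.inl rfl), (hst x hx y).2 (Or.inr hs)⟩
        · exact ⟨L, (memF' L).2 (Or.inr ⟨h3, h1, hLF⟩), hs⟩
  · intro L hLF x hx
    by_cases h1 : L = L1
    · subst h1
      exact ⟨N, (memF' N).2 (Or.inl rfl), hsub x (Or.inl hx)⟩
    · by_cases h3 : L = L3
      · subst h3
        exact ⟨N, (memF' N).2 (Or.inl rfl), hsub x (Or.inr hx)⟩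
      · exact ⟨L, (memF' L).2 (Or.inr ⟨h3, h1, hLF⟩), hx⟩
  · rw [Finset.card_insert_of_notMem hNr]
    have e1 := Finset.card_erase_add_one hL1
    have e3 := Finset.card_erase_add_one hL3r
    omega
  · rintro rfl
    exact d13 _ (join_tip_mem hz1) (join_tip_mem hz2)

lemma bl_chain_map {β : Type} {R : β → β → Prop} {f : β → β} {P : β → Prop}
    (hf : ∀ x y, P x → P y → R x y → R (f x) (f y)) : ∀ C : List β, C.IsChain R →
    (∀ c ∈ C, P c) → (C.map f).IsChain R := by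
  intro C
  induction C with
  | nil => intro _ _; simp
  | cons a C ih =>
    intro hC hP
    cases C with
    | nil => simp
    | cons b C =>
      rw [List.isChain_cons_cons] at hC
      rw [List.map_cons, List.map_cons, List.isChain_cons_cons]
      refine ⟨hf a b (hP a (by simp)) (hP b (by simp)) hC.1, ?_⟩
      have := ih hC.2 (fun c hc => hP c (List.mem_cons_of_mem _ hc))
      rwa [List.map_cons] at this

/-- a list of the system has exactly two tips -/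
lemma bl_two {α : Vx d} {h : ℕ} {F : Finset (List (Vx d))} (hF : Sys α h F) {L : List (Vx d)}
    (hL : L ∈ F) {z : Vx d} (hz : tipz L z) : ∃ w, z ≠ w ∧ ∀ v, tipz L v ↔ v = z ∨ v = w := by
  obtain ⟨w, -, -, -, -, hne, ht⟩ := join_orient (hF.isp L hL).2 (hF.two L hL) hz
  exact ⟨w, hne, ht⟩

/-- one step of the reduction -/
lemma bl_step (h_GEO : St_GEO d) (h_JOIN : St_JOIN d) (α : Vx d) (h : ℕ) (i : Fin d) (σ : Bool)
    (B I : Set (Vx d)) (F : Finset (List (Vx d))) (H D : ℕ) (hh : 1 ≤ h) (hH : 1 ≤ H)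
    (hB : B ⊆ col α h i σ 1) (hBI : B ⊆ I) (hF : Sys α h F)
    (hht : ∀ L ∈ F, ∀ x ∈ L, foot α h x ∈ B → ht α h x ≤ H)
    (hC : ∀ z ∈ B, ∀ w ∈ B, ∃ C : List (Vx d), C.IsChain adj ∧ C.head? = some z ∧
      C.getLast? = some w ∧ (∀ c ∈ C, c ∈ B) ∧ C.length ≤ D) (hn : 3 ≤ nt F B) :
    ∃ F1 : Finset (List (Vx d)), Sys α h F1 ∧ Ext α h B (H + 1) F F1 ∧ nt F1 B + 2 = nt F B ∧
      tot F1 ≤ tot F + 2 * H + D ∧ (Thr F I → Thr F1 I) := by
  obtain ⟨-, -, g3, -, -, g6, -, -⟩ := h_GEO α h hh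
  have tip : ∀ z, Tp F z → foot α h z = z ∧ (∀ t, ht α h (ray α h z t) = t + 1) ∧
      (∀ t, foot α h (ray α h z t) = z) ∧ (∀ t, adj (ray α h z t) (ray α h z (t + 1))) ∧
      ray α h z 0 = z := by
    intro z hz
    obtain ⟨i, σ, hc⟩ := hF.tips z hz
    exact g3 i σ z hc
  have hfinT : {z | Tp F z ∧ z ∈ B}.Finite := Set.finite_of_ncard_pos (by
    have : 3 ≤ Set.ncard {z | Tp F z ∧ z ∈ B} := hn
    omega)
  have three : ∀ a b : Vx d, ∃ z, Tp F z ∧ z ∈ B ∧ z ≠ a ∧ z ≠ b := by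
    intro a b
    have h2 : ({a, b} : Set (Vx d)).ncard < Set.ncard {z | Tp F z ∧ z ∈ B} := by
      have h1 : ({a, b} : Set (Vx d)).ncard ≤ 2 := Set.ncard_insert_le a {b} |>.trans (by simp)
      have : 3 ≤ Set.ncard {z | Tp F z ∧ z ∈ B} := hn
      omega
    obtain ⟨z, hz, hz'⟩ := Set.exists_mem_notMem_of_ncard_lt_ncard h2
    refine ⟨z, hz.1, hz.2, ?_, ?_⟩
    · rintro rfl; exact hz' (by simp)
    · rintro rfl; exact hz' (by simp)
  -- the hairpins
  let Hp : List (Vx d) → Prop := fun L => ∀ z, tipz L z → z ∈ I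
  obtain ⟨L1, x, hL1, hx, hxB, hchoice⟩ : ∃ (L1 : List (Vx d)) (x : Vx d), L1 ∈ F ∧ tipz L1 x ∧
      x ∈ B ∧ ((∃ L ∈ F, (∃ z, tipz L z ∧ z ∈ B) ∧ Hp L) → Hp L1) := by
    by_cases hp : ∃ L ∈ F, (∃ z, tipz L z ∧ z ∈ B) ∧ Hp L
    · obtain ⟨L, hL, ⟨z, hz, hzB⟩, hpL⟩ := hp
      exact ⟨L, z, hL, hz, hzB, fun _ => hpL⟩
    · obtain ⟨z, ⟨L, hL, hz⟩, hzB, -, -⟩ := three 0 0
      exact ⟨L, z, hL, hz, hzB, fun h => absurd h hp⟩
  obtain ⟨x', hxx', htL1⟩ := bl_two hF hL1 hx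
  obtain ⟨y, ⟨L2, hL2, hy⟩, hyB, hyx, hyx'⟩ := three x x'
  have hL12 : L1 ≠ L2 := by
    rintro rfl
    rcases (htL1 y).1 hy with e | e
    · exact hyx e
    · exact hyx' e
  obtain ⟨C, cC, hCh, hCl, hCB, hClen⟩ := hC x hxB y hyB
  set S : Set (Vx d) := {s | foot α h s ∈ B ∧ ht α h s = H + 1} with hS
  have hgB : ∀ c ∈ B, ∀ s, foot α h (ray α h c s) = c ∧ ht α h (ray α h c s) = s + 1 := by
    intro c hc s
    obtain ⟨-, h2, h3, -, -⟩ := g3 i σ c (hB hc)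
    exact ⟨h3 s, h2 s⟩
  have hraySB : ∀ c ∈ B, ray α h c H ∈ S := by
    intro c hc
    obtain ⟨e1, e2⟩ := hgB c hc H
    exact ⟨by rw [e1]; exact hc, e2⟩
  have hjoin := h_JOIN α h F (H + 1) S L1 L2 (C.map (fun c => ray α h c H)) x y hh hF (by omega)
    (fun s hs => hs.2) (fun s hs L hL hsL => by
      have h1 := hht L hL s hsL hs.1
      have h2 := hs.2
      omega) hL1 hL2 hL12 hx hy (by rw [Nat.add_sub_cancel]; exact hraySB x hxB)
    (by rw [Nat.add_sub_cancel]; exact hraySB y hyB)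
    (bl_chain_map (P := fun c => c ∈ B)
      (fun u v hu hv huv => g6 i σ u v H (hB hu) (hB hv) huv) C cC hCB)
    (by rw [Nat.add_sub_cancel, List.head?_map, hCh]; rfl)
    (by rw [Nat.add_sub_cancel, List.getLast?_map, hCl]; rfl)
    (by
      intro c hc
      obtain ⟨c', hc', rfl⟩ := List.mem_map.1 hc
      exact hraySB c' (hCB c' hc'))
  obtain ⟨L3, hL3, h31, z1, w1, z2, w2, N, n1, n3, t1, t3, hz1S, hz2S, tN, hNF, hsys, hst, hsub,
    hmem, hlen⟩ := hjoin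
  rw [Nat.add_sub_cancel] at hz1S hz2S hmem hlen
  obtain ⟨eT, etot, est, esub, ecard, hz12, T1, T2⟩ :=
    bl_eff hF hL1 hL3 h31 n1 n3 t1 t3 tN hNF hst hsub
  have hz1B : z1 ∈ B := by
    have := hz1S.1
    rwa [(tip z1 T1).2.2.1 H] at this
  have hz2B : z2 ∈ B := by
    have := hz2S.1
    rwa [(tip z2 T2).2.2.1 H] at this
  set F1 := insert N ((F.erase L1).erase L3) with hF1
  have memF' : ∀ L, L ∈ F1 ↔ L = N ∨ (L ≠ L3 ∧ L ≠ L1 ∧ L ∈ F) := by
    intro L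
    rw [hF1, Finset.mem_insert, Finset.mem_erase, Finset.mem_erase]
  refine ⟨F1, hsys, ⟨est, esub, ?_, fun z hz => ((eT z).1 hz).1, ?_⟩, ?_, ?_, ?_⟩
  · intro L' hL' x hx
    rcases (memF' L').1 hL' with rfl | ⟨-, -, hLF⟩
    · rcases hmem x hx with h1 | h1 | h1 | ⟨s, s1, s2, h1⟩
      · exact Or.inl ⟨L1, hL1, h1⟩
      · exact Or.inl ⟨L3, hL3, h1⟩
      · right
        exact ⟨h1.1, by rw [h1.2]; omega, by rw [h1.2]⟩
      · right
        rcases h1 with rfl | rfl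
        · obtain ⟨e1, e2⟩ := hgB z1 hz1B s
          exact ⟨by rw [e1]; exact hz1B, by rw [e2]; omega, by rw [e2]; omega⟩
        · obtain ⟨e1, e2⟩ := hgB z2 hz2B s
          exact ⟨by rw [e1]; exact hz2B, by rw [e2]; omega, by rw [e2]; omega⟩
    · exact Or.inl ⟨L', hLF, hx⟩
  · intro z hz hzB
    refine (eT z).2 ⟨hz, ?_, ?_⟩
    · rintro rfl; exact hzB hz1B
    · rintro rfl; exact hzB hz2B
  · -- number of tips
    have e1 : {z | Tp F z ∧ z ∈ B} = insert z1 (insert z2 {z | Tp F1 z ∧ z ∈ B}) := by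
      ext z
      simp only [Set.mem_setOf_eq, Set.mem_insert_iff, eT z]
      constructor
      · rintro ⟨h1, h2⟩
        by_cases h3 : z = z1
        · exact Or.inl h3
        · by_cases h4 : z = z2
          · exact Or.inr (Or.inl h4)
          · exact Or.inr (Or.inr ⟨⟨h1, h3, h4⟩, h2⟩)
      · rintro (rfl | rfl | ⟨⟨h1, -, -⟩, h2⟩)
        · exact ⟨T1, hz1B⟩
        · exact ⟨T2, hz2B⟩
        · exact ⟨h1, h2⟩
    have hfin1 : {z | Tp F1 z ∧ z ∈ B}.Finite := by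
      refine hfinT.subset ?_
      rintro z ⟨h1, h2⟩
      exact ⟨((eT z).1 h1).1, h2⟩
    have e2 : Set.ncard {z | Tp F z ∧ z ∈ B} = Set.ncard {z | Tp F1 z ∧ z ∈ B} + 2 := by
      rw [e1, Set.ncard_insert_of_notMem _ (hfin1.insert z2),
        Set.ncard_insert_of_notMem _ hfin1]
      · rintro ⟨h1, -⟩
        exact ((eT z2).1 h1).2.2 rfl
      · rintro (h1 | ⟨h1, -⟩)
        · exact hz12 h1
        · exact ((eT z1).1 h1).2.1 rfl
    exact e2.symm
  · rw [List.length_map] at hlen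
    omega
  · -- through lists
    rintro ⟨L0, hL0, z0, w0, hz0, hw0, hz0I, hw0I⟩
    by_cases hp : ∃ L ∈ F, (∃ z, tipz L z ∧ z ∈ B) ∧ Hp L
    · have hpL1 := hchoice hp
      have hw1I : w1 ∈ I := hpL1 w1 ((t1 w1).2 (Or.inr rfl))
      by_cases hw2I : w2 ∈ I
      · refine ⟨L0, (memF' L0).2 (Or.inr ⟨?_, ?_, hL0⟩), z0, w0, hz0, hw0, hz0I, hw0I⟩
        · rintro rfl
          rcases (t3 w0).1 hw0 with rfl | rfl
          · exact hw0I (hBI hz2B)
          · exact hw0I hw2I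
        · rintro rfl
          exact hw0I (hpL1 w0 hw0)
      · exact ⟨N, (memF' N).2 (Or.inl rfl), w1, w2, (tN w1).2 (Or.inl rfl),
          (tN w2).2 (Or.inr rfl), hw1I, hw2I⟩
    · -- every list with a tip in B is not a hairpin
      have hnp : ∀ L ∈ F, ∀ z, tipz L z → z ∈ B → ¬ Hp L := by
        intro L hL z hz hzB hpL
        exact hp ⟨L, hL, ⟨z, hz, hzB⟩, hpL⟩
      obtain ⟨z, ⟨L, hL, hz⟩, hzB, hzz1, hzz2⟩ := three z1 z2
      have hLL1 : L ≠ L1 := by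
        rintro rfl
        refine hnp L hL z hz hzB ?_
        rcases (t1 z).1 hz with e | e
        · exact absurd e hzz1
        · intro v hv
          rcases (t1 v).1 hv with rfl | rfl
          · exact hBI hz1B
          · rw [← e]; exact hBI hzB
      have hLL3 : L ≠ L3 := by
        rintro rfl
        refine hnp L hL z hz hzB ?_
        rcases (t3 z).1 hz with e | e
        · exact absurd e hzz2
        · intro v hv
          rcases (t3 v).1 hv with rfl | rfl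
          · exact hBI hz2B
          · rw [← e]; exact hBI hzB
      have hnot := hnp L hL z hz hzB
      have : ∃ v, tipz L v ∧ v ∉ I := by
        by_contra hcon
        push Not at hcon
        exact hnot hcon
      obtain ⟨v, hv, hvI⟩ := this
      exact ⟨L, (memF' L).2 (Or.inr ⟨hLL3, hLL1, hL⟩), z, v, hz, hv, hBI hzB, hvI⟩

/-- composition of extensions over the same set -/
lemma bl_ext_trans {α : Vx d} {h : ℕ} {B : Set (Vx d)} {H1 H2 H3 : ℕ}
    {F1 F2 F3 : Finset (List (Vx d))} (e12 : Ext α h B H1 F1 F2) (e23 : Ext α h B H2 F2 F3)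
    (h1 : H1 ≤ H3) (h2 : H2 ≤ H3) : Ext α h B H3 F1 F3 := by
  refine ⟨fun x hx y => (e23.stp x hx y).trans (e12.stp x hx y), ?_, ?_, fun z hz =>
    e12.tip z (e23.tip z hz), fun z hz hzB => e23.out z (e12.out z hz hzB) hzB⟩
  · intro L hL x hx
    obtain ⟨L', hL', hx'⟩ := e12.sub L hL x hx
    exact e23.sub L' hL' x hx'
  · intro L' hL' x hx
    rcases e23.new L' hL' x hx with ⟨L, hL, hxL⟩ | ⟨h3, h4, h5⟩
    · rcases e12.new L hL x hxL with h3 | ⟨h3, h4, h5⟩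
      · exact Or.inl h3
      · exact Or.inr ⟨h3, h4, h5.trans h1⟩
    · exact Or.inr ⟨h3, h4, h5.trans h2⟩

lemma bl_ext_refl (α : Vx d) (h : ℕ) (B : Set (Vx d)) (H : ℕ) (F : Finset (List (Vx d))) :
    Ext α h B H F F :=
  ⟨fun _ _ _ => Iff.rfl, fun L hL x hx => ⟨L, hL, hx⟩, fun L hL x hx => Or.inl ⟨L, hL, hx⟩,
    fun _ hz => hz, fun _ hz _ => hz⟩

theorem p_BL (d : ℕ) (h_GEO : St_GEO d) (h_JOIN : St_JOIN d) : St_BL d := by
  intro α h i σ B I F H D hh hH hB hBI hF hht hC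
  induction hk : nt F B using Nat.strong_induction_on generalizing F H with
  | _ k ih =>
    by_cases hn : 3 ≤ k
    · subst hk
      obtain ⟨F1, hs1, e1, hn1, ht1, hthr1⟩ := bl_step h_GEO h_JOIN α h i σ B I F H D hh hH hB hBI
        hF hht hC hn
      have hht1 : ∀ L ∈ F1, ∀ x ∈ L, foot α h x ∈ B → ht α h x ≤ H + 1 := by
        intro L hL x hx hxB
        rcases e1.new L hL x hx with ⟨L', hL', hx'⟩ | ⟨-, -, h3⟩
        · exact (hht L' hL' x hx' hxB).trans (Nat.le_succ H)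
        · exact h3
      obtain ⟨F', hs', e', h2', hpos', hc', hthr'⟩ := ih (nt F1 B) (by omega) F1 (H + 1)
        (by omega) hs1 hht1 rfl
      refine ⟨F', hs', bl_ext_trans e1 e' (by omega) (by omega), h2', fun _ => hpos' (by omega),
        ?_, fun h => hthr' (hthr1 h)⟩
      obtain ⟨m, hm⟩ : ∃ m, nt F1 B = m + 1 := ⟨nt F1 B - 1, by omega⟩
      rw [hm] at hc'
      have hk3 : nt F B = m + 3 := by omega
      rw [hk3]
      nlinarith
    · refine ⟨F, hF, bl_ext_refl _ _ _ _ _, by omega, fun h => by omega, by rw [hk], fun h => h⟩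

end Pool.Agent.H981R3.IS
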