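import Pool.Agent.H981R3.IS.Stubs

/-! Task BND (helper417): bonds of a walk. -/

set_option autoImplicit false

namespace Pool.Agent.H981R3.IS

open Finset

/-- the bonds of a set -/
def bnd_bonds {d : ℕ} (S : Finset (Vx d)) : Finset (Vx d × Fin d) :=
  (S ×ˢ (univ : Finset (Fin d))).filter (fun p => p.1 + ev p.2 ∈ S)

theorem bnd_cube {d : ℕ} (α : Vx d) (h : ℕ) (S : Finset (Vx d)) (hS : ∀ x ∈ S, x ∈ cel α h) :
    S.card ≤ h ^ d := by
  have h1 : S ⊆ Fintype.piFinset (fun k => Ico (α k) (α k + h)) := by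
    intro x hx
    rw [Fintype.mem_piFinset]
    intro k
    rw [mem_Ico]
    exact hS x hx k
  have h2 := card_le_card h1
  rw [Fintype.card_piFinset] at h2
  simpa using h2

open scoped Classical in
theorem p_BND (d : ℕ) (h_ACM : St_ACM d) (h_CLS : St_CLS d) (h_ARI : St_ARI d) : St_BND d := by
  intro _ D hρ hg hS O hO
  obtain ⟨M1, -, M3, -, M5, -⟩ := h_ACM
  obtain ⟨A1, -⟩ := h_ARI D hρ hg hS
  obtain ⟨C1, C2, -, -, C5, -, C7, -⟩ := h_CLS D hS
  -- all bonds
  have hsub : bnd_bonds D.vs ⊆ ((D.vs ×ˢ (univ : Finset (Fin d))).filter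
      (fun p => p.1 + ev p.2 ∈ D.vs ∧ D.ci p.1 ≠ D.ci (p.1 + ev p.2))) ∪
      D.uns.biUnion (fun u => bnd_bonds (u.image D.w)) := by
    intro p hp
    unfold bnd_bonds at hp
    rw [mem_filter, mem_product] at hp
    obtain ⟨⟨hp1, _⟩, hp2⟩ := hp
    rw [mem_union]
    by_cases hc : D.ci p.1 = D.ci (p.1 + ev p.2)
    · right
      have hp1' := hp1
      have hp2' := hp2
      unfold Dt.vs at hp1' hp2'
      rw [mem_image] at hp1' hp2'
      obtain ⟨s, hs, hsw⟩ := hp1'
      obtain ⟨t, ht, htw⟩ := hp2'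
      rw [mem_range] at hs ht
      have hs' : s ≤ D.n := by omega
      have ht' : t ≤ D.n := by omega
      have hadj : adj (D.w s) (D.w t) := by
        rw [M5, hsw, htw]
        exact ⟨p.2, Or.inl rfl⟩
      have huc : D.uc s = D.uc t := C7 s t hs' ht' (by rw [hsw, htw, hc]) hadj
      rw [mem_biUnion]
      refine ⟨D.uc s, ?_, ?_⟩
      · unfold Dt.uns
        exact mem_image_of_mem _ (mem_range.2 hs)
      · unfold bnd_bonds
        rw [mem_filter, mem_product]
        refine ⟨⟨?_, mem_univ _⟩, ?_⟩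
        · rw [← hsw]
          exact mem_image_of_mem _ (C1 s hs').1
        · rw [← htw, huc]
          exact mem_image_of_mem _ (C1 t ht').1
    · left
      rw [mem_filter, mem_product]
      exact ⟨⟨hp1, mem_univ _⟩, hp2, hc⟩
  have hcard : Ac D.vs ≤ D.crb + ∑ u ∈ D.uns, Ac (u.image D.w) :=
    calc Ac D.vs = (bnd_bonds D.vs).card := rfl
      _ ≤ _ := card_le_card hsub
      _ ≤ _ := card_union_le _ _
      _ ≤ D.crb + ∑ u ∈ D.uns, Ac (u.image D.w) :=
          Nat.add_le_add le_rfl card_biUnion_le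
  -- special units
  have hspc : ∑ u ∈ D.uns.filter (fun u => D.spc u), Ac (u.image D.w) ≤ 2 * d * D.h ^ d := by
    have h1 : ∀ u ∈ D.uns.filter (fun u => D.spc u), Ac (u.image D.w) ≤ d * D.h ^ d := by
      intro u hu
      rw [mem_filter] at hu
      obtain ⟨hne, hcl⟩ := C5 u hu.1
      obtain ⟨t, ht⟩ := hne
      refine (M3 _).trans (Nat.mul_le_mul_left _ ?_)
      apply bnd_cube (D.og (D.w t))
      intro x hx
      rw [mem_image] at hx
      obtain ⟨s, hs, rfl⟩ := hx
      rw [A1]
      have : s ∈ D.uc t := by rw [(hcl t ht).2]; exact hs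
      exact (C2 s t this).2.2.1
    have h2 : (D.uns.filter (fun u => D.spc u)).card ≤ 2 := by
      have h3 : D.uns.filter (fun u => D.spc u) ⊆ {D.uc 0, D.uc D.n} := by
        intro u hu
        rw [mem_filter] at hu
        obtain ⟨hne, hcl⟩ := C5 u hu.1
        rw [mem_insert, mem_singleton]
        rcases hu.2 with h | h
        · left; exact (hcl 0 h).2.symm
        · right; exact (hcl D.n h).2.symm
      exact (card_le_card h3).trans card_le_two
    calc _ ≤ ∑ u ∈ D.uns.filter (fun u => D.spc u), d * D.h ^ d := sum_le_sum h1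
      _ = (D.uns.filter (fun u => D.spc u)).card * (d * D.h ^ d) := by
          rw [sum_const, smul_eq_mul]
      _ ≤ 2 * (d * D.h ^ d) := Nat.mul_le_mul_right _ h2
      _ = 2 * d * D.h ^ d := by ring
  -- other units
  have hoth : ∑ u ∈ D.uns.filter (fun u => ¬ D.spc u), Ac (u.image D.w) ≤
      ∑ u ∈ D.uns.filter (fun u => ¬ D.spc u), Ac (O u).toFinset := by
    apply sum_le_sum
    intro u hu
    rw [mem_filter] at hu
    apply M1
    intro x hx
    rw [mem_image] at hx
    obtain ⟨s, hs, rfl⟩ := hx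
    rw [List.mem_toFinset]
    exact (hO u hu.1 hu.2).2.2 s hs
  have hsplit := sum_filter_add_sum_filter_not D.uns (fun u => D.spc u)
    (fun u => Ac (u.image D.w))
  omega

end Pool.Agent.H981R3.IS
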