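import Pool.Agent.H981R3.IS.Stubs

/-! Interacting self-avoiding walks, task BX (helper431): reducing the tips in a box of a face. -/

set_option autoImplicit false

namespace Pool.Agent.H981R3.IS

open Finset

variable {d : ℕ}

theorem bx_fin (F : Finset (List (Vx d))) : {z | Tp F z}.Finite := by
  classical
  refine Set.Finite.subset (F.biUnion (fun L => L.toFinset)).finite_toSet ?_
  rintro z ⟨L, hL, h | h⟩
  · rw [Finset.mem_coe, mem_biUnion]
    exact ⟨L, hL, List.mem_toFinset.mpr (List.mem_of_head? h)⟩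
  · rw [Finset.mem_coe, mem_biUnion]
    exact ⟨L, hL, List.mem_toFinset.mpr (List.mem_of_getLast? h)⟩

theorem bx_nt_add (F : Finset (List (Vx d))) {B1 B2 : Set (Vx d)} (h : Disjoint B1 B2) :
    nt F (B1 ∪ B2) = nt F B1 + nt F B2 := by
  unfold nt
  have f1 : {z | Tp F z ∧ z ∈ B1}.Finite := (bx_fin F).subset fun z hz => hz.1
  have f2 : {z | Tp F z ∧ z ∈ B2}.Finite := (bx_fin F).subset fun z hz => hz.1
  have hd : Disjoint {z | Tp F z ∧ z ∈ B1} {z | Tp F z ∧ z ∈ B2} := by
    rw [Set.disjoint_left] at h ⊢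
    rintro z ⟨-, hz1⟩ ⟨-, hz2⟩
    exact h hz1 hz2
  rw [← Set.ncard_union_eq hd f1 f2]
  congr 1
  ext z
  simp only [Set.mem_setOf_eq, Set.mem_union]
  tauto

theorem bx_nt_ext {α : Vx d} {h H : ℕ} {B B' : Set (Vx d)} {F F' : Finset (List (Vx d))}
    (hE : Ext α h B H F F') (hd : Disjoint B B') : nt F' B' = nt F B' := by
  unfold nt
  congr 1
  ext z
  simp only [Set.mem_setOf_eq]
  constructor
  · rintro ⟨h1, h2⟩
    exact ⟨hE.tip z h1, h2⟩
  · rintro ⟨h1, h2⟩
    exact ⟨hE.out z h1 (Set.disjoint_right.mp hd h2), h2⟩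

theorem bx_nt_le {α : Vx d} {h H : ℕ} {B B' : Set (Vx d)} {F F' : Finset (List (Vx d))}
    (hE : Ext α h B H F F') : nt F' B' ≤ nt F B' := by
  unfold nt
  refine Set.ncard_le_ncard ?_ ((bx_fin F).subset fun z hz => hz.1)
  rintro z ⟨h1, h2⟩
  exact ⟨hE.tip z h1, h2⟩

theorem bx_ext_refl (α : Vx d) (h H : ℕ) (B : Set (Vx d)) (F : Finset (List (Vx d))) :
    Ext α h B H F F where
  stp := fun _ _ _ => Iff.rfl
  sub := fun L hL _ hx => ⟨L, hL, hx⟩
  new := fun L hL _ hx => Or.inl ⟨L, hL, hx⟩
  tip := fun _ h => h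
  out := fun _ h _ => h

theorem bx_ext_mono {α : Vx d} {h H H' : ℕ} {B B' : Set (Vx d)} {F F' : Finset (List (Vx d))}
    (hE : Ext α h B H F F') (hB : B ⊆ B') (hH : H ≤ H') : Ext α h B' H' F F' where
  stp := hE.stp
  sub := hE.sub
  new := fun L' hL' x hx => by
    rcases hE.new L' hL' x hx with h1 | ⟨h1, h2, h3⟩
    · exact Or.inl h1
    · exact Or.inr ⟨hB h1, h2, h3.trans hH⟩
  tip := hE.tip
  out := fun z hz hzB => hE.out z hz fun h1 => hzB (hB h1)

theorem bx_ext_trans {α : Vx d} {h H : ℕ} {B : Set (Vx d)} {F F' F'' : Finset (List (Vx d))}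
    (hE : Ext α h B H F F') (hE' : Ext α h B H F' F'') : Ext α h B H F F'' where
  stp := fun x hx y => (hE'.stp x hx y).trans (hE.stp x hx y)
  sub := fun L hL x hx => by
    obtain ⟨L', hL', hx'⟩ := hE.sub L hL x hx
    exact hE'.sub L' hL' x hx'
  new := fun L'' hL'' x hx => by
    rcases hE'.new L'' hL'' x hx with ⟨L', hL', hx'⟩ | h1
    · exact hE.new L' hL' x hx'
    · exact Or.inr h1
  tip := fun z hz => hE.tip z (hE'.tip z hz)
  out := fun z hz hzB => hE'.out z (hE.out z hz hzB) hzB

/-- sub-block: the coordinates outside of `T` are those of `q` -/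
def bx_sb (α : Vx d) (h : ℕ) (i : Fin d) (σ : Bool) (lo hi : Vx d) (T : Finset (Fin d))
    (q : Vx d) : Set (Vx d) :=
  {z | z ∈ blk α h i σ lo hi ∧ ∀ k, k ≠ i → k ∉ T → z k = q k}

theorem bx_main (h_BL : St_BL d) (h_CHN : St_CHN d) (α : Vx d) (h s H : ℕ) (i : Fin d) (σ : Bool)
    (lo hi : Vx d) (I : Set (Vx d)) (hh : 1 ≤ h) (hs : 1 ≤ s) (hH : 1 ≤ H)
    (hlh : ∀ k, k ≠ i → α k ≤ lo k ∧ hi k < α k + h ∧ hi k < lo k + s)
    (hI : blk α h i σ lo hi ⊆ I) (T : Finset (Fin d)) : i ∉ T → ∀ (q : Vx d)
    (F : Finset (List (Vx d))), Sys α h F →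
    (∀ L ∈ F, ∀ x ∈ L, foot α h x ∈ bx_sb α h i σ lo hi T q → ht α h x ≤ H) →
    ∃ F' : Finset (List (Vx d)), Sys α h F' ∧
      Ext α h (bx_sb α h i σ lo hi T q) (H + 2 * s * T.card) F F' ∧
      nt F' (bx_sb α h i σ lo hi T q) ≤ 2 ∧
      (1 ≤ nt F (bx_sb α h i σ lo hi T q) → 1 ≤ nt F' (bx_sb α h i σ lo hi T q)) ∧
      tot F' + (H + 4 * d * s) * nt F' (bx_sb α h i σ lo hi T q) ≤
        tot F + (H + 4 * d * s) * nt F (bx_sb α h i σ lo hi T q) ∧
      (Thr F I → Thr F' I) := by
  classical
  have hd : 1 ≤ d := i.pos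
  induction T using Finset.induction_on with
  | empty =>
    intro _ q F hF hht
    refine ⟨F, hF, bx_ext_refl _ _ _ _ _, ?_, fun h => h, le_rfl, fun h => h⟩
    have hsub : {z | Tp F z ∧ z ∈ bx_sb α h i σ lo hi ∅ q} ⊆
        {fun k => if k = i then (if σ then α i + h - 1 + (1 : ℕ) else α i - (1 : ℕ)) else q k} := by
      rintro z ⟨-, hz1, hz2⟩
      rw [Set.mem_singleton_iff]
      funext k
      split_ifs with h1 h2
      · subst h1
        have := hz1.1.1
        rw [if_pos h2] at this
        exact this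
      · subst h1
        have := hz1.1.1
        rw [if_neg h2] at this
        exact this
      · exact hz2 k h1 (notMem_empty k)
    have := Set.ncard_le_ncard hsub (Set.finite_singleton _)
    rw [Set.ncard_singleton] at this
    unfold nt
    omega
  | insert k0 T hk0 ih =>
    intro hi0 q F hF hht
    have hk0i : k0 ≠ i := by
      rintro rfl
      exact hi0 (mem_insert_self _ _)
    have hiT : i ∉ T := fun h => hi0 (mem_insert_of_mem h)
    have ih := ih hiT
    set W : Set (Vx d) := bx_sb α h i σ lo hi (insert k0 T) q with hW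
    let U : ℕ → Set (Vx d) := fun j => {z | z ∈ W ∧ z k0 < lo k0 + j}
    let V : ℕ → Set (Vx d) := fun j =>
      bx_sb α h i σ lo hi T (Function.update q k0 (lo k0 + j))
    set c := H + 4 * d * s with hc
    have hVW : ∀ j : ℕ, V j ⊆ W := by
      intro j z hz
      refine ⟨hz.1, fun k hki hkT => ?_⟩
      have hkT' : k ∉ T := fun h => hkT (mem_insert_of_mem h)
      have hkk : k ≠ k0 := by
        rintro rfl
        exact hkT (mem_insert_self _ _)
      have := hz.2 k hki hkT'
      rwa [Function.update_of_ne hkk] at this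
    have hVk : ∀ j : ℕ, ∀ z ∈ V j, z k0 = lo k0 + j := by
      intro j z hz
      have := hz.2 k0 hk0i hk0
      rwa [Function.update_self] at this
    have hUW : ∀ j : ℕ, U j ⊆ W := fun j z hz => hz.1
    have hdis : ∀ j : ℕ, Disjoint (U j) (V j) := by
      intro j
      rw [Set.disjoint_left]
      rintro z ⟨-, h1⟩ h2
      rw [hVk j z h2] at h1
      exact lt_irrefl _ h1
    have hUV : ∀ j : ℕ, U (j + 1) = U j ∪ V j := by
      intro j
      ext z
      constructor
      · rintro ⟨h1, h2⟩
        rcases lt_or_ge (z k0) (lo k0 + j) with h3 | h3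
        · exact Or.inl ⟨h1, h3⟩
        · right
          push_cast at h2
          have h4 : z k0 = lo k0 + j := by omega
          refine ⟨h1.1, fun k hki hkT => ?_⟩
          by_cases hkk : k = k0
          · rw [hkk, Function.update_self, h4]
          · rw [Function.update_of_ne hkk]
            refine h1.2 k hki fun h => ?_
            rcases mem_insert.mp h with h | h
            · exact hkk h
            · exact hkT h
      · rintro (⟨h1, h2⟩ | h1)
        · refine ⟨h1, ?_⟩
          push_cast
          omega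
        · refine ⟨hVW j h1, ?_⟩
          rw [hVk j z h1]
          push_cast
          omega
    have hloop : ∀ j : ℕ, ∃ F' : Finset (List (Vx d)), Sys α h F' ∧
        Ext α h (U j) (H + 2 * s * T.card) F F' ∧ nt F' (U j) ≤ 2 * j ∧
        (1 ≤ nt F (U j) → 1 ≤ nt F' (U j)) ∧
        tot F' + c * nt F' (U j) ≤ tot F + c * nt F (U j) ∧ (Thr F I → Thr F' I) := by
      intro j
      induction j with
      | zero =>
        refine ⟨F, hF, bx_ext_refl _ _ _ _ _, ?_, fun h => h, le_rfl, fun h => h⟩
        have h0 : U 0 = ∅ := by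
          ext z
          simp only [Set.mem_empty_iff_false, iff_false]
          rintro ⟨h1, h2⟩
          have := (h1.1.2 k0 hk0i).1
          push_cast at h2
          omega
        rw [h0]
        unfold nt
        simp
      | succ j ihj =>
        obtain ⟨F1, hS1, hE1, hn1, hp1, ht1, hT1⟩ := ihj
        have hht1 : ∀ L ∈ F1, ∀ x ∈ L, foot α h x ∈ V j → ht α h x ≤ H := by
          intro L hL x hx hf
          rcases hE1.new L hL x hx with ⟨L', hL', hx'⟩ | ⟨h1, -⟩
          · exact hht L' hL' x hx' (hVW j hf)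
          · exact absurd hf (Set.disjoint_left.mp (hdis j) h1)
        obtain ⟨F2, hS2, hE2, hn2, hp2, ht2, hT2⟩ :=
          ih (Function.update q k0 (lo k0 + j)) F1 hS1 hht1
        have hE2' : Ext α h (V j) (H + 2 * s * T.card) F1 F2 := hE2
        have hn2' : nt F2 (V j) ≤ 2 := hn2
        have hp2' : 1 ≤ nt F1 (V j) → 1 ≤ nt F2 (V j) := hp2
        have ht2' : tot F2 + c * nt F2 (V j) ≤ tot F1 + c * nt F1 (V j) := ht2
        have e1 : nt F2 (U j) = nt F1 (U j) := bx_nt_ext hE2' (hdis j).symm
        have e2 : nt F1 (V j) = nt F (V j) := bx_nt_ext hE1 (hdis j)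
        have e3 : nt F2 (U (j + 1)) = nt F2 (U j) + nt F2 (V j) := by
          rw [hUV, bx_nt_add F2 (hdis j)]
        have e4 : nt F (U (j + 1)) = nt F (U j) + nt F (V j) := by
          rw [hUV, bx_nt_add F (hdis j)]
        have hsub1 : U j ⊆ U (j + 1) := by
          rw [hUV]
          exact Set.subset_union_left
        have hsub2 : V j ⊆ U (j + 1) := by
          rw [hUV]
          exact Set.subset_union_right
        refine ⟨F2, hS2, bx_ext_trans (bx_ext_mono hE1 hsub1 le_rfl)
          (bx_ext_mono hE2' hsub2 le_rfl), ?_, ?_, ?_, fun h => hT2 (hT1 h)⟩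
        · rw [e3, e1]
          omega
        · intro hh1
          rw [e4] at hh1
          rw [e3, e1]
          by_cases h5 : 1 ≤ nt F (U j)
          · have := hp1 h5
            omega
          · have := hp2' (by omega)
            omega
        · rw [e3, e4, e1]
          rw [e2] at ht2'
          have : c * (nt F1 (U j) + nt F2 (V j)) = c * nt F1 (U j) + c * nt F2 (V j) := by ring
          have : c * (nt F (U j) + nt F (V j)) = c * nt F (U j) + c * nt F (V j) := by ring
          omega
    obtain ⟨F1, hS1, hE1, hn1, hp1, ht1, hT1⟩ := hloop s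
    have hUs : U s = W := by
      ext z
      constructor
      · exact fun h => h.1
      · intro hz
        refine ⟨hz, ?_⟩
        have h1 := (hz.1.2 k0 hk0i).2
        have h2 := (hlh k0 hk0i).2.2
        omega
    rw [hUs] at hE1 hn1 hp1 ht1
    -- chains in the block
    have hch : ∀ z ∈ W, ∀ w ∈ W, ∃ C : List (Vx d), C.IsChain adj ∧ C.head? = some z ∧
        C.getLast? = some w ∧ (∀ c ∈ C, c ∈ W) ∧ C.length ≤ d * s := by
      intro z hz w hw
      obtain ⟨C, h1, h2, h3, h4, h5⟩ := h_CHN z w
      refine ⟨C, h1, h2, h3, fun x hx => ?_, ?_⟩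
      · have h6 := h4 x hx
        have hzi : z i = w i := hz.1.1.1.trans hw.1.1.1.symm
        refine ⟨⟨⟨?_, fun k hk => ?_⟩, fun k hk => ?_⟩, fun k hk hkT => ?_⟩
        · have h7 := h6 i
          rw [← hzi, min_self, max_self] at h7
          have h8 : x i = z i := le_antisymm h7.2 h7.1
          rw [h8]
          exact hz.1.1.1
        · have h7 := h6 k
          have h8 := hz.1.2 k hk
          have h9 := hw.1.2 k hk
          have h10 := hlh k hk
          constructor <;> omega
        · have h7 := h6 k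
          have h8 := hz.1.2 k hk
          have h9 := hw.1.2 k hk
          constructor <;> omega
        · have h7 := h6 k
          have h8 := hz.2 k hk hkT
          have h9 := hw.2 k hk hkT
          rw [h8, h9, min_self, max_self] at h7
          omega
      · have h6 : ∑ k, |z k - w k| ≤ ∑ _k : Fin d, ((s : ℤ) - 1) := by
          refine Finset.sum_le_sum fun k _ => ?_
          by_cases hk : k = i
          · have hzi : z i = w i := hz.1.1.1.trans hw.1.1.1.symm
            rw [hk, hzi, sub_self, abs_zero]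
            omega
          · have h8 := hz.1.2 k hk
            have h9 := hw.1.2 k hk
            have h10 := hlh k hk
            rw [abs_le]
            constructor <;> omega
        rw [Finset.sum_const, Finset.card_univ, Fintype.card_fin, nsmul_eq_mul] at h6
        have h7 : (C.length : ℤ) ≤ d * s := by
          rw [h5]
          have : (1 : ℤ) ≤ d := by exact_mod_cast hd
          nlinarith
        exact_mod_cast h7
    have hWcol : W ⊆ col α h i σ 1 := fun z hz => hz.1.1
    have hWI : W ⊆ I := fun z hz => hI hz.1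
    have hht1 : ∀ L ∈ F1, ∀ x ∈ L, foot α h x ∈ W → ht α h x ≤ H + 2 * s * T.card := by
      intro L hL x hx hf
      rcases hE1.new L hL x hx with ⟨L', hL', hx'⟩ | ⟨-, -, h1⟩
      · have := hht L' hL' x hx' hf
        omega
      · exact h1
    obtain ⟨F2, hS2, hE2, hn2, hp2, ht2, hT2⟩ := h_BL α h i σ W I F1 (H + 2 * s * T.card) (d * s)
      hh (by omega) hWcol hWI hS1 hht1 hch
    have hcardT : T.card + 1 ≤ d := by
      rw [← card_insert_of_notMem hk0]
      have := Finset.card_le_univ (insert k0 T)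
      rwa [Fintype.card_fin] at this
    have hHle : H + 2 * s * T.card + nt F1 W ≤ H + 2 * s * (insert k0 T).card := by
      rw [card_insert_of_notMem hk0]
      have : 2 * s * (T.card + 1) = 2 * s * T.card + 2 * s := by ring
      omega
    refine ⟨F2, hS2, bx_ext_trans (bx_ext_mono hE1 (Set.Subset.refl _) ?_)
      (bx_ext_mono hE2 (Set.Subset.refl _) hHle), hn2, fun h => hp2 (hp1 h), ?_,
      fun h => hT2 (hT1 h)⟩
    · rw [card_insert_of_notMem hk0]
      have : 2 * s * (T.card + 1) = 2 * s * T.card + 2 * s := by ring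
      omega
    · have hle : nt F2 W ≤ nt F1 W := bx_nt_le hE2
      set e := H + 2 * s * T.card + nt F1 W + d * s with he
      have hec : e ≤ c := by
        rw [he, hc]
        have h1 : 2 * s * (T.card + 1) ≤ 2 * s * d := Nat.mul_le_mul_left _ hcardT
        have h2 : 2 * s * (T.card + 1) = 2 * s * T.card + 2 * s := by ring
        have h3 : 2 * s * d = 2 * (d * s) := by ring
        have h4 : 4 * d * s = 4 * (d * s) := by ring
        omega
      have h5 : tot F2 + c * nt F2 W ≤ tot F1 + c * nt F1 W := by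
        obtain ⟨δ, hδ⟩ := Nat.exists_eq_add_of_le hec
        have h6 : δ * nt F2 W ≤ δ * nt F1 W := Nat.mul_le_mul_left _ hle
        have h7 : c * nt F2 W = e * nt F2 W + δ * nt F2 W := by rw [hδ]; ring
        have h8 : c * nt F1 W = e * nt F1 W + δ * nt F1 W := by rw [hδ]; ring
        omega
      omega

theorem p_BX (d : ℕ) (h_BL : St_BL d) (h_CHN : St_CHN d) : St_BX d := by
  classical
  intro α h s H i σ lo hi I F hh hs hH hlh hI hF hht
  have hsb : bx_sb α h i σ lo hi (univ.erase i) 0 = blk α h i σ lo hi := by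
    ext z
    constructor
    · exact fun h => h.1
    · intro hz
      exact ⟨hz, fun k hk hkT => absurd (mem_erase.mpr ⟨hk, mem_univ _⟩) hkT⟩
  obtain ⟨F', h1, h2, h3, h4, h5, h6⟩ := bx_main h_BL h_CHN α h s H i σ lo hi I hh hs hH hlh hI
    (univ.erase i) (notMem_erase _ _) 0 F hF (by rw [hsb]; exact hht)
  rw [hsb] at h2 h3 h4 h5
  refine ⟨F', h1, bx_ext_mono h2 (Set.Subset.refl _) ?_, h3, h4, h5, h6⟩
  have h7 : (univ.erase i).card ≤ d := by
    have := Finset.card_le_univ (univ.erase i)
    rwa [Fintype.card_fin] at this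
  have h8 : 2 * s * (univ.erase i).card ≤ 2 * s * d := Nat.mul_le_mul_left _ h7
  have h9 : 2 * s * d = 2 * d * s := by ring
  omega

end Pool.Agent.H981R3.IS
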