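import Pool.Agent.H981R3.IS.Stubs

/-! Task CHN: monotone lattice paths. -/

set_option autoImplicit false

namespace Pool.Agent.H981R3.IS

open Finset

theorem chn_step {d : ℕ} (u v : Vx d) (k : Fin d) (s : ℤ) (hs : |s| = 1)
    (hk : |u k + s - v k| + 1 = |u k - v k|) :
    adj u (Function.update u k (u k + s)) ∧
    ∑ j, |(Function.update u k (u k + s)) j - v j| + 1 = ∑ j, |u j - v j| := by
  classical
  constructor
  · unfold adj
    rw [← Finset.add_sum_erase _ _ (Finset.mem_univ k)]
    rw [Finset.sum_eq_zero]
    · simp [hs]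
    · intro j hj
      rw [Function.update_of_ne (Finset.ne_of_mem_erase hj)]
      simp
  · rw [← Finset.add_sum_erase univ (fun j => |Function.update u k (u k + s) j - v j|)
        (Finset.mem_univ k),
      ← Finset.add_sum_erase univ (fun j => |u j - v j|) (Finset.mem_univ k)]
    rw [Function.update_self]
    have : ∑ x ∈ univ.erase k, |Function.update u k (u k + s) x - v x| =
        ∑ x ∈ univ.erase k, |u x - v x| := by
      refine Finset.sum_congr rfl fun j hj => ?_
      rw [Function.update_of_ne (Finset.ne_of_mem_erase hj)]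
    rw [this]
    linarith

theorem chn_main {d : ℕ} (n : ℕ) : ∀ u v : Vx d, ∑ k, |u k - v k| = n →
    ∃ C : List (Vx d), C.IsChain adj ∧
  C.head? = some u ∧ C.getLast? = some v ∧
  (∀ x ∈ C, ∀ k, min (u k) (v k) ≤ x k ∧ x k ≤ max (u k) (v k)) ∧
  (C.length : ℤ) = n + 1 := by
  classical
  induction n with
  | zero =>
    intro u v h
    have huv : u = v := by
      funext k
      have h1 := (Finset.sum_eq_zero_iff_of_nonneg (fun i _ => abs_nonneg (u i - v i))).1
        (by simpa using h) k (Finset.mem_univ k)
      have := abs_eq_zero.1 h1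
      omega
    subst huv
    refine ⟨[u], by simp, by simp, by simp, ?_, by simp⟩
    intro x hx k
    rw [List.mem_singleton] at hx
    subst hx
    simp
  | succ n ih =>
    intro u v h
    have hex : ∃ k, u k ≠ v k := by
      by_contra hcon
      push Not at hcon
      have : ∑ k, |u k - v k| = 0 := Finset.sum_eq_zero (fun k _ => by rw [hcon k]; simp)
      rw [this] at h
      push_cast at h
      omega
    obtain ⟨k, hk⟩ := hex
    obtain ⟨s, hs, hk2, hb⟩ : ∃ s : ℤ, |s| = 1 ∧ |u k + s - v k| + 1 = |u k - v k| ∧
        (min (u k) (v k) ≤ u k + s ∧ u k + s ≤ max (u k) (v k)) := by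
      rcases lt_or_gt_of_ne hk with hlt | hgt
      · refine ⟨1, by simp, ?_, ?_, ?_⟩
        · rw [abs_of_nonpos (by omega), abs_of_neg (by omega)]
          ring
        · rw [min_eq_left (by omega)]; omega
        · rw [max_eq_right (by omega)]; omega
      · refine ⟨-1, by simp, ?_, ?_, ?_⟩
        · rw [abs_of_nonneg (by omega), abs_of_pos (by omega)]
          ring
        · rw [min_eq_right (by omega)]; omega
        · rw [max_eq_left (by omega)]; omega
    obtain ⟨hadj, hsum⟩ := chn_step u v k s hs hk2
    have hsum' : ∑ j, |(Function.update u k (u k + s)) j - v j| = n := by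
      push_cast at h
      linarith
    obtain ⟨C, hC, hh, hl, hbd, hlen⟩ := ih _ v hsum'
    have hne : C ≠ [] := by
      rintro rfl
      simp at hh
    refine ⟨u :: C, ?_, by simp, ?_, ?_, ?_⟩
    · rw [List.isChain_cons]
      refine ⟨?_, hC⟩
      intro y hy
      rw [hh] at hy
      have : Function.update u k (u k + s) = y := by simpa using hy
      rw [← this]
      exact hadj
    · rw [List.getLast?_cons_of_ne_nil hne]
      exact hl
    · intro x hx j
      rcases List.mem_cons.1 hx with rfl | hx
      · exact ⟨min_le_left _ _, le_max_left _ _⟩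
      · have h1 := hbd x hx j
        by_cases hj : j = k
        · subst hj
          rw [Function.update_self] at h1
          refine ⟨le_trans (le_min hb.1 (min_le_right _ _)) h1.1,
            le_trans h1.2 (max_le hb.2 (le_max_right _ _))⟩
        · rw [Function.update_of_ne hj] at h1
          exact h1
    · rw [List.length_cons]
      push_cast
      linarith

theorem p_CHN (d : ℕ) : St_CHN d := by
  intro u v
  have h0 : 0 ≤ ∑ k, |u k - v k| := Finset.sum_nonneg fun k _ => abs_nonneg _
  obtain ⟨n, hn⟩ := Int.eq_ofNat_of_zero_le h0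
  obtain ⟨C, h1, h2, h3, h4, h5⟩ := chn_main n u v hn
  exact ⟨C, h1, h2, h3, h4, by rw [h5, hn]⟩

end Pool.Agent.H981R3.IS
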