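import Pool.Agent.H981R3.IS.Stubs

/-!
Task CLN (helper769): closing a non-regular unit
-/

set_option autoImplicit false

namespace Pool.Agent.H981R3.IS

open Finset

variable {d : ℕ}

theorem cln_tip_mem {L : List (Vx d)} {z : Vx d} (h : tipz L z) : z ∈ L := by
  rcases h with h | h
  · exact List.mem_of_mem_head? (by rw [h]; rfl)
  · exact List.mem_of_mem_getLast? (by rw [h]; rfl)

theorem cln_fin (F : Finset (List (Vx d))) (B : Set (Vx d)) : {z | Tp F z ∧ z ∈ B}.Finite := by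
  apply Set.Finite.subset (Finset.finite_toSet (F.biUnion (fun L => L.toFinset)))
  rintro z ⟨⟨L, hL, hz⟩, -⟩
  rw [Finset.mem_coe, mem_biUnion]
  exact ⟨L, hL, List.mem_toFinset.2 (cln_tip_mem hz)⟩

theorem cln_nt_mono {F F' : Finset (List (Vx d))} (h : ∀ z, Tp F' z → Tp F z)
    {B B' : Set (Vx d)} (hB : B ⊆ B') : nt F' B ≤ nt F B' := by
  unfold nt
  exact Set.ncard_le_ncard (fun z hz => ⟨h z hz.1, hB hz.2⟩) (cln_fin F B')

theorem cln_nt_split (F : Finset (List (Vx d))) (B : Set (Vx d)) :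
    nt F Set.univ = nt F B + nt F Bᶜ := by
  unfold nt
  rw [← Set.ncard_union_eq _ (cln_fin F B) (cln_fin F Bᶜ)]
  · congr 1
    ext z
    simp only [Set.mem_ofPred_eq, Set.mem_union, Set.mem_univ, Set.mem_compl_iff]
    tauto
  · rw [Set.disjoint_left]
    rintro z ⟨-, h1⟩ ⟨-, h2⟩
    exact h2 h1

theorem cln_nt_pos {F : Finset (List (Vx d))} {B : Set (Vx d)} {z : Vx d} (h1 : Tp F z)
    (h2 : z ∈ B) : 1 ≤ nt F B := by
  unfold nt
  rw [Nat.one_le_iff_ne_zero, Ne, Set.ncard_eq_zero (cln_fin F B)]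
  intro h
  have : z ∈ {z | Tp F z ∧ z ∈ B} := ⟨h1, h2⟩
  rw [h] at this
  exact this

theorem cln_nt_exists {F : Finset (List (Vx d))} {B : Set (Vx d)} (h : 1 ≤ nt F B) :
    ∃ z, Tp F z ∧ z ∈ B := by
  unfold nt at h
  have hne : {z | Tp F z ∧ z ∈ B}.Nonempty := by
    rw [Set.nonempty_iff_ne_empty]
    intro he
    rw [he] at h
    simp at h
  exact hne

theorem cln_nt_cover {ι : Type} (K : Finset ι) (B : ι → Set (Vx d))
    (F : Finset (List (Vx d))) (h1 : ∀ z, Tp F z → ∃ c ∈ K, z ∈ B c)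
    (h2 : ∀ c ∈ K, nt F (B c) ≤ 2) : nt F Set.univ ≤ 2 * K.card := by
  classical
  have h3 : ({z | Tp F z ∧ z ∈ Set.univ} : Set (Vx d)) ⊆ ⋃ c ∈ K, {z | Tp F z ∧ z ∈ B c} := by
    rintro z ⟨hz, -⟩
    obtain ⟨c, hc, hzc⟩ := h1 z hz
    simp only [Set.mem_iUnion]
    exact ⟨c, hc, hz, hzc⟩
  have hfin : (⋃ c ∈ K, {z | Tp F z ∧ z ∈ B c}).Finite :=
    Set.Finite.biUnion (Finset.finite_toSet K) (fun c _ => cln_fin F (B c))
  have h4 : nt F Set.univ ≤ (⋃ c ∈ K, {z | Tp F z ∧ z ∈ B c}).ncard := by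
    unfold nt
    exact Set.ncard_le_ncard h3 hfin
  have h5 : (⋃ c ∈ K, {z | Tp F z ∧ z ∈ B c}).ncard ≤ ∑ c ∈ K, nt F (B c) := by
    unfold nt
    exact Finset.set_ncard_biUnion_le K _
  have h6 : ∑ c ∈ K, nt F (B c) ≤ K.card • 2 := Finset.sum_le_card_nsmul _ _ _ h2
  rw [smul_eq_mul] at h6
  omega

/-- processing a finite set of disjoint blocks -/
theorem cln_proc (h_BX : St_BX d) (α : Vx d) (h s H : ℕ) (hh : 1 ≤ h) (hs : 1 ≤ s) (hH : 1 ≤ H)
    (K : Finset (Fin d × Bool × Vx d × Vx d)) :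
    (∀ c ∈ K, ∀ k, k ≠ c.1 → α k ≤ c.2.2.1 k ∧ c.2.2.2 k < α k + h ∧
      c.2.2.2 k < c.2.2.1 k + s) →
    (∀ c ∈ K, ∀ c' ∈ K, c ≠ c' →
      Disjoint (blk α h c.1 c.2.1 c.2.2.1 c.2.2.2) (blk α h c'.1 c'.2.1 c'.2.2.1 c'.2.2.2)) →
    ∀ F : Finset (List (Vx d)), Sys α h F →
    (∀ L ∈ F, ∀ x ∈ L, ∀ c ∈ K, foot α h x ∈ blk α h c.1 c.2.1 c.2.2.1 c.2.2.2 →
      ht α h x ≤ H) →
    (∀ L ∈ F, ∀ x ∈ L, ht α h x ≤ H + 2 * d * s) →
    ∃ F' : Finset (List (Vx d)), Sys α h F' ∧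
      (∀ x ∈ cel α h, ∀ y, (∃ L ∈ F', St L x y) ↔ ∃ L ∈ F, St L x y) ∧
      (∀ L ∈ F, ∀ x ∈ L, ∃ L' ∈ F', x ∈ L') ∧
      (∀ z, Tp F' z → Tp F z) ∧
      (∀ L ∈ F', ∀ x ∈ L, ht α h x ≤ H + 2 * d * s) ∧
      (∀ c ∈ K, nt F' (blk α h c.1 c.2.1 c.2.2.1 c.2.2.2) ≤ 2) ∧
      ((∃ z, Tp F z) → ∃ z, Tp F' z) ∧
      tot F' + (H + 4 * d * s) * nt F' Set.univ ≤ tot F + (H + 4 * d * s) * nt F Set.univ := by
  classical
  induction K using Finset.induction_on with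
  | empty =>
    intro _ _ F hF _ hht
    exact ⟨F, hF, fun _ _ _ => Iff.rfl, fun L hL x hx => ⟨L, hL, hx⟩, fun _ h => h, hht,
      fun c hc => absurd hc (notMem_empty c), fun h => h, le_rfl⟩
  | insert c K hcK ih =>
    intro hb hdis F hF hlow hht
    set B := blk α h c.1 c.2.1 c.2.2.1 c.2.2.2 with hB
    obtain ⟨F1, hS1, hE1, hn1, hp1, ht1, -⟩ := h_BX α h s H c.1 c.2.1 c.2.2.1 c.2.2.2 Set.univ F
      hh hs hH (hb c (mem_insert_self c K)) (Set.subset_univ _) hF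
      (fun L hL x hx hf => hlow L hL x hx c (mem_insert_self c K) hf)
    have hlow1 : ∀ L ∈ F1, ∀ x ∈ L, ∀ c' ∈ K,
        foot α h x ∈ blk α h c'.1 c'.2.1 c'.2.2.1 c'.2.2.2 → ht α h x ≤ H := by
      intro L hL x hx c' hc' hf
      rcases hE1.new L hL x hx with ⟨L0, hL0, hx0⟩ | ⟨hf', -⟩
      · exact hlow L0 hL0 x hx0 c' (mem_insert_of_mem hc') hf
      · exfalso
        have hne : c ≠ c' := by
          rintro rfl
          exact hcK hc'
        exact (Set.disjoint_left.1 (hdis c (mem_insert_self c K) c' (mem_insert_of_mem hc') hne))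
          hf' hf
    have hht1 : ∀ L ∈ F1, ∀ x ∈ L, ht α h x ≤ H + 2 * d * s := by
      intro L hL x hx
      rcases hE1.new L hL x hx with ⟨L0, hL0, hx0⟩ | ⟨-, -, hle⟩
      · exact hht L0 hL0 x hx0
      · exact hle
    obtain ⟨F', e1, e2, e3, e4, e5, e6, e7, e8⟩ := ih
      (fun c' hc' => hb c' (mem_insert_of_mem hc'))
      (fun c' hc' c'' hc'' => hdis c' (mem_insert_of_mem hc') c'' (mem_insert_of_mem hc''))
      F1 hS1 hlow1 hht1
    refine ⟨F', e1, ?_, ?_, ?_, e5, ?_, ?_, ?_⟩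
    · intro x hx y
      rw [e2 x hx y]
      exact hE1.stp x hx y
    · intro L hL x hx
      obtain ⟨L1, hL1, hx1⟩ := hE1.sub L hL x hx
      exact e3 L1 hL1 x hx1
    · intro z hz
      exact hE1.tip z (e4 z hz)
    · intro c' hc'
      rcases mem_insert.1 hc' with rfl | hc'
      · exact (cln_nt_mono e4 (le_refl _)).trans hn1
      · exact e6 c' hc'
    · rintro ⟨z, hz⟩
      apply e7
      by_cases hzB : z ∈ B
      · obtain ⟨z', hz', -⟩ := cln_nt_exists (hp1 (cln_nt_pos hz hzB))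
        exact ⟨z', hz'⟩
      · exact ⟨z, hE1.out z hz hzB⟩
    · have s1 := cln_nt_split F1 B
      have s2 := cln_nt_split F B
      have s3 : nt F1 Bᶜ ≤ nt F Bᶜ := cln_nt_mono hE1.tip (le_refl _)
      have s4 : (H + 4 * d * s) * nt F1 Bᶜ ≤ (H + 4 * d * s) * nt F Bᶜ :=
        Nat.mul_le_mul_left _ s3
      rw [s1, Nat.mul_add] at e8
      rw [s2, Nat.mul_add]
      rw [← hB] at ht1
      linarith

theorem cln_fam_ht (h_GEO : St_GEO d) {α : Vx d} {h : ℕ} (hh : 1 ≤ h)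
    {F : Finset (List (Vx d))} (hF : Fam α h F) : ∀ L ∈ F, ∀ x ∈ L, ht α h x ≤ 1 := by
  obtain ⟨g1, g2, g3, g4, g5, g6, g7, g8⟩ := h_GEO α h hh
  intro L hL z hz
  obtain ⟨x, y, M, rfl, hM, hMc, ⟨i, σ, hx⟩, ⟨i', σ', hy⟩⟩ := hF.mid L hL
  rw [List.mem_cons, List.mem_append, List.mem_singleton] at hz
  rcases hz with rfl | hz | rfl
  · exact (g2 i σ 1 _ le_rfl hx).1.le
  · rw [(g1 z).1 (hMc z hz)]
    exact Nat.zero_le _
  · exact (g2 i' σ' 1 _ le_rfl hy).1.le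

theorem cln_fam_sys (h_GEO : St_GEO d) {α : Vx d} {h : ℕ} (hh : 1 ≤ h)
    {F : Finset (List (Vx d))} (hF : Fam α h F) : Sys α h F := by
  have hht := cln_fam_ht h_GEO hh hF
  have htips : ∀ z, Tp F z → ∃ i σ, z ∈ col α h i σ 1 := by
    rintro z ⟨L, hL, hz⟩
    obtain ⟨x, y, M, rfl, hM, hMc, hx, hy⟩ := hF.mid L hL
    rcases hz with hz | hz
    · simp only [List.head?_cons, Option.some.injEq] at hz
      rw [← hz]; exact hx
    · have e : x :: (M ++ [y]) = (x :: M) ++ [y] := rfl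
      rw [e, List.getLast?_concat, Option.some.injEq] at hz
      rw [← hz]; exact hy
  obtain ⟨g1, g2, g3, g4, g5, g6, g7, g8⟩ := h_GEO α h hh
  refine ⟨hF.isp, ?_, hF.dis, htips, ?_⟩
  · intro L hL
    obtain ⟨x, y, M, rfl, -⟩ := hF.mid L hL
    simp
  · intro z hz L hL t ht hmem
    obtain ⟨i, σ, hi⟩ := htips z hz
    have h1 := (g3 i σ z hi).2.1 t
    have h2 := hht L hL _ hmem
    omega

theorem p_CLN (d : ℕ) (h_BX : St_BX d) (h_SH : St_SH d) (h_GEO : St_GEO d) : St_CLN d := by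
  classical
  intro hd α g h K F hg hgh hK hdis hFam hFne hcov
  have hh : 1 ≤ h := le_trans hg hgh
  have hgeo := h_GEO α h hh
  obtain ⟨g1, g2, g3, g4, g5, g6, g7, g8⟩ := hgeo
  have hSys := cln_fam_sys h_GEO hh hFam
  have hht := cln_fam_ht h_GEO hh hFam
  -- a tip
  obtain ⟨L0, hL0⟩ := hFne
  have hL02 := hSys.two L0 hL0
  have htip0 : ∃ z, Tp F z := by
    rcases hl : L0 with _ | ⟨z, L1⟩
    · rw [hl] at hL02; simp at hL02
    · exact ⟨z, L0, hL0, Or.inl (by rw [hl]; rfl)⟩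
  have hKpos : 1 ≤ K.card := by
    obtain ⟨z, hz⟩ := htip0
    obtain ⟨c, hc, -⟩ := hcov z hz
    exact Finset.card_pos.2 ⟨c, hc⟩
  -- first processing
  obtain ⟨F1, a1, a2, a3, a4, a5, a6, a7, a8⟩ := cln_proc h_BX α h g 1 hh hg le_rfl K hK hdis F
    hSys (fun L hL x hx _ _ _ => hht L hL x hx) (fun L hL x hx => (hht L hL x hx).trans
      (Nat.le_add_right _ _))
  have hn1 : nt F1 Set.univ ≤ 2 * K.card :=
    cln_nt_cover K (fun c => blk α h c.1 c.2.1 c.2.2.1 c.2.2.2) F1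
      (fun z hz => hcov z (a4 z hz)) a6
  -- second processing
  set KF : Finset (Fin d × Bool × Vx d × Vx d) :=
    (univ : Finset (Fin d × Bool)).image
      (fun p => (p.1, p.2, α, fun k => α k + (h : ℤ) - 1)) with hKF
  have hKFc : KF.card ≤ 2 * d := by
    refine card_image_le.trans ?_
    rw [Finset.card_univ, Fintype.card_prod, Fintype.card_fin, Fintype.card_bool]
    omega
  obtain ⟨F2, b1, b2, b3, b4, b5, b6, b7, b8⟩ := cln_proc h_BX α h h (1 + 2 * d * g) hh hh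
    (by omega) KF
    (by
      intro c hc k _
      rw [hKF, mem_image] at hc
      obtain ⟨p, -, rfl⟩ := hc
      dsimp only
      omega)
    (by
      intro c hc c' hc' hne
      rw [hKF, mem_image] at hc hc'
      obtain ⟨p, -, rfl⟩ := hc
      obtain ⟨p', -, rfl⟩ := hc'
      rw [Set.disjoint_left]
      rintro z ⟨hz, -⟩ ⟨hz', -⟩
      dsimp only at hz hz'
      obtain ⟨q1, q2, -⟩ := g4 p.1 p.2 p'.1 p'.2 1 z le_rfl hz 1 le_rfl hz'
      apply hne
      rw [q1, q2])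
    F1 a1 (fun L hL x hx _ _ _ => a5 L hL x hx)
    (fun L hL x hx => (a5 L hL x hx).trans (Nat.le_add_right _ _))
  have hn2 : nt F2 Set.univ ≤ 4 * d := by
    have := cln_nt_cover KF (fun c => blk α h c.1 c.2.1 c.2.2.1 c.2.2.2) F2
      (by
        intro z hz
        obtain ⟨i, σ, hi⟩ := b1.tips z hz
        refine ⟨(i, σ, α, fun k => α k + (h : ℤ) - 1), ?_, hi, ?_⟩
        · rw [hKF, mem_image]
          exact ⟨(i, σ), mem_univ _, rfl⟩
        · intro k hk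
          have := hi.2 k hk
          dsimp only
          omega) b6
    omega
  obtain ⟨z2, L2, hL2, -⟩ := b7 (a7 htip0)
  obtain ⟨P, p1, p2, p3, p4, p5⟩ := h_SH hd α h (1 + 2 * d * g + 2 * d * h) F2 hh (by omega)
    ⟨L2, hL2⟩ b1 b5
  refine ⟨P, Or.inl ⟨p1, ?_⟩, ?_, ?_, ?_⟩
  · intro x hx
    rw [← g7]
    refine (p4 x hx).trans ?_
    have e1 : 2 * d * g ≤ 2 * d * h := Nat.mul_le_mul_left _ hgh
    have e2 : 1 ≤ d * h := Nat.mul_pos (by omega) hh
    have e3 : d ≤ d * h := Nat.le_mul_of_pos_right _ hh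
    nlinarith
  · intro u hu v
    rw [p2 u hu v, b2 u hu v, a2 u hu v]
  · intro L hL x hx
    obtain ⟨L1, hL1, hx1⟩ := a3 L hL x hx
    obtain ⟨L2, hL2, hx2⟩ := b3 L1 hL1 x hx1
    exact p3 L2 hL2 x hx2
  · -- the length
    set N := nt F Set.univ with hN
    set N1 := nt F1 Set.univ with hN1
    set N2 := nt F2 Set.univ with hN2
    set k := K.card with hk
    have hdh : 1 ≤ d * h := Nat.mul_pos (by omega) hh
    have hd3 : 4 * (d * h) ≤ d ^ 3 * h := by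
      have : 4 * d ≤ d ^ 3 := by
        have : 2 * 2 ≤ d * d := Nat.mul_le_mul hd hd
        calc 4 * d = (2 * 2) * d := by ring
          _ ≤ (d * d) * d := Nat.mul_le_mul_right _ this
          _ = d ^ 3 := by ring
      calc 4 * (d * h) = (4 * d) * h := by ring
        _ ≤ d ^ 3 * h := Nat.mul_le_mul_right _ this
    have hd1 : 1 ≤ d ^ 3 * h := Nat.mul_pos (pow_pos (by omega) 3) hh
    have hdd : d ≤ d * h := Nat.le_mul_of_pos_right _ hh
    have hdg : d * g ≤ d * h := Nat.mul_le_mul_left _ hgh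
    -- tot F1
    have t1 : tot F1 ≤ tot F + (1 + 4 * d * g) * N :=
      le_trans (Nat.le_add_right _ _) a8
    have t2 : tot F2 ≤ tot F1 + (1 + 2 * d * g + 4 * d * h) * (2 * k) := by
      refine le_trans (Nat.le_add_right _ _) (b8.trans ?_)
      exact Nat.add_le_add_left (Nat.mul_le_mul_left _ hn1) _
    have t3 : (1 + 2 * d * g + 4 * d * h) * (2 * k) ≤ 4 * (d ^ 3 * h) * k := by
      have : (1 + 2 * d * g + 4 * d * h) ≤ 7 * (d * h) := by nlinarith
      calc (1 + 2 * d * g + 4 * d * h) * (2 * k) ≤ (7 * (d * h)) * (2 * k) :=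
            Nat.mul_le_mul_right _ this
        _ = (14 * (d * h)) * k := by ring
        _ ≤ (4 * (d ^ 3 * h)) * k := Nat.mul_le_mul_right _ (by omega)
    have t4 : N2 * (5 * d * (h + 2 * (1 + 2 * d * g + 2 * d * h) + 2 * N2) + 2) ≤
        390 * (d ^ 3 * h) := by
      have u1 : h + 2 * (1 + 2 * d * g + 2 * d * h) + 2 * N2 ≤ 19 * (d * h) := by
        have : h ≤ d * h := Nat.le_mul_of_pos_left _ (by omega)
        nlinarith
      calc N2 * (5 * d * (h + 2 * (1 + 2 * d * g + 2 * d * h) + 2 * N2) + 2)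
          ≤ (4 * d) * (5 * d * (19 * (d * h)) + 2) := by gcongr
        _ = 380 * (d ^ 3 * h) + 8 * d := by ring
        _ ≤ 390 * (d ^ 3 * h) := by omega
    have t5 : d ^ 3 * h ≤ (d ^ 3 * h) * k := Nat.le_mul_of_pos_right _ hKpos
    have t6 : 4 * (d ^ 3 * h) * k = 4 * ((d ^ 3 * h) * k) := by ring
    have t7 : 400 * d ^ 3 * h * k = 400 * ((d ^ 3 * h) * k) := by ring
    rw [t6] at t3
    rw [t7]
    have p5' : P.length ≤ tot F2 +
        N2 * (5 * d * (h + 2 * (1 + 2 * d * g + 2 * d * h) + 2 * N2) + 2) := p5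
    generalize (1 + 4 * d * g) * N = X at *
    generalize (1 + 2 * d * g + 4 * d * h) * (2 * k) = Y at *
    generalize N2 * (5 * d * (h + 2 * (1 + 2 * d * g + 2 * d * h) + 2 * N2) + 2) = Z at *
    generalize (d ^ 3 * h) * k = U at *
    omega

end Pool.Agent.H981R3.IS
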