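import Pool.Agent.H981R3.IS.JOIN

/-!
# CLO: closing one path through a layer
-/

set_option autoImplicit false

namespace Pool.Agent.H981R3.IS

open Finset

variable {d : ℕ}

theorem p_CLO (d : ℕ) (h_GEO : St_GEO d) (h_SCH : St_SCH d) (h_ACM : St_ACM d) : St_CLO d := by
  intro α h t S L C z w hh hF ht2 hS hSF hzw hLt hzS hwS hC hCh hCl hCS
  obtain ⟨g1, -, g3, -, -, -, -, -⟩ := h_GEO α h hh
  have hsym : ∀ x y : Vx d, adj x y ↔ adj y x := h_ACM.2.2.2.1
  have hrevP := h_ACM.2.2.2.2.2.1
  have hrevS := h_ACM.2.2.2.2.2.2.1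
  have hStmem := h_ACM.2.2.2.2.2.2.2.1
  have hLm : L ∈ ({L} : Finset (List (Vx d))) := Finset.mem_singleton_self L
  have tip : ∀ z, tipz L z → foot α h z = z ∧ (∀ t, ht α h (ray α h z t) = t + 1) ∧
      (∀ t, foot α h (ray α h z t) = z) ∧ (∀ t, adj (ray α h z t) (ray α h z (t + 1))) ∧
      ray α h z 0 = z := by
    intro z hz
    obtain ⟨i, σ, hc⟩ := hF.tips z ⟨L, hLm, hz⟩
    exact g3 i σ z hc
  have hzt : tipz L z := (hLt z).2 (Or.inl rfl)
  have hwt : tipz L w := (hLt w).2 (Or.inr rfl)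
  have rne : ∀ s s', ray α h z s ≠ ray α h w s' := by
    intro s s' e
    have h1 := (tip z hzt).2.2.1 s
    have h2 := (tip w hwt).2.2.1 s'
    exact hzw (by rw [← h1, ← h2, e])
  have free : ∀ v, tipz L v → ∀ s, 1 ≤ s → ray α h v s ∉ L := by
    intro v hv s hs
    exact hF.free v ⟨L, hLm, hv⟩ L hLm s hs
  have hAB : Disjoint ({ray α h z (t - 1)} : Set (Vx d)) {ray α h w (t - 1)} := by
    rw [Set.disjoint_singleton]
    exact rne _ _
  obtain ⟨p, q, M, hpA, hpS, hqB, hqS, hPM, hM, hlen⟩ := h_SCH S _ _ C _ _ hAB hC hCh hCl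
    rfl rfl hCS
  obtain rfl : p = ray α h z (t - 1) := hpA
  obtain rfl : q = ray α h w (t - 1) := hqB
  obtain ⟨w', L', hL', l1, f1, n1, t1⟩ := join_orient (hF.isp L hLm).2 (hF.two L hLm) hzt
  have hww : w' = w := by
    have := (hLt w').1 ((t1 w').2 (Or.inr rfl))
    rcases this with h | h
    · exact absurd h.symm n1
    · exact h
  subst hww
  have P1' : IsP L' := by
    rcases hL' with rfl | rfl
    · exact hF.isp _ hLm
    · exact hrevP _ (hF.isp _ hLm)
  set A1 := L' ++ join_leg α h z (t - 1) with hA1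
  set A3 := join_leg α h w' (t - 1) with hA3
  have c1 := join_leg_chain (tip z hzt).2.2.2.1 P1'.1 (by rw [l1, (tip z hzt).2.2.2.2]) (t - 1)
  have c3 := join_leg_chain (L := [w']) (tip w' hwt).2.2.2.1 (by simp)
    (by rw [(tip w' hwt).2.2.2.2]; simp) (t - 1)
  have hA3ne : A3 ≠ [] := by
    intro h0
    have : A3.length = 0 := by rw [h0]; rfl
    rw [hA3, join_leg_length] at this
    omega
  have c3a : A3.IsChain adj := by
    have := c3.1
    rw [List.isChain_append] at this
    exact this.2.1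
  have c3b : A3.getLast? = some (ray α h w' (t - 1)) := by
    have := c3.2
    rwa [List.getLast?_append_of_ne_nil _ hA3ne] at this
  set N := A1 ++ M ++ A3.reverse with hN
  have cN : N.IsChain adj := join_glue hsym c1.1 c3a c1.2 c3b hPM.1
  have memN : ∀ u, u ∈ N ↔ u ∈ L ∨ u ∈ join_leg α h z (t - 1) ∨ u ∈ M ∨
      u ∈ join_leg α h w' (t - 1) := by
    intro u
    rw [hN, List.mem_append, List.mem_append, List.mem_reverse, hA1, hA3, List.mem_append,
      join_orient_mem hL']
    tauto
  have rayM : ∀ v, tipz L v → ∀ s, 1 ≤ s → ray α h v s ∉ M := by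
    intro v hv s hs hm
    obtain ⟨m1, m2, m3⟩ := hM _ hm
    have h1 := hS _ m1
    rw [(tip v hv).2.1 s] at h1
    have hs' : s = t - 1 := by omega
    subst hs'
    rcases (hLt v).1 hv with rfl | rfl
    · exact m2 rfl
    · exact m3 rfl
  have legL : ∀ v, tipz L v → ∀ u ∈ join_leg α h v (t - 1), u ∉ L := by
    intro v hv u hu
    obtain ⟨s, s1, s2, rfl⟩ := join_mem_leg.1 hu
    exact free v hv s s1
  have legM : ∀ v, tipz L v → ∀ u ∈ join_leg α h v (t - 1), u ∉ M := by
    intro v hv u hu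
    obtain ⟨s, s1, s2, rfl⟩ := join_mem_leg.1 hu
    exact rayM v hv s s1
  have legleg : ∀ u, u ∈ join_leg α h z (t - 1) → u ∈ join_leg α h w' (t - 1) → False := by
    intro u hu hu'
    obtain ⟨s, s1, s2, rfl⟩ := join_mem_leg.1 hu
    obtain ⟨s', s1', s2', e⟩ := join_mem_leg.1 hu'
    exact rne _ _ e
  have ML : ∀ u ∈ M, u ∉ L := fun u hu => hSF u (hM u hu).1
  have nM : M.Nodup := by
    have := hPM.2
    rw [List.nodup_cons] at this
    exact (List.nodup_append.1 this.2).1
  have nN : N.Nodup := by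
    rw [hN]
    refine List.nodup_append.2 ⟨List.nodup_append.2 ⟨List.nodup_append.2 ⟨P1'.2,
      join_leg_nodup (tip z hzt).2.1 _, ?_⟩, nM, ?_⟩, List.nodup_reverse.2
      (join_leg_nodup (tip w' hwt).2.1 _), ?_⟩
    · rintro a ha b hb rfl
      exact legL z hzt a hb ((join_orient_mem hL' a).1 ha)
    · rintro a ha b hb rfl
      rcases List.mem_append.1 ha with ha | ha
      · exact ML a hb ((join_orient_mem hL' a).1 ha)
      · exact legM z hzt a ha hb
    · rintro a ha b hb rfl
      rw [List.mem_reverse] at hb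
      rw [List.mem_append, hA1, List.mem_append, join_orient_mem hL'] at ha
      rcases ha with (ha | ha) | ha
      · exact legL w' hwt a hb ha
      · exact legleg a ha hb
      · exact legM w' hwt a hb ha
  have hNh : N.head? = some w' := by
    obtain ⟨K, hK⟩ := List.head?_eq_some_iff.1 f1
    rw [hN, hA1, hK]; simp
  have hA3h : A3.head? = some (ray α h w' 1) := by
    rw [hA3]
    unfold join_leg
    obtain ⟨m, hm⟩ : ∃ m, t - 1 = m + 1 := ⟨t - 2, by omega⟩
    rw [hm, List.range_succ_eq_map]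
    simp
  have hNl : N.getLast? = some (ray α h w' 1) := by
    obtain ⟨K, hK⟩ := List.head?_eq_some_iff.1 hA3h
    rw [hN, hK]; simp
  have hNlen : N.length = L.length + (t - 1) + M.length + (t - 1) := by
    have e1 : L'.length = L.length := by rcases hL' with rfl | rfl <;> simp
    rw [hN, hA1, hA3]
    simp only [List.length_append, List.length_reverse, join_leg_length, e1]
  have hLlen := hF.two L hLm
  refine ⟨N, ⟨⟨cN, nN⟩, by omega, w', ray α h w' 1, hNh, hNl, ?_⟩, ?_, ?_, ?_, ?_⟩
  · have := (tip w' hwt).2.2.2.1 0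
    rw [(tip w' hwt).2.2.2.2] at this
    exact (hsym _ _).1 this
  · intro u hu v
    have hu0 : ht α h u = 0 := (g1 u).1 hu
    set G := join_leg α h z (t - 1) ++ M ++ (join_leg α h w' (t - 1)).reverse with hG
    have eN : N = L' ++ G := by
      rw [hN, hA1, hA3, hG]
      simp only [List.append_assoc]
    have hGh : ∀ g ∈ G, 2 ≤ ht α h g := by
      intro g hg
      rw [hG, List.mem_append, List.mem_append, List.mem_reverse] at hg
      rcases hg with (hg | hg) | hg
      · obtain ⟨s, s1, s2, rfl⟩ := join_mem_leg.1 hg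
        rw [(tip z hzt).2.1 s]; omega
      · rw [hS g (hM g hg).1]; exact ht2
      · obtain ⟨s, s1, s2, rfl⟩ := join_mem_leg.1 hg
        rw [(tip w' hwt).2.1 s]; omega
    have hz1h : ht α h z = 1 := by
      have := (tip z hzt).2.1 0
      rwa [(tip z hzt).2.2.2.2] at this
    rw [eN, join_St_append h_ACM]
    have e1 : St L' u v ↔ St L u v := by
      rcases hL' with rfl | rfl
      · exact Iff.rfl
      · exact hrevS _ _ _
    rw [e1]
    constructor
    · rintro (h1 | h1 | ⟨a, b, ha, hb, h1⟩)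
      · exact h1
      · have := hGh u (hStmem _ _ _ h1).1
        omega
      · rw [l1] at ha
        simp only [Option.some.injEq] at ha
        subst ha
        have hbG := hGh b (join_head?_mem hb)
        rcases h1 with ⟨rfl, _⟩ | ⟨rfl, _⟩ <;> omega
    · exact Or.inl
  · intro u h1
    exact (memN u).2 (Or.inl h1)
  · intro u hu
    rcases (memN u).1 hu with h1 | h1 | h1 | h1
    · exact Or.inl h1
    · obtain ⟨s, s1, s2, e⟩ := join_mem_leg.1 h1
      exact Or.inr (Or.inr ⟨s, s1, s2, Or.inl e⟩)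
    · exact Or.inr (Or.inl (hM u h1).1)
    · obtain ⟨s, s1, s2, e⟩ := join_mem_leg.1 h1
      exact Or.inr (Or.inr ⟨s, s1, s2, Or.inr e⟩)
  · rw [hNlen]; omega

end Pool.Agent.H981R3.IS
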