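import Pool.Agent.H981R3.IS.JOIN

/-!
# CLR: closing a regular unit
-/

set_option autoImplicit false

namespace Pool.Agent.H981R3.IS

open Finset

variable {d : ℕ}

/-! ### families are systems -/

theorem clr_fam_ht (h_GEO : St_GEO d) {α : Vx d} {h : ℕ} {F : Finset (List (Vx d))} (hh : 1 ≤ h)
    (hF : Fam α h F) : ∀ L ∈ F, ∀ x ∈ L, ht α h x ≤ 1 := by
  obtain ⟨g1, g2, -⟩ := h_GEO α h hh
  intro L hL x hx
  obtain ⟨a, b, M, rfl, -, hM, ⟨i, σ, ha⟩, ⟨i', σ', hb⟩⟩ := hF.mid L hL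
  rcases List.mem_cons.mp hx with rfl | hx
  · exact (g2 i σ 1 x le_rfl ha).1.le
  rcases List.mem_append.mp hx with hx | hx
  · have := (g1 x).mp (hM x hx)
    omega
  · rw [List.mem_singleton] at hx
    subst hx
    exact (g2 i' σ' 1 x le_rfl hb).1.le

theorem clr_fam_sys (h_GEO : St_GEO d) {α : Vx d} {h : ℕ} {F : Finset (List (Vx d))} (hh : 1 ≤ h)
    (hF : Fam α h F) : Sys α h F := by
  have tips : ∀ z, Tp F z → ∃ i σ, z ∈ col α h i σ 1 := by
    rintro z ⟨L, hL, hz⟩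
    obtain ⟨a, b, M, rfl, -, hM, ha, hb⟩ := hF.mid L hL
    rcases hz with hz | hz
    · simp only [List.head?_cons, Option.some.injEq] at hz
      subst hz
      exact ha
    · have : (a :: (M ++ [b])).getLast? = some b := by
        rw [List.getLast?_eq_some_iff]
        exact ⟨a :: M, by simp⟩
      rw [this] at hz
      simp only [Option.some.injEq] at hz
      subst hz
      exact hb
  refine ⟨hF.isp, ?_, hF.dis, tips, ?_⟩
  · intro L hL
    obtain ⟨a, b, M, rfl, -⟩ := hF.mid L hL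
    simp
  · intro z hz L hL t ht1 hmem
    obtain ⟨i, σ, hc⟩ := tips z hz
    obtain ⟨g1, g2, g3, -⟩ := h_GEO α h hh
    have h1 := (g3 i σ z hc).2.1 t
    have h2 := clr_fam_ht h_GEO hh hF L hL _ hmem
    omega

/-! ### counting tips -/

theorem clr_tp_finite (F : Finset (List (Vx d))) (B : Set (Vx d)) :
    {z | Tp F z ∧ z ∈ B}.Finite := by
  classical
  apply Set.Finite.subset (F.biUnion (fun L => L.toFinset)).finite_toSet
  rintro z ⟨⟨L, hL, hz⟩, -⟩
  simp only [coe_biUnion, Set.mem_iUnion, mem_coe, List.mem_toFinset]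
  exact ⟨L, hL, join_tip_mem hz⟩

theorem clr_nt_congr {F F' : Finset (List (Vx d))} {B : Set (Vx d)}
    (h : ∀ z ∈ B, Tp F z ↔ Tp F' z) : nt F B = nt F' B := by
  unfold nt
  congr 1
  ext z
  constructor
  · rintro ⟨h1, h2⟩
    exact ⟨(h z h2).1 h1, h2⟩
  · rintro ⟨h1, h2⟩
    exact ⟨(h z h2).2 h1, h2⟩

theorem clr_nt_add {F : Finset (List (Vx d))} {B B' : Set (Vx d)} (hd : Disjoint B B') :
    nt F B + nt F B' ≤ nt F Set.univ := by
  unfold nt
  rw [← Set.ncard_union_eq ?_ (clr_tp_finite F B) (clr_tp_finite F B')]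
  · apply Set.ncard_le_ncard ?_ (clr_tp_finite F Set.univ)
    rintro z (⟨h1, -⟩ | ⟨h1, -⟩)
    · exact ⟨h1, trivial⟩
    · exact ⟨h1, trivial⟩
  · rw [Set.disjoint_left]
    rintro z ⟨-, h1⟩ ⟨-, h2⟩
    exact Set.disjoint_left.mp hd h1 h2

theorem clr_nt_three {F : Finset (List (Vx d))} {B : Set (Vx d)} {a b c : Vx d}
    (ha : Tp F a) (hb : Tp F b) (hc : Tp F c) (ha' : a ∈ B) (hb' : b ∈ B) (hc' : c ∈ B)
    (hab : a ≠ b) (hac : a ≠ c) (hbc : b ≠ c) : 3 ≤ nt F B := by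
  unfold nt
  have h3 : ({a, b, c} : Set (Vx d)).ncard = 3 := by
    rw [Set.ncard_eq_three]
    exact ⟨a, b, c, hab, hac, hbc, rfl⟩
  rw [← h3]
  apply Set.ncard_le_ncard ?_ (clr_tp_finite F B)
  rintro z (rfl | rfl | rfl)
  · exact ⟨ha, ha'⟩
  · exact ⟨hb, hb'⟩
  · exact ⟨hc, hc'⟩

theorem clr_nt_two {F : Finset (List (Vx d))} {B : Set (Vx d)} {a b : Vx d}
    (ha : Tp F a) (hb : Tp F b) (ha' : a ∈ B) (hb' : b ∈ B)
    (hab : a ≠ b) : 2 ≤ nt F B := by
  unfold nt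
  rw [← Set.ncard_pair hab]
  apply Set.ncard_le_ncard ?_ (clr_tp_finite F B)
  rintro z (rfl | rfl)
  · exact ⟨ha, ha'⟩
  · exact ⟨hb, hb'⟩

/-! ### chains in blocks -/

theorem clr_chain (h_CHN : St_CHN d) {α : Vx d} {h g : ℕ} {i : Fin d} {σ : Bool} {lo hi : Vx d}
    (hg : 1 ≤ g) (hlo : ∀ k, k ≠ i → α k ≤ lo k ∧ hi k < α k + h ∧ hi k < lo k + g)
    {z z' : Vx d} (hz : z ∈ blk α h i σ lo hi) (hz' : z' ∈ blk α h i σ lo hi) :
    ∃ C : List (Vx d), C.IsChain adj ∧ C.head? = some z ∧ C.getLast? = some z' ∧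
      (∀ c ∈ C, c ∈ blk α h i σ lo hi) ∧ C.length ≤ d * g := by
  obtain ⟨C, h1, h2, h3, h4, h5⟩ := h_CHN z z'
  refine ⟨C, h1, h2, h3, ?_, ?_⟩
  · intro c hc
    have h6 := h4 c hc
    obtain ⟨⟨a1, a2⟩, a3⟩ := hz
    obtain ⟨⟨b1, b2⟩, b3⟩ := hz'
    refine ⟨⟨?_, ?_⟩, ?_⟩
    · have := h6 i
      rw [a1, b1] at this
      omega
    · intro k hk
      have e1 := h6 k
      have e2 := a2 k hk
      have e3 := b2 k hk
      omega
    · intro k hk
      have e1 := h6 k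
      have e2 := a3 k hk
      have e3 := b3 k hk
      omega
  · obtain ⟨⟨a1, a2⟩, a3⟩ := hz
    obtain ⟨⟨b1, b2⟩, b3⟩ := hz'
    have h6 : ∑ k, |z k - z' k| ≤ (d - 1 : ℕ) * ((g : ℤ) - 1) := by
      rw [← Finset.add_sum_erase _ _ (mem_univ i)]
      rw [a1, b1, sub_self, abs_zero, zero_add]
      have h7 : ∑ k ∈ univ.erase i, |z k - z' k| ≤ (univ.erase i).card • ((g : ℤ) - 1) := by
        apply Finset.sum_le_card_nsmul
        intro k hk
        have hk' := Finset.ne_of_mem_erase hk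
        have e2 := a3 k hk'
        have e3 := b3 k hk'
        have e4 := hlo k hk'
        rw [abs_le]
        constructor <;> omega
      rw [Finset.card_erase_of_mem (mem_univ i), Finset.card_univ, Fintype.card_fin] at h7
      rw [nsmul_eq_mul] at h7
      exact h7
    have hd : 1 ≤ d := Nat.lt_of_le_of_lt (Nat.zero_le _) i.isLt
    obtain ⟨e, rfl⟩ : ∃ e, d = e + 1 := ⟨d - 1, by omega⟩
    have h8 : (C.length : ℤ) ≤ ((e + 1 : ℕ) : ℤ) * g := by
      rw [h5]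
      simp only [Nat.add_sub_cancel] at h6
      push_cast at h6 ⊢
      nlinarith
    exact_mod_cast h8

theorem clr_lift (h_GEO : St_GEO d) {α : Vx d} {h : ℕ} (hh : 1 ≤ h) {i : Fin d} {σ : Bool}
    {lo hi : Vx d} {C : List (Vx d)} {z z' : Vx d} (T : ℕ) (hC : C.IsChain adj)
    (h1 : C.head? = some z) (h2 : C.getLast? = some z') (h3 : ∀ c ∈ C, c ∈ blk α h i σ lo hi) :
    ∃ C' : List (Vx d), C'.IsChain adj ∧ C'.head? = some (ray α h z T) ∧
      C'.getLast? = some (ray α h z' T) ∧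
      (∀ c ∈ C', foot α h c ∈ blk α h i σ lo hi ∧ ht α h c = T + 1) ∧ C'.length = C.length := by
  obtain ⟨g1, g2, g3, g4, g5, g6, g7, g8⟩ := h_GEO α h hh
  refine ⟨C.map (fun c => ray α h c T), ?_, ?_, ?_, ?_, by simp⟩
  · rw [List.isChain_map]
    refine hC.imp_of_mem_imp ?_
    intro a b ha hb hab
    exact g6 i σ a b T (h3 a ha).1 (h3 b hb).1 hab
  · rw [List.head?_map, h1]
    rfl
  · rw [List.getLast?_map, h2]
    rfl
  · intro c hc
    obtain ⟨c0, hc0, rfl⟩ := List.mem_map.mp hc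
    have := g3 i σ c0 (h3 c0 hc0).1
    refine ⟨?_, this.2.1 T⟩
    rw [this.2.2.1 T]
    exact h3 c0 hc0

/-! ### the open case -/

theorem clr_open (h_GEO : St_GEO d) (h_ACM : St_ACM d) {α : Vx d} {h : ℕ}
    {F : Finset (List (Vx d))} {L : List (Vx d)} {T : ℕ} (hh : 1 ≤ h) (hS : Sys α h F)
    (hL : L ∈ F) (hT : 2 ≤ T) (hht : ∀ x ∈ L, ht α h x ≤ T) {z w : Vx d} {i i' : Fin d}
    {σ σ' : Bool} (hz : tipz L z) (hw : tipz L w) (hzw : z ≠ w) (hzc : z ∈ col α h i σ 1)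
    (hwc : w ∈ col α h i' σ' 1) :
    ∃ P, IsP P ∧ (∀ x ∈ P, x ∈ bxT α h T) ∧ (∃ x y, P.head? = some x ∧ P.getLast? = some y ∧
      x ∈ fce α h T i σ ∧ y ∈ fce α h T i' σ') ∧ (∀ u ∈ cel α h, ∀ v, St P u v ↔ St L u v) ∧
      (∀ u ∈ L, u ∈ P) ∧ P.length = L.length + 2 * (T - 1) := by
  obtain ⟨g1, g2, g3, g4, g5, g6, g7, g8⟩ := h_GEO α h hh
  have hsym : ∀ x y : Vx d, adj x y ↔ adj y x := h_ACM.2.2.2.1
  have hrevP := h_ACM.2.2.2.2.2.1
  have hrevS := h_ACM.2.2.2.2.2.2.1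
  have hStmem := h_ACM.2.2.2.2.2.2.2.1
  have tz := g3 i σ z hzc
  have tw := g3 i' σ' w hwc
  obtain ⟨w', L', hL', l1, f1, n1, t1⟩ := join_orient (hS.isp L hL).2 (hS.two L hL) hz
  have hww : w' = w := by
    rcases (t1 w).1 hw with h | h
    · exact absurd h.symm hzw
    · exact h.symm
  subst hww
  have P1' : IsP L' := by
    rcases hL' with rfl | rfl
    · exact hS.isp _ hL
    · exact hrevP _ (hS.isp _ hL)
  have c1 := join_leg_chain tz.2.2.2.1 P1'.1 (by rw [l1, tz.2.2.2.2]) (T - 1)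
  set A1 := L' ++ join_leg α h z (T - 1) with hA1
  have hL'h : L'.head? = some w' := f1
  have hA1h : A1.head? = some w' := by
    obtain ⟨K, hK⟩ := List.head?_eq_some_iff.1 f1
    rw [hA1, hK]; simp
  have cR : A1.reverse.IsChain adj := by
    rw [List.isChain_reverse]
    exact c1.1.imp (fun a b hab => (hsym _ _).1 hab)
  have lR : A1.reverse.getLast? = some (ray α h w' 0) := by
    rw [List.getLast?_reverse, hA1h, tw.2.2.2.2]
  have c2 := join_leg_chain tw.2.2.2.1 cR lR (T - 1)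
  set N := A1.reverse ++ join_leg α h w' (T - 1) with hN
  have free : ∀ v, tipz L v → ∀ s, 1 ≤ s → ray α h v s ∉ L := by
    intro v hv s hs
    exact hS.free v ⟨L, hL, hv⟩ L hL s hs
  have legL : ∀ v, tipz L v → ∀ u ∈ join_leg α h v (T - 1), u ∉ L := by
    intro v hv u hu
    obtain ⟨s, s1, s2, rfl⟩ := join_mem_leg.1 hu
    exact free v hv s s1
  have legleg : ∀ u, u ∈ join_leg α h z (T - 1) → u ∈ join_leg α h w' (T - 1) → False := by
    intro u hu hu'
    obtain ⟨s, s1, s2, rfl⟩ := join_mem_leg.1 hu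
    obtain ⟨s', s1', s2', e⟩ := join_mem_leg.1 hu'
    have e1 := tz.2.2.1 s
    have e2 := tw.2.2.1 s'
    rw [e] at e1
    exact hzw (e1.symm.trans e2)
  have nN : N.Nodup := by
    rw [hN]
    refine List.nodup_append.2 ⟨List.nodup_reverse.2 (List.nodup_append.2 ⟨P1'.2,
      join_leg_nodup tz.2.1 _, ?_⟩), join_leg_nodup tw.2.1 _, ?_⟩
    · rintro a ha b hb rfl
      exact legL z hz a hb ((join_orient_mem hL' a).1 ha)
    · rintro a ha b hb rfl
      rw [List.mem_reverse, hA1, List.mem_append, join_orient_mem hL'] at ha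
      rcases ha with ha | ha
      · exact legL w' hw a hb ha
      · exact legleg a ha hb
  have memN : ∀ u, u ∈ N ↔ u ∈ L ∨ u ∈ join_leg α h z (T - 1) ∨
      u ∈ join_leg α h w' (T - 1) := by
    intro u
    rw [hN, List.mem_append, List.mem_reverse, hA1, List.mem_append, join_orient_mem hL']
    tauto
  have hNh : N.head? = some (ray α h z (T - 1)) := by
    have h1 : A1.reverse.head? = some (ray α h z (T - 1)) := by
      rw [List.head?_reverse]
      exact c1.2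
    obtain ⟨K, hK⟩ := List.head?_eq_some_iff.1 h1
    rw [hN, hK]; simp
  have hTe : 1 + (T - 1) = T := by omega
  have mz : ray α h z (T - 1) ∈ col α h i σ T := by
    have := (g2 i σ 1 z le_rfl hzc).2.2.2 (T - 1)
    rwa [hTe] at this
  have mw : ray α h w' (T - 1) ∈ col α h i' σ' T := by
    have := (g2 i' σ' 1 w' le_rfl hwc).2.2.2 (T - 1)
    rwa [hTe] at this
  have memT : ∀ x ∈ N, x ∈ bxT α h T := by
    intro x hx
    rw [← g7]
    rcases (memN x).1 hx with h1 | h1 | h1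
    · exact hht x h1
    · obtain ⟨s, s1, s2, rfl⟩ := join_mem_leg.1 h1
      rw [tz.2.1 s]; omega
    · obtain ⟨s, s1, s2, rfl⟩ := join_mem_leg.1 h1
      rw [tw.2.1 s]; omega
  refine ⟨N, ⟨c2.1, nN⟩, memT, ⟨_, _, hNh, c2.2, ⟨?_, mz.1⟩, ⟨?_, mw.1⟩⟩, ?_, ?_, ?_⟩
  · exact memT _ (join_head?_mem hNh)
  · exact memT _ (join_getLast?_mem c2.2)
  · intro u hu v
    have hu0 : ht α h u = 0 := (g1 u).1 hu
    have hlegz : ∀ x ∈ join_leg α h z (T - 1), ht α h x ≠ 0 := by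
      intro x hx
      obtain ⟨s, s1, s2, rfl⟩ := join_mem_leg.1 hx
      rw [tz.2.1 s]; omega
    have hlegw : ∀ x ∈ join_leg α h w' (T - 1), ht α h x ≠ 0 := by
      intro x hx
      obtain ⟨s, s1, s2, rfl⟩ := join_mem_leg.1 hx
      rw [tw.2.1 s]; omega
    have hzh : ht α h z ≠ 0 := by
      rw [(g2 i σ 1 z le_rfl hzc).1]; omega
    have hwh : ht α h w' ≠ 0 := by
      rw [(g2 i' σ' 1 w' le_rfl hwc).1]; omega
    have e1 : St L' u v ↔ St L u v := by
      rcases hL' with rfl | rfl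
      · exact Iff.rfl
      · exact hrevS _ _ _
    rw [hN, join_St_append h_ACM, hrevS, hA1, join_St_append h_ACM, e1]
    constructor
    · rintro ((h1 | h1 | ⟨a, b, ha, hb, h1⟩) | h1 | ⟨a, b, ha, hb, h1⟩)
      · exact h1
      · exact absurd hu0 (hlegz u (hStmem _ _ _ h1).1)
      · exfalso
        rw [l1] at ha
        simp only [Option.some.injEq] at ha
        subst ha
        have hbG := hlegz b (join_head?_mem hb)
        rcases h1 with ⟨rfl, _⟩ | ⟨rfl, _⟩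
        · exact hzh hu0
        · exact hbG hu0
      · exact absurd hu0 (hlegw u (hStmem _ _ _ h1).1)
      · exfalso
        rw [lR, tw.2.2.2.2] at ha
        simp only [Option.some.injEq] at ha
        subst ha
        have hbG := hlegw b (join_head?_mem hb)
        rcases h1 with ⟨rfl, _⟩ | ⟨rfl, _⟩
        · exact hwh hu0
        · exact hbG hu0
    · intro h1
      exact Or.inl (Or.inl h1)
  · intro u h1
    exact (memN u).2 (Or.inl h1)
  · have e1 : L'.length = L.length := by rcases hL' with rfl | rfl <;> simp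
    rw [hN, hA1]
    simp only [List.length_append, List.length_reverse, join_leg_length, e1]
    omega

/-! ### the closed case -/

theorem clr_blk_disj (h_GEO : St_GEO d) {α : Vx d} {h : ℕ} (hh : 1 ≤ h) {i i' : Fin d}
    {σ σ' : Bool} {lo hi lo' hi' : Vx d} (hne : (i, σ) ≠ (i', σ')) :
    Disjoint (blk α h i σ lo hi) (blk α h i' σ' lo' hi') := by
  rw [Set.disjoint_left]
  intro x hx hx'
  obtain ⟨g1, g2, g3, g4, -⟩ := h_GEO α h hh
  obtain ⟨e1, e2, -⟩ := g4 i σ i' σ' 1 x le_rfl hx.1 1 le_rfl hx'.1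
  exact hne (by rw [e1, e2])

theorem clr_closed (h_GEO : St_GEO d) (h_CHN : St_CHN d) (h_JOIN : St_JOIN d)
    (h_CLO : St_CLO d) {α : Vx d} {g h : ℕ} {F2 : Finset (List (Vx d))} {L1 L2 : List (Vx d)}
    (hh : 1 ≤ h) (hg : 1 ≤ g) (hS : Sys α h F2) (hL1 : L1 ∈ F2) (hL2 : L2 ∈ F2)
    (h12 : L1 ≠ L2) (hF2 : ∀ L ∈ F2, L = L1 ∨ L = L2) {i i' : Fin d}
    {σ σ' : Bool} {lo hi lo' hi' : Vx d} (hne : (i, σ) ≠ (i', σ'))
    (hlo : ∀ k, k ≠ i → α k ≤ lo k ∧ hi k < α k + h ∧ hi k < lo k + g)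
    (hlo' : ∀ k, k ≠ i' → α k ≤ lo' k ∧ hi' k < α k + h ∧ hi' k < lo' k + g)
    (hht : ∀ L ∈ F2, ∀ x ∈ L, ht α h x ≤ 1 + 2 * d * g) {z1 w1 z2 w2 : Vx d}
    (t1 : ∀ v, tipz L1 v ↔ v = z1 ∨ v = w1) (t2 : ∀ v, tipz L2 v ↔ v = z2 ∨ v = w2)
    (hz1 : z1 ∈ blk α h i' σ' lo' hi') (hz2 : z2 ∈ blk α h i' σ' lo' hi')
    (hw1 : w1 ∈ blk α h i σ lo hi) (hw2 : w2 ∈ blk α h i σ lo hi) :
    ∃ P, IsC P ∧ (∀ x ∈ P, ht α h x ≤ 2 + 2 * d * g) ∧
      (∀ u ∈ cel α h, ∀ v, St P u v ↔ ∃ L ∈ F2, St L u v) ∧ (∀ L ∈ F2, ∀ u ∈ L, u ∈ P) ∧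
      P.length ≤ tot F2 + 4 * (1 + 2 * d * g) + 2 * (d * g) := by
  obtain ⟨g1, g2, g3, g4, g5, g6, g7, g8⟩ := h_GEO α h hh
  have hdis := clr_blk_disj (d := d) h_GEO (α := α) hh (lo := lo) (hi := hi) (lo' := lo')
    (hi' := hi') hne
  have hT : 2 + 2 * d * g - 1 = 1 + 2 * d * g := by omega
  obtain ⟨C, c1, c2, c3, c4, c5⟩ := clr_chain h_CHN hg hlo' hz1 hz2
  obtain ⟨C', c1', c2', c3', c4', c5'⟩ := clr_lift h_GEO hh (1 + 2 * d * g) c1 c2 c3 c4
  have tz1 := g3 i' σ' z1 hz1.1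
  have tz2 := g3 i' σ' z2 hz2.1
  have tw1 := g3 i σ w1 hw1.1
  have tw2 := g3 i σ w2 hw2.1
  obtain ⟨L3, hL3, hne3, z1', w1', z2', w2', N, n1, n2, tip1, tip3, s1, s2, tN, hNF, hSN, stN,
    memN1, memN2, lenN⟩ := h_JOIN α h F2 (2 + 2 * d * g)
      {s | foot α h s ∈ blk α h i' σ' lo' hi' ∧ ht α h s = 2 + 2 * d * g} L1 L2 C' z1 z2 hh hS
      (by omega) (fun s hs => hs.2)
      (by
        intro s hs L hL hsL
        have h1 := hht L hL s hsL
        have h2 := hs.2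
        omega) hL1 hL2 h12 ((t1 z1).2 (Or.inl rfl)) ((t2 z2).2 (Or.inl rfl))
      (by
        rw [hT]
        refine ⟨?_, ?_⟩
        · rw [tz1.2.2.1]; exact hz1
        · rw [tz1.2.1]; omega)
      (by
        rw [hT]
        refine ⟨?_, ?_⟩
        · rw [tz2.2.2.1]; exact hz2
        · rw [tz2.2.1]; omega) c1' (by rw [hT]; exact c2') (by rw [hT]; exact c3')
      (by
        intro c hc
        obtain ⟨e1, e2⟩ := c4' c hc
        exact ⟨e1, by omega⟩)
  have e3 : L3 = L2 := (hF2 L3 hL3).resolve_left hne3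
  subst e3
  -- identify the tips
  have footmem : ∀ v, (v = z1 ∨ v = w1 ∨ v = z2 ∨ v = w2) →
      ray α h v (2 + 2 * d * g - 1) ∈
        {s | foot α h s ∈ blk α h i' σ' lo' hi' ∧ ht α h s = 2 + 2 * d * g} →
      v ∈ blk α h i' σ' lo' hi' := by
    intro v hv hm
    have hm1 := hm.1
    rcases hv with rfl | rfl | rfl | rfl
    · exact hz1
    · rwa [tw1.2.2.1] at hm1
    · exact hz2
    · rwa [tw2.2.2.1] at hm1
  have ez1 : z1' = z1 := by
    have h1 := (t1 z1').1 ((tip1 z1').2 (Or.inl rfl))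
    rcases h1 with h1 | h1
    · exact h1
    · exfalso
      have := footmem z1' (Or.inr (Or.inl h1)) s1
      rw [h1] at this
      exact Set.disjoint_left.mp hdis hw1 this
  have ew1 : w1' = w1 := by
    have h1 := (t1 w1').1 ((tip1 w1').2 (Or.inr rfl))
    rcases h1 with h1 | h1
    · exact absurd (ez1.trans h1.symm) n1
    · exact h1
  have ez2 : z2' = z2 := by
    have h1 := (t2 z2').1 ((tip3 z2').2 (Or.inl rfl))
    rcases h1 with h1 | h1
    · exact h1
    · exfalso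
      have := footmem z2' (Or.inr (Or.inr (Or.inr h1))) s2
      rw [h1] at this
      exact Set.disjoint_left.mp hdis hw2 this
  have ew2 : w2' = w2 := by
    have h1 := (t2 w2').1 ((tip3 w2').2 (Or.inr rfl))
    rcases h1 with h1 | h1
    · exact absurd (ez2.trans h1.symm) n2
    · exact h1
  subst ez1; subst ew1; subst ez2; subst ew2
  have hins : insert N ((F2.erase L1).erase L3) = {N} := by
    ext L
    simp only [mem_insert, mem_erase, mem_singleton]
    constructor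
    · rintro (h1 | ⟨h1, h2, h3⟩)
      · exact h1
      · rcases hF2 L h3 with h4 | h4
        · exact absurd h4 h2
        · exact absurd h4 h1
    · intro h1
      exact Or.inl h1
  rw [hins] at hSN
  have hw12 : w1' ≠ w2' := by
    intro h1
    have h2 : w1' ∈ L1 := join_tip_mem ((t1 w1').2 (Or.inr rfl))
    have h3 : w1' ∈ L3 := by
      rw [h1]
      exact join_tip_mem ((t2 w2').2 (Or.inr rfl))
    exact hS.dis L1 hL1 L3 hL3 (Ne.symm hne3) h2 h3
  obtain ⟨K, k1, k2, k3, k4, k5⟩ := clr_chain h_CHN hg hlo hw1 hw2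
  obtain ⟨K', k1', k2', k3', k4', k5'⟩ := clr_lift h_GEO hh (1 + 2 * d * g) k1 k2 k3 k4
  have notN : ∀ s, foot α h s ∈ blk α h i σ lo hi → ht α h s = 2 + 2 * d * g → s ∉ N := by
    intro s hs1 hs2 hsN
    rcases memN2 s hsN with h1 | h1 | h1 | ⟨r, r1, r2, h1 | h1⟩
    · have := hht L1 hL1 s h1
      omega
    · have := hht L3 hL3 s h1
      omega
    · exact Set.disjoint_left.mp hdis hs1 h1.1
    · rw [h1, tz1.2.2.1] at hs1
      exact Set.disjoint_left.mp hdis hs1 hz1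
    · rw [h1, tz2.2.2.1] at hs1
      exact Set.disjoint_left.mp hdis hs1 hz2
  obtain ⟨P, p1, p2, p3, p4, p5⟩ := h_CLO α h (2 + 2 * d * g)
    {s | foot α h s ∈ blk α h i σ lo hi ∧ ht α h s = 2 + 2 * d * g} N K' w1' w2' hh hSN
    (by omega) (fun s hs => hs.2) (fun s hs => notN s hs.1 hs.2) hw12 tN
    (by
      rw [hT]
      refine ⟨?_, ?_⟩
      · rw [tw1.2.2.1]; exact hw1
      · rw [tw1.2.1]; omega)
    (by
      rw [hT]
      refine ⟨?_, ?_⟩
      · rw [tw2.2.2.1]; exact hw2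
      · rw [tw2.2.1]; omega) k1' (by rw [hT]; exact k2') (by rw [hT]; exact k3')
    (by
      intro c hc
      obtain ⟨e1, e2⟩ := k4' c hc
      exact ⟨e1, by omega⟩)
  have htN : ∀ x ∈ N, ht α h x ≤ 2 + 2 * d * g := by
    intro x hx
    rcases memN2 x hx with h1 | h1 | h1 | ⟨r, r1, r2, h1 | h1⟩
    · have := hht L1 hL1 x h1
      omega
    · have := hht L3 hL3 x h1
      omega
    · exact h1.2.le
    · rw [h1, tz1.2.1]; omega
    · rw [h1, tz2.2.1]; omega
  refine ⟨P, p1, ?_, ?_, ?_, ?_⟩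
  · intro x hx
    rcases p4 x hx with h1 | h1 | ⟨r, r1, r2, h1 | h1⟩
    · exact htN x h1
    · exact h1.2.le
    · rw [h1, tw1.2.1]; omega
    · rw [h1, tw2.2.1]; omega
  · intro u hu v
    rw [p2 u hu v, stN u hu v]
    constructor
    · rintro (h1 | h1)
      · exact ⟨L1, hL1, h1⟩
      · exact ⟨L3, hL3, h1⟩
    · rintro ⟨L, hL, h1⟩
      rcases hF2 L hL with rfl | rfl
      · exact Or.inl h1
      · exact Or.inr h1
  · intro L hL u hu
    apply p3
    apply memN1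
    rcases hF2 L hL with rfl | rfl
    · exact Or.inl hu
    · exact Or.inr hu
  · have h1 : L1.length + L3.length ≤ tot F2 := by
      unfold tot
      rw [← Finset.sum_pair (f := fun L : List (Vx d) => L.length) (Ne.symm hne3)]
      apply Finset.sum_le_sum_of_subset
      intro L hL
      simp only [mem_insert, mem_singleton] at hL
      rcases hL with rfl | rfl
      · exact hL1
      · exact hL3
    rw [hT] at lenN p5
    omega

theorem clr_bxT_mono {α : Vx d} {h T T' : ℕ} (hT : T ≤ T') {x : Vx d} (hx : x ∈ bxT α h T) :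
    x ∈ bxT α h T' := by
  intro k
  have := hx k
  omega

theorem p_CLR (d : ℕ) (h_BX : St_BX d) (h_JOIN : St_JOIN d) (h_CLO : St_CLO d) (h_CHN : St_CHN d)
    (h_GEO : St_GEO d) (h_ACM : St_ACM d) : St_CLR d := by
  intro hd α g h i i' σ σ' lo hi lo' hi' F hg hgh hne hlo hlo' hF htips hthr
  have hh : 1 ≤ h := by omega
  have hdg : 2 ≤ d * g := by nlinarith
  have hSF := clr_fam_sys h_GEO hh hF
  have hF1 := clr_fam_ht h_GEO hh hF
  have hdis := clr_blk_disj (d := d) h_GEO (α := α) hh (lo := lo) (hi := hi) (lo' := lo')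
    (hi' := hi') hne
  obtain ⟨g1, g2, g3, g4, g5, g6, g7, g8⟩ := h_GEO α h hh
  obtain ⟨La, hLa, za, wa, hza, hwa, hzab, hwab⟩ := hthr
  have hzwa : za ≠ wa := by
    rintro rfl
    exact Set.disjoint_left.mp hdis hzab hwab
  -- first block
  obtain ⟨F1, S1, E1, n1, -, c1, th1⟩ := h_BX α h g 1 i σ lo hi (blk α h i σ lo hi) F hh hg le_rfl
    hlo (subset_refl _) hSF (fun L hL x hx _ => hF1 L hL x hx)
  have T1 : Thr F1 (blk α h i σ lo hi) :=
    th1 ⟨La, hLa, za, wa, hza, hwa, hzab, fun hc => Set.disjoint_left.mp hdis hc hwab⟩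
  have ht1 : ∀ L ∈ F1, ∀ x ∈ L, ht α h x ≤ 1 ∨
      (foot α h x ∈ blk α h i σ lo hi ∧ ht α h x ≤ 1 + 2 * d * g) := by
    intro L hL x hx
    rcases E1.new L hL x hx with ⟨L0, hL0, hx0⟩ | h1
    · exact Or.inl (hF1 L0 hL0 x hx0)
    · exact Or.inr ⟨h1.1, h1.2.2⟩
  -- second block
  obtain ⟨F2, S2, E2, n2, -, c2, th2⟩ := h_BX α h g 1 i' σ' lo' hi' (blk α h i' σ' lo' hi') F1 hh
    hg le_rfl hlo' (subset_refl _) S1
    (by
      intro L hL x hx hfx
      rcases ht1 L hL x hx with h1 | h1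
      · exact h1
      · exact absurd hfx (Set.disjoint_left.mp hdis h1.1))
  have tips1 : ∀ z, Tp F1 z → z ∈ blk α h i σ lo hi ∨ z ∈ blk α h i' σ' lo' hi' :=
    fun z hz => htips z (E1.tip z hz)
  have tips2 : ∀ z, Tp F2 z → z ∈ blk α h i σ lo hi ∨ z ∈ blk α h i' σ' lo' hi' :=
    fun z hz => tips1 z (E2.tip z hz)
  have T2 : Thr F2 (blk α h i' σ' lo' hi') := by
    apply th2
    obtain ⟨L, hL, z, w, hz, hw, hzb, hwb⟩ := T1
    exact ⟨L, hL, w, z, hw, hz, (tips1 w ⟨L, hL, hw⟩).resolve_left hwb,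
      fun hc => Set.disjoint_left.mp hdis hzb hc⟩
  obtain ⟨L1, hL1, z1, w1, hz1, hw1, hz1b, hw1b'⟩ := T2
  have hw1b : w1 ∈ blk α h i σ lo hi := (tips2 w1 ⟨L1, hL1, hw1⟩).resolve_right hw1b'
  have hzw1 : w1 ≠ z1 := by
    rintro rfl
    exact hw1b' hz1b
  have ht2 : ∀ L ∈ F2, ∀ x ∈ L, ht α h x ≤ 1 + 2 * d * g := by
    intro L hL x hx
    rcases E2.new L hL x hx with ⟨L0, hL0, hx0⟩ | h1
    · rcases ht1 L0 hL0 x hx0 with h1 | h1
      · omega
      · exact h1.2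
    · exact h1.2.2
  -- counts
  have nb : nt F2 (blk α h i σ lo hi) ≤ 2 := by
    have e : nt F2 (blk α h i σ lo hi) = nt F1 (blk α h i σ lo hi) := by
      apply clr_nt_congr
      intro z hz
      exact ⟨E2.tip z, fun h1 => E2.out z h1 (fun hc => Set.disjoint_left.mp hdis hz hc)⟩
    omega
  have nb' : nt F1 (blk α h i' σ' lo' hi') = nt F (blk α h i' σ' lo' hi') := by
    apply clr_nt_congr
    intro z hz
    exact ⟨E1.tip z, fun h1 => E1.out z h1 (fun hc => Set.disjoint_left.mp hdis hc hz)⟩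
  have nadd := clr_nt_add (F := F) hdis
  have ntwo : 2 ≤ nt F Set.univ :=
    clr_nt_two (a := za) (b := wa) ⟨La, hLa, hza⟩ ⟨La, hLa, hwa⟩ trivial trivial hzwa
  have ctot : tot F2 ≤ tot F + (1 + 4 * d * g) * nt F Set.univ := by
    rw [nb'] at c2
    have h1 : (1 + 4 * d * g) * (nt F (blk α h i σ lo hi) + nt F (blk α h i' σ' lo' hi')) ≤
        (1 + 4 * d * g) * nt F Set.univ := Nat.mul_le_mul_left _ nadd
    rw [Nat.mul_add] at h1
    omega
  have key : 1 + 4 * d * g ≤ 5 * (d * g) := by nlinarith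
  have ctot2 : tot F2 ≤ tot F + 5 * (d * g) * nt F Set.univ :=
    ctot.trans (Nat.add_le_add_left (Nat.mul_le_mul_right _ key) _)
  have fin : ∀ n : ℕ, n ≤ tot F2 + 14 * (d * g) → n ≤ tot F + 30 * d * g * nt F Set.univ := by
    intro n hn
    have h1 : 14 * (d * g) ≤ 7 * (d * g) * nt F Set.univ := by
      calc 14 * (d * g) = 7 * (d * g) * 2 := by ring
        _ ≤ _ := Nat.mul_le_mul_left _ ntwo
    have h2 : 30 * d * g * nt F Set.univ = 5 * (d * g) * nt F Set.univ +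
        7 * (d * g) * nt F Set.univ + 18 * (d * g) * nt F Set.univ := by ring
    omega
  have stps : ∀ u ∈ cel α h, ∀ v, (∃ L ∈ F2, St L u v) ↔ ∃ L ∈ F, St L u v := by
    intro u hu v
    rw [E2.stp u hu v, E1.stp u hu v]
  have subs : ∀ L ∈ F, ∀ x ∈ L, ∃ L' ∈ F2, x ∈ L' := by
    intro L hL x hx
    obtain ⟨L', hL', hx'⟩ := E1.sub L hL x hx
    exact E2.sub L' hL' x hx'
  by_cases hone : ∀ L ∈ F2, L = L1
  · -- open case
    obtain ⟨P, p1, p2, ⟨x, y, p3, p4, p5, p6⟩, p7, p8, p9⟩ := clr_open h_GEO h_ACM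
      (T := 6 * d * g) hh S2 hL1 (by nlinarith)
      (fun x hx => (ht2 L1 hL1 x hx).trans (by nlinarith)) hw1 hz1 hzw1 hw1b.1 hz1b.1
    refine ⟨P, Or.inr ⟨p1, p2, i, i', σ, σ', x, y, hne, p3, p4, p5, p6⟩, ?_, ?_, ?_⟩
    · intro u hu v
      rw [p7 u hu v, ← stps u hu v]
      constructor
      · intro h1
        exact ⟨L1, hL1, h1⟩
      · rintro ⟨L, hL, h1⟩
        rwa [hone L hL] at h1
    · intro L hL x hx
      obtain ⟨L', hL', hx'⟩ := subs L hL x hx
      rw [hone L' hL'] at hx'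
      exact p8 x hx'
    · apply fin
      have h1 : L1.length ≤ tot F2 :=
        Finset.single_le_sum (f := fun L : List (Vx d) => L.length) (fun _ _ => Nat.zero_le _) hL1
      rw [p9]
      have h2 : 2 * (6 * d * g - 1) ≤ 12 * (d * g) := by
        have : 6 * d * g = 6 * (d * g) := by ring
        omega
      omega
  · -- closed case
    push Not at hone
    obtain ⟨L2, hL2, h21⟩ := hone
    -- every further list has one tip in each block
    have twotips : ∀ L ∈ F2, L ≠ L1 → ∃ z w, (∀ v, tipz L v ↔ v = z ∨ v = w) ∧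
        z ∈ blk α h i' σ' lo' hi' ∧ w ∈ blk α h i σ lo hi := by
      intro L hL hLne
      have hLl := S2.two L hL
      obtain ⟨a, ha⟩ : ∃ a, tipz L a := by
        cases L with
        | nil => simp at hLl
        | cons a L0 => exact ⟨a, Or.inl rfl⟩
      obtain ⟨b, L', -, -, -, hab, htab⟩ := join_orient (S2.isp L hL).2 hLl ha
      have hb : tipz L b := (htab b).2 (Or.inr rfl)
      have dd : ∀ v, tipz L v → ∀ u, tipz L1 u → v ≠ u := by
        rintro v hv u hu rfl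
        exact S2.dis L hL L1 hL1 hLne (join_tip_mem hv) (join_tip_mem hu)
      have no1 : ¬ (a ∈ blk α h i' σ' lo' hi' ∧ b ∈ blk α h i' σ' lo' hi') := by
        rintro ⟨h1, h2⟩
        have := clr_nt_three (F := F2) ⟨L, hL, ha⟩ ⟨L, hL, hb⟩ ⟨L1, hL1, hz1⟩ h1 h2 hz1b hab
          (dd a ha z1 hz1) (dd b hb z1 hz1)
        omega
      have no2 : ¬ (a ∈ blk α h i σ lo hi ∧ b ∈ blk α h i σ lo hi) := by
        rintro ⟨h1, h2⟩
        have := clr_nt_three (F := F2) ⟨L, hL, ha⟩ ⟨L, hL, hb⟩ ⟨L1, hL1, hw1⟩ h1 h2 hw1b hab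
          (dd a ha w1 hw1) (dd b hb w1 hw1)
        omega
      rcases tips2 a ⟨L, hL, ha⟩ with h1 | h1
      · rcases tips2 b ⟨L, hL, hb⟩ with h2 | h2
        · exact absurd ⟨h1, h2⟩ no2
        · exact ⟨b, a, fun v => by rw [htab v]; tauto, h2, h1⟩
      · rcases tips2 b ⟨L, hL, hb⟩ with h2 | h2
        · exact ⟨a, b, htab, h1, h2⟩
        · exact absurd ⟨h1, h2⟩ no1
    obtain ⟨z2, w2, t2, hz2, hw2⟩ := twotips L2 hL2 h21
    have t1 : ∀ v, tipz L1 v ↔ v = z1 ∨ v = w1 := by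
      obtain ⟨b, L', -, -, -, hab, htab⟩ := join_orient (S2.isp L1 hL1).2 (S2.two L1 hL1) hz1
      have : w1 = b := by
        rcases (htab w1).1 hw1 with h1 | h1
        · exact absurd h1 hzw1
        · exact h1
      rw [this]
      exact htab
    have hF2 : ∀ L ∈ F2, L = L1 ∨ L = L2 := by
      intro L hL
      by_contra hcon
      push Not at hcon
      obtain ⟨z3, w3, t3, hz3, hw3⟩ := twotips L hL hcon.1
      have e3 : tipz L z3 := (t3 z3).2 (Or.inl rfl)
      have e2 : tipz L2 z2 := (t2 z2).2 (Or.inl rfl)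
      have := clr_nt_three (F := F2) (B := blk α h i' σ' lo' hi') ⟨L, hL, e3⟩ ⟨L2, hL2, e2⟩
        ⟨L1, hL1, hz1⟩ hz3 hz2 hz1b
        (by
          rintro rfl
          exact S2.dis L hL L2 hL2 hcon.2 (join_tip_mem e3) (join_tip_mem e2))
        (by
          rintro rfl
          exact S2.dis L hL L1 hL1 hcon.1 (join_tip_mem e3) (join_tip_mem hz1))
        (by
          rintro rfl
          exact S2.dis L2 hL2 L1 hL1 h21 (join_tip_mem e2) (join_tip_mem hz1))
      omega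
    obtain ⟨P, p1, p2, p3, p4, p5⟩ := clr_closed h_GEO h_CHN h_JOIN h_CLO hh hg S2 hL1 hL2
      (Ne.symm h21) hF2 hne hlo hlo' ht2 t1 t2 hz1b hz2 hw1b hw2
    refine ⟨P, Or.inl ⟨p1, ?_⟩, ?_, ?_, ?_⟩
    · intro x hx
      rw [← g7]
      refine (p2 x hx).trans ?_
      have : d * g ≤ d * h := Nat.mul_le_mul_left _ hgh
      have e1 : 2 * d * g = 2 * (d * g) := by ring
      have e2 : 12 * d * h = 12 * (d * h) := by ring
      omega
    · intro u hu v
      rw [p3 u hu v, stps u hu v]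
    · intro L hL x hx
      obtain ⟨L', hL', hx'⟩ := subs L hL x hx
      exact p4 L' hL' x hx'
    · apply fin
      have e1 : 2 * d * g = 2 * (d * g) := by ring
      omega

end Pool.Agent.H981R3.IS
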