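import Pool.Agent.H981R3.IS.Stubs

set_option autoImplicit false

namespace Pool.Agent.H981R3.IS

open Finset

variable {d : ℕ}

theorem cls_eqv {D : Dt d} {R : ℕ → ℕ → Prop}
    (hR : ∀ s t, R s t → s ≤ D.n ∧ t ≤ D.n ∧ D.ci (D.w s) = D.ci (D.w t)) {s t : ℕ}
    (h : Relation.EqvGen R s t) :
    s = t ∨ (s ≤ D.n ∧ t ≤ D.n ∧ D.ci (D.w s) = D.ci (D.w t)) := by
  induction h with
  | rel x y h => exact Or.inr (hR x y h)
  | refl x => exact Or.inl rfl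
  | symm x y _ ih =>
    rcases ih with h | ⟨h1, h2, h3⟩
    · exact Or.inl h.symm
    · exact Or.inr ⟨h2, h1, h3.symm⟩
  | trans x y z _ _ ih1 ih2 =>
    rcases ih1 with rfl | ⟨h1, h2, h3⟩
    · exact ih2
    · rcases ih2 with rfl | ⟨h4, h5, h6⟩
      · exact Or.inr ⟨h1, h2, h3⟩
      · exact Or.inr ⟨h1, h5, h3.trans h6⟩

open scoped Classical in
/-- the class of `t` for a general relation -/
noncomputable def cls_c (D : Dt d) (R : ℕ → ℕ → Prop) (t : ℕ) : Finset ℕ :=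
  (range (D.n + 1)).filter (fun s => Relation.EqvGen R t s)

theorem cls_mem {D : Dt d} {R : ℕ → ℕ → Prop} {s t : ℕ} :
    s ∈ cls_c D R t ↔ s ≤ D.n ∧ Relation.EqvGen R t s := by
  classical
  simp only [cls_c, Finset.mem_filter, Finset.mem_range, Nat.lt_succ_iff]

theorem cls_self {D : Dt d} {R : ℕ → ℕ → Prop} {t : ℕ} (ht : t ≤ D.n) : t ∈ cls_c D R t :=
  cls_mem.2 ⟨ht, Relation.EqvGen.refl t⟩

theorem cls_eq {D : Dt d} {R : ℕ → ℕ → Prop} {s t : ℕ} (h : Relation.EqvGen R s t) :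
    cls_c D R s = cls_c D R t := by
  ext r
  rw [cls_mem, cls_mem]
  exact ⟨fun h1 => ⟨h1.1, (h.symm _ _).trans _ _ _ h1.2⟩, fun h1 => ⟨h1.1, h.trans _ _ _ h1.2⟩⟩

theorem cls_two {D : Dt d} {R : ℕ → ℕ → Prop}
    (hR : ∀ s t, R s t → s ≤ D.n ∧ t ≤ D.n ∧ D.ci (D.w s) = D.ci (D.w t)) {s t : ℕ}
    (h : s ∈ cls_c D R t) :
    s ≤ D.n ∧ t ≤ D.n ∧ D.ci (D.w s) = D.ci (D.w t) ∧ cls_c D R s = cls_c D R t := by
  obtain ⟨h1, h2⟩ := cls_mem.1 h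
  rcases cls_eqv hR h2 with rfl | ⟨h3, h4, h5⟩
  · exact ⟨h1, h1, rfl, rfl⟩
  · exact ⟨h1, h3, h5.symm, (cls_eq h2).symm⟩

theorem cls_img {D : Dt d} {R : ℕ → ℕ → Prop}
    (hR : ∀ s t, R s t → s ≤ D.n ∧ t ≤ D.n ∧ D.ci (D.w s) = D.ci (D.w t)) {u : Finset ℕ}
    (h : u ∈ (range (D.n + 1)).image (cls_c D R)) :
    u.Nonempty ∧ ∀ t ∈ u, t ≤ D.n ∧ cls_c D R t = u := by
  obtain ⟨t, ht, rfl⟩ := Finset.mem_image.1 h
  rw [Finset.mem_range, Nat.lt_succ_iff] at ht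
  refine ⟨⟨t, cls_self ht⟩, fun s hs => ?_⟩
  obtain ⟨h1, -, -, h4⟩ := cls_two hR hs
  exact ⟨h1, h4⟩

theorem p_CLS (d : ℕ) : St_CLS d := by
  classical
  intro D hw
  have hu : D.uc = cls_c D D.Ru := rfl
  have hb : D.bc = cls_c D D.Rb := rfl
  have huns : D.uns = (range (D.n + 1)).image (cls_c D D.Ru) := rfl
  have hbns : D.bns = (range (D.n + 1)).image (cls_c D D.Rb) := rfl
  have hRu : ∀ s t, D.Ru s t → s ≤ D.n ∧ t ≤ D.n ∧ D.ci (D.w s) = D.ci (D.w t) :=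
    fun s t h => ⟨h.1, h.2.1, h.2.2.1⟩
  have hRb : ∀ s t, D.Rb s t → s ≤ D.n ∧ t ≤ D.n ∧ D.ci (D.w s) = D.ci (D.w t) :=
    fun s t h => ⟨h.1, h.2.1, h.2.2.1⟩
  have hRbu : ∀ s t, D.Rb s t → D.Ru s t := by
    rintro s t ⟨h1, h2, h3, h4⟩
    refine ⟨h1, h2, h3, ?_⟩
    rcases h4 with rfl | h4
    · exact Or.inl (hw.1 s (by omega))
    · exact Or.inr h4
  have hcrs : ∀ p ∈ D.crs, p < D.n := fun p hp =>
    Finset.mem_range.1 (Finset.mem_filter.1 hp).1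
  rw [hu, hb, huns, hbns]
  refine ⟨fun t ht => ⟨cls_self ht, cls_self ht⟩, fun s t h => cls_two hRu h,
    fun s t h => cls_two hRb h, ?_, fun u h => cls_img hRu h, fun u h => cls_img hRb h,
    ?_, ?_, ?_, ?_⟩
  · intro t s hs
    rw [cls_mem] at hs ⊢
    exact ⟨hs.1, Relation.EqvGen.mono hRbu _ _ hs.2⟩
  · intro s t hs ht hc ha
    exact cls_eq (Relation.EqvGen.rel _ _ ⟨hs, ht, hc, Or.inl ha⟩)
  · intro s hs hns
    have hc : D.ci (D.w s) = D.ci (D.w (s + 1)) := by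
      by_contra hne
      exact hns (Finset.mem_filter.2 ⟨Finset.mem_range.2 hs, hne⟩)
    have hb' : D.Rb s (s + 1) := ⟨by omega, by omega, hc, Or.inl rfl⟩
    exact ⟨cls_eq (Relation.EqvGen.rel _ _ hb'), cls_eq (Relation.EqvGen.rel _ _ (hRbu _ _ hb'))⟩
  · intro p hp q hq hpq s t hs ht hc
    have h1 := hcrs p hp
    have h2 := hcrs q hq
    have hb' : D.Rb s t := ⟨by omega, by omega, hc, Or.inr ⟨p, hp, q, hq, hpq, hs, ht⟩⟩
    exact ⟨cls_eq (Relation.EqvGen.rel _ _ hb'), cls_eq (Relation.EqvGen.rel _ _ (hRbu _ _ hb'))⟩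
  · have h1 := Finset.card_eq_sum_card_image (cls_c D D.Ru) (range (D.n + 1))
    rw [Finset.card_range] at h1
    refine Eq.trans ?_ h1.symm
    refine Finset.sum_congr rfl fun u hu' => ?_
    congr 1
    ext t
    rw [Finset.mem_filter, Finset.mem_range, Nat.lt_succ_iff]
    obtain ⟨-, h2⟩ := cls_img hRu hu'
    constructor
    · exact fun h => h2 t h
    · rintro ⟨h3, rfl⟩
      exact cls_self h3

end Pool.Agent.H981R3.IS
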