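import Pool.Agent.H981R3.IS.Stubs

/-! Interacting self-avoiding walks, task CNT (helper431): non-regular units are rare. -/

set_option autoImplicit false

namespace Pool.Agent.H981R3.IS

open Finset

variable {d : ℕ}

open scoped Classical in
/-- at most two bundles touch a group -/
theorem cnt_two (h_ARI : St_ARI d) (h_CLS : St_CLS d) (D : Dt d) (hρ : 2 ≤ D.ρ) (hg : 1 ≤ D.g)
    (hw : Sw D.w D.n) (y : Vx d × Vx d) : (D.bns.filter (fun x => y ∈ D.tgr x)).card ≤ 2 := by
  obtain ⟨c1, c2, c3, c4, c5, c6, c7, c8, c9, c10⟩ := h_CLS D hw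
  obtain ⟨a1, a2, a3, a4, a5, a6, a7⟩ := h_ARI D hρ hg hw
  by_cases h : ∃ p ∈ D.crs, D.gc p = y
  · obtain ⟨p, hp, hpy⟩ := h
    have hsub : D.bns.filter (fun x => y ∈ D.tgr x) ⊆ {D.bc p, D.bc (p + 1)} := by
      intro x hx
      rw [mem_filter] at hx
      obtain ⟨hxb, hxy⟩ := hx
      rw [Dt.tgr, mem_filter] at hxy
      obtain ⟨-, q, hq, hqy, hqx⟩ := hxy
      have hx' : x = D.bc q ∨ x = D.bc (q + 1) := by
        rcases hqx with h | h
        · exact Or.inl ((c6 x hxb).2 _ h).2.symm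
        · exact Or.inr ((c6 x hxb).2 _ h).2.symm
      have hpq : D.gc p = D.gc q := hpy.trans hqy.symm
      rw [mem_insert, mem_singleton]
      rcases a7 p hp q hq hpq with ⟨e1, e2⟩ | ⟨e1, e2⟩
      · have f1 := (c9 p hp q hq hpq p q (Or.inl rfl) (Or.inl rfl) e1).1
        have f2 := (c9 p hp q hq hpq (p + 1) (q + 1) (Or.inr rfl) (Or.inr rfl) e2).1
        rw [f1, f2]
        exact hx'
      · have f1 := (c9 p hp q hq hpq p (q + 1) (Or.inl rfl) (Or.inr rfl) e1).1
        have f2 := (c9 p hp q hq hpq (p + 1) q (Or.inr rfl) (Or.inl rfl) e2).1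
        rw [f1, f2]
        exact hx'.symm
    exact (card_le_card hsub).trans card_le_two
  · have : D.bns.filter (fun x => y ∈ D.tgr x) = ∅ := by
      rw [filter_eq_empty_iff]
      intro x _ hxy
      rw [Dt.tgr, mem_filter] at hxy
      obtain ⟨-, q, hq, hqy, -⟩ := hxy
      exact h ⟨q, hq, hqy⟩
    rw [this]
    simp

open scoped Classical in
/-- incidences between bundles and a set of groups -/
theorem cnt_inc (h_ARI : St_ARI d) (h_CLS : St_CLS d) (D : Dt d) (hρ : 2 ≤ D.ρ) (hg : 1 ≤ D.g)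
    (hw : Sw D.w D.n) (Z : Finset (Vx d × Vx d)) :
    ∑ x ∈ D.bns, (D.tgr x ∩ Z).card ≤ 2 * Z.card := by
  have h1 := Finset.sum_card_bipartiteAbove_eq_sum_card_bipartiteBelow (s := D.bns) (t := Z)
    (fun x y => y ∈ D.tgr x)
  have h2 : ∀ x, D.tgr x ∩ Z = Z.bipartiteAbove (fun x y => y ∈ D.tgr x) x := by
    intro x
    ext y
    rw [mem_inter, Finset.mem_bipartiteAbove, and_comm]
  simp only [h2]
  rw [h1]
  calc ∑ y ∈ Z, (D.bns.bipartiteBelow (fun x y => y ∈ D.tgr x) y).card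
      ≤ ∑ _y ∈ Z, 2 := Finset.sum_le_sum fun y _ => cnt_two h_ARI h_CLS D hρ hg hw y
    _ = 2 * Z.card := by rw [sum_const, smul_eq_mul, mul_comm]

open scoped Classical in
/-- sums over bundles and units -/
theorem cnt_fib (h_CLS : St_CLS d) (D : Dt d) (hw : Sw D.w D.n) (f : Finset ℕ → ℕ) :
    ∑ u ∈ D.uns, ∑ x ∈ D.bns.filter (fun x => x ⊆ u), f x = ∑ x ∈ D.bns, f x := by
  obtain ⟨c1, c2, c3, c4, c5, c6, c7, c8, c9, c10⟩ := h_CLS D hw
  simp only [sum_filter]
  rw [sum_comm]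
  refine sum_congr rfl fun x hx => ?_
  obtain ⟨⟨t, ht⟩, hx2⟩ := c6 x hx
  obtain ⟨htn, hbt⟩ := hx2 t ht
  have hxu : x ⊆ D.uc t := hbt ▸ c4 t
  rw [sum_eq_single (D.uc t)]
  · rw [if_pos hxu]
  · intro u hu hne
    rw [if_neg]
    intro hxu'
    exact hne ((c5 u hu).2 t (hxu' ht)).2.symm
  · intro hn
    exact absurd (mem_image.mpr ⟨t, mem_range.mpr (by omega), rfl⟩) hn

open scoped Classical in
theorem p_CNT (d : ℕ) (h_NB : St_NB d) (h_GU : St_GU d) (h_LF : St_LF d) (h_RG : St_RG d)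
    (h_ARI : St_ARI d) (h_CLS : St_CLS d) : St_CNT d := by
  intro D hρ hg hw
  have hNB := h_NB D hρ hg hw
  have hGU := h_GU D hρ hg hw
  obtain ⟨hLF1, hLF2⟩ := h_LF D hρ hg hw
  have hRG := h_RG D hρ hg hw
  obtain ⟨c1, c2, c3, c4, c5, c6, c7, c8, c9, c10⟩ := h_CLS D hw
  set b := D.gbad.card with hb
  set c := D.gbd.card with hc
  -- groups
  have hgrs : D.grs.card ≤ D.ggood.card + (b + c) := by
    have h1 : D.grs ⊆ D.ggood ∪ (D.gbd ∪ D.gbad) := by
      intro y hy
      rw [mem_union, Dt.ggood, mem_sdiff]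
      by_cases h : y ∈ D.gbd ∪ D.gbad
      · exact Or.inr h
      · exact Or.inl ⟨hy, h⟩
    have h2 := (card_le_card h1).trans (card_union_le _ _)
    have h3 := card_union_le D.gbd D.gbad
    omega
  have hbu : D.bns.card ≤ D.uns.card + (b + c + 1) := by omega
  -- bundles in a unit
  let B : Finset ℕ → Finset (Finset ℕ) := fun u => D.bns.filter (fun x => x ⊆ u)
  have hbc : ∀ u ∈ D.uns, ∀ t ∈ u, D.bc t ∈ B u := by
    intro u hu t ht
    obtain ⟨htn, hut⟩ := (c5 u hu).2 t ht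
    rw [mem_filter]
    refine ⟨mem_image.mpr ⟨t, mem_range.mpr (by omega), rfl⟩, ?_⟩
    rw [← hut]
    exact c4 t
  have hBpos : ∀ u ∈ D.uns, 1 ≤ (B u).card := by
    intro u hu
    obtain ⟨t, ht⟩ := (c5 u hu).1
    exact card_pos.mpr ⟨_, hbc u hu t ht⟩
  -- number of bundles
  have hBsum : ∑ u ∈ D.uns, (B u).card = D.bns.card := by
    have := cnt_fib h_CLS D hw (fun _ => 1)
    simpa using this
  have hr : ∑ u ∈ D.uns, ((B u).card - 1) ≤ b + c + 1 := by
    have h1 : ∑ u ∈ D.uns, ((B u).card - 1) + D.uns.card = ∑ u ∈ D.uns, (B u).card := by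
      rw [card_eq_sum_ones, ← sum_add_distrib]
      refine sum_congr rfl fun u hu => ?_
      have := hBpos u hu
      omega
    omega
  -- groups of a unit
  have htgr : ∀ u ∈ D.uns, (D.tgr u).card + 1 ≤ ∑ x ∈ B u, ((D.tgr x).card + 1) := by
    intro u hu
    have h1 : D.tgr u ⊆ (B u).biUnion D.tgr := by
      intro y hy
      rw [Dt.tgr, mem_filter] at hy
      obtain ⟨hyg, p, hp, hpy, hpu⟩ := hy
      rw [mem_biUnion]
      rcases hpu with h | h
      · refine ⟨D.bc p, hbc u hu p h, ?_⟩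
        rw [Dt.tgr, mem_filter]
        exact ⟨hyg, p, hp, hpy, Or.inl (c1 p ((c5 u hu).2 p h).1).2⟩
      · refine ⟨D.bc (p + 1), hbc u hu (p + 1) h, ?_⟩
        rw [Dt.tgr, mem_filter]
        exact ⟨hyg, p, hp, hpy, Or.inr (c1 (p + 1) ((c5 u hu).2 (p + 1) h).1).2⟩
    have h2 := (card_le_card h1).trans card_biUnion_le
    rw [sum_add_distrib, ← card_eq_sum_ones]
    have := hBpos u hu
    omega
  -- degrees
  let dg : Finset ℕ → ℕ := fun x => (D.tgr x ∩ D.ggood).card
  let bx : Finset ℕ → ℕ := fun x => (D.tgr x ∩ (D.gbd ∪ D.gbad)).card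
  have hdb : ∀ x, (D.tgr x).card ≤ dg x + bx x := by
    intro x
    have h1 : D.tgr x ⊆ (D.tgr x ∩ D.ggood) ∪ (D.tgr x ∩ (D.gbd ∪ D.gbad)) := by
      intro y hy
      rw [mem_union, mem_inter, mem_inter, Dt.ggood, mem_sdiff]
      have hyg : y ∈ D.grs := (mem_filter.mp hy).1
      by_cases h : y ∈ D.gbd ∪ D.gbad
      · exact Or.inr ⟨hy, h⟩
      · exact Or.inl ⟨hy, hyg, h⟩
    exact (card_le_card h1).trans (card_union_le _ _)
  have hbx : ∑ x ∈ D.bns, bx x ≤ 2 * (b + c) := by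
    refine (cnt_inc h_ARI h_CLS D hρ hg hw _).trans ?_
    have h3 := card_union_le D.gbd D.gbad
    omega
  -- plain bundles
  let pl : Finset ℕ → Prop := fun x => dg x = 2 ∧ bx x = 0 ∧ 0 ∉ x ∧ D.n ∉ x
  have hplain : ∀ u ∈ D.uns.filter (fun u => ¬ D.reg u),
      ((B u).filter pl).card ≤ 2 * ((B u).card - 1) := by
    intro u hu
    obtain ⟨hu, hreg⟩ := mem_filter.mp hu
    have h1 := hBpos u hu
    have h2 : ((B u).filter pl).card ≤ (B u).card := card_filter_le _ _
    by_cases h3 : (B u).card = 1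
    · have h4 : (B u).filter pl = ∅ := by
        rw [filter_eq_empty_iff]
        intro x hx hpx
        apply hreg
        obtain ⟨x', hx'⟩ := card_eq_one.mp h3
        have hxx : x = x' := by
          rw [hx', mem_singleton] at hx
          exact hx
        have hxb : x ∈ D.bns := (mem_filter.mp hx).1
        have hxu : x ⊆ u := (mem_filter.mp hx).2
        have hux : u = x := by
          apply Subset.antisymm _ hxu
          intro t ht
          have h5 := hbc u hu t ht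
          rw [hx', mem_singleton, ← hxx] at h5
          rw [← h5]
          exact (c1 t ((c5 u hu).2 t ht).1).2
        obtain ⟨p1, p2, p3, p4⟩ := hpx
        have h6 : D.tgr x ⊆ D.ggood := by
          intro y hy
          rw [Dt.ggood, mem_sdiff]
          refine ⟨(mem_filter.mp hy).1, fun h7 => ?_⟩
          have h8 : D.tgr x ∩ (D.gbd ∪ D.gbad) = ∅ := card_eq_zero.mp p2
          have h9 : y ∈ D.tgr x ∩ (D.gbd ∪ D.gbad) := mem_inter.mpr ⟨hy, h7⟩
          rw [h8] at h9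
          exact absurd h9 (notMem_empty y)
        refine hRG u hu (hux ▸ hxb) ?_ (hux ▸ h6) ?_
        · rintro (h | h)
          · exact p3 (hux ▸ h)
          · exact p4 (hux ▸ h)
        · rw [hux]
          have h7 : D.tgr x ∩ D.ggood = D.tgr x := inter_eq_left.mpr h6
          have h8 : (D.tgr x ∩ D.ggood).card = 2 := p1
          rw [h7] at h8
          exact h8
      rw [h4]
      simp
    · omega
  -- non-plain bundles
  let N := D.bns.filter (fun x => ¬ pl x)
  have hN : N.card ≤ (4 * d + 5) * (b + c + 1) := by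
    have h1 : N ⊆ ((D.bns.filter (fun x => (D.tgr x ∩ D.ggood).card ≤ 1)) ∪
        (D.bns.filter (fun x => 3 ≤ dg x))) ∪
        ((D.bns.filter (fun x => 1 ≤ bx x)) ∪ {D.bc 0, D.bc D.n}) := by
      intro x hx
      obtain ⟨hxb, hxp⟩ := mem_filter.mp hx
      rw [mem_union, mem_union, mem_union, mem_filter, mem_filter, mem_filter, mem_insert,
        mem_singleton]
      by_cases h2 : dg x ≤ 1
      · exact Or.inl (Or.inl ⟨hxb, h2⟩)
      by_cases h3 : 3 ≤ dg x
      · exact Or.inl (Or.inr ⟨hxb, h3⟩)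
      by_cases h4 : 1 ≤ bx x
      · exact Or.inr (Or.inl ⟨hxb, h4⟩)
      by_cases h5 : 0 ∈ x
      · exact Or.inr (Or.inr (Or.inl ((c6 x hxb).2 0 h5).2.symm))
      by_cases h6 : D.n ∈ x
      · exact Or.inr (Or.inr (Or.inr ((c6 x hxb).2 _ h6).2.symm))
      exact absurd ⟨by omega, by omega, h5, h6⟩ hxp
    have h2 : (D.bns.filter (fun x => 3 ≤ dg x)).card ≤ ∑ x ∈ D.bns, (dg x - 2) := by
      rw [card_filter]
      refine sum_le_sum fun x _ => ?_
      split_ifs <;> omega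
    have h3 : (D.bns.filter (fun x => 1 ≤ bx x)).card ≤ ∑ x ∈ D.bns, bx x := by
      rw [card_filter]
      refine sum_le_sum fun x _ => ?_
      split_ifs <;> omega
    have h4 : ({D.bc 0, D.bc D.n} : Finset (Finset ℕ)).card ≤ 2 := card_le_two
    have h5 := card_le_card h1
    have h6 := card_union_le ((D.bns.filter (fun x => (D.tgr x ∩ D.ggood).card ≤ 1)) ∪
        (D.bns.filter (fun x => 3 ≤ dg x)))
        ((D.bns.filter (fun x => 1 ≤ bx x)) ∪ {D.bc 0, D.bc D.n})
    have h7 := card_union_le (D.bns.filter (fun x => (D.tgr x ∩ D.ggood).card ≤ 1))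
        (D.bns.filter (fun x => 3 ≤ dg x))
    have h8 := card_union_le (D.bns.filter (fun x => 1 ≤ bx x)) {D.bc 0, D.bc D.n}
    have h9 : (4 * d + 5) * (b + c + 1) = (2 * d + 1) * (b + c + 1) + (2 * d + 2) * (b + c + 1) +
      2 * (b + c + 1) := by ring
    have h10 : ∑ x ∈ D.bns, (dg x - 2) ≤ (2 * d + 2) * (b + c + 1) := hLF2
    omega
  -- the sum over non-plain bundles
  have hNsum : ∑ x ∈ N, ((D.tgr x).card + 1) ≤ (14 * d + 19) * (b + c + 1) := by
    have h1 : ∑ x ∈ N, ((D.tgr x).card + 1) ≤ ∑ x ∈ N, ((dg x - 2) + bx x + 3) := by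
      refine sum_le_sum fun x _ => ?_
      have := hdb x
      omega
    have h2 : ∑ x ∈ N, ((dg x - 2) + bx x + 3) =
        ∑ x ∈ N, (dg x - 2) + ∑ x ∈ N, bx x + N.card * 3 := by
      rw [sum_add_distrib, sum_add_distrib, sum_const, smul_eq_mul]
    have h3 : ∑ x ∈ N, (dg x - 2) ≤ ∑ x ∈ D.bns, (dg x - 2) :=
      sum_le_sum_of_subset (filter_subset _ _)
    have h4 : ∑ x ∈ N, bx x ≤ ∑ x ∈ D.bns, bx x := sum_le_sum_of_subset (filter_subset _ _)
    have h5 : (14 * d + 19) * (b + c + 1) = (2 * d + 2) * (b + c + 1) + 2 * (b + c + 1) +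
      (4 * d + 5) * (b + c + 1) * 3 := by ring
    have h10 : ∑ x ∈ D.bns, (dg x - 2) ≤ (2 * d + 2) * (b + c + 1) := hLF2
    omega
  -- conclusion
  have hsplit : ∀ u, ∑ x ∈ B u, ((D.tgr x).card + 1) =
      ∑ x ∈ (B u).filter pl, ((D.tgr x).card + 1) +
      ∑ x ∈ (B u).filter (fun x => ¬ pl x), ((D.tgr x).card + 1) := fun u =>
    (sum_filter_add_sum_filter_not _ _ _).symm
  have hpl3 : ∀ u, ∑ x ∈ (B u).filter pl, ((D.tgr x).card + 1) ≤ ((B u).filter pl).card * 3 := by
    intro u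
    rw [← smul_eq_mul, ← sum_const]
    refine sum_le_sum fun x hx => ?_
    obtain ⟨p1, p2, -, -⟩ := (mem_filter.mp hx).2
    have := hdb x
    omega
  have hnp : ∑ u ∈ D.uns, ∑ x ∈ (B u).filter (fun x => ¬ pl x), ((D.tgr x).card + 1) =
      ∑ x ∈ N, ((D.tgr x).card + 1) := by
    have h1 := cnt_fib h_CLS D hw (fun x => if ¬ pl x then (D.tgr x).card + 1 else 0)
    rw [← sum_filter] at h1
    rw [← h1]
    refine sum_congr rfl fun u _ => ?_
    rw [sum_filter]
  calc ∑ u ∈ D.uns.filter (fun u => ¬ D.reg u), ((D.tgr u).card + 1)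
      ≤ ∑ u ∈ D.uns.filter (fun u => ¬ D.reg u), (6 * ((B u).card - 1) +
          ∑ x ∈ (B u).filter (fun x => ¬ pl x), ((D.tgr x).card + 1)) := by
        refine sum_le_sum fun u hu => ?_
        have h1 := htgr u (mem_filter.mp hu).1
        have h2 := hplain u hu
        have h3 := hpl3 u
        rw [hsplit] at h1
        omega
    _ ≤ ∑ u ∈ D.uns, (6 * ((B u).card - 1) +
          ∑ x ∈ (B u).filter (fun x => ¬ pl x), ((D.tgr x).card + 1)) :=
        sum_le_sum_of_subset (filter_subset _ _)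
    _ = 6 * ∑ u ∈ D.uns, ((B u).card - 1) + ∑ x ∈ N, ((D.tgr x).card + 1) := by
        rw [sum_add_distrib, mul_sum, hnp]
    _ ≤ (14 * d + 31) * (b + c + 1) := by
        have h5 : (14 * d + 31) * (b + c + 1) = (14 * d + 19) * (b + c + 1) + 12 * (b + c + 1) := by
          ring
        omega

end Pool.Agent.H981R3.IS
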