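import Pool.Agent.H981R3.IS.Stubs

/-!
# Upper bound for crossing paths (task CR, helper439)
-/

set_option autoImplicit false

namespace Pool.Agent.H981R3.IS

open Finset

theorem cr_root (c y E : ℝ) (N : ℕ) (hy : 0 ≤ y) (hE : 0 < E) (hN : 1 ≤ N)
    (h : c ^ N ≤ y * E ^ N) : c ≤ (1 + y) * E := by
  by_contra hcon
  push Not at hcon
  have h1 : ((1 + y) * E) ^ N < c ^ N :=
    pow_lt_pow_left₀ hcon (by positivity) (by omega)
  have h2 : (1 + y) ≤ (1 + y) ^ N := by
    calc (1 + y) = (1 + y) ^ 1 := (pow_one _).symm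
      _ ≤ (1 + y) ^ N := pow_le_pow_right₀ (by linarith) hN
  have h3 : (1 + y) * E ^ N ≤ ((1 + y) * E) ^ N := by
    rw [mul_pow]
    exact mul_le_mul_of_nonneg_right h2 (by positivity)
  have h4 : 0 < E ^ N := by positivity
  nlinarith

theorem cr_empty {d : ℕ} (β : ℝ) (s : ℕ) (p q : Vx d) (l : ℕ) (hl : s ^ d < l) :
    Pq d β s p q l = 0 := by
  classical
  unfold Pq
  apply Finset.sum_eq_zero
  intro P hP
  exfalso
  simp only [Finset.mem_filter, LL, Finset.mem_image, Fintype.mem_piFinset] at hP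
  obtain ⟨⟨f, hf, rfl⟩, ⟨⟨_, hnd⟩, _⟩⟩ := hP
  rw [List.nodup_ofFn] at hnd
  have h1 : Fintype.card (Fin l) ≤ (bxF d s).card := by
    rw [← Finset.card_univ]
    exact Finset.card_le_card_of_injOn f (fun x _ => hf x) (fun x _ y _ h => hnd h)
  have h2 : (bxF d s).card = s ^ d := by
    unfold bxF
    rw [Fintype.card_piFinset]
    simp
  rw [Fintype.card_fin, h2] at h1
  omega

theorem cr_nonneg {d : ℕ} (β : ℝ) (s : ℕ) (p q : Vx d) (l : ℕ) : 0 ≤ Pq d β s p q l := by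
  unfold Pq
  exact Finset.sum_nonneg (fun P _ => (Real.exp_pos _).le)

theorem p_CR (d : ℕ) (hA : St_CRA d) (hO : St_CRO d) : St_CR d := by
  intro hd β F0 C0 hβ hF0 hC0 hZ s l i i' p q hs hl hp hq hne
  have hs1 : (1 : ℝ) ≤ s := by exact_mod_cast hs
  have hl1 : (1 : ℝ) ≤ l := by exact_mod_cast hl
  by_cases hls : s ^ d < l
  · rw [cr_empty β s p q l hls]
    positivity
  push Not at hls
  have hlsR : (l : ℝ) ≤ (s : ℝ) ^ d := by exact_mod_cast hls
  have hl2 : (l : ℝ) ^ 2 ≤ (s : ℝ) ^ (2 * d) := by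
    calc (l : ℝ) ^ 2 ≤ ((s : ℝ) ^ d) ^ 2 := pow_le_pow_left₀ (by positivity) hlsR 2
      _ = (s : ℝ) ^ (2 * d) := by rw [← pow_mul, mul_comm]
  have hexp1 : (1 : ℝ) ≤ Real.exp F0 := Real.one_le_exp hF0
  by_cases hii : i = i'
  · subst hii
    have hne' := hne rfl
    have hcase : (p i = 0 ∧ q i = s - 1) ∨ (p i = s - 1 ∧ q i = 0) := by
      rcases hp with hp | hp <;> rcases hq with hq | hq
      · exact absurd (hp.trans hq.symm) hne'
      · exact Or.inl ⟨hp, hq⟩
      · exact Or.inr ⟨hp, hq⟩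
      · exact absurd (hp.trans hq.symm) hne'
    obtain ⟨j, hj⟩ : ∃ j : Fin d, i ≠ j := by
      by_cases h0 : i = ⟨0, by omega⟩
      · refine ⟨⟨1, by omega⟩, ?_⟩
        rw [h0]
        intro h
        simp at h
      · exact ⟨⟨0, by omega⟩, h0⟩
    obtain ⟨e, he, hpow⟩ := hO β s l s i j p q hβ hs hl hs hj hcase
    have hL1 : 1 ≤ 4 * s * l + e := by nlinarith
    have hz := hZ (4 * s * l + e) hL1
    set L : ℝ := ((4 * s * l + e : ℕ) : ℝ) with hL
    have heR : (e : ℝ) ≤ 4 * s := by exact_mod_cast he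
    have hLe : L ≤ 4 * s * l + 4 * s := by
      rw [hL]
      push_cast
      linarith
    have hLpos : 0 ≤ L := Nat.cast_nonneg _
    have hL8 : L ≤ 8 * (s : ℝ) ^ (d + 1) := by
      have h1 : (s : ℝ) * l ≤ (s : ℝ) ^ (d + 1) := by
        rw [pow_succ, mul_comm]
        exact mul_le_mul_of_nonneg_right hlsR (by positivity)
      nlinarith
    have hL2 : L ^ 2 ≤ 64 * (s : ℝ) ^ (2 * d + 2) := by
      calc L ^ 2 ≤ (8 * (s : ℝ) ^ (d + 1)) ^ 2 := pow_le_pow_left₀ hLpos hL8 2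
        _ = 64 * (s : ℝ) ^ (2 * d + 2) := by ring
    have hmain : Pq d β s p q l ≤ (1 + C0 * L ^ 2) * Real.exp (F0 * l + F0) := by
      refine cr_root (Pq d β s p q l) (C0 * L ^ 2) (Real.exp (F0 * l + F0)) (4 * s)
        (by positivity) (Real.exp_pos _) (by omega) ?_
      refine le_trans hpow (le_trans hz ?_)
      apply mul_le_mul_of_nonneg_left _ (by positivity)
      rw [← Real.exp_nat_mul]
      apply Real.exp_le_exp.2
      push_cast
      nlinarith
    have hsp : (1 : ℝ) ≤ (s : ℝ) ^ (2 * d + 2) := one_le_pow₀ hs1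
    have h5 : 1 + C0 * L ^ 2 ≤ (1 + 64 * C0) * (s : ℝ) ^ (2 * d + 2) := by
      have := mul_le_mul_of_nonneg_left hL2 hC0
      linarith
    calc Pq d β s p q l ≤ (1 + C0 * L ^ 2) * Real.exp (F0 * l + F0) := hmain
      _ ≤ ((1 + 64 * C0) * (s : ℝ) ^ (2 * d + 2)) * Real.exp (F0 * l + F0) :=
          mul_le_mul_of_nonneg_right h5 (Real.exp_pos _).le
      _ = (1 + 64 * C0) * Real.exp F0 * (s : ℝ) ^ (2 * d + 2) * Real.exp (F0 * l) := by
          rw [Real.exp_add]
          ring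
  · have hpow := hA β s l i i' p q hβ hs hl hii hp hq
    have hz := hZ (4 * l) (by omega)
    have hmain : Pq d β s p q l ≤ (1 + C0 * (4 * l) ^ 2) * Real.exp (F0 * l) := by
      refine cr_root (Pq d β s p q l) (C0 * (4 * l) ^ 2) (Real.exp (F0 * l)) 4
        (by positivity) (Real.exp_pos _) (by omega) ?_
      refine le_trans hpow (le_trans hz ?_)
      rw [← Real.exp_nat_mul]
      push_cast
      apply le_of_eq
      congr 2
      ring
    have hsp : (1 : ℝ) ≤ (s : ℝ) ^ (2 * d) := one_le_pow₀ hs1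
    have h5 : 1 + C0 * (4 * (l : ℝ)) ^ 2 ≤ (1 + 64 * C0) * (s : ℝ) ^ (2 * d) := by
      have := mul_le_mul_of_nonneg_left hl2 hC0
      nlinarith
    have h6 : (s : ℝ) ^ (2 * d) ≤ (s : ℝ) ^ (2 * d + 2) :=
      pow_le_pow_right₀ hs1 (by omega)
    calc Pq d β s p q l ≤ (1 + C0 * (4 * l) ^ 2) * Real.exp (F0 * l) := hmain
      _ ≤ ((1 + 64 * C0) * (s : ℝ) ^ (2 * d)) * Real.exp (F0 * l) :=
          mul_le_mul_of_nonneg_right h5 (Real.exp_pos _).le
      _ ≤ ((1 + 64 * C0) * Real.exp F0 * (s : ℝ) ^ (2 * d + 2)) * Real.exp (F0 * l) := by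
          apply mul_le_mul_of_nonneg_right _ (Real.exp_pos _).le
          calc (1 + 64 * C0) * (s : ℝ) ^ (2 * d) ≤ (1 + 64 * C0) * (s : ℝ) ^ (2 * d + 2) :=
                mul_le_mul_of_nonneg_left h6 (by positivity)
            _ = (1 + 64 * C0) * 1 * (s : ℝ) ^ (2 * d + 2) := by ring
            _ ≤ (1 + 64 * C0) * Real.exp F0 * (s : ℝ) ^ (2 * d + 2) := by
                apply mul_le_mul_of_nonneg_right _ (by positivity)
                exact mul_le_mul_of_nonneg_left hexp1 (by positivity)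
      _ = (1 + 64 * C0) * Real.exp F0 * (s : ℝ) ^ (2 * d + 2) * Real.exp (F0 * l) := by ring

end Pool.Agent.H981R3.IS
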