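import Pool.Agent.H981R3.IS.CRL

/-!
# Paths between faces of different directions: four reflected copies
-/

set_option autoImplicit false

namespace Pool.Agent.H981R3.IS

open Finset

variable {d : ℕ}

theorem cra_bxF {s : ℕ} {x : Vx d} : x ∈ bxF d s ↔ ∀ k, 0 ≤ x k ∧ x k < s := by
  unfold bxF
  rw [Fintype.mem_piFinset]
  simp

/-- `c = -1` or `c = 2s-1`: reflection which maps `[0,s)` to a disjoint interval next to the
coordinate `v` -/
theorem cra_c (s : ℕ) (v : ℤ) (h : v = 0 ∨ v = s - 1) : ∃ c : ℤ,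
    (∀ t : ℤ, 0 ≤ t → t < s → (c - t < 0 ∨ (s : ℤ) ≤ c - t)) ∧ |v - (c - v)| = 1 ∧
    (∀ t : ℤ, 0 ≤ t → t < s → -(s : ℤ) ≤ c - t ∧ c - t ≤ 2 * s) := by
  rcases h with h | h
  · refine ⟨-1, fun t h0 h1 => Or.inl (by linarith), ?_, fun t h0 h1 => ⟨by linarith, by linarith⟩⟩
    rw [h]; rfl
  · refine ⟨2 * s - 1, fun t h0 h1 => Or.inr (by linarith), ?_,
      fun t h0 h1 => ⟨by linarith, by linarith⟩⟩
    rw [h]
    have : (s : ℤ) - 1 - (2 * s - 1 - (s - 1)) = -1 := by ring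
    rw [this]; rfl

theorem cra_main (hI : St_ISO d) (hA : St_ACM d) (β : ℝ) (hβ : 0 ≤ β) (s l : ℕ) (i i' : Fin d)
    (p q : Vx d) (hl : 1 ≤ l) (hii : i ≠ i') (hp : p i = 0 ∨ p i = s - 1)
    (hq : q i' = 0 ∨ q i' = s - 1) :
    Pq d β s p q l ^ 4 ≤ Zc d β (4 * l) := by
  have hs : (0 : ℤ) ≤ s := Int.natCast_nonneg _
  obtain ⟨c, hc1, hc2, hc3⟩ := cra_c s (p i) hp
  obtain ⟨c', hc1', hc2', hc3'⟩ := cra_c s (q i') hq
  rw [crl_Pq]
  set F0 := crl_F β (bxF d s) l p q with hF0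
  let Z : Finset (Vx d) := Fintype.piFinset (fun _ => Icc (-(s : ℤ)) (2 * s))
  have hZ : ∀ x : Vx d, x ∈ Z ↔ ∀ k, -(s : ℤ) ≤ x k ∧ x k ≤ 2 * s := by
    intro x
    simp [Z, Fintype.mem_piFinset]
  -- in / out in the two coordinates
  let I : ℤ → Prop := fun t => 0 ≤ t ∧ t < s
  have hIc : ∀ t, I t → ¬ I (c - t) := by
    rintro t ⟨h1, h2⟩ ⟨h3, h4⟩
    rcases hc1 t h1 h2 with h | h <;> linarith
  have hIc' : ∀ t, I t → ¬ I (c' - t) := by
    rintro t ⟨h1, h2⟩ ⟨h3, h4⟩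
    rcases hc1' t h1 h2 with h | h <;> linarith
  let X1 : Finset (Vx d) := Z.filter (fun x => (0 ≤ x i ∧ x i < s) ∧ (0 ≤ x i' ∧ x i' < s))
  let X2 : Finset (Vx d) := Z.filter (fun x => (0 ≤ x i ∧ x i < s) ∧ ¬ (0 ≤ x i' ∧ x i' < s))
  let X3 : Finset (Vx d) := Z.filter (fun x => ¬ (0 ≤ x i ∧ x i < s) ∧ ¬ (0 ≤ x i' ∧ x i' < s))
  let X4 : Finset (Vx d) := Z.filter (fun x => ¬ (0 ≤ x i ∧ x i < s) ∧ (0 ≤ x i' ∧ x i' < s))
  let Y2 : Finset (Vx d) := Z.filter (fun x => 0 ≤ x i ∧ x i < s)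
  let Y3 : Finset (Vx d) := Z.filter (fun x => (0 ≤ x i ∧ x i < s) ∨ ¬ (0 ≤ x i' ∧ x i' < s))
  have hb : ∀ x ∈ bxF d s, x ∈ X1 := by
    intro x hx
    rw [cra_bxF] at hx
    refine Finset.mem_filter.2 ⟨(hZ x).2 (fun k => ?_), hx i, hx i'⟩
    constructor <;> linarith [(hx k).1, (hx k).2]
  have hR' : ∀ x ∈ X1, crl_R i' c' x ∈ X2 := by
    intro x hx
    obtain ⟨h1, h2, h3⟩ := Finset.mem_filter.1 hx
    rw [hZ] at h1
    refine Finset.mem_filter.2 ⟨(hZ _).2 (fun k => ?_), ?_, ?_⟩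
    · by_cases hk : k = i'
      · subst hk
        rw [crl_R_self]
        exact hc3' _ h3.1 h3.2
      · rw [crl_R_ne _ _ _ hk]
        exact h1 k
    · rw [crl_R_ne _ _ _ hii]
      exact h2
    · rw [crl_R_self]
      exact hIc' _ h3
  have hR3 : ∀ x ∈ X2, crl_R i c x ∈ X3 := by
    intro x hx
    obtain ⟨h1, h2, h3⟩ := Finset.mem_filter.1 hx
    rw [hZ] at h1
    refine Finset.mem_filter.2 ⟨(hZ _).2 (fun k => ?_), ?_, ?_⟩
    · by_cases hk : k = i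
      · subst hk
        rw [crl_R_self]
        exact hc3 _ h2.1 h2.2
      · rw [crl_R_ne _ _ _ hk]
        exact h1 k
    · rw [crl_R_self]
      exact hIc _ h2
    · rw [crl_R_ne _ _ _ hii.symm]
      exact h3
  have hR4 : ∀ x ∈ X1, crl_R i c x ∈ X4 := by
    intro x hx
    obtain ⟨h1, h2, h3⟩ := Finset.mem_filter.1 hx
    rw [hZ] at h1
    refine Finset.mem_filter.2 ⟨(hZ _).2 (fun k => ?_), ?_, ?_⟩
    · by_cases hk : k = i
      · subst hk
        rw [crl_R_self]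
        exact hc3 _ h2.1 h2.2
      · rw [crl_R_ne _ _ _ hk]
        exact h1 k
    · rw [crl_R_self]
      exact hIc _ h2
    · rw [crl_R_ne _ _ _ hii.symm]
      exact h3
  set q' := crl_R i' c' q with hq'
  set p' := crl_R i' c' p with hp'
  have r1 : F0 ≤ crl_F β X1 l p q := crl_mono β hb l p q
  have r2' : crl_F β X1 l p q ≤ crl_F β X2 l p' q' :=
    crl_auto hI β (crl_R_inj i' c') (crl_R_adj i' c') hR' l p q
  have r2 : F0 ≤ crl_F β X2 l q' p' := (r1.trans r2').trans (crl_rev hA β _ l _ _)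
  have r3 : F0 ≤ crl_F β X3 l (crl_R i c p') (crl_R i c q') :=
    (r1.trans r2').trans (crl_auto hI β (crl_R_inj i c) (crl_R_adj i c) hR3 l p' q')
  have r4 : F0 ≤ crl_F β X4 l (crl_R i c q) (crl_R i c p) :=
    (r1.trans (crl_auto hI β (crl_R_inj i c) (crl_R_adj i c) hR4 l p q)).trans
      (crl_rev hA β _ l _ _)
  have a1 : adj q q' := by
    refine crl_adj_of i' ?_ (fun k hk => (crl_R_ne _ _ _ hk).symm)
    rw [hq', crl_R_self]; exact hc2'
  have a2 : adj p' (crl_R i c p') := by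
    refine crl_adj_of i ?_ (fun k hk => (crl_R_ne _ _ _ hk).symm)
    rw [crl_R_self, hp', crl_R_ne _ _ _ hii]; exact hc2
  have a3 : adj (crl_R i c q') (crl_R i c q) :=
    (crl_R_adj i c _ _).2 (crl_adj_symm a1)
  have a4 : adj (crl_R i c p) p := by
    apply crl_adj_symm
    refine crl_adj_of i ?_ (fun k hk => (crl_R_ne _ _ _ hk).symm)
    rw [crl_R_self]; exact hc2
  have c1 := crl_cat hA β hβ (X := X1) (Y := X2) (Z := Y2)
    (fun x hx hy => (Finset.mem_filter.1 hy).2.2 (Finset.mem_filter.1 hx).2.2)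
    (fun x hx => Finset.mem_filter.2 ⟨(Finset.mem_filter.1 hx).1, (Finset.mem_filter.1 hx).2.1⟩)
    (fun x hx => Finset.mem_filter.2 ⟨(Finset.mem_filter.1 hx).1, (Finset.mem_filter.1 hx).2.1⟩)
    l l (a := p) (e := p') a1
  have c2 := crl_cat hA β hβ (X := Y2) (Y := X3) (Z := Y3)
    (fun x hx hy => (Finset.mem_filter.1 hy).2.1 (Finset.mem_filter.1 hx).2)
    (fun x hx => Finset.mem_filter.2 ⟨(Finset.mem_filter.1 hx).1,
      Or.inl (Finset.mem_filter.1 hx).2⟩)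
    (fun x hx => Finset.mem_filter.2 ⟨(Finset.mem_filter.1 hx).1,
      Or.inr (Finset.mem_filter.1 hx).2.2⟩)
    (l + l) l (a := p) (e := crl_R i c q') a2
  have c3 := crl_cat hA β hβ (X := Y3) (Y := X4) (Z := Z)
    (fun x hx hy => by
      have h1 := (Finset.mem_filter.1 hy).2
      rcases (Finset.mem_filter.1 hx).2 with h | h
      · exact h1.1 h
      · exact h h1.2)
    (fun x hx => (Finset.mem_filter.1 hx).1)
    (fun x hx => (Finset.mem_filter.1 hx).1)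
    (l + l + l) l (a := p) (e := crl_R i c p) a3
  have hlen : l + l + l + l = 4 * l := by ring
  rw [hlen] at c3
  have c4 := crl_close hI hA β Z (l := 4 * l) (by omega) a4
  have n0 : 0 ≤ F0 := crl_F_nonneg _ _ _ _ _
  calc F0 ^ 4 = F0 * F0 * F0 * F0 := by ring
    _ ≤ crl_F β X1 l p q * crl_F β X2 l q' p' * crl_F β X3 l (crl_R i c p') (crl_R i c q') *
        crl_F β X4 l (crl_R i c q) (crl_R i c p) :=
        mul_le_mul (mul_le_mul (mul_le_mul r1 r2 n0 (crl_F_nonneg _ _ _ _ _)) r3 n0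
          (mul_nonneg (crl_F_nonneg _ _ _ _ _) (crl_F_nonneg _ _ _ _ _))) r4 n0
          (mul_nonneg (mul_nonneg (crl_F_nonneg _ _ _ _ _) (crl_F_nonneg _ _ _ _ _))
            (crl_F_nonneg _ _ _ _ _))
    _ ≤ crl_F β Y2 (l + l) p p' * crl_F β X3 l (crl_R i c p') (crl_R i c q') *
        crl_F β X4 l (crl_R i c q) (crl_R i c p) :=
        mul_le_mul_of_nonneg_right (mul_le_mul_of_nonneg_right c1 (crl_F_nonneg _ _ _ _ _))
          (crl_F_nonneg _ _ _ _ _)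
    _ ≤ crl_F β Y3 (l + l + l) p (crl_R i c q') * crl_F β X4 l (crl_R i c q) (crl_R i c p) :=
        mul_le_mul_of_nonneg_right c2 (crl_F_nonneg _ _ _ _ _)
    _ ≤ crl_F β Z (4 * l) p (crl_R i c p) := c3
    _ ≤ Zc d β (4 * l) := c4

theorem p_CRA (d : ℕ) (h_ISO : St_ISO d) (h_ACM : St_ACM d) : St_CRA d := by
  intro β s l i i' p q hβ _ hl hii hp hq
  exact cra_main h_ISO h_ACM β hβ s l i i' p q hl hii hp hq

end Pool.Agent.H981R3.IS
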