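import Pool.Agent.H981R3.IS.Stubs

/-!
# Sums over paths with given ends: automorphisms, reversal, concatenation, closing
-/

set_option autoImplicit false

namespace Pool.Agent.H981R3.IS

open Finset

variable {d : ℕ}

open scoped Classical in
/-- paths in `X` from `a` to `b` with `l` vertices -/
noncomputable def crl_S (X : Finset (Vx d)) (l : ℕ) (a b : Vx d) : Finset (List (Vx d)) :=
  (LL X l).filter (fun P => IsP P ∧ P.head? = some a ∧ P.getLast? = some b)

/-- their partition function -/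
noncomputable def crl_F (β : ℝ) (X : Finset (Vx d)) (l : ℕ) (a b : Vx d) : ℝ :=
  ∑ P ∈ crl_S X l a b, wt β P

theorem crl_memLL {X : Finset (Vx d)} {l : ℕ} {P : List (Vx d)} :
    P ∈ LL X l ↔ P.length = l ∧ ∀ x ∈ P, x ∈ X := by
  unfold LL
  rw [Finset.mem_image]
  constructor
  · rintro ⟨f, hf, rfl⟩
    refine ⟨List.length_ofFn, fun x hx => ?_⟩
    obtain ⟨i, rfl⟩ := List.mem_ofFn.1 hx
    exact (Fintype.mem_piFinset.1 hf) i
  · rintro ⟨hl, hx⟩
    subst hl
    exact ⟨fun i => P.get i, Fintype.mem_piFinset.2 (fun i => hx _ (List.get_mem _ _)),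
      List.ofFn_get P⟩

theorem crl_mem {X : Finset (Vx d)} {l : ℕ} {a b : Vx d} {P : List (Vx d)} :
    P ∈ crl_S X l a b ↔ P.length = l ∧ (∀ x ∈ P, x ∈ X) ∧ IsP P ∧ P.head? = some a ∧
      P.getLast? = some b := by
  simp only [crl_S, Finset.mem_filter, crl_memLL]
  tauto

theorem crl_wt_pos (β : ℝ) (P : List (Vx d)) : 0 < wt β P := Real.exp_pos _

theorem crl_one_le (β : ℝ) (hβ : 0 ≤ β) (P : List (Vx d)) : 1 ≤ wt β P := by
  unfold wt
  exact Real.one_le_exp (mul_nonneg hβ (Nat.cast_nonneg _))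

theorem crl_F_nonneg (β : ℝ) (X : Finset (Vx d)) (l : ℕ) (a b : Vx d) : 0 ≤ crl_F β X l a b :=
  Finset.sum_nonneg (fun P _ => (crl_wt_pos β P).le)

theorem crl_Pq (β : ℝ) (s : ℕ) (p q : Vx d) (l : ℕ) :
    Pq d β s p q l = crl_F β (bxF d s) l p q := rfl

/-- comparison of sums through an injection -/
theorem crl_inj {ι : Type} (β : ℝ) (S : Finset ι) (T : Finset (List (Vx d)))
    (Φ : ι → List (Vx d)) (f : ι → ℝ) (hm : ∀ x ∈ S, Φ x ∈ T)
    (hi : ∀ x ∈ S, ∀ y ∈ S, Φ x = Φ y → x = y) (hf : ∀ x ∈ S, f x ≤ wt β (Φ x)) :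
    ∑ x ∈ S, f x ≤ ∑ P ∈ T, wt β P := by
  classical
  calc ∑ x ∈ S, f x ≤ ∑ x ∈ S, wt β (Φ x) := Finset.sum_le_sum hf
    _ = ∑ P ∈ S.image Φ, wt β P := by
        rw [Finset.sum_image]
        intro x hx y hy h
        exact hi x hx y hy h
    _ ≤ ∑ P ∈ T, wt β P := by
        apply Finset.sum_le_sum_of_subset_of_nonneg
        · intro P hP
          obtain ⟨x, hx, rfl⟩ := Finset.mem_image.1 hP
          exact hm x hx
        · intro P _ _
          exact (crl_wt_pos β P).le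

theorem crl_mono (β : ℝ) {X Y : Finset (Vx d)} (h : ∀ x ∈ X, x ∈ Y) (l : ℕ) (a b : Vx d) :
    crl_F β X l a b ≤ crl_F β Y l a b := by
  refine crl_inj β _ _ id _ (fun P hP => ?_) (fun x _ y _ h => h) (fun P _ => le_refl _)
  obtain ⟨h1, h2, h3⟩ := crl_mem.1 hP
  exact crl_mem.2 ⟨h1, fun x hx => h x (h2 x hx), h3⟩

theorem crl_auto (hI : St_ISO d) (β : ℝ) {φ : Vx d → Vx d} (hφ : Function.Injective φ)
    (ha : ∀ x y, adj (φ x) (φ y) ↔ adj x y) {X Y : Finset (Vx d)} (h : ∀ x ∈ X, φ x ∈ Y)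
    (l : ℕ) (a b : Vx d) : crl_F β X l a b ≤ crl_F β Y l (φ a) (φ b) := by
  obtain ⟨_, hI2⟩ := hI φ hφ ha
  refine crl_inj β _ _ (fun P => P.map φ) _ (fun P hP => ?_)
    (fun x _ y _ h => List.map_injective_iff.2 hφ h) (fun P _ => ?_)
  · obtain ⟨h1, h2, h3, h4, h5⟩ := crl_mem.1 hP
    refine crl_mem.2 ⟨by simp [h1], ?_, (hI2 β P).1.2 h3, by simp [h4], by simp [h5]⟩
    intro x hx
    obtain ⟨y, hy, rfl⟩ := List.mem_map.1 hx
    exact h y (h2 y hy)
  · exact ((hI2 β P).2.2.1).ge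

theorem crl_rev (hA : St_ACM d) (β : ℝ) (X : Finset (Vx d)) (l : ℕ) (a b : Vx d) :
    crl_F β X l a b ≤ crl_F β X l b a := by
  obtain ⟨_, _, _, _, _, hr, _⟩ := hA
  refine crl_inj β _ _ (fun P => P.reverse) _ (fun P hP => ?_)
    (fun x _ y _ h => List.reverse_injective h) (fun P _ => ?_)
  · obtain ⟨h1, h2, h3, h4, h5⟩ := crl_mem.1 hP
    refine crl_mem.2 ⟨by simp [h1], ?_, hr P h3, by simp [h5], by simp [h4]⟩
    intro x hx
    exact h2 x (List.mem_reverse.1 hx)
  · simp [wt]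

theorem crl_wt_append (hA : St_ACM d) (β : ℝ) (hβ : 0 ≤ β) (P Q : List (Vx d))
    (h : List.Disjoint P Q) : wt β P * wt β Q ≤ wt β (P ++ Q) := by
  unfold wt
  rw [← Real.exp_add, ← mul_add, List.toFinset_append]
  apply Real.exp_le_exp.2
  apply mul_le_mul_of_nonneg_left _ hβ
  have h1 : Disjoint P.toFinset Q.toFinset := by
    rw [Finset.disjoint_left]
    intro x hx hy
    exact h (List.mem_toFinset.1 hx) (List.mem_toFinset.1 hy)
  have h2 := hA.2.1 P.toFinset Q.toFinset h1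
  exact_mod_cast h2

theorem crl_cat (hA : St_ACM d) (β : ℝ) (hβ : 0 ≤ β) {X Y Z : Finset (Vx d)}
    (hXY : ∀ x ∈ X, x ∉ Y) (hX : ∀ x ∈ X, x ∈ Z) (hY : ∀ x ∈ Y, x ∈ Z) (l l' : ℕ)
    {a b c e : Vx d} (hbc : adj b c) :
    crl_F β X l a b * crl_F β Y l' c e ≤ crl_F β Z (l + l') a e := by
  have h0 : crl_F β X l a b * crl_F β Y l' c e =
      ∑ x ∈ crl_S X l a b ×ˢ crl_S Y l' c e, wt β x.1 * wt β x.2 := by
    unfold crl_F
    rw [Finset.sum_mul_sum, Finset.sum_product]
  rw [h0]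
  have hd : ∀ x ∈ crl_S X l a b ×ˢ crl_S Y l' c e, List.Disjoint x.1 x.2 := by
    rintro ⟨P, Q⟩ hx
    obtain ⟨hP, hQ⟩ := Finset.mem_product.1 hx
    intro v hv hv'
    exact hXY v ((crl_mem.1 hP).2.1 v hv) ((crl_mem.1 hQ).2.1 v hv')
  refine crl_inj β _ _ (fun x => x.1 ++ x.2) _ ?_ ?_ ?_
  · rintro ⟨P, Q⟩ hx
    have hdis := hd _ hx
    obtain ⟨hP, hQ⟩ := Finset.mem_product.1 hx
    obtain ⟨p1, p2, p3, p4, p5⟩ := crl_mem.1 hP
    obtain ⟨q1, q2, q3, q4, q5⟩ := crl_mem.1 hQ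
    dsimp only at *
    refine crl_mem.2 ⟨by simp [p1, q1], ?_, ⟨?_, ?_⟩, ?_, ?_⟩
    · intro x hx
      rcases List.mem_append.1 hx with h | h
      · exact hX x (p2 x h)
      · exact hY x (q2 x h)
    · rw [List.isChain_append]
      refine ⟨p3.1, q3.1, ?_⟩
      intro x hx y hy
      rw [p5] at hx
      rw [q4] at hy
      simp only [Option.mem_def, Option.some.injEq] at hx hy
      rw [← hx, ← hy]
      exact hbc
    · exact List.nodup_append'.2 ⟨p3.2, q3.2, hdis⟩
    · rw [List.head?_append, p4]; rfl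
    · rw [List.getLast?_append, q5]; rfl
  · rintro ⟨P, Q⟩ hx ⟨P', Q'⟩ hx' h
    obtain ⟨hP, _⟩ := Finset.mem_product.1 hx
    obtain ⟨hP', _⟩ := Finset.mem_product.1 hx'
    have h1 : P.length = P'.length := by
      rw [(crl_mem.1 hP).1, (crl_mem.1 hP').1]
    obtain ⟨h2, h3⟩ := List.append_inj h h1
    exact Prod.ext h2 h3
  · rintro ⟨P, Q⟩ hx
    exact crl_wt_append hA β hβ P Q (hd _ hx)

/-- translations -/
theorem crl_tr_adj (v x y : Vx d) : adj (x + v) (y + v) ↔ adj x y := by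
  unfold adj
  simp

theorem crl_tr_inj (v : Vx d) : Function.Injective (fun x : Vx d => x + v) :=
  fun x y h => by simpa using h

/-- reflections -/
def crl_R (j : Fin d) (c : ℤ) (x : Vx d) : Vx d := Function.update x j (c - x j)

theorem crl_R_self (j : Fin d) (c : ℤ) (x : Vx d) : crl_R j c x j = c - x j := by
  simp [crl_R]

theorem crl_R_ne (j : Fin d) (c : ℤ) (x : Vx d) {k : Fin d} (h : k ≠ j) :
    crl_R j c x k = x k := by
  simp [crl_R, h]

theorem crl_R_R (j : Fin d) (c : ℤ) (x : Vx d) : crl_R j c (crl_R j c x) = x := by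
  ext k
  by_cases h : k = j
  · subst h
    rw [crl_R_self, crl_R_self]; ring
  · rw [crl_R_ne _ _ _ h, crl_R_ne _ _ _ h]

theorem crl_R_inj (j : Fin d) (c : ℤ) : Function.Injective (crl_R j c) := by
  intro x y h
  rw [← crl_R_R j c x, h, crl_R_R]

theorem crl_R_adj (j : Fin d) (c : ℤ) (x y : Vx d) :
    adj (crl_R j c x) (crl_R j c y) ↔ adj x y := by
  unfold adj
  have : ∀ k, |crl_R j c x k - crl_R j c y k| = |x k - y k| := by
    intro k
    by_cases h : k = j
    · subst h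
      rw [crl_R_self, crl_R_self, abs_sub_comm (x k) (y k)]
      congr 1; ring
    · rw [crl_R_ne _ _ _ h, crl_R_ne _ _ _ h]
  simp only [this]

theorem crl_adj_symm {x y : Vx d} (h : adj x y) : adj y x := by
  unfold adj at *
  rw [← h]
  exact Finset.sum_congr rfl (fun k _ => abs_sub_comm _ _)

theorem crl_adj_of {x y : Vx d} (j : Fin d) (hj : |x j - y j| = 1) (h : ∀ k, k ≠ j → x k = y k) :
    adj x y := by
  unfold adj
  rw [Finset.sum_eq_single j]
  · exact hj
  · intro k _ hk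
    rw [h k hk]; simp
  · intro h'
    exact absurd (Finset.mem_univ _) h'

theorem crl_adj_upd (x : Vx d) (j : Fin d) (a b : ℤ) (h : |a - b| = 1) :
    adj (Function.update x j a) (Function.update x j b) := by
  refine crl_adj_of j (by simpa using h) (fun k hk => by simp [hk])

/-- closing -/
theorem crl_close (hI : St_ISO d) (hA : St_ACM d) (β : ℝ) (X : Finset (Vx d)) {l : ℕ}
    (hl : 3 ≤ l) {a b : Vx d} (hab : adj b a) : crl_F β X l a b ≤ Zc d β l := by
  have htr : ∀ x y : Vx d, adj ((fun x : Vx d => x + -a) x) ((fun x : Vx d => x + -a) y) ↔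
    adj x y := fun x y => crl_tr_adj _ _ _
  obtain ⟨_, hI2⟩ := hI (fun x => x + -a) (crl_tr_inj _) htr
  obtain ⟨_, _, _, _, _, _, _, _, _, hc⟩ := hA
  unfold Zc
  refine crl_inj β _ _ (fun P => P.map (fun x => x + -a)) _ (fun P hP => ?_)
    (fun x _ y _ h => List.map_injective_iff.2 (crl_tr_inj _) h) (fun P _ => ?_)
  · obtain ⟨h1, h2, h3, h4, h5⟩ := crl_mem.1 hP
    have hC : IsC (P.map (fun x => x + -a)) := by
      rw [(hI2 β P).2.1]
      exact ⟨h3, by omega, a, b, h4, h5, hab⟩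
    have hh : (P.map (fun x => x + -a)).head? = some 0 := by
      rw [List.head?_map, h4]; simp
    simp only [CW, Finset.mem_filter, crl_memLL]
    refine ⟨⟨by simp [h1], ?_⟩, hC, hh⟩
    exact hc _ l hC.1.1 hh (by simp [h1])
  · exact ((hI2 β P).2.2.1).ge

/-- straight paths -/
theorem crl_vert (x : Vx d) (j : Fin d) (t : ℤ) (n : ℕ) : ∃ C : List (Vx d), IsP C ∧
    C.length = n + 1 ∧ C.head? = some (Function.update x j (t + n)) ∧
    C.getLast? = some (Function.update x j t) ∧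
    ∀ y ∈ C, ∃ c, t ≤ c ∧ c ≤ t + n ∧ y = Function.update x j c := by
  induction n with
  | zero =>
    refine ⟨[Function.update x j t], ⟨by simp, by simp⟩, by simp, by simp, by simp, ?_⟩
    intro y hy
    simp only [List.mem_cons, List.not_mem_nil, or_false] at hy
    exact ⟨t, le_refl _, by simp, hy⟩
  | succ n ih =>
    obtain ⟨C, h1, h2, h3, h4, h5⟩ := ih
    refine ⟨Function.update x j (t + (n + 1 : ℕ)) :: C, ⟨?_, ?_⟩, by simp [h2], by simp, ?_, ?_⟩
    · rw [List.isChain_cons]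
      refine ⟨?_, h1.1⟩
      intro y hy
      rw [h3] at hy
      simp only [Option.mem_def, Option.some.injEq] at hy
      rw [← hy]
      apply crl_adj_upd
      push_cast
      have : t + (↑n + 1) - (t + (n : ℤ)) = 1 := by ring
      rw [this]; rfl
    · rw [List.nodup_cons]
      refine ⟨?_, h1.2⟩
      intro h
      obtain ⟨c, _, hc, he⟩ := h5 _ h
      have := congrFun he j
      simp only [Function.update_self] at this
      push_cast at this
      omega
    · rw [List.getLast?_cons, h4]; rfl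
    · intro y hy
      rcases List.mem_cons.1 hy with rfl | hy
      · exact ⟨t + (n + 1 : ℕ), by push_cast; omega, le_refl _, rfl⟩
      · obtain ⟨c, hc1, hc2, he⟩ := h5 y hy
        exact ⟨c, hc1, by push_cast; omega, he⟩

theorem crl_vert_le (hA : St_ACM d) (β : ℝ) (hβ : 0 ≤ β) (x : Vx d) (j : Fin d) (t : ℤ) (n : ℕ)
    {X : Finset (Vx d)} (hX : ∀ c, t ≤ c → c ≤ t + n → Function.update x j c ∈ X) :
    1 ≤ crl_F β X (n + 1) (Function.update x j (t + n)) (Function.update x j t) ∧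
    1 ≤ crl_F β X (n + 1) (Function.update x j t) (Function.update x j (t + n)) := by
  have key : 1 ≤ crl_F β X (n + 1) (Function.update x j (t + n)) (Function.update x j t) := by
    obtain ⟨C, h1, h2, h3, h4, h5⟩ := crl_vert x j t n
    have hC : C ∈ crl_S X (n + 1) (Function.update x j (t + n)) (Function.update x j t) := by
      refine crl_mem.2 ⟨h2, ?_, h1, h3, h4⟩
      intro y hy
      obtain ⟨c, hc1, hc2, rfl⟩ := h5 y hy
      exact hX c hc1 hc2
    calc (1 : ℝ) ≤ wt β C := crl_one_le β hβ C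
      _ ≤ ∑ P ∈ crl_S X (n + 1) (Function.update x j (t + n)) (Function.update x j t), wt β P :=
        Finset.single_le_sum (fun P _ => (crl_wt_pos β P).le) hC
  exact ⟨key, key.trans (crl_rev hA β X _ _ _)⟩

end Pool.Agent.H981R3.IS
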