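import Pool.Agent.H981R3.IS.CRL

/-!
# Paths between opposite faces: a long double row
-/

set_option autoImplicit false

namespace Pool.Agent.H981R3.IS

open Finset

variable {d : ℕ}

/-- box with side `s`, except `[u,v)` in direction `i` -/
noncomputable def cro_B (s : ℕ) (i : Fin d) (u v : ℤ) : Finset (Vx d) :=
  Fintype.piFinset (fun k => if k = i then Ico u v else Ico 0 (s : ℤ))

theorem cro_mem {s : ℕ} {i : Fin d} {u v : ℤ} {x : Vx d} : x ∈ cro_B s i u v ↔
    (u ≤ x i ∧ x i < v) ∧ ∀ k, k ≠ i → 0 ≤ x k ∧ x k < s := by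
  unfold cro_B
  rw [Fintype.mem_piFinset]
  constructor
  · intro h
    refine ⟨?_, fun k hk => ?_⟩
    · have := h i
      simpa using this
    · have := h k
      simpa [hk] using this
  · rintro ⟨h1, h2⟩ k
    by_cases hk : k = i
    · subst hk
      simpa using h1
    · simpa [hk] using h2 k hk

theorem cro_bxF {s : ℕ} {x : Vx d} : x ∈ bxF d s ↔ ∀ k, 0 ≤ x k ∧ x k < s := by
  unfold bxF
  rw [Fintype.mem_piFinset]
  simp

theorem cro_A (hI : St_ISO d) (hA : St_ACM d) (β : ℝ) (hβ : 0 ≤ β) (s l : ℕ) (i : Fin d)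
    (p q : Vx d) (hp : p i = 0) (hq : q i = s - 1) :
    crl_F β (bxF d s) l p q * crl_F β (bxF d s) l p q ≤
      crl_F β (cro_B s i 0 (2 * s)) (2 * l) p (Function.update p i (2 * s - 1)) := by
  have h1 : crl_F β (bxF d s) l p q ≤ crl_F β (cro_B s i s (2 * s)) l
      (crl_R i (2 * s - 1) q) (crl_R i (2 * s - 1) p) := by
    refine (crl_auto hI β (crl_R_inj i (2 * s - 1)) (crl_R_adj i (2 * s - 1)) ?_ l p q).trans
      (crl_rev hA β _ l _ _)
    intro x hx
    rw [cro_bxF] at hx
    rw [cro_mem]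
    refine ⟨?_, fun k hk => ?_⟩
    · rw [crl_R_self]
      have := hx i
      constructor <;> linarith [this.1, this.2]
    · rw [crl_R_ne _ _ _ hk]
      exact hx k
  have h2 : adj q (crl_R i (2 * s - 1) q) := by
    refine crl_adj_of i ?_ (fun k hk => (crl_R_ne _ _ _ hk).symm)
    rw [crl_R_self, hq]
    have : (s : ℤ) - 1 - (2 * s - 1 - (s - 1)) = -1 := by ring
    rw [this]; rfl
  have h3 : crl_R i (2 * s - 1) p = Function.update p i (2 * s - 1) := by
    unfold crl_R
    rw [hp, sub_zero]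
  rw [h3] at h1
  have h4 := crl_cat hA β hβ (X := bxF d s) (Y := cro_B s i s (2 * s))
    (Z := cro_B s i 0 (2 * s)) (fun x hx hy => ?_) (fun x hx => ?_) (fun x hx => ?_) l l
    (a := p) (e := Function.update p i (2 * s - 1)) h2
  · have e1 : 2 * l = l + l := two_mul l
    rw [e1]
    refine le_trans ?_ h4
    exact mul_le_mul_of_nonneg_left h1 (crl_F_nonneg _ _ _ _ _)
  · have h5 := (cro_bxF.1 hx) i
    have h6 := (cro_mem.1 hy).1
    linarith [h5.2, h6.1]
  · have h5 := cro_bxF.1 hx
    rw [cro_mem]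
    refine ⟨⟨(h5 i).1, ?_⟩, fun k _ => h5 k⟩
    linarith [(h5 i).1, (h5 i).2]
  · have h5 := cro_mem.1 hx
    rw [cro_mem]
    refine ⟨⟨?_, h5.1.2⟩, h5.2⟩
    have := h5.1.1
    have h0 : (0 : ℤ) ≤ s := Int.natCast_nonneg _
    linarith

theorem cro_Row (hI : St_ISO d) (hA : St_ACM d) (β : ℝ) (hβ : 0 ≤ β) (s l : ℕ) (i : Fin d)
    (p q : Vx d) (hp : p i = 0) (hq : q i = s - 1) (m : ℕ) :
    crl_F β (bxF d s) l p q ^ (2 * (m + 1)) ≤
      crl_F β (cro_B s i 0 (2 * (m + 1) * s)) (2 * (m + 1) * l) p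
        (Function.update p i (2 * (m + 1) * s - 1)) := by
  have hs : (0 : ℤ) ≤ s := Int.natCast_nonneg _
  have hAA := cro_A hI hA β hβ s l i p q hp hq
  induction m with
  | zero =>
    simp only [Nat.cast_zero, zero_add, mul_one, pow_two]
    exact hAA
  | succ m ih =>
    have hT : (0 : ℤ) ≤ 2 * (m + 1) * s := by positivity
    generalize hTT : (2 * ((m : ℤ) + 1) * s) = T at *
    have e1 : (2 * (((m + 1 : ℕ) : ℤ) + 1) * s) = T + 2 * s := by
      rw [← hTT]; push_cast; ring
    rw [e1]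
    have e2 : 2 * (m + 1 + 1) * l = 2 * (m + 1) * l + 2 * l := by ring
    rw [e2]
    have e3 : 2 * (m + 1 + 1) = 2 * (m + 1) + 2 := by ring
    rw [e3, pow_add, pow_two]
    have h1 : crl_F β (cro_B s i 0 (2 * s)) (2 * l) p (Function.update p i (2 * s - 1)) ≤
        crl_F β (cro_B s i T (T + 2 * s)) (2 * l) (Function.update p i T)
          (Function.update p i (T + 2 * s - 1)) := by
      have h2 := crl_auto hI β (crl_tr_inj (Pi.single i T)) (crl_tr_adj (Pi.single i T))
        (X := cro_B s i 0 (2 * s)) (Y := cro_B s i T (T + 2 * s)) (fun x hx => ?_)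
        (2 * l) p (Function.update p i (2 * s - 1))
      · have h3 : p + Pi.single i T = Function.update p i T := by
          ext k
          by_cases hk : k = i
          · subst hk; simp [hp]
          · simp [hk]
        have h4 : Function.update p i (2 * (s : ℤ) - 1) + Pi.single i T =
            Function.update p i (T + 2 * s - 1) := by
          ext k
          by_cases hk : k = i
          · subst hk; simp; ring
          · simp [hk]
        simp only [h3, h4] at h2
        exact h2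
      · have h5 := cro_mem.1 hx
        rw [cro_mem]
        refine ⟨?_, fun k hk => ?_⟩
        · simp only [Pi.add_apply, Pi.single_eq_same]
          constructor <;> linarith [h5.1.1, h5.1.2]
        · simp only [Pi.add_apply, Pi.single_apply, hk, if_false, add_zero]
          exact h5.2 k hk
    have h6 : adj (Function.update p i (T - 1)) (Function.update p i T) := by
      apply crl_adj_upd
      have : T - 1 - T = -1 := by ring
      rw [this]; rfl
    have h7 := crl_cat hA β hβ (X := cro_B s i 0 T) (Y := cro_B s i T (T + 2 * s))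
      (Z := cro_B s i 0 (T + 2 * s)) (fun x hx hy => ?_) (fun x hx => ?_) (fun x hx => ?_)
      (2 * (m + 1) * l) (2 * l) (a := p) (e := Function.update p i (T + 2 * s - 1)) h6
    · refine le_trans ?_ h7
      exact mul_le_mul ih (hAA.trans h1) (mul_nonneg (crl_F_nonneg _ _ _ _ _)
        (crl_F_nonneg _ _ _ _ _)) (crl_F_nonneg _ _ _ _ _)
    · linarith [(cro_mem.1 hx).1.2, (cro_mem.1 hy).1.1]
    · have h5 := cro_mem.1 hx
      exact cro_mem.2 ⟨⟨h5.1.1, by linarith [h5.1.2]⟩, h5.2⟩
    · have h5 := cro_mem.1 hx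
      exact cro_mem.2 ⟨⟨by linarith [h5.1.1], h5.1.2⟩, h5.2⟩

theorem cro_main (hI : St_ISO d) (hA : St_ACM d) (β : ℝ) (hβ : 0 ≤ β) (s l M : ℕ) (i i' : Fin d)
    (p q : Vx d) (hl : 1 ≤ l) (hM : 1 ≤ M) (hii : i ≠ i') (hp : p i = 0) (hq : q i = s - 1)
    (hpb : p ∈ bxF d s) :
    ∃ e : ℕ, e ≤ 4 * s ∧ Pq d β s p q l ^ (4 * M) ≤ Zc d β (4 * M * l + e) := by
  have hs : (0 : ℤ) ≤ s := Int.natCast_nonneg _
  obtain ⟨m, rfl⟩ : ∃ m, M = m + 1 := ⟨M - 1, by omega⟩
  have hrow := cro_Row hI hA β hβ s l i p q hp hq m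
  have hW0 : (0 : ℤ) ≤ 2 * (m + 1) * s := by positivity
  have hpb' := cro_bxF.1 hpb
  have hs1 : (0 : ℤ) < s := by linarith [(hpb' i).1, (hpb' i).2]
  have hW1 : (1 : ℤ) ≤ 2 * (m + 1) * s := by nlinarith [Int.natCast_nonneg m]
  generalize hWW : (2 * ((m : ℤ) + 1) * s) = W at *
  obtain ⟨a, ha⟩ : ∃ a : ℕ, (a : ℤ) = p i' := ⟨(p i').toNat, Int.toNat_of_nonneg (hpb' i').1⟩
  have has : a < s := by
    have := (hpb' i').2
    rw [← ha] at this
    exact_mod_cast this
  refine ⟨4 * a + 4, by omega, ?_⟩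
  rw [crl_Pq]
  set F0 := crl_F β (bxF d s) l p q with hF0
  set L := 2 * (m + 1) * l with hL
  -- the big box
  set N : ℤ := W + s + 5 with hN
  let Z : Finset (Vx d) := Fintype.piFinset (fun _ => Icc (-N) N)
  have hZ : ∀ x : Vx d, x ∈ Z ↔ ∀ k, -N ≤ x k ∧ x k ≤ N := by
    intro x
    simp [Z, Fintype.mem_piFinset]
  let X1 : Finset (Vx d) := Z.filter (fun x => (0 ≤ x i ∧ x i < W) ∧ 0 ≤ x i')
  let X2 : Finset (Vx d) := Z.filter (fun x => (0 ≤ x i ∧ x i < W) ∧ x i' < 0)
  let YR : Finset (Vx d) := Z.filter (fun x => x i = W)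
  let YL : Finset (Vx d) := Z.filter (fun x => x i = -1)
  let Z1 : Finset (Vx d) := Z.filter (fun x => 0 ≤ x i ∧ (x i < W → 0 ≤ x i'))
  let Z2 : Finset (Vx d) := Z.filter (fun x => 0 ≤ x i)
  set pW := Function.update p i (W - 1) with hpW
  -- first row
  have r1 : F0 ^ (2 * (m + 1)) ≤ crl_F β X1 L p pW := by
    refine hrow.trans (crl_mono β (fun x hx => ?_) L p pW)
    have h5 := cro_mem.1 hx
    refine Finset.mem_filter.2 ⟨(hZ x).2 (fun k => ?_), h5.1, (h5.2 i' hii.symm).1⟩
    by_cases hk : k = i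
    · subst hk
      constructor <;> linarith [h5.1.1, h5.1.2]
    · constructor <;> linarith [(h5.2 k hk).1, (h5.2 k hk).2]
  -- second row
  have r2 : F0 ^ (2 * (m + 1)) ≤ crl_F β X2 L (crl_R i' (-1) pW) (crl_R i' (-1) p) := by
    refine hrow.trans ((crl_auto hI β (crl_R_inj i' (-1)) (crl_R_adj i' (-1)) (fun x hx => ?_)
      L p pW).trans (crl_rev hA β _ L _ _))
    have h5 := cro_mem.1 hx
    have h6 := h5.2 i' hii.symm
    refine Finset.mem_filter.2 ⟨(hZ _).2 (fun k => ?_), ?_, ?_⟩
    · by_cases hk : k = i'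
      · subst hk
        rw [crl_R_self]
        constructor <;> linarith [h6.1, h6.2]
      · rw [crl_R_ne _ _ _ hk]
        by_cases hk' : k = i
        · subst hk'
          constructor <;> linarith [h5.1.1, h5.1.2]
        · constructor <;> linarith [(h5.2 k hk').1, (h5.2 k hk').2]
    · rw [crl_R_ne _ _ _ hii]
      exact h5.1
    · rw [crl_R_self]
      linarith [h6.1]
  -- connections
  have hupd : ∀ (W' : ℤ), -N ≤ W' → W' ≤ N → ∀ c, -1 - p i' ≤ c → c ≤ -1 - p i' + ((2 * a + 1 : ℕ) : ℤ) →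
      Function.update (Function.update p i W') i' c ∈ Z := by
    intro W' h1 h2 c hc1 hc2
    rw [hZ]
    intro k
    push_cast at hc2
    have h7 := hpb' i'
    by_cases hk : k = i'
    · subst hk
      simp only [Function.update_self]
      rw [ha] at hc2
      constructor <;> linarith [h7.1, h7.2]
    · simp only [Function.update_of_ne hk]
      by_cases hk' : k = i
      · subst hk'
        simp only [Function.update_self]
        exact ⟨h1, h2⟩
      · simp only [Function.update_of_ne hk']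
        constructor <;> linarith [(hpb' k).1, (hpb' k).2]
  have hii' : ∀ (W' c : ℤ), Function.update (Function.update p i W') i' c i = W' := by
    intro W' c
    rw [Function.update_of_ne hii, Function.update_self]
  have r3 := (crl_vert_le hA β hβ (Function.update p i W) i' (-1 - p i') (2 * a + 1) (X := YR)
    (fun c hc1 hc2 => Finset.mem_filter.2 ⟨hupd W (by linarith) (by linarith) c hc1 hc2,
      hii' W c⟩)).1
  have r4 := (crl_vert_le hA β hβ (Function.update p i (-1)) i' (-1 - p i') (2 * a + 1) (X := YL)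
    (fun c hc1 hc2 => Finset.mem_filter.2 ⟨hupd (-1) (by linarith) (by linarith) c hc1 hc2,
      hii' (-1) c⟩)).2
  have e5 : -1 - p i' + ((2 * a + 1 : ℕ) : ℤ) = p i' := by
    push_cast; rw [ha]; ring
  have e6 : ∀ W' : ℤ, Function.update (Function.update p i W') i' (p i') =
      Function.update p i W' := by
    intro W'
    ext k
    by_cases hk : k = i'
    · subst hk
      rw [Function.update_self, Function.update_of_ne hii.symm]
    · rw [Function.update_of_ne hk]
  rw [e5, e6] at r3 r4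
  set xR := Function.update (Function.update p i W) i' (-1 - p i') with hxR
  set xL := Function.update (Function.update p i (-1)) i' (-1 - p i') with hxL
  -- adjacency
  have a1 : adj pW (Function.update p i W) := by
    apply crl_adj_upd
    have : W - 1 - W = -1 := by ring
    rw [this]; rfl
  have a2 : adj xR (crl_R i' (-1) pW) := by
    refine crl_adj_of i ?_ (fun k hk => ?_)
    · rw [hxR, hii', crl_R_ne _ _ _ hii, hpW, Function.update_self]
      have : W - (W - 1) = 1 := by ring
      rw [this]; rfl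
    · by_cases hk' : k = i'
      · subst hk'
        rw [hxR, Function.update_self, crl_R_self, hpW, Function.update_of_ne hk]
      · rw [hxR, Function.update_of_ne hk', Function.update_of_ne hk, crl_R_ne _ _ _ hk', hpW,
          Function.update_of_ne hk]
  have a3 : adj (crl_R i' (-1) p) xL := by
    refine crl_adj_of i ?_ (fun k hk => ?_)
    · rw [hxL, hii', crl_R_ne _ _ _ hii, hp]; rfl
    · by_cases hk' : k = i'
      · subst hk'
        rw [hxL, Function.update_self, crl_R_self]
      · rw [hxL, Function.update_of_ne hk', Function.update_of_ne hk, crl_R_ne _ _ _ hk']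
  have a4 : adj (Function.update p i (-1)) p := by
    refine crl_adj_of i ?_ (fun k hk => Function.update_of_ne hk _ _)
    rw [Function.update_self, hp]; rfl
  -- concatenations
  have c1 := crl_cat hA β hβ (X := X1) (Y := YR) (Z := Z1)
    (fun x hx hy => by
      have h1 := (Finset.mem_filter.1 hx).2
      have h2 := (Finset.mem_filter.1 hy).2
      linarith [h1.1.2])
    (fun x hx => by
      have h1 := Finset.mem_filter.1 hx
      exact Finset.mem_filter.2 ⟨h1.1, h1.2.1.1, fun _ => h1.2.2⟩)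
    (fun x hx => by
      have h1 := Finset.mem_filter.1 hx
      exact Finset.mem_filter.2 ⟨h1.1, by rw [h1.2]; linarith, fun h => by linarith [h1.2]⟩)
    L (2 * a + 1 + 1) (a := p) (e := xR) a1
  have c2 := crl_cat hA β hβ (X := Z1) (Y := X2) (Z := Z2)
    (fun x hx hy => by
      have h1 := (Finset.mem_filter.1 hx).2
      have h2 := (Finset.mem_filter.1 hy).2
      linarith [h1.2 h2.1.2, h2.2])
    (fun x hx => by
      have h1 := Finset.mem_filter.1 hx
      exact Finset.mem_filter.2 ⟨h1.1, h1.2.1⟩)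
    (fun x hx => by
      have h1 := Finset.mem_filter.1 hx
      exact Finset.mem_filter.2 ⟨h1.1, h1.2.1.1⟩)
    (L + (2 * a + 1 + 1)) L (a := p) (e := crl_R i' (-1) p) a2
  have c3 := crl_cat hA β hβ (X := Z2) (Y := YL) (Z := Z)
    (fun x hx hy => by
      have h1 := (Finset.mem_filter.1 hx).2
      have h2 := (Finset.mem_filter.1 hy).2
      linarith)
    (fun x hx => (Finset.mem_filter.1 hx).1)
    (fun x hx => (Finset.mem_filter.1 hx).1)
    (L + (2 * a + 1 + 1) + L) (2 * a + 1 + 1) (a := p) (e := Function.update p i (-1)) a3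
  have hlen : L + (2 * a + 1 + 1) + L + (2 * a + 1 + 1) = 4 * (m + 1) * l + (4 * a + 4) := by
    rw [hL]; ring
  have hL3 : 3 ≤ 4 * (m + 1) * l + (4 * a + 4) := by omega
  have c4 := crl_close hI hA β Z hL3 a4
  rw [hlen] at c3
  have n0 : 0 ≤ F0 ^ (2 * (m + 1)) := pow_nonneg (crl_F_nonneg _ _ _ _ _) _
  calc F0 ^ (4 * (m + 1)) = F0 ^ (2 * (m + 1)) * 1 * F0 ^ (2 * (m + 1)) * 1 := by
        rw [mul_one, mul_one, ← pow_add]
        congr 1
        ring
    _ ≤ crl_F β X1 L p pW * crl_F β YR (2 * a + 1 + 1) (Function.update p i W) xR *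
        crl_F β X2 L (crl_R i' (-1) pW) (crl_R i' (-1) p) *
        crl_F β YL (2 * a + 1 + 1) xL (Function.update p i (-1)) :=
        mul_le_mul (mul_le_mul (mul_le_mul r1 r3 zero_le_one (crl_F_nonneg _ _ _ _ _)) r2 n0
          (mul_nonneg (crl_F_nonneg _ _ _ _ _) (crl_F_nonneg _ _ _ _ _))) r4 zero_le_one
          (mul_nonneg (mul_nonneg (crl_F_nonneg _ _ _ _ _) (crl_F_nonneg _ _ _ _ _))
            (crl_F_nonneg _ _ _ _ _))
    _ ≤ crl_F β Z1 (L + (2 * a + 1 + 1)) p xR *
        crl_F β X2 L (crl_R i' (-1) pW) (crl_R i' (-1) p) *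
        crl_F β YL (2 * a + 1 + 1) xL (Function.update p i (-1)) :=
        mul_le_mul_of_nonneg_right (mul_le_mul_of_nonneg_right c1 (crl_F_nonneg _ _ _ _ _))
          (crl_F_nonneg _ _ _ _ _)
    _ ≤ crl_F β Z2 (L + (2 * a + 1 + 1) + L) p (crl_R i' (-1) p) *
        crl_F β YL (2 * a + 1 + 1) xL (Function.update p i (-1)) :=
        mul_le_mul_of_nonneg_right c2 (crl_F_nonneg _ _ _ _ _)
    _ ≤ crl_F β Z (4 * (m + 1) * l + (4 * a + 4)) p (Function.update p i (-1)) := c3
    _ ≤ Zc d β (4 * (m + 1) * l + (4 * a + 4)) := c4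

theorem cro_zero (β : ℝ) (s l : ℕ) (p q : Vx d) (h : p ∉ bxF d s) : Pq d β s p q l = 0 := by
  rw [crl_Pq]
  unfold crl_F
  apply Finset.sum_eq_zero
  intro P hP
  obtain ⟨_, h2, _, h4, _⟩ := crl_mem.1 hP
  exact absurd (h2 p (List.mem_of_mem_head? h4)) h

theorem cro_Zc_nonneg (β : ℝ) (l : ℕ) : 0 ≤ Zc d β l :=
  Finset.sum_nonneg (fun P _ => (crl_wt_pos β P).le)

theorem p_CRO (d : ℕ) (h_ISO : St_ISO d) (h_ACM : St_ACM d) : St_CRO d := by
  intro β s l M i i' p q hβ hs hl hM hii h
  rcases h with ⟨hp, hq⟩ | ⟨hp, hq⟩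
  · by_cases hpb : p ∈ bxF d s
    · exact cro_main h_ISO h_ACM β hβ s l M i i' p q hl hM hii hp hq hpb
    · refine ⟨0, Nat.zero_le _, ?_⟩
      rw [cro_zero β s l p q hpb, zero_pow (by omega)]
      exact cro_Zc_nonneg _ _
  · by_cases hqb : q ∈ bxF d s
    · obtain ⟨e, he, h⟩ := cro_main h_ISO h_ACM β hβ s l M i i' q p hl hM hii hq hp hqb
      refine ⟨e, he, le_trans ?_ h⟩
      apply pow_le_pow_left₀ (crl_F_nonneg _ _ _ _ _)
      exact crl_rev h_ACM β _ l p q
    · refine ⟨0, Nat.zero_le _, ?_⟩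
      have h0 : Pq d β s p q l = 0 := by
        apply le_antisymm
        · have := crl_rev h_ACM β (bxF d s) l p q
          rw [← crl_Pq, ← crl_Pq, cro_zero β s l q p hqb] at this
          exact this
        · exact crl_F_nonneg _ _ _ _ _
      rw [h0, zero_pow (by omega)]
      exact cro_Zc_nonneg _ _

end Pool.Agent.H981R3.IS
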