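import Pool.Agent.H981R3.IS.Stubs

/-!
Task DEC (helper769): the code determines the walk
-/

set_option autoImplicit false

namespace Pool.Agent.H981R3.IS

open Finset

variable {d : ℕ}

/-- the cell index changes by the step vector at a crossing step -/
theorem dec_ci (h_ARI : St_ARI d) (D : Dt d) (hρ : 2 ≤ D.ρ) (hg : 1 ≤ D.g) (hSw : Sw D.w D.n)
    {p : ℕ} (hp : p ∈ D.crs) (k : Fin d) :
    D.ci (D.w (p + 1)) k = D.ci (D.w p) k + (D.w (p + 1) k - D.w p k) := by
  obtain ⟨-, -, -, -, -, a6, -⟩ := h_ARI D hρ hg hSw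
  obtain ⟨i, -, -, -, h1, h2⟩ := a6 p hp
  by_cases hk : k = i
  · subst hk; linarith
  · obtain ⟨h3, h4, -⟩ := h2 k hk
    rw [h4, h3]; ring

open scoped Classical in
theorem dec_cod_none {D : Dt d} {O : Finset ℕ → List (Vx d)} {t : ℕ}
    (h : ¬ (1 ≤ t ∧ t - 1 ∈ D.crs)) : cod D O t = none := by
  unfold cod
  rw [if_neg h]

open scoped Classical in
theorem dec_cod_some {D : Dt d} {O : Finset ℕ → List (Vx d)} {t : ℕ}
    (h : 1 ≤ t ∧ t - 1 ∈ D.crs) : cod D O t = some (D.w t - D.w (t - 1),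
      if ¬ D.spc (D.uc t) ∧ ∀ s ∈ D.uc t, t ≤ s then
        some ((O (D.uc t)).map (fun x => x - D.og (D.w t))) else none) := by
  unfold cod
  rw [if_pos h]

theorem dec_con {D : Dt d} {t s s' : ℕ} (hs : s ∈ D.uc t) (hsn : s ≤ D.n) (hsn' : s' ≤ D.n)
    (hss : s' = s + 1 ∨ s = s' + 1) :
    (D.w s - D.og (D.w t), D.w s' - D.og (D.w t)) ∈ con D t := by
  classical
  unfold con
  rw [mem_image]
  refine ⟨(s, s'), ?_, rfl⟩
  rw [mem_filter, mem_product, mem_range, mem_range]
  exact ⟨⟨by omega, by omega⟩, hs, hss⟩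

theorem dec_con' {D : Dt d} {t : ℕ} {y : Vx d × Vx d} (hy : y ∈ con D t) :
    ∃ s s' : ℕ, s ≤ D.n ∧ s' ≤ D.n ∧ (s' = s + 1 ∨ s = s' + 1) ∧
      y = (D.w s - D.og (D.w t), D.w s' - D.og (D.w t)) := by
  classical
  unfold con at hy
  rw [mem_image] at hy
  obtain ⟨⟨s, s'⟩, hp, rfl⟩ := hy
  rw [mem_filter, mem_product, mem_range, mem_range] at hp
  obtain ⟨⟨h1, h2⟩, -, h4⟩ := hp
  exact ⟨s, s', by dsimp only at h1; omega, by dsimp only at h2; omega, h4, rfl⟩

theorem p_DEC (d : ℕ) (h_CLS : St_CLS d) (h_ARI : St_ARI d) : St_DEC d := by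
  classical
  intro hd D D' O O' hρ hg en ea eρ eg hS hS' h0 h0' hO hO' hcod hc0 hcn
  obtain ⟨w, n, a, ρ, g⟩ := D
  obtain ⟨w', n', a', ρ', g'⟩ := D'
  dsimp only at en ea eρ eg
  subst en ea eρ eg
  set D : Dt d := ⟨w, n, a, ρ, g⟩ with hD
  set D' : Dt d := ⟨w', n, a, ρ, g⟩ with hD'
  have hw : D.w = w := rfl
  have hw' : D'.w = w' := rfl
  have hn : D.n = n := rfl
  have hn' : D'.n = n := rfl
  have hcieq : ∀ x, D'.ci x = D.ci x := fun x => rfl
  have hogeq : ∀ x, D'.og x = D.og x := fun x => rfl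
  have hheq : D'.h = D.h := rfl
  obtain ⟨a1, a2, -, a4, a5, -⟩ := h_ARI D hρ hg hS
  obtain ⟨a1', a2', -, a4', a5', -⟩ := h_ARI D' hρ hg hS'
  obtain ⟨c1, c2, -, -, c5, -, -, c8, -⟩ := h_CLS D hS
  obtain ⟨c1', c2', -, -, c5', -, -, c8', -⟩ := h_CLS D' hS'
  -- (1) the cells agree
  have hci : ∀ t, t ≤ n → D.ci (w t) = D.ci (w' t) := by
    intro t
    induction t with
    | zero =>
      intro _
      have e : w 0 = w' 0 := h0.trans h0'.symm
      rw [e]
    | succ t ih =>
      intro ht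
      have iht := ih (by omega)
      have hc := hcod (t + 1) ht
      by_cases h1 : t ∈ D.crs
      · have e1 : 1 ≤ t + 1 ∧ t + 1 - 1 ∈ D.crs := ⟨by omega, by simpa using h1⟩
        rw [dec_cod_some e1] at hc
        by_cases h2 : t ∈ D'.crs
        · have e2 : 1 ≤ t + 1 ∧ t + 1 - 1 ∈ D'.crs := ⟨by omega, by simpa using h2⟩
          rw [dec_cod_some e2] at hc
          have h3 := (Prod.mk.inj (Option.some.inj hc)).1
          rw [Nat.add_sub_cancel] at h3
          funext k
          have h4 := dec_ci h_ARI D hρ hg hS h1 k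
          have h5 := dec_ci h_ARI D' hρ hg hS' h2 k
          have h6 := congrFun h3 k
          have h7 := congrFun iht k
          simp only [Pi.sub_apply] at h6
          have h5' : D.ci (w' (t + 1)) k = D.ci (w' t) k + (w' (t + 1) k - w' t k) := h5
          have h4' : D.ci (w (t + 1)) k = D.ci (w t) k + (w (t + 1) k - w t k) := h4
          have h6' : w (t + 1) k - w t k = w' (t + 1) k - w' t k := h6
          rw [h4', h5', h6', h7]
        · exfalso
          rw [dec_cod_none (D := D') (by rintro ⟨-, h⟩; exact h2 (by simpa using h))] at hc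
          cases hc
      · have h2 : t ∉ D'.crs := by
          intro h2
          have e2 : 1 ≤ t + 1 ∧ t + 1 - 1 ∈ D'.crs := ⟨by omega, by simpa using h2⟩
          rw [dec_cod_some e2, dec_cod_none (D := D)
            (by rintro ⟨-, h⟩; exact h1 (by simpa using h))] at hc
          cases hc
        have h3 : D.ci (w t) = D.ci (w (t + 1)) := a5 t (by omega) h1
        have h4 : D.ci (w' t) = D.ci (w' (t + 1)) := a5' t (by omega) h2
        rw [← h3, ← h4, iht]
  have hog : ∀ t, t ≤ n → D.og (w t) = D.og (w' t) := fun t ht => (a2 _ _).2 (hci t ht)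
  -- (2) the consecutive pairs agree
  have hE : ∀ s s', s ≤ n → s' ≤ n → (s' = s + 1 ∨ s = s' + 1) →
      ∃ s1 s1', s1 ≤ n ∧ s1' ≤ n ∧ (s1' = s1 + 1 ∨ s1 = s1' + 1) ∧ w' s1 = w s ∧
        w' s1' = w s' := by
    intro s s' hs hs' hss
    have hspec : ∀ t0, t0 ≤ n → t0 ∈ D.uc s → con D t0 = con D' t0 →
        ∃ s1 s1', s1 ≤ n ∧ s1' ≤ n ∧ (s1' = s1 + 1 ∨ s1 = s1' + 1) ∧ w' s1 = w s ∧
          w' s1' = w s' := by
      intro t0 ht0 hmem hcon
      have h1 : s ∈ D.uc t0 := by
        rw [(c2 t0 s hmem).2.2.2]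
        exact (c1 s hs).1
      have h2 := dec_con h1 hs hs' hss
      rw [hcon] at h2
      obtain ⟨s1, s1', h3, h4, h5, h6⟩ := dec_con' h2
      have h7 := (Prod.mk.inj h6).1
      have h8 := (Prod.mk.inj h6).2
      have h9 : D.og (w t0) = D'.og (w' t0) := hog t0 ht0
      refine ⟨s1, s1', h3, h4, h5, ?_, ?_⟩
      · have : w s - D.og (w t0) = w' s1 - D'.og (w' t0) := h7
        rw [h9] at this
        exact (sub_left_injective this).symm
      · have : w s' - D.og (w t0) = w' s1' - D'.og (w' t0) := h8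
        rw [h9] at this
        exact (sub_left_injective this).symm
    by_cases hz : 0 ∈ D.uc s
    · exact hspec 0 (Nat.zero_le _) hz hc0
    by_cases hnn : n ∈ D.uc s
    · exact hspec n le_rfl hnn hcn
    have hsp : ¬ D.spc (D.uc s) := by
      rintro (h | h)
      · exact hz h
      · exact hnn h
    -- the minimal time of the unit
    have hu : D.uc s ∈ D.uns := mem_image_of_mem _ (mem_range.2 (by omega))
    obtain ⟨hne, hall⟩ := c5 _ hu
    set u := D.uc s with hudef
    set t := u.min' hne with htdef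
    have htu : t ∈ u := u.min'_mem hne
    obtain ⟨htn, hut⟩ := hall t htu
    have ht0 : 1 ≤ t := by
      by_contra hc
      have : t = 0 := by omega
      rw [this] at htu
      exact hz htu
    have hcr : t - 1 ∈ D.crs := by
      by_contra hc
      have h1 := (c8 (t - 1) (by omega) hc).2
      have h2 : t - 1 + 1 = t := by omega
      rw [h2, hut] at h1
      have h3 : t - 1 ∈ u := by
        rw [← h1]
        exact (c1 (t - 1) (by omega)).1
      have := u.min'_le _ h3
      omega
    have hcc := hcod t htn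
    rw [dec_cod_some ⟨ht0, hcr⟩] at hcc
    have hcond : ¬ D.spc (D.uc t) ∧ ∀ s ∈ D.uc t, t ≤ s := by
      rw [hut]
      exact ⟨hsp, fun s hs => u.min'_le s hs⟩
    rw [if_pos hcond] at hcc
    by_cases h2 : 1 ≤ t ∧ t - 1 ∈ D'.crs
    swap
    · rw [dec_cod_none h2] at hcc
      cases hcc
    rw [dec_cod_some h2] at hcc
    have hcc2 := (Prod.mk.inj (Option.some.inj hcc)).2
    by_cases h3 : ¬ D'.spc (D'.uc t) ∧ ∀ s ∈ D'.uc t, t ≤ s
    swap
    · rw [if_neg h3] at hcc2
      cases hcc2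
    rw [if_pos h3] at hcc2
    have hcc3 := Option.some.inj hcc2
    have hogt : D.og (D.w t) = D'.og (D'.w t) := hog t htn
    rw [← hogt] at hcc3
    have hPP : O (D.uc t) = O' (D'.uc t) :=
      List.map_injective_iff.2 (fun x y hxy => sub_left_injective hxy) hcc3
    -- the objects
    have hUO := hO u hu hsp
    have hu' : D'.uc t ∈ D'.uns := mem_image_of_mem _ (mem_range.2 (by show t < n + 1; omega))
    have hUO' := hO' (D'.uc t) hu' h3.1
    have hsu : s ∈ u := (c1 s hs).1
    have hcelx : D.w s ∈ cel (D.og (D.w t)) D.h := by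
      rw [a1]
      have h4 := (c2 t s htu).2.2.1
      exact h4.symm
    have hSt : St (O u) (D.w s) (D.w s') := by
      rw [hUO.2.1 t htu (D.w s) hcelx (D.w s')]
      refine ⟨s, hsu, rfl, ?_⟩
      rcases hss with h | h
      · left; rw [h]
      · right; rw [h]; rfl
    have hcelx' : D.w s ∈ cel (D'.og (D'.w t)) D'.h := by
      rw [← hogt]; exact hcelx
    rw [hut] at hPP
    rw [hPP, hUO'.2.1 t (c1' t htn).1 (D.w s) hcelx' (D.w s')] at hSt
    obtain ⟨s1, hs1, h5, h6⟩ := hSt
    have hs1n : s1 ≤ n := (c2' s1 t hs1).1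
    have hs10 : s1 ≠ 0 := by
      rintro rfl
      exact h3.1 (Or.inl hs1)
    have hs1nn : s1 ≠ n := by
      intro h
      apply h3.1
      right
      show n ∈ D'.uc t
      rw [← h]
      exact hs1
    rcases h6 with h6 | h6
    · exact ⟨s1, s1 + 1, hs1n, by omega, Or.inl rfl, h5, h6⟩
    · exact ⟨s1, s1 - 1, hs1n, by omega, Or.inr (by omega), h5, h6⟩
  -- (3) the walks agree
  intro t
  induction t using Nat.strong_induction_on with
  | _ t ih =>
    intro ht
    rcases Nat.eq_zero_or_pos t with rfl | hpos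
    · exact h0.trans h0'.symm
    · have ht' : t ≤ n := ht
      obtain ⟨s1, s1', h1, h2, h3, h4, h5⟩ := hE (t - 1) t (by omega) ht' (Or.inl (by omega))
      have ih1 : w (t - 1) = w' (t - 1) := ih (t - 1) (by omega) (by show t - 1 ≤ n; omega)
      have e1 : s1 = t - 1 := hS'.2 s1 h1 (t - 1) (by show t - 1 ≤ n; omega) (h4.trans ih1)
      rcases h3 with h3 | h3
      · have : s1' = t := by omega
        rw [this] at h5
        exact h5.symm
      · exfalso
        have ht2 : 2 ≤ t := by omega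
        have e2 : s1' = t - 2 := by omega
        have ih2 : w (t - 2) = w' (t - 2) := ih (t - 2) (by omega) (by show t - 2 ≤ n; omega)
        rw [e2, ← ih2] at h5
        have := hS.2 (t - 2) (by show t - 2 ≤ n; omega) t ht' h5
        omega

end Pool.Agent.H981R3.IS
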