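import Mathlib

/-!
# Interacting self-avoiding walks: definitions
Vertices are functions `Fin d → ℤ`, paths are lists.
-/

set_option autoImplicit false

namespace Pool.Agent.H981R3.IS

open Finset

abbrev Vx (d : ℕ) := Fin d → ℤ

variable {d : ℕ}

/-- nearest neighbours -/
def adj (u v : Vx d) : Prop := ∑ k, |u k - v k| = 1

/-- unit vector -/
def ev (k : Fin d) : Vx d := Pi.single k 1

/-- number of nearest neighbour pairs (bonds) contained in `S` -/
def Ac (S : Finset (Vx d)) : ℕ :=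
  ((S ×ˢ (univ : Finset (Fin d))).filter (fun p => p.1 + ev p.2 ∈ S)).card

/-- self-avoiding path -/
def IsP (P : List (Vx d)) : Prop := P.IsChain adj ∧ P.Nodup

/-- closed self-avoiding path (polygon) -/
def IsC (P : List (Vx d)) : Prop :=
  IsP P ∧ 3 ≤ P.length ∧ ∃ x y, P.head? = some x ∧ P.getLast? = some y ∧ adj y x

/-- weight of a path -/
noncomputable def wt (β : ℝ) (P : List (Vx d)) : ℝ := Real.exp (β * (Ac P.toFinset : ℝ))

/-- lists of length `l` with entries in `S` -/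
noncomputable def LL (S : Finset (Vx d)) (l : ℕ) : Finset (List (Vx d)) :=
  (Fintype.piFinset (fun _ : Fin l => S)).image List.ofFn

/-- cube of radius `n` -/
noncomputable def cube (d n : ℕ) : Finset (Vx d) := Fintype.piFinset (fun _ => Icc (-(n : ℤ)) n)

open scoped Classical in
/-- self-avoiding walks with `n` steps from the origin -/
noncomputable def SW (d n : ℕ) : Finset (List (Vx d)) :=
  (LL (cube d n) (n + 1)).filter (fun P => IsP P ∧ P.head? = some 0)

open scoped Classical in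
/-- closed self-avoiding lists with `l` vertices, starting at the origin -/
noncomputable def CW (d l : ℕ) : Finset (List (Vx d)) :=
  (LL (cube d l) l).filter (fun P => IsC P ∧ P.head? = some 0)

/-- partition function of walks -/
noncomputable def Zw (d : ℕ) (β : ℝ) (n : ℕ) : ℝ := ∑ P ∈ SW d n, wt β P

/-- partition function of rooted oriented polygons -/
noncomputable def Zc (d : ℕ) (β : ℝ) (l : ℕ) : ℝ := ∑ P ∈ CW d l, wt β P

open scoped Classical in
/-- polygons rooted at the face `x i0 = 0` of a half space `x i0 ≤ 0`, with last vertex `-ev i1` -/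
noncomputable def KW (i0 i1 : Fin d) (l : ℕ) : Finset (List (Vx d)) :=
  (CW d l).filter (fun P => P.getLast? = some (-ev i1) ∧ ∀ x ∈ P, x i0 ≤ 0)

noncomputable def Kr (i0 i1 : Fin d) (β : ℝ) (l : ℕ) : ℝ := ∑ P ∈ KW i0 i1 l, wt β P

/-- `x y` is an (unoriented) step of the list `P` -/
def St (P : List (Vx d)) (x y : Vx d) : Prop := [x, y] <:+: P ∨ [y, x] <:+: P

/-! ### cells -/

/-- cell with corner `α` and side `h` -/
def cel (α : Vx d) (h : ℕ) : Set (Vx d) := {x | ∀ k, α k ≤ x k ∧ x k < α k + h}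

/-- enlarged cell -/
def bxT (α : Vx d) (h T : ℕ) : Set (Vx d) := {x | ∀ k, α k - T ≤ x k ∧ x k < α k + h + T}

/-- the points above the face `(i,σ)` of the cell at height `t` (t ≥ 1 : outside of the cell) -/
def col (α : Vx d) (h : ℕ) (i : Fin d) (σ : Bool) (t : ℕ) : Set (Vx d) :=
  {x | (x i = if σ then α i + h - 1 + t else α i - t) ∧ ∀ k, k ≠ i → α k ≤ x k ∧ x k < α k + h}

/-- face `(i,σ)` of the enlarged cell `bxT α h T` -/
def fce (α : Vx d) (h T : ℕ) (i : Fin d) (σ : Bool) : Set (Vx d) :=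
  {x | x ∈ bxT α h T ∧ x i = if σ then α i + h - 1 + T else α i - T}

/-- outward direction -/
def odir (α : Vx d) (h : ℕ) (x : Vx d) : Vx d :=
  fun k => if x k < α k then -1 else if α k + h ≤ x k then 1 else 0

/-- the ray above `x` -/
def ray (α : Vx d) (h : ℕ) (x : Vx d) (t : ℕ) : Vx d := fun k => x k + t * odir α h x k

/-- the foot of `x`: coordinatewise clamp to `[α - 1, α + h]` -/
def foot (α : Vx d) (h : ℕ) (x : Vx d) : Vx d := fun k => max (α k - 1) (min (x k) (α k + h))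

/-- height: sup distance to the cell -/
def ht (α : Vx d) (h : ℕ) (x : Vx d) : ℕ :=
  (univ : Finset (Fin d)).sup (fun k => (max (α k - x k) (x k - (α k + h) + 1)).toNat)

/-- block of feet in the face `(i,σ)` -/
def blk (α : Vx d) (h : ℕ) (i : Fin d) (σ : Bool) (lo hi : Vx d) : Set (Vx d) :=
  {z | z ∈ col α h i σ 1 ∧ ∀ k, k ≠ i → lo k ≤ z k ∧ z k ≤ hi k}

/-! ### systems of disjoint paths with tips outside of the cell -/

/-- `z` is an end of the list `L` -/
def tipz (L : List (Vx d)) (z : Vx d) : Prop := L.head? = some z ∨ L.getLast? = some z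

/-- `z` is a tip of the family -/
def Tp (F : Finset (List (Vx d))) (z : Vx d) : Prop := ∃ L ∈ F, tipz L z

/-- number of tips in `B` -/
noncomputable def nt (F : Finset (List (Vx d))) (B : Set (Vx d)) : ℕ := Set.ncard {z | Tp F z ∧ z ∈ B}

/-- total length -/
def tot (F : Finset (List (Vx d))) : ℕ := ∑ L ∈ F, L.length

/-- some path has one tip in `I` and the other one outside of `I` -/
def Thr (F : Finset (List (Vx d))) (I : Set (Vx d)) : Prop :=
  ∃ L ∈ F, ∃ z w, tipz L z ∧ tipz L w ∧ z ∈ I ∧ w ∉ I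

/-- disjoint self-avoiding paths whose tips have height one and free rays above them -/
structure Sys (α : Vx d) (h : ℕ) (F : Finset (List (Vx d))) : Prop where
  isp : ∀ L ∈ F, IsP L
  two : ∀ L ∈ F, 2 ≤ L.length
  dis : ∀ L ∈ F, ∀ L' ∈ F, L ≠ L' → List.Disjoint L L'
  tips : ∀ z, Tp F z → ∃ i σ, z ∈ col α h i σ 1
  free : ∀ z, Tp F z → ∀ L ∈ F, ∀ t, 1 ≤ t → ray α h z t ∉ L

/-- `F'` arises from `F` by joining tips in `B` through arcs over `B` of height at most `H` -/
structure Ext (α : Vx d) (h : ℕ) (B : Set (Vx d)) (H : ℕ) (F F' : Finset (List (Vx d))) : Prop where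
  stp : ∀ x ∈ cel α h, ∀ y, (∃ L ∈ F', St L x y) ↔ ∃ L ∈ F, St L x y
  sub : ∀ L ∈ F, ∀ x ∈ L, ∃ L' ∈ F', x ∈ L'
  new : ∀ L' ∈ F', ∀ x ∈ L', (∃ L ∈ F, x ∈ L) ∨ (foot α h x ∈ B ∧ 2 ≤ ht α h x ∧ ht α h x ≤ H)
  tip : ∀ z, Tp F' z → Tp F z
  out : ∀ z, Tp F z → z ∉ B → Tp F' z

/-- family of extended strands of a cell: each one is `x :: (M ++ [y])` with nonempty middle part `M`
in the cell and tips `x`, `y` just outside -/
structure Fam (α : Vx d) (h : ℕ) (F : Finset (List (Vx d))) : Prop where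
  isp : ∀ L ∈ F, IsP L
  mid : ∀ L ∈ F, ∃ x y M, L = x :: (M ++ [y]) ∧ M ≠ [] ∧ (∀ v ∈ M, v ∈ cel α h) ∧
    (∃ i σ, x ∈ col α h i σ 1) ∧ (∃ i σ, y ∈ col α h i σ 1)
  dis : ∀ L ∈ F, ∀ L' ∈ F, L ≠ L' → List.Disjoint L L'

/-- objects attached to a unit of the cell with corner `α`, side `h` (and group size `g`) -/
def Obj (α : Vx d) (g h : ℕ) (P : List (Vx d)) : Prop :=
  (IsC P ∧ ∀ x ∈ P, x ∈ bxT α h (12 * d * h)) ∨
  (IsP P ∧ (∀ x ∈ P, x ∈ bxT α h (6 * d * g)) ∧
    ∃ (i i' : Fin d) (σ σ' : Bool) (x y : Vx d), (i, σ) ≠ (i', σ') ∧ P.head? = some x ∧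
      P.getLast? = some y ∧ x ∈ fce α h (6 * d * g) i σ ∧ y ∈ fce α h (6 * d * g) i' σ')

/-! ### decomposition of a walk into units -/

/-- self-avoiding walk of `n` steps as a function -/
def Sw (w : ℕ → Vx d) (n : ℕ) : Prop :=
  (∀ t, t < n → adj (w t) (w (t + 1))) ∧ ∀ s, s ≤ n → ∀ t, t ≤ n → w s = w t → s = t

/-- data: walk, length, offset, ratio, group size; cells have side `ρ * g`, windows `ρ ^ 2 * g` -/
structure Dt (d : ℕ) where
  w : ℕ → Vx d
  n : ℕ
  a : Vx d
  ρ : ℕ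
  g : ℕ

namespace Dt

variable (D : Dt d)

/-- side of the cells -/
def h : ℕ := D.ρ * D.g

/-- index of the cell containing `x` -/
def ci (x : Vx d) : Vx d := fun k => (x k - D.a k) / (D.h : ℤ)

/-- corner of the cell containing `x` -/
def og (x : Vx d) : Vx d := fun k => D.a k + D.h * D.ci x k

/-- crossing steps -/
def crs : Finset ℕ := (range D.n).filter (fun t => D.ci (D.w t) ≠ D.ci (D.w (t + 1)))

/-- group of a crossing step: (axis vector, hyperplane index along the axis and `g`-box index) -/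
def gc (t : ℕ) : Vx d × Vx d :=
  (fun k => |D.w (t + 1) k - D.w t k|,
   fun k => if |D.w (t + 1) k - D.w t k| = 1 then max (D.ci (D.w t) k) (D.ci (D.w (t + 1)) k)
     else (D.w t k - D.a k) / (D.g : ℤ))

/-- the groups -/
def grs : Finset (Vx d × Vx d) := D.crs.image D.gc

/-- section of a group -/
def sc (y : Vx d × Vx d) : Vx d × Vx d :=
  (y.1, fun k => if y.1 k = 1 then y.2 k else y.2 k / ((D.ρ ^ 2 : ℕ) : ℤ))

open scoped Classical in
/-- groups on the boundary of windows -/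
noncomputable def gbd : Finset (Vx d × Vx d) :=
  D.grs.filter (fun y => ∃ k, y.1 k = 1 ∧ (D.ρ : ℤ) ∣ y.2 k)

open scoped Classical in
/-- groups which are not alone in their section -/
noncomputable def gbad : Finset (Vx d × Vx d) :=
  D.grs.filter (fun y => y ∉ D.gbd ∧ ∃ y' ∈ D.grs, y' ≠ y ∧ D.sc y' = D.sc y)

/-- good groups -/
noncomputable def ggood : Finset (Vx d × Vx d) := D.grs \ (D.gbd ∪ D.gbad)

/-- relation generating the units -/
def Ru (s t : ℕ) : Prop :=
  s ≤ D.n ∧ t ≤ D.n ∧ D.ci (D.w s) = D.ci (D.w t) ∧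
    (adj (D.w s) (D.w t) ∨
      ∃ p ∈ D.crs, ∃ q ∈ D.crs, D.gc p = D.gc q ∧ (s = p ∨ s = p + 1) ∧ (t = q ∨ t = q + 1))

/-- relation generating the bundles -/
def Rb (s t : ℕ) : Prop :=
  s ≤ D.n ∧ t ≤ D.n ∧ D.ci (D.w s) = D.ci (D.w t) ∧
    (t = s + 1 ∨
      ∃ p ∈ D.crs, ∃ q ∈ D.crs, D.gc p = D.gc q ∧ (s = p ∨ s = p + 1) ∧ (t = q ∨ t = q + 1))

open scoped Classical in
/-- unit containing the time `t` (a set of times) -/
noncomputable def uc (t : ℕ) : Finset ℕ :=
  (range (D.n + 1)).filter (fun s => Relation.EqvGen D.Ru t s)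

open scoped Classical in
/-- bundle containing the time `t` -/
noncomputable def bc (t : ℕ) : Finset ℕ :=
  (range (D.n + 1)).filter (fun s => Relation.EqvGen D.Rb t s)

/-- the units -/
noncomputable def uns : Finset (Finset ℕ) := (range (D.n + 1)).image D.uc

/-- the bundles -/
noncomputable def bns : Finset (Finset ℕ) := (range (D.n + 1)).image D.bc

open scoped Classical in
/-- groups touched by a set of times -/
noncomputable def tgr (u : Finset ℕ) : Finset (Vx d × Vx d) :=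
  D.grs.filter (fun y => ∃ p ∈ D.crs, D.gc p = y ∧ (p ∈ u ∨ p + 1 ∈ u))

/-- number of crossing incidences of a set of times -/
def inc (u : Finset ℕ) : ℕ :=
  (D.crs.filter (fun p => p ∈ u)).card + (D.crs.filter (fun p => p + 1 ∈ u)).card

/-- the unit contains an endpoint of the walk -/
def spc (u : Finset ℕ) : Prop := 0 ∈ u ∨ D.n ∈ u

/-- regular units -/
def reg (u : Finset ℕ) : Prop :=
  ¬ D.spc u ∧ ∃ p ∈ D.crs, ∃ q ∈ D.crs, p < q ∧ D.gc p ≠ D.gc q ∧ D.gc p ∈ D.ggood ∧
    D.gc q ∈ D.ggood ∧ D.tgr u = {D.gc p, D.gc q} ∧ ∀ t, p < t → t ≤ q → t ∈ u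

/-- vertices of the walk -/
def vs : Finset (Vx d) := (range (D.n + 1)).image D.w

/-- number of bonds of the vertex set which cross the grid -/
def crb : ℕ := ((D.vs ×ˢ (univ : Finset (Fin d))).filter
  (fun p => p.1 + ev p.2 ∈ D.vs ∧ D.ci p.1 ≠ D.ci (p.1 + ev p.2))).card

end Dt

end Pool.Agent.H981R3.IS
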