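import Pool.Agent.H981R3.IS.Stubs

/-!
# Task ENC: upper bound for the partition function of walks
-/

set_option autoImplicit false

namespace Pool.Agent.H981R3.IS

open Finset

/-- the walk as a function -/
theorem enc_w {d : ℕ} {n : ℕ} {P : List (Vx d)} (hP : P ∈ SW d n) :
    Sw (fun t => P.getD t 0) n ∧ P.getD 0 0 = 0 ∧ ∀ t ≤ n, P[t]? = some (P.getD t 0) := by
  classical
  unfold SW at hP
  rw [mem_filter] at hP
  obtain ⟨h1, ⟨h2, h3⟩, h4⟩ := hP
  unfold LL at h1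
  rw [mem_image] at h1
  obtain ⟨f, hf, rfl⟩ := h1
  have hlen : (List.ofFn f).length = n + 1 := List.length_ofFn
  set P := List.ofFn f with hPdef
  have hget : ∀ t (ht : t < P.length), P.getD t 0 = P[t] := fun t ht =>
    List.getD_eq_getElem P 0 ht
  refine ⟨⟨?_, ?_⟩, ?_, ?_⟩
  · intro t ht
    have h5 := List.isChain_iff_getElem.1 h2 t (by omega)
    show adj (P.getD t 0) (P.getD (t + 1) 0)
    rw [hget t (by omega), hget (t + 1) (by omega)]
    exact h5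
  · intro s hs t ht hst
    have hst' : P.getD s 0 = P.getD t 0 := hst
    rw [hget s (by omega), hget t (by omega)] at hst'
    exact h3.getElem_inj_iff.1 hst'
  · rw [hget 0 (by omega)]
    have h6 : P.head? = some P[0] := by
      rw [List.head?_eq_getElem?, List.getElem?_eq_getElem (by omega)]
    rw [h6] at h4
    exact Option.some.inj h4
  · intro t ht
    rw [hget t (by omega), List.getElem?_eq_getElem (by omega)]

theorem enc_log (d : ℕ) (hd : 2 ≤ d) (B H : ℝ) (hB : 1 ≤ B) (hH : 1 ≤ H) :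
    0 ≤ Real.log (2 * d * H * (1 + (B * H) ^ (6 * d))) ∧
    Real.log (2 * d * H * (1 + (B * H) ^ (6 * d))) ≤
      (6 * d + 1) * (2 * Real.sqrt (4 * d * B) * Real.sqrt H) := by
  have hd' : (2 : ℝ) ≤ d := by exact_mod_cast hd
  have hBH : 1 ≤ B * H := one_le_mul_of_one_le_of_one_le hB hH
  have hS : 1 ≤ (B * H) ^ (6 * d) := one_le_pow₀ hBH
  have h3 : (B * H) ^ (6 * d) ≤ (4 * d * B * H) ^ (6 * d) := by
    apply pow_le_pow_left₀ (by positivity)
    nlinarith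
  set S := (B * H) ^ (6 * d) with hSdef
  have hdH : 1 ≤ 2 * d * H := by nlinarith
  have h1 : 1 ≤ 2 * d * H * (1 + S) := by nlinarith
  refine ⟨Real.log_nonneg h1, ?_⟩
  have hB0 : 0 < B := by linarith
  have hH0 : 0 < H := by linarith
  have hd0 : (0 : ℝ) < d := by linarith
  have hS0 : 0 < S := by linarith
  have h2 : 2 * d * H * (1 + S) ≤ (4 * d * B * H) ^ (6 * d + 1) := by
    calc 2 * d * H * (1 + S) ≤ 2 * d * H * (2 * S) := by
          apply mul_le_mul_of_nonneg_left _ (by positivity)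
          linarith
      _ = (4 * d * H) * S := by ring
      _ ≤ (4 * d * B * H) * (4 * d * B * H) ^ (6 * d) := by
          apply mul_le_mul _ h3 hS0.le (by positivity)
          have : 4 * d * H * 1 ≤ 4 * d * H * B := mul_le_mul_of_nonneg_left hB (by positivity)
          linarith
      _ = (4 * d * B * H) ^ (6 * d + 1) := by ring
  have h4 : Real.log (2 * d * H * (1 + S)) ≤ Real.log ((4 * d * B * H) ^ (6 * d + 1)) :=
    Real.log_le_log (by positivity) h2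
  rw [Real.log_pow] at h4
  have h5 : Real.log (4 * d * B * H) ≤ 2 * Real.sqrt (4 * d * B) * Real.sqrt H := by
    have h6 : 0 < 4 * d * B * H := by positivity
    have h7 : Real.log (4 * d * B * H) = 2 * Real.log (Real.sqrt (4 * d * B * H)) := by
      rw [Real.log_sqrt h6.le]; ring
    rw [h7, Real.sqrt_mul (by positivity : (0 : ℝ) ≤ 4 * d * B)]
    have := Real.log_le_sub_one_of_pos
      (show 0 < Real.sqrt (4 * d * B) * Real.sqrt H by positivity)
    linarith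
  calc Real.log (2 * d * H * (1 + S)) ≤ ((6 * d + 1 : ℕ) : ℝ) * Real.log (4 * d * B * H) := h4
    _ ≤ ((6 * d + 1 : ℕ) : ℝ) * (2 * Real.sqrt (4 * d * B) * Real.sqrt H) :=
        mul_le_mul_of_nonneg_left h5 (by positivity)
    _ = (6 * d + 1) * (2 * Real.sqrt (4 * d * B) * Real.sqrt H) := by push_cast; ring

/-- the exponent -/
theorem enc_exp (d : ℕ) (hd : 2 ≤ d) (β F0 B H R N Q Jr : ℝ) (m : ℕ) (hβ : 0 ≤ β) (hF : 0 ≤ F0)
    (hB : 1 ≤ B) (hR : 1 ≤ R) (hRH : R ≤ H) (hN : 0 ≤ N) (hJ : 0 < Jr)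
    (hm : (m : ℝ) * H ≤ 3 * d * N) :
    β * (m + 2 * d * H ^ d) + F0 * (N + 200000 * (d : ℝ) ^ 4 * (N * (1 / R + 1 / Jr) + Q)) +
      m * Real.log (2 * d * H * (1 + (B * H) ^ (6 * d))) + N / H ≤
    (β * (2 * d * H ^ d) + F0 * (200000 * (d : ℝ) ^ 4 * Q)) +
      N * (F0 + (3 * d * β + F0 * (200000 * (d : ℝ) ^ 4) +
        6 * d * (6 * d + 1) * Real.sqrt (4 * d * B) + 1) * (1 / Real.sqrt R + 1 / Jr)) := by
  have hH : 1 ≤ H := hR.trans hRH
  obtain ⟨hL0, hL⟩ := enc_log d hd B H hB hH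
  set L := Real.log (2 * d * H * (1 + (B * H) ^ (6 * d))) with hLdef
  set q := Real.sqrt (4 * d * B) with hq
  have hH0 : 0 < H := by linarith
  have hR0 : 0 < R := by linarith
  have hd0 : (0 : ℝ) ≤ d := Nat.cast_nonneg _
  set r := Real.sqrt R with hr
  have hr1 : 1 ≤ r := by rw [hr]; exact Real.one_le_sqrt.2 hR
  have hrr : r * r = R := Real.mul_self_sqrt hR0.le
  have hr0 : 0 < r := by linarith
  have hrR : r ≤ R := by nlinarith
  have hi1 : 1 / R ≤ 1 / r := one_div_le_one_div_of_le hr0 hrR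
  have hi2 : 1 / H ≤ 1 / r := one_div_le_one_div_of_le hr0 (hrR.trans hRH)
  set s := Real.sqrt H with hs
  have hss : s * s = H := Real.mul_self_sqrt hH0.le
  have hs1 : r ≤ s := Real.sqrt_le_sqrt hRH
  have hs0 : 0 < s := by linarith
  have hi3 : 1 / s ≤ 1 / r := one_div_le_one_div_of_le hr0 hs1
  have hm' : (m : ℝ) ≤ 3 * d * N * (1 / H) := by
    rw [mul_one_div, le_div_iff₀ hH0]
    exact hm
  have hmr : (m : ℝ) ≤ 3 * d * N * (1 / r) :=
    hm'.trans (mul_le_mul_of_nonneg_left hi2 (by positivity))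
  have hJ0 : 0 ≤ 1 / Jr := by positivity
  have hr0' : 0 ≤ 1 / r := by positivity
  have hq0 : 0 ≤ q := Real.sqrt_nonneg _
  have ha : β * m ≤ N * (3 * d * β * (1 / r + 1 / Jr)) := by
    calc β * m ≤ β * (3 * d * N * (1 / r)) := mul_le_mul_of_nonneg_left hmr hβ
      _ = N * (3 * d * β * (1 / r)) := by ring
      _ ≤ N * (3 * d * β * (1 / r + 1 / Jr)) := by
          apply mul_le_mul_of_nonneg_left _ hN
          apply mul_le_mul_of_nonneg_left _ (by positivity)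
          linarith
  have hb : F0 * (200000 * (d : ℝ) ^ 4 * (N * (1 / R + 1 / Jr))) ≤
      N * (F0 * (200000 * (d : ℝ) ^ 4) * (1 / r + 1 / Jr)) := by
    calc F0 * (200000 * (d : ℝ) ^ 4 * (N * (1 / R + 1 / Jr)))
        = N * (F0 * (200000 * (d : ℝ) ^ 4) * (1 / R + 1 / Jr)) := by ring
      _ ≤ N * (F0 * (200000 * (d : ℝ) ^ 4) * (1 / r + 1 / Jr)) := by
          apply mul_le_mul_of_nonneg_left _ hN
          apply mul_le_mul_of_nonneg_left _ (by positivity)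
          linarith
  have hc : m * L ≤ N * (6 * d * (6 * d + 1) * q * (1 / r + 1 / Jr)) := by
    have hsH : 1 / H * s = 1 / s := by
      rw [← hss]; field_simp
    calc m * L ≤ (3 * d * N * (1 / H)) * ((6 * d + 1) * (2 * q * s)) :=
          mul_le_mul hm' hL hL0 (by positivity)
      _ = N * (6 * d * (6 * d + 1) * q * (1 / H * s)) := by ring
      _ = N * (6 * d * (6 * d + 1) * q * (1 / s)) := by rw [hsH]
      _ ≤ N * (6 * d * (6 * d + 1) * q * (1 / r + 1 / Jr)) := by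
          apply mul_le_mul_of_nonneg_left _ hN
          apply mul_le_mul_of_nonneg_left _ (by positivity)
          linarith
  have hdd : N / H ≤ N * (1 * (1 / r + 1 / Jr)) := by
    rw [div_eq_mul_one_div]
    apply mul_le_mul_of_nonneg_left _ hN
    linarith
  have e1 : β * (m + 2 * d * H ^ d) + F0 * (N + 200000 * (d : ℝ) ^ 4 * (N * (1 / R + 1 / Jr) + Q)) +
      m * L + N / H = (β * m + F0 * (200000 * (d : ℝ) ^ 4 * (N * (1 / R + 1 / Jr))) + m * L + N / H)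
        + (β * (2 * d * H ^ d) + F0 * (200000 * (d : ℝ) ^ 4 * Q)) + N * F0 := by ring
  rw [e1]
  have e2 : (β * (2 * d * H ^ d) + F0 * (200000 * (d : ℝ) ^ 4 * Q)) +
      N * (F0 + (3 * d * β + F0 * (200000 * (d : ℝ) ^ 4) +
        6 * d * (6 * d + 1) * q + 1) * (1 / r + 1 / Jr)) =
      (N * (3 * d * β * (1 / r + 1 / Jr)) + N * (F0 * (200000 * (d : ℝ) ^ 4) * (1 / r + 1 / Jr)) +
        N * (6 * d * (6 * d + 1) * q * (1 / r + 1 / Jr)) + N * (1 * (1 / r + 1 / Jr))) +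
        (β * (2 * d * H ^ d) + F0 * (200000 * (d : ℝ) ^ 4 * Q)) + N * F0 := by ring
  rw [e2]
  linarith

/-- the property defining the classes of walks -/
def encΩ (d : ℕ) (ρ J n j : ℕ) (a : Vx d) (P : List (Vx d)) : Prop :=
  ∃ w : ℕ → Vx d, Sw w n ∧ w 0 = 0 ∧ (∀ t ≤ n, P[t]? = some (w t)) ∧
    (Dt.mk w n a ρ (ρ ^ (2 * j))).crb ≤ 3 * d * (n + 1) / ρ ^ (2 * j + 1) ∧
    ∃ O : Finset ℕ → List (Vx d), open Classical in
      (∀ u ∈ (Dt.mk w n a ρ (ρ ^ (2 * j))).uns, ¬ (Dt.mk w n a ρ (ρ ^ (2 * j))).spc u →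
        UO (Dt.mk w n a ρ (ρ ^ (2 * j))) u (O u)) ∧
      ((∑ u ∈ (Dt.mk w n a ρ (ρ ^ (2 * j))).uns.filter
        (fun u => ¬ (Dt.mk w n a ρ (ρ ^ (2 * j))).spc u), (O u).length : ℕ) : ℝ) ≤
        ((n : ℝ) + 1) + 200000 * (d : ℝ) ^ 4 *
          (((n : ℝ) + 1) * (1 / ρ + 1 / J) + (ρ : ℝ) ^ (2 * J))

theorem enc_cover (d : ℕ) (h_STR : St_STR d) (hd : 2 ≤ d) (ρ J n : ℕ) (hρ : 2 ≤ ρ) (hJ : 1 ≤ J)
    {P : List (Vx d)} (hP : P ∈ SW d n) : ∃ j < J, ∃ a : Vx d,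
      (∀ k, 0 ≤ a k ∧ a k < ((ρ ^ (2 * J) : ℕ) : ℤ)) ∧ encΩ d ρ J n j a P := by
  classical
  obtain ⟨h1, h2, h3⟩ := enc_w hP
  obtain ⟨j, hj, a, ha, h4, O, h5, h6⟩ := h_STR hd (fun t => P.getD t 0) n ρ J hρ hJ h1
  refine ⟨j, hj, a, ha, fun t => P.getD t 0, h1, h2, h3, ?_, O, h5, h6⟩
  rw [Nat.le_div_iff_mul_le (by positivity), mul_comm]
  exact h4

/-- bound for one class -/
theorem enc_class (d : ℕ) (h_ENJ : St_ENJ d) (hd : 2 ≤ d) (β F0 B : ℝ) (hβ : 0 ≤ β)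
    (hF : 0 ≤ F0) (hB : 1 ≤ B)
    (hA : ∀ (g h : ℕ) (A : Finset (List (Vx d))), 1 ≤ g → g ≤ h → (∀ P ∈ A, Obj 0 g h P) →
      ∑ P ∈ A, Real.exp (β * (Ac P.toFinset : ℝ) - F0 * P.length) ≤ (B * h) ^ (6 * d))
    (ρ J n j : ℕ) (hρ : 2 ≤ ρ) (hJ : 1 ≤ J) (a : Vx d) (Ω : Finset (List (Vx d)))
    (hΩ : Ω ⊆ SW d n) (hΩ2 : ∀ P ∈ Ω, encΩ d ρ J n j a P) :
    ∑ P ∈ Ω, wt β P ≤ (Real.exp (β * (2 * d * ((ρ * ρ ^ (2 * j) : ℕ) : ℝ) ^ d) +
      F0 * (200000 * (d : ℝ) ^ 4 * (ρ : ℝ) ^ (2 * J))) *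
      (2 ^ (ρ * ρ ^ (2 * j) + 2) ^ (2 * d)) ^ 2) *
      Real.exp (((n : ℝ) + 1) * (F0 + (3 * d * β + F0 * (200000 * (d : ℝ) ^ 4) +
        6 * d * (6 * d + 1) * Real.sqrt (4 * d * B) + 1) * (1 / Real.sqrt ρ + 1 / J))) := by
  classical
  have hρ0 : 0 < ρ := by omega
  have hg1 : 1 ≤ ρ ^ (2 * j) := Nat.one_le_pow _ _ hρ0
  have hg2 : ρ ^ (2 * j) ≤ ρ * ρ ^ (2 * j) := Nat.le_mul_of_pos_left _ hρ0
  set h : ℕ := ρ * ρ ^ (2 * j) with hh
  have hh1 : 1 ≤ h := hg1.trans hg2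
  have hpow : ρ ^ (2 * j + 1) = h := by rw [hh, pow_succ, mul_comm]
  set H : ℝ := (h : ℝ) with hH
  have hH1 : (1 : ℝ) ≤ H := by rw [hH]; exact_mod_cast hh1
  have hH0 : 0 < H := by linarith
  have hdR : (2 : ℝ) ≤ d := by exact_mod_cast hd
  set S : ℝ := (B * H) ^ (6 * d) with hS
  have hB0 : 0 < B := by linarith
  have hS0 : 0 < S := by positivity
  set x : ℝ := (2 * d * H * (1 + S))⁻¹ with hx
  have hy1 : 1 ≤ 2 * d * H * (1 + S) := by
    have : 1 ≤ 2 * d * H := by nlinarith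
    nlinarith
  have hy0 : 0 < 2 * d * H * (1 + S) := by linarith
  have hx0 : 0 < x := by rw [hx]; positivity
  have hx1 : x ≤ 1 := by rw [hx]; exact inv_le_one_of_one_le₀ hy1
  have hcast : (ρ : ℝ) * ((ρ ^ (2 * j) : ℕ) : ℝ) = H := by rw [hH, hh]; push_cast; ring
  set m : ℕ := 3 * d * (n + 1) / ρ ^ (2 * j + 1) with hm
  have hmH : (m : ℝ) * H ≤ 3 * d * ((n : ℝ) + 1) := by
    have : m * h ≤ 3 * d * (n + 1) := by
      rw [hm, hpow]; exact Nat.div_mul_le_self _ _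
    rw [hH]
    exact_mod_cast this
  have key := h_ENJ (by omega) β F0 S ρ (ρ ^ (2 * j)) a hβ hF hS0.le hρ hg1
    (fun A hAP => hA _ _ A hg1 hg2 hAP) n m
    (((n : ℝ) + 1) + 200000 * (d : ℝ) ^ 4 *
          (((n : ℝ) + 1) * (1 / ρ + 1 / J) + (ρ : ℝ) ^ (2 * J))) Ω hΩ (by
      intro P hP
      obtain ⟨w, h1, h2, h3, h4, O, h5, h6⟩ := hΩ2 P hP
      exact ⟨w, h1, h2, h3, h4, O, h5, h6⟩) x hx0 hx1
  rw [hcast] at key
  refine key.trans ?_
  have hxinv : x⁻¹ = Real.exp (Real.log (2 * d * H * (1 + S))) := by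
    rw [hx, inv_inv, Real.exp_log hy0]
  have hxp : (x⁻¹) ^ m = Real.exp (m * Real.log (2 * d * H * (1 + S))) := by
    rw [hxinv, ← Real.exp_nat_mul]
  have hx3 : x * (2 * d * (1 + S)) = 1 / H := by
    rw [hx]
    have : (1 + S) ≠ 0 := by positivity
    have : (d : ℝ) ≠ 0 := by positivity
    field_simp
  have hx4 : (1 + x * (2 * d * (1 + S))) ^ (n + 1) ≤ Real.exp (((n : ℝ) + 1) / H) := by
    rw [hx3]
    calc (1 + 1 / H) ^ (n + 1) ≤ (Real.exp (1 / H)) ^ (n + 1) := by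
          apply pow_le_pow_left₀ (by positivity)
          have := Real.add_one_le_exp (1 / H)
          linarith
      _ = Real.exp (((n : ℝ) + 1) / H) := by
          rw [← Real.exp_nat_mul]
          congr 1
          push_cast
          ring
  have hρR : (1 : ℝ) ≤ ρ := by exact_mod_cast hρ0
  have hρH : (ρ : ℝ) ≤ H := by
    rw [hH]
    have : ρ ≤ h := by
      rw [hh]; exact Nat.le_mul_of_pos_right _ (by positivity)
    exact_mod_cast this
  have hJR : (0 : ℝ) < J := by exact_mod_cast hJ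
  have hE := enc_exp d hd β F0 B H ρ ((n : ℝ) + 1) ((ρ : ℝ) ^ (2 * J)) J m hβ hF hB hρR hρH
    (by positivity) hJR hmH
  rw [hxp]
  set K : ℝ := (2 ^ (h + 2) ^ (2 * d)) ^ 2 with hK
  have hK0 : 0 < K := by rw [hK]; positivity
  have hcomb : ∀ u v z : ℝ, Real.exp u * K * Real.exp v * Real.exp z =
      K * Real.exp (u + v + z) := by
    intro u v z
    rw [Real.exp_add, Real.exp_add]
    ring
  calc Real.exp (β * (m + 2 * d * H ^ d) + F0 * (((n : ℝ) + 1) + 200000 * (d : ℝ) ^ 4 *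
          (((n : ℝ) + 1) * (1 / ρ + 1 / J) + (ρ : ℝ) ^ (2 * J)))) * K *
          Real.exp (m * Real.log (2 * d * H * (1 + S))) *
          (1 + x * (2 * d * (1 + S))) ^ (n + 1)
      ≤ Real.exp (β * (m + 2 * d * H ^ d) + F0 * (((n : ℝ) + 1) + 200000 * (d : ℝ) ^ 4 *
          (((n : ℝ) + 1) * (1 / ρ + 1 / J) + (ρ : ℝ) ^ (2 * J)))) * K *
          Real.exp (m * Real.log (2 * d * H * (1 + S))) * Real.exp (((n : ℝ) + 1) / H) :=
        mul_le_mul_of_nonneg_left hx4 (by positivity)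
    _ = K * Real.exp (β * (m + 2 * d * H ^ d) + F0 * (((n : ℝ) + 1) + 200000 * (d : ℝ) ^ 4 *
          (((n : ℝ) + 1) * (1 / ρ + 1 / J) + (ρ : ℝ) ^ (2 * J))) +
          m * Real.log (2 * d * H * (1 + S)) + ((n : ℝ) + 1) / H) := hcomb _ _ _
    _ ≤ K * Real.exp ((β * (2 * d * H ^ d) + F0 * (200000 * (d : ℝ) ^ 4 * (ρ : ℝ) ^ (2 * J))) +
      ((n : ℝ) + 1) * (F0 + (3 * d * β + F0 * (200000 * (d : ℝ) ^ 4) +
        6 * d * (6 * d + 1) * Real.sqrt (4 * d * B) + 1) * (1 / Real.sqrt ρ + 1 / J))) := by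
        apply mul_le_mul_of_nonneg_left _ hK0.le
        exact Real.exp_le_exp.2 hE
    _ = _ := by
        rw [Real.exp_add]
        ring

theorem p_ENC (d : ℕ) (h_STR : St_STR d) (h_ENJ : St_ENJ d) : St_ENC d := by
  classical
  intro hd β F0 B hβ hF hB hA
  refine ⟨3 * d * β + F0 * (200000 * (d : ℝ) ^ 4) +
        6 * d * (6 * d + 1) * Real.sqrt (4 * d * B) + 1, by positivity, ?_⟩
  set C1 : ℝ := 3 * d * β + F0 * (200000 * (d : ℝ) ^ 4) +
        6 * d * (6 * d + 1) * Real.sqrt (4 * d * B) + 1 with hC1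
  intro ρ J hρ hJ
  set δ : ℝ := 1 / Real.sqrt ρ + 1 / J with hδ
  set As : Finset (Vx d) := Fintype.piFinset (fun _ => Ico (0 : ℤ) ((ρ ^ (2 * J) : ℕ) : ℤ))
    with hAs
  set Kj : ℕ → ℝ := fun j => Real.exp (β * (2 * d * ((ρ * ρ ^ (2 * j) : ℕ) : ℝ) ^ d) +
      F0 * (200000 * (d : ℝ) ^ 4 * (ρ : ℝ) ^ (2 * J))) *
      (2 ^ (ρ * ρ ^ (2 * j) + 2) ^ (2 * d)) ^ 2 with hKj
  refine ⟨(∑ p ∈ range J ×ˢ As, Kj p.1) * Real.exp (F0 + C1 * δ) + 1, ?_, ?_⟩
  · have : 0 ≤ ∑ p ∈ range J ×ˢ As, Kj p.1 := sum_nonneg (fun p _ => by rw [hKj]; positivity)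
    positivity
  · intro n hn
    have hexp : Real.exp (((n : ℝ) + 1) * (F0 + C1 * δ)) =
        Real.exp (F0 + C1 * δ) * Real.exp (n * (F0 + C1 * δ)) := by
      rw [← Real.exp_add]; congr 1; ring
    have h1 : Zw d β n ≤ ∑ P ∈ SW d n, ∑ p ∈ range J ×ˢ As,
        if encΩ d ρ J n p.1 p.2 P then wt β P else 0 := by
      unfold Zw
      apply sum_le_sum
      intro P hP
      obtain ⟨j, hj, a, ha, h2⟩ := enc_cover d h_STR hd ρ J n hρ hJ hP
      have hmem : (j, a) ∈ range J ×ˢ As := by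
        rw [mem_product]
        refine ⟨mem_range.2 hj, ?_⟩
        rw [hAs, Fintype.mem_piFinset]
        intro k
        rw [mem_Ico]
        exact ha k
      have hnn : ∀ p ∈ range J ×ˢ As, 0 ≤ (if encΩ d ρ J n p.1 p.2 P then wt β P else 0) := by
        intro p _
        split_ifs
        · exact (Real.exp_pos _).le
        · exact le_rfl
      have h3 := single_le_sum hnn hmem
      simp only at h3
      rw [if_pos h2] at h3
      exact h3
    refine h1.trans ?_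
    rw [sum_comm]
    have h2 : ∀ p ∈ range J ×ˢ As, ∑ P ∈ SW d n,
        (if encΩ d ρ J n p.1 p.2 P then wt β P else 0) ≤
        Kj p.1 * (Real.exp (F0 + C1 * δ) * Real.exp (n * (F0 + C1 * δ))) := by
      intro p _
      rw [← sum_filter, ← hexp]
      exact enc_class d h_ENJ hd β F0 B hβ hF hB hA ρ J n p.1 hρ hJ p.2 _ (filter_subset _ _)
        (fun P hP => (mem_filter.1 hP).2)
    refine (sum_le_sum h2).trans ?_
    rw [← sum_mul]
    have h3 : 0 < Real.exp (n * (F0 + C1 * δ)) := Real.exp_pos _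
    nlinarith

end Pool.Agent.H981R3.IS
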