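import Pool.Agent.H981R3.IS.Stubs

/-!
Task ENJ (helper769): partition function of the walks with given scale and offset
-/

set_option autoImplicit false

namespace Pool.Agent.H981R3.IS

open Finset

variable {d : ℕ}

theorem enj_adj_sub (c x y : Vx d) : adj (x - c) (y - c) ↔ adj x y := by
  unfold adj
  have : ∀ k, (x - c) k - (y - c) k = x k - y k := by
    intro k; simp
  simp only [this]

theorem enj_bxT {α : Vx d} {h T : ℕ} {x : Vx d} (hx : x ∈ bxT α h T) : x - α ∈ bxT 0 h T := by
  intro k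
  have := hx k
  simp only [Pi.sub_apply, Pi.zero_apply]
  constructor
  · linarith [this.1]
  · linarith [this.2]

theorem enj_fce {α : Vx d} {h T : ℕ} {i : Fin d} {σ : Bool} {x : Vx d} (hx : x ∈ fce α h T i σ) :
    x - α ∈ fce 0 h T i σ := by
  obtain ⟨h1, h2⟩ := hx
  refine ⟨enj_bxT h1, ?_⟩
  simp only [Pi.sub_apply, Pi.zero_apply]
  rw [h2]
  cases σ
  · simp
  · simp; ring

theorem enj_obj (h_ISO : St_ISO d) {α : Vx d} {g h : ℕ} {P : List (Vx d)} (hP : Obj α g h P) :
    Obj 0 g h (P.map (fun x => x - α)) := by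
  obtain ⟨-, hI⟩ := h_ISO (fun x => x - α) (fun a b hab => sub_left_injective hab)
    (fun x y => enj_adj_sub α x y)
  rcases hP with ⟨h1, h2⟩ | ⟨h1, h2, i, i', σ, σ', x, y, h3, h4, h5, h6, h7⟩
  · left
    refine ⟨((hI 0 P).2.1).2 h1, ?_⟩
    intro z hz
    rw [List.mem_map] at hz
    obtain ⟨x, hx, rfl⟩ := hz
    exact enj_bxT (h2 x hx)
  · right
    refine ⟨((hI 0 P).1).2 h1, ?_, i, i', σ, σ', x - α, y - α, h3, ?_, ?_, enj_fce h6,
      enj_fce h7⟩
    · intro z hz
      rw [List.mem_map] at hz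
      obtain ⟨x, hx, rfl⟩ := hz
      exact enj_bxT (h2 x hx)
    · rw [List.head?_map, h4]; rfl
    · rw [List.getLast?_map, h5]; rfl

/-- weights of the codes -/
noncomputable def enj_W (β F0 x : ℝ) : Option (Vx d × Option (List (Vx d))) → ℝ
  | none => 1
  | some (_, none) => x
  | some (_, some L) => x * Real.exp (β * (Ac L.toFinset : ℝ) - F0 * L.length)

theorem enj_W_nonneg (β F0 : ℝ) {x : ℝ} (hx : 0 < x) (c : Option (Vx d × Option (List (Vx d)))) :
    0 ≤ enj_W β F0 x c := by
  rcases c with _ | ⟨v, _ | L⟩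
  · exact zero_le_one
  · exact hx.le
  · exact mul_nonneg hx.le (Real.exp_pos _).le

/-- crossing steps are at most as many as crossing bonds -/
theorem enj_crs_le (hd : 1 ≤ d) (h_ACM : St_ACM d) (D : Dt d) (hSw : Sw D.w D.n) : D.crs.card ≤ D.crb := by
  classical
  obtain ⟨-, -, -, -, hadj, -⟩ := h_ACM
  obtain ⟨hs, hinj⟩ := hSw
  have hex : ∀ p : ℕ, ∃ q : Vx d × Fin d, p < D.n →
      ((q.1 = D.w p ∧ D.w (p + 1) = D.w p + ev q.2) ∨
        (q.1 = D.w (p + 1) ∧ D.w p = D.w (p + 1) + ev q.2)) := by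
    intro p
    by_cases hp : p < D.n
    · obtain ⟨k, hk | hk⟩ := (hadj _ _).1 (hs p hp)
      · exact ⟨(D.w p, k), fun _ => Or.inl ⟨rfl, hk⟩⟩
      · exact ⟨(D.w (p + 1), k), fun _ => Or.inr ⟨rfl, hk⟩⟩
    · exact ⟨(0, ⟨0, hd⟩), fun h => absurd h hp⟩
  choose q hq using hex
  unfold Dt.crb
  apply Finset.card_le_card_of_injOn q
  · intro p hp
    have hp' := mem_filter.1 (Finset.mem_coe.1 hp)
    have hpn : p < D.n := mem_range.1 hp'.1
    have hmem : ∀ t ≤ D.n, D.w t ∈ D.vs := by
      intro t ht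
      unfold Dt.vs
      exact mem_image_of_mem _ (mem_range.2 (by omega))
    rw [Finset.mem_coe, mem_filter, mem_product]
    rcases hq p hpn with ⟨h1, h2⟩ | ⟨h1, h2⟩
    · rw [h1, ← h2]
      exact ⟨⟨hmem p hpn.le, mem_univ _⟩, hmem (p + 1) hpn, hp'.2⟩
    · rw [h1, ← h2]
      exact ⟨⟨hmem (p + 1) hpn, mem_univ _⟩, hmem p hpn.le, fun h => hp'.2 h.symm⟩
  · intro p hp p' hp' hpp
    have hpn : p < D.n := mem_range.1 (mem_filter.1 (Finset.mem_coe.1 hp)).1
    have hpn' : p' < D.n := mem_range.1 (mem_filter.1 (Finset.mem_coe.1 hp')).1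
    rcases hq p hpn with ⟨h1, h2⟩ | ⟨h1, h2⟩ <;> rcases hq p' hpn' with ⟨h1', h2'⟩ | ⟨h1', h2'⟩
    · rw [hpp] at h1
      exact hinj p hpn.le p' hpn'.le (h1.symm.trans h1')
    · rw [hpp] at h1 h2
      have e1 : D.w p = D.w (p' + 1) := h1.symm.trans h1'
      have e2 : D.w (p + 1) = D.w p' := by rw [h2, e1, ← h2']
      have := hinj p hpn.le (p' + 1) hpn' e1
      have := hinj (p + 1) hpn p' hpn'.le e2
      omega
    · rw [hpp] at h1 h2
      have e1 : D.w (p + 1) = D.w p' := h1.symm.trans h1'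
      have e2 : D.w p = D.w (p' + 1) := by rw [h2, e1, ← h2']
      have := hinj (p + 1) hpn p' hpn'.le e1
      have := hinj p hpn.le (p' + 1) hpn' e2
      omega
    · rw [hpp] at h1
      have := hinj (p + 1) hpn (p' + 1) hpn' (h1.symm.trans h1')
      omega

open scoped Classical in
/-- the product of the weights of the codes -/
theorem enj_prod (h_CLS : St_CLS d) (D : Dt d) (hSw : Sw D.w D.n) (O : Finset ℕ → List (Vx d))
    (β F0 x : ℝ) (hC : ∀ (c : Vx d) (L : List (Vx d)),
      (Ac (L.map (fun y => y - c)).toFinset : ℝ) = (Ac L.toFinset : ℝ)) :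
    ∃ k : ℕ, k ≤ D.crs.card ∧ ∏ t ∈ range (D.n + 1), enj_W β F0 x (cod D O t) =
      x ^ k * ∏ u ∈ D.uns.filter (fun u => ¬ D.spc u),
        Real.exp (β * (Ac (O u).toFinset : ℝ) - F0 * (O u).length) := by
  obtain ⟨c1, c2, -, -, c5, -, -, c8, -⟩ := h_CLS D hSw
  set M1 : Finset ℕ := (range (D.n + 1)).filter (fun t => 1 ≤ t ∧ t - 1 ∈ D.crs) with hM1
  set M2 : Finset ℕ := M1.filter (fun t => ¬ D.spc (D.uc t) ∧ ∀ s ∈ D.uc t, t ≤ s) with hM2
  refine ⟨M1.card, ?_, ?_⟩
  · apply Finset.card_le_card_of_injOn (fun t => t - 1)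
    · intro t ht
      exact (mem_filter.1 (Finset.mem_coe.1 ht)).2.2
    · intro t ht t' ht' h
      have h1 := (mem_filter.1 (Finset.mem_coe.1 ht)).2.1
      have h2 := (mem_filter.1 (Finset.mem_coe.1 ht')).2.1
      dsimp only at h
      omega
  · have hterm : ∀ t ∈ range (D.n + 1), enj_W β F0 x (cod D O t) =
        (if t ∈ M1 then x else 1) * (if t ∈ M2 then
          Real.exp (β * (Ac (O (D.uc t)).toFinset : ℝ) - F0 * (O (D.uc t)).length) else 1) := by
      intro t ht
      unfold cod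
      by_cases h1 : 1 ≤ t ∧ t - 1 ∈ D.crs
      · have hm1 : t ∈ M1 := mem_filter.2 ⟨ht, h1⟩
        rw [if_pos h1, if_pos hm1]
        by_cases h2 : ¬ D.spc (D.uc t) ∧ ∀ s ∈ D.uc t, t ≤ s
        · have hm2 : t ∈ M2 := mem_filter.2 ⟨hm1, h2⟩
          rw [if_pos h2, if_pos hm2]
          show x * Real.exp (β * (Ac ((O (D.uc t)).map
            (fun y => y - D.og (D.w t))).toFinset : ℝ) - F0 *
              ((O (D.uc t)).map (fun y => y - D.og (D.w t))).length) = _
          rw [hC, List.length_map]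
        · have hm2 : t ∉ M2 := fun h => h2 (mem_filter.1 h).2
          rw [if_neg h2, if_neg hm2]
          unfold enj_W
          rw [mul_one]
      · have hm1 : t ∉ M1 := fun h => h1 (mem_filter.1 h).2
        have hm2 : t ∉ M2 := fun h => hm1 (mem_filter.1 h).1
        rw [if_neg h1, if_neg hm1, if_neg hm2]
        unfold enj_W
        rw [mul_one]
    rw [Finset.prod_congr rfl hterm, Finset.prod_mul_distrib]
    have hsub1 : (range (D.n + 1)).filter (fun t => t ∈ M1) = M1 := by
      ext t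
      rw [mem_filter]
      exact ⟨fun h => h.2, fun h => ⟨(mem_filter.1 h).1, h⟩⟩
    have hsub2 : (range (D.n + 1)).filter (fun t => t ∈ M2) = M2 := by
      ext t
      rw [mem_filter]
      exact ⟨fun h => h.2, fun h => ⟨(mem_filter.1 (mem_filter.1 h).1).1, h⟩⟩
    rw [← Finset.prod_filter, ← Finset.prod_filter, hsub1, hsub2, Finset.prod_const]
    congr 1
    -- the units
    have himg : M2.image D.uc = D.uns.filter (fun u => ¬ D.spc u) := by
      ext u
      rw [mem_image, mem_filter]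
      constructor
      · rintro ⟨t, ht, rfl⟩
        have h1 := mem_filter.1 ht
        have h2 := mem_filter.1 h1.1
        exact ⟨mem_image_of_mem _ h2.1, h1.2.1⟩
      · rintro ⟨hu, hsp⟩
        obtain ⟨hne, hall⟩ := c5 u hu
        set t := u.min' hne with ht
        have htu : t ∈ u := u.min'_mem hne
        obtain ⟨htn, hut⟩ := hall t htu
        have ht0 : 1 ≤ t := by
          by_contra hc
          have : t = 0 := by omega
          rw [this] at htu
          exact hsp (Or.inl htu)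
        have hcr : t - 1 ∈ D.crs := by
          by_contra hc
          have h1 := (c8 (t - 1) (by omega) hc).2
          have h2 : t - 1 + 1 = t := by omega
          rw [h2, hut] at h1
          have h3 : t - 1 ∈ u := by
            rw [← h1]
            exact (c1 (t - 1) (by omega)).1
          have := u.min'_le _ h3
          omega
        refine ⟨t, ?_, hut⟩
        rw [hM2, mem_filter, hM1, mem_filter, mem_range, hut]
        exact ⟨⟨by omega, ht0, hcr⟩, hsp, fun s hs => u.min'_le s hs⟩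
    have hinj : Set.InjOn D.uc (M2 : Set ℕ) := by
      intro t ht t' ht' h
      have h1 := mem_filter.1 (Finset.mem_coe.1 ht)
      have h2 := mem_filter.1 (Finset.mem_coe.1 ht')
      have h1n := mem_range.1 (mem_filter.1 h1.1).1
      have h2n := mem_range.1 (mem_filter.1 h2.1).1
      have e1 : t' ∈ D.uc t := by rw [h]; exact (c1 t' (by omega)).1
      have e2 : t ∈ D.uc t' := by rw [← h]; exact (c1 t (by omega)).1
      have := h1.2.2 t' e1
      have := h2.2.2 t e2
      omega
    rw [← himg, Finset.prod_image hinj]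

/-- relative positions -/
theorem enj_con_mem (h_ARI : St_ARI d) (h_CLS : St_CLS d) (D : Dt d) (hρ : 2 ≤ D.ρ)
    (hg : 1 ≤ D.g) (hSw : Sw D.w D.n) (t : ℕ) :
    con D t ⊆ (Fintype.piFinset (fun _ : Fin d => Icc (-1 : ℤ) D.h)) ×ˢ
      (Fintype.piFinset (fun _ : Fin d => Icc (-1 : ℤ) D.h)) := by
  classical
  obtain ⟨a1, -⟩ := h_ARI D hρ hg hSw
  obtain ⟨-, c2, -⟩ := h_CLS D hSw
  intro y hy
  unfold con at hy
  rw [mem_image] at hy
  obtain ⟨⟨p1, p2⟩, hp, rfl⟩ := hy
  rw [mem_filter, mem_product, mem_range, mem_range] at hp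
  obtain ⟨⟨hp1, hp2⟩, hpu, hpp⟩ := hp
  dsimp only at hp1 hp2 hpu hpp ⊢
  obtain ⟨-, -, hci, -⟩ := c2 p1 t hpu
  have hcel : D.w p1 ∈ cel (D.og (D.w t)) D.h := (a1 _ _).2 hci
  have hadj : adj (D.w p1) (D.w p2) := by
    rcases hpp with h | h
    · rw [h]; exact hSw.1 p1 (by omega)
    · rw [h]
      have := hSw.1 p2 (by omega)
      unfold adj at this ⊢
      rw [← this]
      apply Finset.sum_congr rfl
      intro k _
      exact abs_sub_comm _ _
  have hle : ∀ k, |D.w p1 k - D.w p2 k| ≤ 1 := by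
    intro k
    rw [← hadj]
    exact Finset.single_le_sum (f := fun k => |D.w p1 k - D.w p2 k|)
      (fun i _ => abs_nonneg _) (mem_univ k)
  rw [mem_product, Fintype.mem_piFinset, Fintype.mem_piFinset]
  constructor
  · intro k
    have := hcel k
    rw [mem_Icc]
    simp only [Pi.sub_apply]
    omega
  · intro k
    have h1 := hcel k
    have h2 := abs_le.1 (hle k)
    rw [mem_Icc]
    simp only [Pi.sub_apply]
    omega

open scoped Classical in
theorem p_ENJ (d : ℕ) (h_PSM : St_PSM) (h_DEC : St_DEC d) (h_BND : St_BND d)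
    (h_ISO : St_ISO d) (h_ACM : St_ACM d) (h_CLS : St_CLS d) (h_ARI : St_ARI d) : St_ENJ d := by
  intro hd β F0 S ρ g a hβ hF0 hS hρ hg hsum n m Λ Ω hΩ hex x hx0 hx1
  have hex' : ∀ P : List (Vx d), ∃ (w : ℕ → Vx d) (O : Finset ℕ → List (Vx d)), P ∈ Ω →
      (Sw w n ∧ w 0 = 0 ∧ (∀ t ≤ n, P[t]? = some (w t)) ∧
      (Dt.mk w n a ρ g).crb ≤ m ∧
      (∀ u ∈ (Dt.mk w n a ρ g).uns, ¬ (Dt.mk w n a ρ g).spc u → UO (Dt.mk w n a ρ g) u (O u)) ∧
      ((∑ u ∈ (Dt.mk w n a ρ g).uns.filter (fun u => ¬ (Dt.mk w n a ρ g).spc u),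
        (O u).length : ℕ) : ℝ) ≤ Λ) := by
    intro P
    by_cases hP : P ∈ Ω
    · obtain ⟨w, h1, h2, h3, h4, O, h5, h6⟩ := hex P hP
      exact ⟨w, O, fun _ => ⟨h1, h2, h3, h4, h5, h6⟩⟩
    · exact ⟨fun _ => 0, fun _ => [], fun h => absurd h hP⟩
  choose wf Of hwO using hex'
  set DD : List (Vx d) → Dt d := fun P => Dt.mk (wf P) n a ρ g with hDD
  have hAc : ∀ (c : Vx d) (L : List (Vx d)),
      (Ac (L.map (fun y => y - c)).toFinset : ℝ) = (Ac L.toFinset : ℝ) := by
    intro c L
    have h1 := (h_ISO (fun y => y - c) (fun a b hab => sub_left_injective hab)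
      (fun x y => enj_adj_sub c x y)).1 L.toFinset
    have h2 : (L.map (fun y => y - c)).toFinset = L.toFinset.image (fun y => y - c) := by
      ext z
      simp
    rw [h2, h1]
  -- the finite sets of codes
  set AA : Finset (List (Vx d)) := (Ω.biUnion fun P => (range (n + 1)).image
    (fun t => (Of P ((DD P).uc t)).map (fun y => y - (DD P).og ((DD P).w t)))).filter
      (fun L => Obj 0 g (ρ * g) L) with hAA
  set V : Finset (Vx d) := (univ.image ev) ∪ (univ.image (fun k => - ev k)) with hV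
  set T : Finset (Option (Vx d × Option (List (Vx d)))) :=
    insertNone (V ×ˢ insertNone AA) with hT
  set Bx : Finset (Vx d × Vx d) := (Fintype.piFinset (fun _ : Fin d => Icc (-1 : ℤ) (ρ * g : ℕ)))
    ×ˢ (Fintype.piFinset (fun _ : Fin d => Icc (-1 : ℤ) (ρ * g : ℕ))) with hBx
  set Q : Finset (Finset (Vx d × Vx d) × Finset (Vx d × Vx d)) := Bx.powerset ×ˢ Bx.powerset
    with hQ
  set A : ℝ := Real.exp (β * (m + 2 * d * (ρ * g : ℝ) ^ d) + F0 * Λ) * (x⁻¹) ^ m with hA
  have hA0 : 0 ≤ A := by positivity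
  -- facts on the walks
  have hlen : ∀ P ∈ Ω, P.length = n + 1 := by
    intro P hP
    have h1 := hΩ hP
    unfold SW LL at h1
    rw [mem_filter, mem_image] at h1
    obtain ⟨⟨f, -, rfl⟩, -⟩ := h1
    simp
  have hvs : ∀ P ∈ Ω, P.toFinset = (DD P).vs := by
    intro P hP
    obtain ⟨h1, h2, h3, -⟩ := hwO P hP
    ext z
    rw [List.mem_toFinset, List.mem_iff_getElem?]
    unfold Dt.vs
    rw [mem_image]
    constructor
    · rintro ⟨t, ht⟩
      have htl : t < P.length := by
        by_contra hc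
        rw [List.getElem?_eq_none (by omega)] at ht
        cases ht
      rw [hlen P hP] at htl
      have h4 := h3 t (by omega)
      rw [h4] at ht
      exact ⟨t, mem_range.2 htl, Option.some.inj ht⟩
    · rintro ⟨t, ht, rfl⟩
      have ht' : t < n + 1 := mem_range.1 ht
      exact ⟨t, h3 t (by omega)⟩
  have hmain := h_PSM (List (Vx d)) (Finset (Vx d × Vx d) × Finset (Vx d × Vx d))
    (Option (Vx d × Option (List (Vx d)))) Ω (n + 1) T Q
    (fun P t => cod (DD P) (Of P) (t : ℕ)) (fun P => (con (DD P) 0, con (DD P) n)) (wt β)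
    (enj_W β F0 x) A hA0 (fun c _ => enj_W_nonneg β F0 hx0 c) ?_ ?_ ?_ ?_
  · -- evaluate
    have hQc : (Q.card : ℝ) = (2 ^ (ρ * g + 2) ^ (2 * d)) ^ 2 := by
      rw [hQ, card_product, card_powerset, hBx, card_product, Fintype.card_piFinset_const,
        Int.card_Icc]
      have e1 : ((((ρ * g : ℕ) : ℤ) + 1 - -1).toNat) = ρ * g + 2 := by omega
      have eN : (ρ * g + 2) ^ d * (ρ * g + 2) ^ d = (ρ * g + 2) ^ (2 * d) := by
        rw [← pow_add, ← two_mul]
      rw [e1, eN]
      push_cast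
      ring
    have hVc : (V.card : ℝ) ≤ 2 * d := by
      have h1 : V.card ≤ d + d := by
        refine (card_union_le _ _).trans ?_
        have h2 : ((univ : Finset (Fin d)).image (ev (d := d))).card ≤ d := by
          refine card_image_le.trans ?_
          simp
        have h3 : ((univ : Finset (Fin d)).image (fun k => - ev (d := d) k)).card ≤ d := by
          refine card_image_le.trans ?_
          simp
        omega
      have : (V.card : ℝ) ≤ ((d + d : ℕ) : ℝ) := by exact_mod_cast h1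
      push_cast at this
      linarith
    have hWs : ∑ c ∈ T, enj_W β F0 x c ≤ 1 + x * (2 * d * (1 + S)) := by
      rw [hT, Finset.sum_insertNone, Finset.sum_product]
      have h1 : ∀ v ∈ V, ∑ o ∈ insertNone AA, enj_W β F0 x (some (v, o)) ≤ x * (1 + S) := by
        intro v _
        rw [Finset.sum_insertNone]
        have h2 : ∑ L ∈ AA, enj_W β F0 x (some (v, some L)) ≤ x * S := by
          have h3 := hsum AA (fun P hP => (mem_filter.1 hP).2)
          calc ∑ L ∈ AA, enj_W β F0 x (some (v, some L))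
              = x * ∑ L ∈ AA, Real.exp (β * (Ac L.toFinset : ℝ) - F0 * L.length) := by
                rw [Finset.mul_sum]
                rfl
            _ ≤ x * S := mul_le_mul_of_nonneg_left h3 hx0.le
        have h4 : enj_W β F0 x (some (v, none)) = x := rfl
        rw [h4]
        linarith
      have h5 : ∑ v ∈ V, ∑ o ∈ insertNone AA, enj_W β F0 x (some (v, o)) ≤
          V.card • (x * (1 + S)) := Finset.sum_le_card_nsmul _ _ _ h1
      rw [nsmul_eq_mul] at h5
      have h6 : (V.card : ℝ) * (x * (1 + S)) ≤ 2 * d * (x * (1 + S)) :=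
        mul_le_mul_of_nonneg_right hVc (by positivity)
      have h7 : enj_W β F0 x (none : Option (Vx d × Option (List (Vx d)))) = 1 := rfl
      rw [h7]
      linarith
    have hWs0 : 0 ≤ ∑ c ∈ T, enj_W β F0 x c :=
      Finset.sum_nonneg fun c _ => enj_W_nonneg β F0 hx0 c
    refine hmain.trans ?_
    rw [hQc]
    calc A * (2 ^ (ρ * g + 2) ^ (2 * d)) ^ 2 * (∑ c ∈ T, enj_W β F0 x c) ^ (n + 1)
        ≤ A * (2 ^ (ρ * g + 2) ^ (2 * d)) ^ 2 * (1 + x * (2 * d * (1 + S))) ^ (n + 1) := by
          gcongr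
      _ = _ := by rw [hA]; ring
  · -- the codes lie in T
    intro P hP t
    obtain ⟨h1, h2, h3, h4, h5, h6⟩ := hwO P hP
    have htn : (t : ℕ) ≤ n := by have := t.2; omega
    obtain ⟨-, -, -, -, hadj, -⟩ := h_ACM
    obtain ⟨c1, c2, -⟩ := h_CLS (DD P) h1
    rw [hT]
    unfold cod
    split_ifs with hc1 hc2
    · rw [some_mem_insertNone, mem_product, some_mem_insertNone]
      constructor
      · -- the increment
        have := h1.1 ((t : ℕ) - 1) (by omega)
        have e : (t : ℕ) - 1 + 1 = t := by omega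
        rw [e] at this
        obtain ⟨k, hk | hk⟩ := (hadj _ _).1 this
        · rw [hV, mem_union, mem_image]
          left
          refine ⟨k, mem_univ _, ?_⟩
          show ev k = wf P t - wf P (t - 1)
          rw [hk]; abel
        · rw [hV, mem_union, mem_image, mem_image]
          right
          refine ⟨k, mem_univ _, ?_⟩
          show - ev k = wf P t - wf P (t - 1)
          rw [hk]; abel
      · rw [hAA, mem_filter, mem_biUnion]
        refine ⟨⟨P, hP, mem_image.2 ⟨t, mem_range.2 (by omega), rfl⟩⟩, ?_⟩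
        have hu : (DD P).uc t ∈ (DD P).uns := mem_image_of_mem _ (mem_range.2 (by
          show (t : ℕ) < n + 1
          omega))
        have hUO := h5 _ hu hc2.1
        have hO := hUO.1 t (c1 t htn).1
        exact enj_obj h_ISO hO
    · rw [some_mem_insertNone, mem_product]
      refine ⟨?_, none_mem_insertNone⟩
      have := h1.1 ((t : ℕ) - 1) (by omega)
      have e : (t : ℕ) - 1 + 1 = t := by omega
      rw [e] at this
      obtain ⟨k, hk | hk⟩ := (hadj _ _).1 this
      · rw [hV, mem_union, mem_image]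
        left
        refine ⟨k, mem_univ _, ?_⟩
        show ev k = wf P t - wf P (t - 1)
        rw [hk]; abel
      · rw [hV, mem_union, mem_image, mem_image]
        right
        refine ⟨k, mem_univ _, ?_⟩
        show - ev k = wf P t - wf P (t - 1)
        rw [hk]; abel
    · exact none_mem_insertNone
  · -- the contents lie in Q
    intro P hP
    obtain ⟨h1, -⟩ := hwO P hP
    rw [hQ, mem_product, mem_powerset, mem_powerset]
    exact ⟨enj_con_mem h_ARI h_CLS (DD P) hρ hg h1 0, enj_con_mem h_ARI h_CLS (DD P) hρ hg h1 n⟩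
  · -- injectivity
    intro P hP P' hP' hφ hψ
    obtain ⟨h1, h2, h3, h4, h5, h6⟩ := hwO P hP
    obtain ⟨h1', h2', h3', h4', h5', h6'⟩ := hwO P' hP'
    have hdec := h_DEC hd (DD P) (DD P') (Of P) (Of P') hρ hg rfl rfl rfl rfl h1 h1' h2 h2'
      h5 h5' (fun t ht => by
        have := congrFun hφ ⟨t, by show t < n + 1; have : t ≤ n := ht; omega⟩
        exact this) (Prod.mk.inj hψ).1 (Prod.mk.inj hψ).2
    apply List.ext_getElem?
    intro t
    by_cases ht : t ≤ n
    · rw [h3 t ht, h3' t ht]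
      congr 1
      exact hdec t ht
    · rw [List.getElem?_eq_none (by rw [hlen P hP]; omega),
        List.getElem?_eq_none (by rw [hlen P' hP']; omega)]
  · -- the weights
    intro P hP
    obtain ⟨h1, h2, h3, h4, h5, h6⟩ := hwO P hP
    have hb := h_BND hd (DD P) hρ hg h1 (Of P) h5
    obtain ⟨k, hk1, hk2⟩ := enj_prod h_CLS (DD P) h1 (Of P) β F0 x hAc
    have hcrs := enj_crs_le hd h_ACM (DD P) h1
    have hkm : k ≤ m := hk1.trans (hcrs.trans h4)
    have hprod : ∏ t : Fin (n + 1), enj_W β F0 x (cod (DD P) (Of P) (t : ℕ)) =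
        ∏ t ∈ range (n + 1), enj_W β F0 x (cod (DD P) (Of P) t) :=
      (Finset.prod_range (fun t => enj_W β F0 x (cod (DD P) (Of P) t))).symm
    have hk2' : ∏ t ∈ range (n + 1), enj_W β F0 x (cod (DD P) (Of P) t) =
      x ^ k * ∏ u ∈ (DD P).uns.filter (fun u => ¬ (DD P).spc u),
        Real.exp (β * (Ac (Of P u).toFinset : ℝ) - F0 * (Of P u).length) := hk2
    rw [hprod, hk2', ← Real.exp_sum]
    unfold wt
    rw [hvs P hP]
    have hx1' : 1 ≤ (x⁻¹) ^ m * x ^ k := by
      have e : (x⁻¹) ^ m * x ^ k = (x⁻¹) ^ (m - k) := by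
        have : m = (m - k) + k := by omega
        nth_rewrite 1 [this]
        rw [pow_add, mul_assoc, ← mul_pow, inv_mul_cancel₀ hx0.ne', one_pow, mul_one]
      rw [e]
      exact one_le_pow₀ (by rw [one_le_inv₀ hx0]; exact hx1)
    have hAcb : (Ac (DD P).vs : ℝ) ≤ m + 2 * d * (ρ * g : ℝ) ^ d +
        ∑ u ∈ (DD P).uns.filter (fun u => ¬ (DD P).spc u), (Ac (Of P u).toFinset : ℝ) := by
      have h7 : (Ac (DD P).vs : ℝ) ≤ ((DD P).crb + 2 * d * (DD P).h ^ d +
        ∑ u ∈ (DD P).uns.filter (fun u => ¬ (DD P).spc u), Ac (Of P u).toFinset : ℕ) := by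
        exact_mod_cast hb
      have h8 : (((DD P).crb : ℕ) : ℝ) ≤ m := by exact_mod_cast h4
      have h9 : (((DD P).h : ℕ) : ℝ) = (ρ * g : ℝ) := by
        show ((ρ * g : ℕ) : ℝ) = _
        push_cast
        rfl
      push_cast at h7
      rw [h9] at h7
      linarith
    have hexp : Real.exp (β * (Ac (DD P).vs : ℝ)) ≤
        Real.exp (β * (m + 2 * d * (ρ * g : ℝ) ^ d) + F0 * Λ) *
        Real.exp (∑ u ∈ (DD P).uns.filter (fun u => ¬ (DD P).spc u),
          (β * (Ac (Of P u).toFinset : ℝ) - F0 * (Of P u).length)) := by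
      rw [← Real.exp_add, Real.exp_le_exp, Finset.sum_sub_distrib, ← Finset.mul_sum,
        ← Finset.mul_sum]
      have h7 : β * (Ac (DD P).vs : ℝ) ≤ β * (m + 2 * d * (ρ * g : ℝ) ^ d +
        ∑ u ∈ (DD P).uns.filter (fun u => ¬ (DD P).spc u), (Ac (Of P u).toFinset : ℝ)) :=
        mul_le_mul_of_nonneg_left hAcb hβ
      have h8 : F0 * ∑ u ∈ (DD P).uns.filter (fun u => ¬ (DD P).spc u),
          ((Of P u).length : ℝ) ≤ F0 * Λ := by
        apply mul_le_mul_of_nonneg_left _ hF0
        have h9 := h6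
        push_cast at h9
        exact h9
      linarith
    calc Real.exp (β * (Ac (DD P).vs : ℝ))
        ≤ Real.exp (β * (m + 2 * d * (ρ * g : ℝ) ^ d) + F0 * Λ) *
          Real.exp (∑ u ∈ (DD P).uns.filter (fun u => ¬ (DD P).spc u),
            (β * (Ac (Of P u).toFinset : ℝ) - F0 * (Of P u).length)) := hexp
      _ ≤ (Real.exp (β * (m + 2 * d * (ρ * g : ℝ) ^ d) + F0 * Λ) *
          Real.exp (∑ u ∈ (DD P).uns.filter (fun u => ¬ (DD P).spc u),
            (β * (Ac (Of P u).toFinset : ℝ) - F0 * (Of P u).length))) *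
            ((x⁻¹) ^ m * x ^ k) := le_mul_of_one_le_right (by positivity) hx1'
      _ = _ := by rw [hA]; ring

end Pool.Agent.H981R3.IS
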