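import Pool.Agent.H981R3.IS.Stubs

set_option autoImplicit false

namespace Pool.Agent.H981R3.IS

open Finset

variable {d : ℕ}

/-- abstract data of the strands -/
structure fam_dat (w : ℕ → Vx d) (n : ℕ) (C u : Finset ℕ) (α : Vx d) (h : ℕ) : Prop where
  ad : ∀ t, t < n → adj (w t) (w (t + 1))
  inj : ∀ s, s ≤ n → ∀ t, t ≤ n → w s = w t → s = t
  lt : ∀ p ∈ C, p < n
  le : ∀ t ∈ u, t ≤ n
  stp : ∀ s, s < n → s ∉ C → (s ∈ u ↔ s + 1 ∈ u)
  cell : ∀ t ∈ u, w t ∈ cel α h
  outL : ∀ p ∈ C, p + 1 ∈ u → w p ∉ cel α h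
  outR : ∀ p ∈ C, p ∈ u → w (p + 1) ∉ cel α h
  h0 : 0 ∉ u
  hn : n ∉ u

/-- end of the strand -/
noncomputable def fam_e (C : Finset ℕ) (p : ℕ) : ℕ := sInf {q | p < q ∧ q ∈ C}

/-- list of the strand -/
noncomputable def fam_L (w : ℕ → Vx d) (C : Finset ℕ) (p : ℕ) : List (Vx d) :=
  (List.range' p (fam_e C p + 2 - p)).map w

theorem fam_ex {w : ℕ → Vx d} {n : ℕ} {C u : Finset ℕ} {α : Vx d} {h : ℕ}
    (H : fam_dat w n C u α h) {p : ℕ} (hp : p ∈ C) (hu : p + 1 ∈ u) : ∃ q, p < q ∧ q ∈ C := by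
  by_contra hc
  push Not at hc
  have hpn := H.lt p hp
  have key : ∀ k, p + 1 + k ≤ n → p + 1 + k ∈ u := by
    intro k
    induction k with
    | zero => intro _; exact hu
    | succ k ih =>
      intro hk
      have h1 := ih (by omega)
      have h2 := (H.stp (p + 1 + k) (by omega) (hc _ (by omega))).1 h1
      exact h2
  have := key (n - (p + 1)) (by omega)
  have h3 : p + 1 + (n - (p + 1)) = n := by omega
  rw [h3] at this
  exact H.hn this

theorem fam_spec {w : ℕ → Vx d} {n : ℕ} {C u : Finset ℕ} {α : Vx d} {h : ℕ}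
    (H : fam_dat w n C u α h) {p : ℕ} (hp : p ∈ C) (hu : p + 1 ∈ u) :
    p < fam_e C p ∧ fam_e C p ∈ C :=
  Nat.sInf_mem (s := {q | p < q ∧ q ∈ C}) (fam_ex H hp hu)

theorem fam_min {C : Finset ℕ} {p q : ℕ} (h1 : p < q) (h2 : q ∈ C) : fam_e C p ≤ q :=
  Nat.sInf_le (s := {q | p < q ∧ q ∈ C}) ⟨h1, h2⟩

theorem fam_mid {w : ℕ → Vx d} {n : ℕ} {C u : Finset ℕ} {α : Vx d} {h : ℕ}
    (H : fam_dat w n C u α h) {p : ℕ} (hp : p ∈ C) (hu : p + 1 ∈ u) :
    ∀ t, p < t → t ≤ fam_e C p → t ∈ u := by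
  have hs := fam_spec H hp hu
  have hen := H.lt _ hs.2
  intro t
  induction t with
  | zero => intro h1; omega
  | succ t ih =>
    intro h1 h2
    rcases Nat.lt_or_ge p t with h3 | h3
    · have h4 := ih h3 (by omega)
      refine (H.stp t (by omega) ?_).1 h4
      intro h5
      have := fam_min h3 h5
      omega
    · have : t = p := by omega
      rw [this]; exact hu

theorem fam_loc {w : ℕ → Vx d} {n : ℕ} {C u : Finset ℕ} {α : Vx d} {h : ℕ}
    (H : fam_dat w n C u α h) {t : ℕ} (ht : t ∈ u) :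
    ∃ p ∈ C, p + 1 ∈ u ∧ p < t ∧ t ≤ fam_e C p := by
  have htn := H.le t ht
  -- downward induction
  have key : ∀ k, k ≤ t → (∀ s, t - k ≤ s → s < t → s ∉ C) → t - k ∈ u := by
    intro k
    induction k with
    | zero => intro _ _; exact ht
    | succ k ih =>
      intro hk hs
      have h1 := ih (by omega) (fun s h1 h2 => hs s (by omega) h2)
      have h2 := H.stp (t - (k + 1)) (by omega) (hs _ le_rfl (by omega))
      have h3 : t - (k + 1) + 1 = t - k := by omega
      rw [h3] at h2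
      exact h2.2 h1
  have hne : (C.filter (· < t)).Nonempty := by
    by_contra hc
    rw [Finset.not_nonempty_iff_eq_empty] at hc
    have h0 := key t le_rfl (by
      intro s _ h2 h3
      have : s ∈ C.filter (· < t) := Finset.mem_filter.2 ⟨h3, h2⟩
      rw [hc] at this
      exact absurd this (Finset.notMem_empty s))
    rw [Nat.sub_self] at h0
    exact H.h0 h0
  obtain ⟨p, hp⟩ : ∃ p, p = (C.filter (· < t)).max' hne := ⟨_, rfl⟩
  have hpm : p ∈ C.filter (· < t) := by rw [hp]; exact Finset.max'_mem _ _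
  have hmax : ∀ q ∈ C, q < t → q ≤ p := by
    intro q hq hqt
    rw [hp]
    exact Finset.le_max' _ _ (Finset.mem_filter.2 ⟨hq, hqt⟩)
  obtain ⟨hpC, hpt⟩ := Finset.mem_filter.1 hpm
  have h1 : p + 1 ∈ u := by
    have := key (t - (p + 1)) (by omega) (by
      intro s h1 h2 h3
      have := hmax s h3 h2
      omega)
    have h2 : t - (t - (p + 1)) = p + 1 := by omega
    rw [h2] at this
    exact this
  refine ⟨p, hpC, h1, hpt, ?_⟩
  by_contra hc
  have hs := fam_spec H hpC h1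
  have := hmax _ hs.2 (by omega)
  omega

theorem fam_uniq {w : ℕ → Vx d} {n : ℕ} {C u : Finset ℕ} {α : Vx d} {h : ℕ}
    (_H : fam_dat w n C u α h) {p p' t : ℕ} (hp : p ∈ C) (hp' : p' ∈ C)
    (h1 : p < t) (h2 : t ≤ fam_e C p) (h1' : p' < t) (h2' : t ≤ fam_e C p') : p = p' := by
  rcases lt_trichotomy p p' with h3 | h3 | h3
  · have := fam_min h3 hp'
    omega
  · exact h3
  · have := fam_min h3 hp
    omega

theorem fam_mem {w : ℕ → Vx d} {C : Finset ℕ} {p : ℕ} (hpe : p < fam_e C p) (v : Vx d) :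
    v ∈ fam_L w C p ↔ ∃ t, p ≤ t ∧ t ≤ fam_e C p + 1 ∧ w t = v := by
  unfold fam_L
  rw [List.mem_map]
  constructor
  · rintro ⟨t, ht, hv⟩
    rw [List.mem_range'_1] at ht
    exact ⟨t, ht.1, by omega, hv⟩
  · rintro ⟨t, h1, h2, hv⟩
    refine ⟨t, ?_, hv⟩
    rw [List.mem_range'_1]
    omega

/-- a point outside of a cell has at most one neighbour in the cell -/
theorem fam_nb (h_ACM : St_ACM d) {α : Vx d} {h : ℕ} {x x' y : Vx d} (hy : y ∉ cel α h)
    (hx : x ∈ cel α h) (hx' : x' ∈ cel α h) (h1 : adj x y) (h2 : adj x' y) : x = x' := by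
  obtain ⟨-, -, -, -, hadj, -⟩ := h_ACM
  have hy' : ∃ k, ¬ (α k ≤ y k ∧ y k < α k + h) := by
    by_contra hc
    push Not at hc
    exact hy (fun k => hc k)
  obtain ⟨k0, hk0⟩ := hy'
  have hxk := hx k0
  have hxk' := hx' k0
  have key : ∀ z : Vx d, z ∈ cel α h → adj z y → (y = z + ev k0 ∨ z = y + ev k0) := by
    intro z hz hzy
    obtain ⟨k, hk⟩ := (hadj z y).1 hzy
    have hkk : k = k0 := by
      by_contra hne
      apply hk0
      have hzk := hz k0
      have : y k0 = z k0 := by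
        rcases hk with hk | hk
        · rw [hk]; simp [ev, Ne.symm hne]
        · rw [hk]; simp [ev, Ne.symm hne]
      rw [this]; exact hzk
    rw [← hkk]; exact hk
  have e0 : (ev k0 : Vx d) k0 = 1 := by simp [ev]
  rcases key x hx h1 with a | a <;> rcases key x' hx' h2 with b | b
  · exact add_right_cancel (a.symm.trans b)
  · exfalso
    have a1 : y k0 = x k0 + 1 := by rw [a, Pi.add_apply, e0]
    have b1 : x' k0 = y k0 + 1 := by rw [b, Pi.add_apply, e0]
    apply hk0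
    constructor <;> linarith [hxk.1, hxk.2, hxk'.1, hxk'.2]
  · exfalso
    have a1 : x k0 = y k0 + 1 := by rw [a, Pi.add_apply, e0]
    have b1 : y k0 = x' k0 + 1 := by rw [b, Pi.add_apply, e0]
    apply hk0
    constructor <;> linarith [hxk.1, hxk.2, hxk'.1, hxk'.2]
  · exact a.trans b.symm

theorem fam_disj_aux (h_ACM : St_ACM d) {w : ℕ → Vx d} {n : ℕ} {C u : Finset ℕ} {α : Vx d} {h : ℕ}
    (H : fam_dat w n C u α h) {p p' : ℕ} (hp : p ∈ C) (hu : p + 1 ∈ u) (hp' : p' ∈ C)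
    (hu' : p' + 1 ∈ u) (hlt : p < p') : List.Disjoint (fam_L w C p) (fam_L w C p') := by
  have hs := fam_spec H hp hu
  have hs' := fam_spec H hp' hu'
  have hen := H.lt _ hs.2
  have hen' := H.lt _ hs'.2
  have hmin := fam_min hlt hp'
  intro v hv hv'
  obtain ⟨t, t1, t2, t3⟩ := (fam_mem hs.1 v).1 hv
  obtain ⟨t', t1', t2', t3'⟩ := (fam_mem hs'.1 v).1 hv'
  have htt : t = t' := H.inj t (by omega) t' (by omega) (t3.trans t3'.symm)
  subst htt
  have heu := fam_mid H hp hu (fam_e C p) hs.1 le_rfl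
  have hout := H.outL p' hp' hu'
  rcases Nat.lt_or_ge (fam_e C p) p' with h1 | h1
  · have h2 : p' = fam_e C p + 1 := by omega
    have a1 : adj (w (fam_e C p)) (w p') := by
      rw [h2]; exact H.ad _ hen
    have a2 : adj (w (p' + 1)) (w p') := by
      obtain ⟨-, -, -, hsym, -⟩ := h_ACM
      exact (hsym _ _).1 (H.ad p' (by omega))
    have h3 := fam_nb h_ACM hout (H.cell _ heu) (H.cell _ hu') a1 a2
    have h4 := H.inj _ (by omega) _ (by omega) h3
    omega
  · have h2 : fam_e C p = p' := by omega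
    rw [h2] at heu
    exact hout (H.cell _ heu)

theorem fam_disj (h_ACM : St_ACM d) {w : ℕ → Vx d} {n : ℕ} {C u : Finset ℕ} {α : Vx d} {h : ℕ}
    (H : fam_dat w n C u α h) {p p' : ℕ} (hp : p ∈ C) (hu : p + 1 ∈ u) (hp' : p' ∈ C)
    (hu' : p' + 1 ∈ u) (hne : p ≠ p') : List.Disjoint (fam_L w C p) (fam_L w C p') := by
  rcases lt_or_gt_of_ne hne with h1 | h1
  · exact fam_disj_aux h_ACM H hp hu hp' hu' h1
  · exact (fam_disj_aux h_ACM H hp' hu' hp hu h1).symm

theorem fam_split {w : ℕ → Vx d} {C : Finset ℕ} {p : ℕ} (hpe : p < fam_e C p) :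
    fam_L w C p = w p :: ((List.range' (p + 1) (fam_e C p - p)).map w ++ [w (fam_e C p + 1)]) := by
  unfold fam_L
  obtain ⟨k, hk⟩ : ∃ k, fam_e C p = p + k := ⟨fam_e C p - p, by omega⟩
  rw [hk]
  have h1 : p + k + 2 - p = (k + 1) + 1 := by omega
  have h2 : p + k - p = k := by omega
  rw [h1, h2, List.range'_succ, List.map_cons, List.range'_concat, List.map_append]
  congr 3
  simp only [List.map_cons, List.map_nil]
  congr 2
  omega

theorem fam_chain (w : ℕ → Vx d) (p k : ℕ) (h : ∀ t, p ≤ t → t < p + k → adj (w t) (w (t + 1))) :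
    ((List.range' p (k + 1)).map w).IsChain adj := by
  induction k generalizing p with
  | zero => simp
  | succ k ih =>
    rw [List.range'_succ, List.map_cons, List.range'_succ, List.map_cons, List.isChain_cons_cons]
    refine ⟨h p le_rfl (by omega), ?_⟩
    have := ih (p + 1) (fun t h1 h2 => h t (by omega) (by omega))
    rw [List.range'_succ, List.map_cons] at this
    exact this

theorem fam_isP {w : ℕ → Vx d} {n : ℕ} {C u : Finset ℕ} {α : Vx d} {h : ℕ}
    (H : fam_dat w n C u α h) {p : ℕ} (hp : p ∈ C) (hu : p + 1 ∈ u) : IsP (fam_L w C p) := by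
  have hs := fam_spec H hp hu
  have hen := H.lt _ hs.2
  constructor
  · unfold fam_L
    have h1 : fam_e C p + 2 - p = (fam_e C p + 1 - p) + 1 := by omega
    rw [h1]
    apply fam_chain
    intro t h1 h2
    exact H.ad t (by omega)
  · unfold fam_L
    apply List.Nodup.map_on
    · intro x hx y hy hxy
      rw [List.mem_range'_1] at hx hy
      exact H.inj x (by omega) y (by omega) hxy
    · exact List.nodup_range'

theorem fam_infix {β : Type*} (l : List β) (x y : β) :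
    [x, y] <:+: l ↔ ∃ i, l[i]? = some x ∧ l[i + 1]? = some y := by
  constructor
  · rintro ⟨s, t, rfl⟩
    refine ⟨s.length, ?_, ?_⟩
    · simp
    · simp
  · rintro ⟨i, hx, hy⟩
    obtain ⟨hi, hx'⟩ := List.getElem?_eq_some_iff.1 hx
    obtain ⟨hi2, hy'⟩ := List.getElem?_eq_some_iff.1 hy
    refine ⟨l.take i, l.drop (i + 2), ?_⟩
    conv_rhs => rw [← List.take_append_drop i l]
    rw [List.append_assoc]
    congr 1
    rw [List.drop_eq_getElem_cons hi, List.drop_eq_getElem_cons hi2, hx', hy']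
    rfl

theorem fam_St {w : ℕ → Vx d} {C : Finset ℕ} {p : ℕ} (hpe : p < fam_e C p) (x y : Vx d) :
    St (fam_L w C p) x y ↔ ∃ t, p ≤ t ∧ t ≤ fam_e C p ∧
      ((w t = x ∧ w (t + 1) = y) ∨ (w t = y ∧ w (t + 1) = x)) := by
  have key : ∀ a b : Vx d, [a, b] <:+: fam_L w C p ↔ ∃ t, p ≤ t ∧ t ≤ fam_e C p ∧
      (w t = a ∧ w (t + 1) = b) := by
    intro a b
    rw [fam_infix]
    unfold fam_L
    constructor
    · rintro ⟨i, h1, h2⟩
      obtain ⟨hi1, h1'⟩ := List.getElem?_eq_some_iff.1 h1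
      obtain ⟨hi2, h2'⟩ := List.getElem?_eq_some_iff.1 h2
      rw [List.getElem_map, List.getElem_range'] at h1' h2'
      rw [List.length_map, List.length_range'] at hi1 hi2
      refine ⟨p + i, by omega, by omega, ?_, ?_⟩
      · rw [← h1']; congr 1; omega
      · rw [← h2']; congr 1; omega
    · rintro ⟨t, h1, h2, h3, h4⟩
      refine ⟨t - p, ?_, ?_⟩
      · rw [List.getElem?_eq_some_iff]
        refine ⟨by rw [List.length_map, List.length_range']; omega, ?_⟩
        rw [List.getElem_map, List.getElem_range', ← h3]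
        congr 1; omega
      · rw [List.getElem?_eq_some_iff]
        refine ⟨by rw [List.length_map, List.length_range']; omega, ?_⟩
        rw [List.getElem_map, List.getElem_range', ← h4]
        congr 1; omega
  unfold St
  rw [key, key]
  constructor
  · rintro (⟨t, h1, h2, h3⟩ | ⟨t, h1, h2, h3⟩)
    · exact ⟨t, h1, h2, Or.inl h3⟩
    · exact ⟨t, h1, h2, Or.inr h3⟩
  · rintro ⟨t, h1, h2, h3 | h3⟩
    · exact Or.inl ⟨t, h1, h2, h3⟩
    · exact Or.inr ⟨t, h1, h2, h3⟩

theorem fam_tipz {w : ℕ → Vx d} {C : Finset ℕ} {p : ℕ} (hpe : p < fam_e C p) (z : Vx d) :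
    tipz (fam_L w C p) z ↔ z = w p ∨ z = w (fam_e C p + 1) := by
  unfold tipz
  rw [fam_split hpe]
  rw [List.head?_cons, ← List.cons_append, List.getLast?_append]
  simp only [List.getLast?_singleton, Option.some_or, Option.some.injEq]
  constructor
  · rintro (h | h)
    · exact Or.inl h.symm
    · exact Or.inr h.symm
  · rintro (h | h)
    · exact Or.inl h.symm
    · exact Or.inr h.symm

theorem fam_core (h_ACM : St_ACM d) {w : ℕ → Vx d} {n : ℕ} {C u : Finset ℕ} {α : Vx d} {h : ℕ}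
    (hgeo : ∀ x y, x ∈ cel α h → y ∉ cel α h → adj x y → ∃ i σ, y ∈ col α h i σ 1)
    (H : fam_dat w n C u α h) (hne : u.Nonempty) :
    ∃ F : Finset (List (Vx d)), Fam α h F ∧ F.Nonempty ∧
    (∀ x ∈ cel α h, ∀ y, (∃ L ∈ F, St L x y) ↔
      ∃ t ∈ u, w t = x ∧ (w (t + 1) = y ∨ w (t - 1) = y)) ∧
    (∀ t ∈ u, ∃ L ∈ F, w t ∈ L) ∧
    tot F = u.card + ((C.filter (fun p => p ∈ u)).card + (C.filter (fun p => p + 1 ∈ u)).card) ∧
    nt F Set.univ = ((C.filter (fun p => p ∈ u)).card + (C.filter (fun p => p + 1 ∈ u)).card) ∧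
    (∀ z, Tp F z → ∃ p ∈ C, (p ∈ u ∧ z = w (p + 1)) ∨ (p + 1 ∈ u ∧ z = w p)) ∧
    (∀ p ∈ C, ∀ q ∈ C, p < q → (∀ t, p < t → t ≤ q → t ∈ u) →
      ∃ L ∈ F, tipz L (w p) ∧ tipz L (w (q + 1))) := by
  classical
  obtain ⟨S, hS⟩ : ∃ S, S = C.filter (fun p => p + 1 ∈ u) := ⟨_, rfl⟩
  have hSm : ∀ p, p ∈ S ↔ p ∈ C ∧ p + 1 ∈ u := by
    intro p; rw [hS, Finset.mem_filter]
  have hsp : ∀ p ∈ S, p < fam_e C p ∧ fam_e C p ∈ C := fun p hp =>
    fam_spec H ((hSm p).1 hp).1 ((hSm p).1 hp).2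
  have hen : ∀ p ∈ S, fam_e C p < n := fun p hp => H.lt _ (hsp p hp).2
  have hmid : ∀ p ∈ S, ∀ t, p < t → t ≤ fam_e C p → t ∈ u := fun p hp =>
    fam_mid H ((hSm p).1 hp).1 ((hSm p).1 hp).2
  have hdis : ∀ p ∈ S, ∀ p' ∈ S, p ≠ p' → List.Disjoint (fam_L w C p) (fam_L w C p') :=
    fun p hp p' hp' hne => fam_disj h_ACM H ((hSm p).1 hp).1 ((hSm p).1 hp).2
      ((hSm p').1 hp').1 ((hSm p').1 hp').2 hne
  have hinj : ∀ p ∈ S, ∀ p' ∈ S, fam_L w C p = fam_L w C p' → p = p' := by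
    intro p hp p' hp' he
    by_contra hc
    have h1 := hdis p hp p' hp' hc
    have h2 : w p ∈ fam_L w C p := (fam_mem (hsp p hp).1 _).2 ⟨p, le_rfl, by
      have := (hsp p hp).1; omega, rfl⟩
    exact h1 h2 (he ▸ h2)
  have hloc : ∀ t ∈ u, ∃ p ∈ S, p < t ∧ t ≤ fam_e C p := by
    intro t ht
    obtain ⟨p, h1, h2, h3, h4⟩ := fam_loc H ht
    exact ⟨p, (hSm p).2 ⟨h1, h2⟩, h3, h4⟩
  have houtL : ∀ p ∈ S, w p ∉ cel α h := fun p hp => H.outL p ((hSm p).1 hp).1 ((hSm p).1 hp).2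
  have houtR : ∀ p ∈ S, w (fam_e C p + 1) ∉ cel α h := fun p hp =>
    H.outR _ (hsp p hp).2 (hmid p hp _ (hsp p hp).1 le_rfl)
  obtain ⟨-, -, -, hsym, -⟩ := id h_ACM
  -- cardinality of the crossings inside
  have hcard : (C.filter (fun p => p ∈ u)).card = S.card := by
    symm
    apply Finset.card_bij (fun p _ => fam_e C p)
    · intro p hp
      rw [Finset.mem_filter]
      exact ⟨(hsp p hp).2, hmid p hp _ (hsp p hp).1 le_rfl⟩
    · intro p hp p' hp' he
      exact fam_uniq H ((hSm p).1 hp).1 ((hSm p').1 hp').1 (hsp p hp).1 le_rfl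
        (by rw [he]; exact (hsp p' hp').1) he.le
    · intro q hq
      rw [Finset.mem_filter] at hq
      obtain ⟨p, h1, h2, h3⟩ := hloc q hq.2
      exact ⟨p, h1, le_antisymm (fam_min h2 hq.1) h3⟩
  rw [hcard, ← hS]
  refine ⟨S.image (fam_L w C), ⟨?_, ?_, ?_⟩, ?_, ?_, ?_, ?_, ?_, ?_, ?_⟩
  · intro L hL
    obtain ⟨p, hp, rfl⟩ := Finset.mem_image.1 hL
    exact fam_isP H ((hSm p).1 hp).1 ((hSm p).1 hp).2
  · intro L hL
    obtain ⟨p, hp, rfl⟩ := Finset.mem_image.1 hL
    refine ⟨w p, w (fam_e C p + 1), (List.range' (p + 1) (fam_e C p - p)).map w,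
      fam_split (hsp p hp).1, ?_, ?_, ?_, ?_⟩
    · intro h0
      have h1 := congrArg List.length h0
      rw [List.length_map, List.length_range'] at h1
      have := (hsp p hp).1
      simp at h1
      omega
    · intro v hv
      obtain ⟨t, ht, rfl⟩ := List.mem_map.1 hv
      rw [List.mem_range'_1] at ht
      exact H.cell t (hmid p hp t (by omega) (by omega))
    · exact hgeo (w (p + 1)) (w p) (H.cell _ ((hSm p).1 hp).2) (houtL p hp)
        ((hsym _ _).1 (H.ad p (H.lt p ((hSm p).1 hp).1)))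
    · exact hgeo (w (fam_e C p)) (w (fam_e C p + 1)) (H.cell _ (hmid p hp _ (hsp p hp).1 le_rfl))
        (houtR p hp) (H.ad _ (hen p hp))
  · intro L hL L' hL' hne'
    obtain ⟨p, hp, rfl⟩ := Finset.mem_image.1 hL
    obtain ⟨p', hp', rfl⟩ := Finset.mem_image.1 hL'
    exact hdis p hp p' hp' (fun he => hne' (by rw [he]))
  · obtain ⟨t, ht⟩ := hne
    obtain ⟨p, hp, -, -⟩ := hloc t ht
    exact ⟨_, Finset.mem_image_of_mem _ hp⟩
  · intro x hx y
    constructor
    · rintro ⟨L, hL, hst⟩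
      obtain ⟨p, hp, rfl⟩ := Finset.mem_image.1 hL
      obtain ⟨t, h1, h2, h3⟩ := (fam_St (hsp p hp).1 x y).1 hst
      rcases h3 with ⟨h3, h4⟩ | ⟨h3, h4⟩
      · have htp : t ≠ p := by
          rintro rfl
          exact houtL _ hp (h3 ▸ hx)
        exact ⟨t, hmid p hp t (by omega) h2, h3, Or.inl h4⟩
      · have htp : t ≠ fam_e C p := by
          rintro rfl
          exact houtR _ hp (h4 ▸ hx)
        exact ⟨t + 1, hmid p hp (t + 1) (by omega) (by omega), h4, Or.inr h3⟩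
    · rintro ⟨t, ht, h1, h2⟩
      obtain ⟨p, hp, h3, h4⟩ := hloc t ht
      refine ⟨fam_L w C p, Finset.mem_image_of_mem _ hp, (fam_St (hsp p hp).1 x y).2 ?_⟩
      rcases h2 with h2 | h2
      · exact ⟨t, by omega, h4, Or.inl ⟨h1, h2⟩⟩
      · refine ⟨t - 1, by omega, by omega, Or.inr ⟨h2, ?_⟩⟩
        rw [← h1]; congr 1; omega
  · intro t ht
    obtain ⟨p, hp, h3, h4⟩ := hloc t ht
    exact ⟨fam_L w C p, Finset.mem_image_of_mem _ hp, (fam_mem (hsp p hp).1 _).2
      ⟨t, by omega, by omega, rfl⟩⟩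
  · unfold tot
    rw [Finset.sum_image (fun p hp p' hp' he => hinj p hp p' hp' he)]
    have h1 : u = S.biUnion (fun p => Finset.Ioc p (fam_e C p)) := by
      ext t
      rw [Finset.mem_biUnion]
      constructor
      · intro ht
        obtain ⟨p, hp, h3, h4⟩ := hloc t ht
        exact ⟨p, hp, Finset.mem_Ioc.2 ⟨h3, h4⟩⟩
      · rintro ⟨p, hp, ht⟩
        rw [Finset.mem_Ioc] at ht
        exact hmid p hp t ht.1 ht.2
    have h2 : u.card = ∑ p ∈ S, (fam_e C p - p) := by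
      conv_lhs => rw [h1]
      rw [Finset.card_biUnion]
      · apply Finset.sum_congr rfl
        intro p _
        rw [Nat.card_Ioc]
      · intro p hp p' hp' hne'
        change Disjoint (Finset.Ioc p (fam_e C p)) (Finset.Ioc p' (fam_e C p'))
        rw [Finset.disjoint_left]
        intro t ht ht'
        rw [Finset.mem_Ioc] at ht ht'
        exact hne' (fam_uniq H ((hSm p).1 hp).1 ((hSm p').1 hp').1 ht.1 ht.2 ht'.1 ht'.2)
    have h3 : ∑ p ∈ S, (fam_L w C p).length = ∑ p ∈ S, ((fam_e C p - p) + 2) := by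
      apply Finset.sum_congr rfl
      intro p hp
      unfold fam_L
      rw [List.length_map, List.length_range']
      have := (hsp p hp).1
      omega
    rw [h3, Finset.sum_add_distrib, ← h2, Finset.sum_const, smul_eq_mul]
    ring
  · unfold nt
    have h1 : {z | Tp (S.image (fam_L w C)) z ∧ z ∈ Set.univ} =
        ((S.image w ∪ S.image (fun p => w (fam_e C p + 1)) : Finset (Vx d)) : Set (Vx d)) := by
      ext z
      simp only [Set.mem_univ, and_true, Set.mem_ofPred_eq, Finset.coe_union, Finset.coe_image,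
        Set.mem_union, Set.mem_image, Finset.mem_coe]
      constructor
      · rintro ⟨L, hL, hz⟩
        obtain ⟨p, hp, rfl⟩ := Finset.mem_image.1 hL
        rcases (fam_tipz (hsp p hp).1 z).1 hz with h | h
        · exact Or.inl ⟨p, hp, h.symm⟩
        · exact Or.inr ⟨p, hp, h.symm⟩
      · rintro (⟨p, hp, h⟩ | ⟨p, hp, h⟩)
        · exact ⟨_, Finset.mem_image_of_mem _ hp, (fam_tipz (hsp p hp).1 z).2 (Or.inl h.symm)⟩
        · exact ⟨_, Finset.mem_image_of_mem _ hp, (fam_tipz (hsp p hp).1 z).2 (Or.inr h.symm)⟩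
    rw [h1, Set.ncard_coe_finset, Finset.card_union_of_disjoint, Finset.card_image_of_injOn,
      Finset.card_image_of_injOn]
    · intro p hp p' hp' he
      have h2 := hen p hp
      have h3 := hen p' hp'
      have h4 := H.inj _ (by omega) _ (by omega) he
      exact fam_uniq H ((hSm p).1 hp).1 ((hSm p').1 hp').1 (hsp p hp).1 le_rfl
        (by have := (hsp p' hp').1; omega) (by omega)
    · intro p hp p' hp' he
      have h2 := H.lt p ((hSm p).1 hp).1
      have h3 := H.lt p' ((hSm p').1 hp').1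
      exact H.inj _ (by omega) _ (by omega) he
    · rw [Finset.disjoint_left]
      intro z hz hz'
      obtain ⟨p, hp, h2⟩ := Finset.mem_image.1 hz
      obtain ⟨p', hp', h3⟩ := Finset.mem_image.1 hz'
      have h4 := (hsp p hp).1
      have h5 := (hsp p' hp').1
      have h6 := hen p hp
      have h7 := hen p' hp'
      have h8 := H.inj p (by omega) (fam_e C p' + 1) (by omega) (h2.trans h3.symm)
      by_cases hpp : p = p'
      · subst hpp; omega
      · exact hdis p hp p' hp' hpp ((fam_mem h4 z).2 ⟨p, le_rfl, by omega, h2⟩)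
          ((fam_mem h5 z).2 ⟨fam_e C p' + 1, by omega, le_rfl, h3⟩)
  · rintro z ⟨L, hL, hz⟩
    obtain ⟨p, hp, rfl⟩ := Finset.mem_image.1 hL
    rcases (fam_tipz (hsp p hp).1 z).1 hz with h | h
    · exact ⟨p, ((hSm p).1 hp).1, Or.inr ⟨((hSm p).1 hp).2, h⟩⟩
    · exact ⟨fam_e C p, (hsp p hp).2, Or.inl ⟨hmid p hp _ (hsp p hp).1 le_rfl, h⟩⟩
  · intro p hp q hq hpq hin
    have hpS : p ∈ S := (hSm p).2 ⟨hp, hin (p + 1) (by omega) (by omega)⟩
    have h1 := fam_min hpq hq
    have h2 : fam_e C p = q := by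
      by_contra hc
      have h3 := hin (fam_e C p + 1) (by have := (hsp p hpS).1; omega) (by omega)
      exact houtR p hpS (H.cell _ h3)
    refine ⟨_, Finset.mem_image_of_mem _ hpS, (fam_tipz (hsp p hpS).1 _).2 (Or.inl rfl),
      (fam_tipz (hsp p hpS).1 _).2 (Or.inr (by rw [h2]))⟩

theorem p_FAM (d : ℕ) (h_ARI : St_ARI d) (h_CLS : St_CLS d) (h_GEO : St_GEO d) (h_ACM : St_ACM d) :
    St_FAM d := by
  intro D hρ hg hw u hu hspc α hα
  obtain ⟨a1, a2, -, a4, -⟩ := h_ARI D hρ hg hw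
  obtain ⟨c1, -, -, -, c5, -, -, c8, -⟩ := h_CLS D hw
  obtain ⟨hne, hu5⟩ := c5 u hu
  have hh : 1 ≤ D.h := by
    unfold Dt.h
    exact Nat.one_le_iff_ne_zero.2 (Nat.mul_ne_zero (by omega) (by omega))
  have hmem : ∀ s, s ≤ D.n → (s ∈ u ↔ D.uc s = u) := by
    intro s hs
    constructor
    · intro h; exact (hu5 s h).2
    · intro h; rw [← h]; exact (c1 s hs).1
  have hcell : ∀ t ∈ u, ∀ x, x ∈ cel α D.h ↔ D.ci x = D.ci (D.w t) := by
    intro t ht x
    rw [← hα t ht]
    exact a1 x (D.w t)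
  have H : fam_dat D.w D.n D.crs u α D.h := by
    refine ⟨hw.1, hw.2, fun p hp => (a4 p hp).1, fun t ht => (hu5 t ht).1, ?_, ?_, ?_, ?_, ?_, ?_⟩
    · intro s hs hsc
      rw [hmem s hs.le, hmem (s + 1) hs, (c8 s hs hsc).2]
    · intro t ht
      exact (hcell t ht _).2 rfl
    · intro p hp hpu hc
      exact (a4 p hp).2 ((hcell (p + 1) hpu _).1 hc)
    · intro p hp hpu hc
      exact (a4 p hp).2 ((hcell p hpu _).1 hc).symm
    · intro h; exact hspc (Or.inl h)
    · intro h; exact hspc (Or.inr h)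
  have hgeo := (h_GEO α D.h hh).2.2.2.2.2.2.2
  exact fam_core h_ACM hgeo H hne

end Pool.Agent.H981R3.IS
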