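import Pool.Agent.H981R3.IS.Stubs

set_option autoImplicit false

namespace Pool.Agent.H981R3.IS

open Finset

/-- adjacency through unit vectors -/
theorem fz1_adj (d : ℕ) (h_ACM : St_ACM d) (x y : Vx d) :
    adj x y ↔ ∃ k, y = x + ev k ∨ x = y + ev k := h_ACM.2.2.2.2.1 x y

theorem fz1_symm (d : ℕ) (h_ACM : St_ACM d) (x y : Vx d) : adj x y ↔ adj y x :=
  h_ACM.2.2.2.1 x y

theorem fz1_ev_inj {d : ℕ} {k l : Fin d} (h : (ev k : Vx d) = ev l) : k = l := by
  by_contra hne
  have := congrFun h k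
  simp [ev, Pi.single_apply, hne] at this

theorem fz1_ev_add {d : ℕ} {k l : Fin d} (h : (ev k : Vx d) + ev l = 0) : False := by
  have := congrFun h k
  simp only [ev, Pi.add_apply, Pi.single_eq_same, Pi.zero_apply, Pi.single_apply] at this
  split_ifs at this <;> omega

/-- ordered pairs of adjacent indices are counted by the bonds -/
theorem fz1_card (d n : ℕ) (h_ACM : St_ACM d) (w : Fin (n + 1) → Vx d)
    (hw : Function.Injective w) :
    ((univ : Finset (Fin (n + 1) × Fin (n + 1))).filter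
      (fun p => p.1.val < p.2.val ∧ ∑ k : Fin d, |w p.1 k - w p.2 k| = 1)).card =
    Ac (List.ofFn w).toFinset := by
  classical
  set S : Finset (Vx d) := (List.ofFn w).toFinset with hS
  have hmem : ∀ x, x ∈ S ↔ ∃ i, w i = x := by
    intro x
    rw [hS, List.mem_toFinset, List.mem_ofFn]
  have hinv : ∀ i, Function.invFun w (w i) = i := Function.leftInverse_invFun hw
  have hinv' : ∀ x ∈ S, w (Function.invFun w x) = x := by
    intro x hx
    exact Function.invFun_eq ((hmem x).1 hx)
  rw [Ac]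
  symm
  refine Finset.card_bij (fun p _ => (min (Function.invFun w p.1) (Function.invFun w (p.1 + ev p.2)),
    max (Function.invFun w p.1) (Function.invFun w (p.1 + ev p.2)))) ?_ ?_ ?_
  · rintro ⟨x, k⟩ hp
    simp only [mem_filter, mem_product, mem_univ, and_true] at hp
    obtain ⟨hx, hxk⟩ := hp
    obtain ⟨i, rfl⟩ := (hmem x).1 hx
    obtain ⟨j, hj⟩ := (hmem _).1 hxk
    simp only [mem_filter, mem_univ, true_and]
    rw [hinv, ← hj, hinv]
    have hij : i ≠ j := by
      rintro rfl
      have := congrFun hj k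
      simp [ev] at this
    have ha : adj (w i) (w j) := (fz1_adj d h_ACM _ _).2 ⟨k, Or.inl hj⟩
    have ha' : adj (w j) (w i) := (fz1_symm d h_ACM _ _).1 ha
    rcases lt_or_gt_of_ne hij with h | h
    · rw [min_eq_left h.le, max_eq_right h.le]
      exact ⟨h, ha⟩
    · rw [min_eq_right h.le, max_eq_left h.le]
      exact ⟨h, ha'⟩
  · rintro ⟨x, k⟩ hp ⟨y, l⟩ hq heq
    simp only [mem_filter, mem_product, mem_univ, and_true] at hp hq
    obtain ⟨hx, hxk⟩ := hp
    obtain ⟨hy, hyl⟩ := hq
    obtain ⟨i, rfl⟩ := (hmem x).1 hx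
    obtain ⟨j, hj⟩ := (hmem _).1 hxk
    obtain ⟨i', rfl⟩ := (hmem y).1 hy
    obtain ⟨j', hj'⟩ := (hmem _).1 hyl
    simp only [Prod.mk.injEq] at heq
    rw [hinv, hinv, ← hj, ← hj', hinv, hinv] at heq
    have hcase : (i = i' ∧ j = j') ∨ (i = j' ∧ j = i') := by
      obtain ⟨h1, h2⟩ := heq
      rcases le_total i j with h | h <;> rcases le_total i' j' with h' | h' <;>
        simp only [min_eq_left h, max_eq_right h, min_eq_left h', max_eq_right h',
          min_eq_right h, max_eq_left h, min_eq_right h', max_eq_left h'] at h1 h2 <;>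
        tauto
    rcases hcase with ⟨rfl, rfl⟩ | ⟨rfl, rfl⟩
    · rw [hj] at hj'
      have : (ev k : Vx d) = ev l := add_left_cancel hj'
      rw [fz1_ev_inj this]
    · exfalso
      rw [hj] at hj'
      have h3 : (ev k : Vx d) + ev l = 0 := by
        have h4 : w i + (ev k + ev l) = w i + 0 := by
          rw [add_zero, ← add_assoc, ← hj']
        exact add_left_cancel h4
      exact fz1_ev_add h3
  · rintro ⟨i, j⟩ hp
    simp only [mem_filter, mem_univ, true_and] at hp
    obtain ⟨hij, ha⟩ := hp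
    obtain ⟨k, hk⟩ := (fz1_adj d h_ACM _ _).1 ha
    have hle : i ≤ j := le_of_lt hij
    rcases hk with hk | hk
    · refine ⟨(w i, k), ?_, ?_⟩
      · simp only [mem_filter, mem_product, mem_univ, and_true]
        exact ⟨(hmem _).2 ⟨i, rfl⟩, (hmem _).2 ⟨j, hk⟩⟩
      · simp only
        rw [← hk, hinv, hinv, min_eq_left hle, max_eq_right hle]
    · refine ⟨(w j, k), ?_, ?_⟩
      · simp only [mem_filter, mem_product, mem_univ, and_true]
        exact ⟨(hmem _).2 ⟨j, rfl⟩, (hmem _).2 ⟨i, hk⟩⟩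
      · simp only
        rw [← hk, hinv, hinv, min_eq_right hle, max_eq_left hle]

/-- the contacts of a walk -/
theorem fz1_contacts (d n : ℕ) (h_ACM : St_ACM d) (w : Fin (n + 1) → Vx d)
    (hw : Function.Injective w)
    (hs : ∀ i : Fin n, ∑ k : Fin d, |w i.succ k - w i.castSucc k| = 1) :
    ((univ : Finset (Fin (n + 1) × Fin (n + 1))).filter
      (fun p => p.1.val + 1 < p.2.val ∧ ∑ k : Fin d, |w p.1 k - w p.2 k| = 1)).card + n =
    Ac (List.ofFn w).toFinset := by
  classical
  rw [← fz1_card d n h_ACM w hw]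
  have hsplit : (univ : Finset (Fin (n + 1) × Fin (n + 1))).filter
      (fun p => p.1.val < p.2.val ∧ ∑ k : Fin d, |w p.1 k - w p.2 k| = 1) =
      ((univ : Finset (Fin (n + 1) × Fin (n + 1))).filter
      (fun p => p.1.val + 1 < p.2.val ∧ ∑ k : Fin d, |w p.1 k - w p.2 k| = 1)) ∪
      ((univ : Finset (Fin n)).image (fun i => (i.castSucc, i.succ))) := by
    ext ⟨i, j⟩
    simp only [mem_filter, mem_univ, true_and, mem_union, mem_image, Prod.mk.injEq]
    constructor
    · rintro ⟨h1, h2⟩
      by_cases h3 : i.val + 1 < j.val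
      · exact Or.inl ⟨h3, h2⟩
      · right
        have h4 : j.val = i.val + 1 := by omega
        have h5 : i.val < n := by have := j.isLt; omega
        refine ⟨⟨i.val, h5⟩, ?_, ?_⟩
        · ext; simp
        · ext; simp [h4]
    · rintro (⟨h1, h2⟩ | ⟨a, rfl, rfl⟩)
      · exact ⟨by omega, h2⟩
      · refine ⟨by simp, ?_⟩
        rw [← hs a]
        exact Finset.sum_congr rfl (fun k _ => abs_sub_comm _ _)
  rw [hsplit, card_union_of_disjoint, card_image_of_injective, card_univ, Fintype.card_fin]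
  · intro a b hab
    simp only [Prod.mk.injEq] at hab
    exact Fin.castSucc_injective n hab.1
  · rw [Finset.disjoint_left]
    rintro ⟨i, j⟩ h1 h2
    simp only [mem_filter, mem_univ, true_and, mem_image, Prod.mk.injEq] at h1 h2
    obtain ⟨a, rfl, rfl⟩ := h2
    simp at h1

theorem fz1_pred (d n : ℕ) (h_ACM : St_ACM d) (w : Fin (n + 1) → Vx d) :
    (IsP (List.ofFn w) ∧ (List.ofFn w).head? = some 0) ↔
    (w 0 = 0 ∧ Function.Injective w ∧
        (∀ i : Fin n, ∑ k : Fin d, |w i.succ k - w i.castSucc k| = 1)) := by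
  have h1 : (List.ofFn w).IsChain adj ↔
      ∀ i : Fin n, ∑ k : Fin d, |w i.succ k - w i.castSucc k| = 1 := by
    rw [List.isChain_ofFn]
    constructor
    · intro h i
      have := h i.val (by have := i.isLt; omega)
      have h2 : adj (w i.castSucc) (w i.succ) := this
      exact (fz1_symm d h_ACM _ _).1 h2
    · intro h i hi
      have h2 : adj (w (⟨i, by omega⟩ : Fin n).succ) (w (⟨i, by omega⟩ : Fin n).castSucc) :=
        h ⟨i, by omega⟩
      exact (fz1_symm d h_ACM _ _).1 h2
  have h2 : (List.ofFn w).head? = some 0 ↔ w 0 = 0 := by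
    rw [List.ofFn_succ]
    simp
  rw [IsP, h1, List.nodup_ofFn, h2]
  tauto

/-- the partition function as a sum over functions -/
theorem fz1_Zw (d n : ℕ) (β : ℝ) (h_ACM : St_ACM d) :
    Zw d β n = ∑ w ∈ (Fintype.piFinset
      (fun _ : Fin (n + 1) =>
        Fintype.piFinset (fun _ : Fin d => Finset.Icc (-(n : ℤ)) (n : ℤ)))).filter
      (fun w : Fin (n + 1) → Fin d → ℤ =>
        w 0 = 0 ∧
        (∀ i j : Fin (n + 1), w i = w j → i = j) ∧
        (∀ i : Fin n, ∑ k : Fin d, |w i.succ k - w i.castSucc k| = 1)),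
      wt β (List.ofFn w) := by
  classical
  rw [Zw, SW, LL, Finset.filter_image, Finset.sum_image]
  · refine Finset.sum_congr ?_ (fun _ _ => rfl)
    ext w
    simp only [mem_filter]
    refine and_congr Iff.rfl ?_
    rw [fz1_pred d n h_ACM w]
    rfl
  · intro a _ b _ hab
    exact List.ofFn_injective hab

theorem p_FZ1 (h_ACM : ∀ d, St_ACM d) : St_FZ1 := by
  intro d n β
  rw [fz1_Zw d n β (h_ACM d), Finset.mul_sum]
  refine Finset.sum_congr rfl ?_
  intro w hw
  rw [mem_filter] at hw
  obtain ⟨_, _, hinj, hs⟩ := hw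
  have hc := fz1_contacts d n (h_ACM d) w (fun i j h => hinj i j h) hs
  rw [wt, ← Real.exp_add, ← hc]
  congr 1
  push_cast
  ring

end Pool.Agent.H981R3.IS
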