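import Pool.Agent.H981R3.IS.FZ3

/-!
# FZ2: translation of the walk sum of the frozen statement S13501
-/

set_option autoImplicit false

namespace Pool.Agent.H981R3.IS

open Finset

variable {d : ℕ}

/-- contacts of a walk -/
theorem fz2_cnt {n : ℕ} {v : Fin (n + 1) → Vx d}
    (hs : ∀ i : Fin n, adj (v i.castSucc) (v i.succ)) :
    ((univ : Finset (Fin (n + 1) × Fin (n + 1))).filter
      (fun p => p.1.val < p.2.val ∧ ∑ k, |v p.1 k - v p.2 k| = 1)).card =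
    ((univ : Finset (Fin (n + 1) × Fin (n + 1))).filter
      (fun p => p.1.val + 2 ≤ p.2.val ∧ ∑ k, |v p.1 k - v p.2 k| = 1)).card + n := by
  rw [← Finset.card_filter_add_card_filter_not
    (fun p : Fin (n + 1) × Fin (n + 1) => p.1.val + 1 = p.2.val), add_comm]
  congr 1
  · congr 1
    ext ⟨⟨i, hi⟩, ⟨j, hj⟩⟩
    simp only [mem_filter, mem_univ, true_and]
    constructor
    · rintro ⟨⟨h1, h2⟩, h3⟩
      exact ⟨by omega, h2⟩
    · rintro ⟨h1, h3⟩
      exact ⟨⟨by omega, h3⟩, by omega⟩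
  · conv_rhs => rw [← Fintype.card_fin n, ← Finset.card_univ]
    symm
    refine Finset.card_bij (fun i _ => (i.castSucc, i.succ)) ?_ ?_ ?_
    · intro i _
      simp only [mem_filter, mem_univ, true_and]
      refine ⟨⟨?_, hs i⟩, rfl⟩
      show i.val < i.val + 1
      omega
    · intro i _ j _ he
      rw [Prod.mk.injEq] at he
      exact Fin.succ_injective _ he.2
    · rintro ⟨⟨i, hi⟩, ⟨j, hj⟩⟩ hb
      simp only [mem_filter, mem_univ, true_and] at hb
      obtain ⟨-, h2⟩ := hb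
      refine ⟨⟨i, by omega⟩, mem_univ _, ?_⟩
      rw [Prod.mk.injEq]
      exact ⟨rfl, Fin.ext h2⟩

/-- walks in terms of functions -/
theorem fz2_isP {n : ℕ} (v : Fin (n + 1) → Vx d) :
    (IsP (List.ofFn v) ∧ (List.ofFn v).head? = some 0) ↔
      v 0 = 0 ∧ Function.Injective v ∧ ∀ i : Fin n, adj (v i.castSucc) (v i.succ) := by
  have h1 : (List.ofFn v).head? = some (v 0) := by
    rw [List.head?_eq_getElem?, List.getElem?_ofFn, dif_pos (Nat.succ_pos n)]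
    rfl
  unfold IsP
  rw [List.isChain_ofFn, List.nodup_ofFn, h1, Option.some.injEq]
  constructor
  · rintro ⟨⟨h3, h4⟩, h6⟩
    exact ⟨h6, h4, fun i => h3 i.val (Nat.succ_lt_succ i.2)⟩
  · rintro ⟨h3, h4, h5⟩
    exact ⟨⟨fun i hi => h5 ⟨i, Nat.lt_of_succ_lt_succ hi⟩, h4⟩, h3⟩

open scoped Classical in
theorem fz2_mem (h : St_ACM d) {n : ℕ} (P : List (Vx d)) :
    P ∈ SW d n ↔ ∃ v : Fin (n + 1) → Vx d, List.ofFn v = P ∧ v 0 = 0 ∧
      Function.Injective v ∧ ∀ i : Fin n, adj (v i.castSucc) (v i.succ) := by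
  unfold SW LL
  rw [mem_filter, mem_image]
  constructor
  · rintro ⟨⟨v, -, rfl⟩, h1⟩
    exact ⟨v, rfl, (fz2_isP v).mp h1⟩
  · rintro ⟨v, rfl, h1⟩
    have h2 := (fz2_isP v).mpr h1
    refine ⟨⟨v, ?_, rfl⟩, h2⟩
    rw [Fintype.mem_piFinset]
    intro i
    exact h.2.2.2.2.2.2.2.2.2 (List.ofFn v) n h2.1.1 h2.2 (by simp) _
      (List.mem_ofFn.mpr ⟨i, rfl⟩)

theorem fz2_wt (h : St_ACM d) {n : ℕ} {v : Fin (n + 1) → Vx d} (β : ℝ)
    (hv : Function.Injective v) (hs : ∀ i : Fin n, adj (v i.castSucc) (v i.succ)) :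
    Real.exp (β * (((univ : Finset (Fin (n + 1) × Fin (n + 1))).filter
      (fun p => p.1.val + 2 ≤ p.2.val ∧ ∑ k, |v p.1 k - v p.2 k| = 1)).card : ℝ)) =
      Real.exp (-(β * n)) * wt β (List.ofFn v) := by
  unfold wt
  rw [fz3_toFinset, fz3_Ac h hv, fz2_cnt hs, ← Real.exp_add]
  congr 1
  push_cast
  ring

theorem p_FZ2 (h_ACM : ∀ d, St_ACM d) : St_FZ2 := by
  intro d n β
  have h := h_ACM
  let f : {w : Fin (n+1) → Fin d → ℤ //
      w 0 = 0 ∧ Function.Injective w ∧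
      ∀ i : Fin n, ∑ j, |w i.castSucc j - w i.succ j| = 1} → ↥(SW d n) :=
    fun w => ⟨List.ofFn w.1, (fz2_mem (h d) _).mpr ⟨_, rfl, w.2⟩⟩
  have hf : Function.Bijective f := by
    constructor
    · rintro ⟨w, hw⟩ ⟨w', hw'⟩ he
      apply Subtype.ext
      exact List.ofFn_injective (congrArg Subtype.val he)
    · rintro ⟨P, hP⟩
      obtain ⟨v, rfl, h1⟩ := (fz2_mem (h d) P).mp hP
      exact ⟨⟨v, h1⟩, rfl⟩
  have h1 : ∀ w : {w : Fin (n+1) → Fin d → ℤ //
      w 0 = 0 ∧ Function.Injective w ∧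
      ∀ i : Fin n, ∑ j, |w i.castSucc j - w i.succ j| = 1},
      Real.exp (β * (((Finset.univ : Finset (Fin (n+1) × Fin (n+1))).filter
      (fun p => p.1.val + 2 ≤ p.2.val ∧
        ∑ j, |w.1 p.1 j - w.1 p.2 j| = 1)).card : ℝ)) =
      (fun P : ↥(SW d n) => Real.exp (-(β * n)) * wt β P.1) (Equiv.ofBijective f hf w) := by
    intro w
    refine (fz2_wt (v := w.1) (h d) β w.2.2.1 w.2.2.2).trans ?_
    rfl
  refine (tsum_congr h1).trans ((Equiv.tsum_eq (Equiv.ofBijective f hf)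
    (fun P : ↥(SW d n) => Real.exp (-(β * n)) * wt β P.1)).trans
    ((Finset.tsum_subtype (SW d n) (fun P => Real.exp (-(β * n)) * wt β P)).trans ?_))
  unfold Zw
  rw [Finset.mul_sum]

end Pool.Agent.H981R3.IS
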