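import Pool.Agent.H981R3.IS.Stubs

/-!
# FZ3: translation of the polygon sum of the frozen statement S13501
-/

set_option autoImplicit false

namespace Pool.Agent.H981R3.IS

open Finset

variable {d : ℕ}

theorem fz3_adj_iff (h : St_ACM d) (x y : Vx d) : adj x y ↔ ∃ k, y = x + ev k ∨ x = y + ev k :=
  h.2.2.2.2.1 x y

theorem fz3_ev_self (k : Fin d) : (ev k : Vx d) k = 1 := by simp [ev]

theorem fz3_ev_nonneg (k l : Fin d) : 0 ≤ (ev k : Vx d) l := by
  unfold ev
  by_cases h : l = k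
  · subst h; simp
  · rw [Pi.single_eq_of_ne h]

theorem fz3_ev_inj {k l : Fin d} (h : (ev k : Vx d) = ev l) : k = l := by
  by_contra hne
  have h1 := congrFun h k
  unfold ev at h1
  rw [Pi.single_eq_same, Pi.single_eq_of_ne hne] at h1
  exact one_ne_zero h1

/-- the number of bonds of an injective sequence is the number of adjacent pairs of indices -/
theorem fz3_Ac (h : St_ACM d) {N : ℕ} {v : Fin N → Vx d} (hv : Function.Injective v) :
    Ac ((univ : Finset (Fin N)).image v) = ((univ : Finset (Fin N × Fin N)).filter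
      (fun p => p.1.val < p.2.val ∧ ∑ k, |v p.1 k - v p.2 k| = 1)).card := by
  rcases Nat.eq_zero_or_pos N with hN | hN
  · subst hN
    simp [Ac]
  have : Nonempty (Fin N) := ⟨⟨0, hN⟩⟩
  have hg : ∀ i, Function.invFun v (v i) = i := Function.leftInverse_invFun hv
  unfold Ac
  refine Finset.card_bij (fun p _ => (min (Function.invFun v p.1) (Function.invFun v (p.1 + ev p.2)),
    max (Function.invFun v p.1) (Function.invFun v (p.1 + ev p.2)))) ?_ ?_ ?_
  · rintro ⟨x, k⟩ hx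
    simp only [mem_filter, mem_product, mem_image, mem_univ, true_and, and_true] at hx
    obtain ⟨⟨i, rfl⟩, j, hj⟩ := hx
    simp only [mem_filter, mem_univ, true_and]
    rw [← hj, hg, hg]
    have hij : i ≠ j := by
      rintro rfl
      have h1 := congrFun hj k
      rw [Pi.add_apply, fz3_ev_self] at h1
      omega
    rcases lt_or_gt_of_ne hij with h1 | h1
    · rw [min_eq_left h1.le, max_eq_right h1.le]
      exact ⟨h1, (fz3_adj_iff h _ _).mpr ⟨k, Or.inl hj⟩⟩
    · rw [min_eq_right h1.le, max_eq_left h1.le]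
      exact ⟨h1, (fz3_adj_iff h _ _).mpr ⟨k, Or.inr hj⟩⟩
  · rintro ⟨x, k⟩ hx ⟨x', k'⟩ hx' he
    simp only [mem_filter, mem_product, mem_image, mem_univ, true_and, and_true] at hx hx'
    obtain ⟨⟨i, rfl⟩, j, hj⟩ := hx
    obtain ⟨⟨i', rfl⟩, j', hj'⟩ := hx'
    simp only [← hj, ← hj', hg, Prod.mk.injEq] at he
    obtain ⟨he1, he2⟩ := he
    have hc : (i = i' ∧ j = j') ∨ (i = j' ∧ j = i') := by
      rcases le_total i j with h1 | h1 <;> rcases le_total i' j' with h2 | h2
      · rw [min_eq_left h1, min_eq_left h2] at he1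
        rw [max_eq_right h1, max_eq_right h2] at he2
        exact Or.inl ⟨he1, he2⟩
      · rw [min_eq_left h1, min_eq_right h2] at he1
        rw [max_eq_right h1, max_eq_left h2] at he2
        exact Or.inr ⟨he1, he2⟩
      · rw [min_eq_right h1, min_eq_left h2] at he1
        rw [max_eq_left h1, max_eq_right h2] at he2
        exact Or.inr ⟨he2, he1⟩
      · rw [min_eq_right h1, min_eq_right h2] at he1
        rw [max_eq_left h1, max_eq_left h2] at he2
        exact Or.inl ⟨he2, he1⟩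
    rcases hc with ⟨rfl, rfl⟩ | ⟨rfl, rfl⟩
    · rw [hj] at hj'
      have h1 : (ev k : Vx d) = ev k' := add_left_cancel hj'
      rw [fz3_ev_inj h1]
    · exfalso
      have h1 := congrFun hj k
      have h2 := congrFun hj' k
      rw [Pi.add_apply, fz3_ev_self] at h1
      rw [Pi.add_apply] at h2
      have h3 := fz3_ev_nonneg k' k
      omega
  · rintro ⟨i, j⟩ hb
    simp only [mem_filter, mem_univ, true_and] at hb
    obtain ⟨h1, h2⟩ := hb
    have h1' : i ≤ j := le_of_lt h1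
    obtain ⟨k, h3 | h3⟩ := (fz3_adj_iff h _ _).mp h2
    · refine ⟨(v i, k), ?_, ?_⟩
      · simp only [mem_filter, mem_product, mem_image, mem_univ, true_and, and_true]
        exact ⟨⟨i, rfl⟩, j, h3⟩
      · simp only [← h3, hg]
        rw [min_eq_left h1', max_eq_right h1']
    · refine ⟨(v j, k), ?_, ?_⟩
      · simp only [mem_filter, mem_product, mem_image, mem_univ, true_and, and_true]
        exact ⟨⟨j, rfl⟩, i, h3⟩
      · simp only [← h3, hg]
        rw [min_eq_right h1', max_eq_left h1']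

/-- contacts of a closed sequence -/
theorem fz3_cnt {N : ℕ} (hN : 3 ≤ N) {v : Fin N → Vx d} (hadj : ∀ x y : Vx d, adj x y ↔ adj y x)
    (hs : ∀ (i : ℕ) (hi : i + 1 < N), adj (v ⟨i, Nat.lt_of_succ_lt hi⟩) (v ⟨i + 1, hi⟩))
    (hc : adj (v ⟨N - 1, by omega⟩) (v ⟨0, by omega⟩)) :
    ((univ : Finset (Fin N × Fin N)).filter
      (fun p => p.1.val < p.2.val ∧ ∑ k, |v p.1 k - v p.2 k| = 1)).card =
    ((univ : Finset (Fin N × Fin N)).filter
      (fun p => p.1.val + 2 ≤ p.2.val ∧ ¬ (p.1.val = 0 ∧ p.2.val + 1 = N) ∧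
        ∑ k, |v p.1 k - v p.2 k| = 1)).card + N := by
  rw [← Finset.card_filter_add_card_filter_not
    (fun p : Fin N × Fin N => p.1.val + 1 = p.2.val ∨ (p.1.val = 0 ∧ p.2.val + 1 = N)), add_comm]
  congr 1
  · congr 1
    ext ⟨⟨i, hi⟩, ⟨j, hj⟩⟩
    simp only [mem_filter, mem_univ, true_and]
    constructor
    · rintro ⟨⟨h1, h2⟩, h3⟩
      refine ⟨by omega, by omega, h2⟩
    · rintro ⟨h1, h2, h3⟩
      refine ⟨⟨by omega, h3⟩, by omega⟩
  · conv_rhs => rw [← Fintype.card_fin N, ← Finset.card_univ]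
    symm
    refine Finset.card_bij (fun i _ => if hi : i.val + 1 < N then (i, ⟨i.val + 1, hi⟩) else
      (⟨0, by omega⟩, i)) ?_ ?_ ?_
    · rintro ⟨i, hi⟩ _
      simp only [mem_filter, mem_univ, true_and]
      split_ifs with h1
      · exact ⟨⟨Nat.lt_succ_self i, hs i h1⟩, Or.inl rfl⟩
      · have h2 : i = N - 1 := by omega
        subst h2
        refine ⟨⟨?_, (hadj _ _).mp hc⟩, Or.inr ⟨rfl, ?_⟩⟩
        · show 0 < N - 1
          omega
        · show N - 1 + 1 = N
          omega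
    · rintro ⟨i, hi⟩ _ ⟨j, hj⟩ _ he
      simp only at he
      rw [Fin.mk.injEq]
      split_ifs at he with h1 h2 h2
      · simp only [Prod.mk.injEq, Fin.mk.injEq] at he; omega
      · simp only [Prod.mk.injEq, Fin.mk.injEq] at he; omega
      · simp only [Prod.mk.injEq, Fin.mk.injEq] at he; omega
      · simp only [Prod.mk.injEq, Fin.mk.injEq] at he; omega
    · rintro ⟨⟨i, hi⟩, ⟨j, hj⟩⟩ hb
      simp only [mem_filter, mem_univ, true_and] at hb
      obtain ⟨⟨h1, -⟩, h2⟩ := hb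
      rcases h2 with h2 | ⟨h2, h3⟩
      · refine ⟨⟨i, hi⟩, mem_univ _, ?_⟩
        simp only
        rw [dif_pos (by omega)]
        simp only [Prod.mk.injEq, Fin.mk.injEq, true_and]
        exact h2
      · refine ⟨⟨j, hj⟩, mem_univ _, ?_⟩
        simp only
        rw [dif_neg (by omega)]
        simp only [Prod.mk.injEq, Fin.mk.injEq, and_true]
        exact h2.symm

/-- closed lists in terms of functions -/
theorem fz3_isC {N : ℕ} (hN : 3 ≤ N) (v : Fin N → Vx d) :
    (IsC (List.ofFn v) ∧ (List.ofFn v).head? = some 0) ↔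
      v ⟨0, by omega⟩ = 0 ∧ Function.Injective v ∧
      (∀ (i : ℕ) (hi : i + 1 < N), adj (v ⟨i, Nat.lt_of_succ_lt hi⟩) (v ⟨i + 1, hi⟩)) ∧
      adj (v ⟨N - 1, by omega⟩) (v ⟨0, by omega⟩) := by
  have h1 : (List.ofFn v).head? = some (v ⟨0, by omega⟩) := by
    rw [List.head?_eq_getElem?, List.getElem?_ofFn, dif_pos]
  have h2 : (List.ofFn v).getLast? = some (v ⟨N - 1, by omega⟩) := by
    rw [List.getLast?_eq_getElem?, List.getElem?_ofFn]
    simp only [List.length_ofFn]
    rw [dif_pos (by omega)]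
  unfold IsC IsP
  rw [List.isChain_ofFn, List.nodup_ofFn, List.length_ofFn, h1, h2]
  constructor
  · rintro ⟨⟨⟨h3, h4⟩, -, x, y, hx, hy, h5⟩, h6⟩
    rw [Option.some.injEq] at hx hy h6
    subst hx; subst hy
    exact ⟨h6, h4, h3, h5⟩
  · rintro ⟨h3, h4, h5, h6⟩
    exact ⟨⟨⟨h5, h4⟩, hN, _, _, rfl, rfl, h6⟩, by rw [h3]⟩

open scoped Classical in
theorem fz3_mem (h : St_ACM d) {N : ℕ} (hN : 3 ≤ N) (P : List (Vx d)) :
    P ∈ CW d N ↔ ∃ v : Fin N → Vx d, List.ofFn v = P ∧ v ⟨0, by omega⟩ = 0 ∧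
      Function.Injective v ∧
      (∀ (i : ℕ) (hi : i + 1 < N), adj (v ⟨i, Nat.lt_of_succ_lt hi⟩) (v ⟨i + 1, hi⟩)) ∧
      adj (v ⟨N - 1, by omega⟩) (v ⟨0, by omega⟩) := by
  unfold CW LL
  rw [mem_filter, mem_image]
  constructor
  · rintro ⟨⟨v, -, rfl⟩, h1⟩
    exact ⟨v, rfl, (fz3_isC hN v).mp h1⟩
  · rintro ⟨v, rfl, h1⟩
    have h2 := (fz3_isC hN v).mpr h1
    refine ⟨⟨v, ?_, rfl⟩, h2⟩
    rw [Fintype.mem_piFinset]
    intro i
    exact h.2.2.2.2.2.2.2.2.2 (List.ofFn v) N h2.1.1.1 h2.2 (by simp) _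
      (List.mem_ofFn.mpr ⟨i, rfl⟩)

theorem fz3_toFinset {N : ℕ} (v : Fin N → Vx d) :
    (List.ofFn v).toFinset = (univ : Finset (Fin N)).image v := by
  ext x
  rw [List.mem_toFinset, List.mem_ofFn, mem_image]
  simp

theorem fz3_wt (h : St_ACM d) {N : ℕ} (hN : 3 ≤ N) {v : Fin N → Vx d} (β : ℝ)
    (hv : Function.Injective v)
    (hs : ∀ (i : ℕ) (hi : i + 1 < N), adj (v ⟨i, Nat.lt_of_succ_lt hi⟩) (v ⟨i + 1, hi⟩))
    (hc : adj (v ⟨N - 1, by omega⟩) (v ⟨0, by omega⟩)) :
    Real.exp (β * (((univ : Finset (Fin N × Fin N)).filter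
      (fun p => p.1.val + 2 ≤ p.2.val ∧ ¬ (p.1.val = 0 ∧ p.2.val + 1 = N) ∧
        ∑ k, |v p.1 k - v p.2 k| = 1)).card : ℝ)) =
      Real.exp (-(β * (N : ℕ))) * wt β (List.ofFn v) := by
  unfold wt
  rw [fz3_toFinset, fz3_Ac h hv, fz3_cnt hN h.2.2.2.1 hs hc, ← Real.exp_add]
  congr 1
  push_cast
  ring

theorem p_FZ3 (h_ACM : ∀ d, St_ACM d) : St_FZ3 := by
  have h := h_ACM
  intro d m β hm
  have hN : 3 ≤ 2 * m := by omega
  -- the conditions for the shortened sequence
  have key : ∀ w : Fin (2 * m + 1) → Vx d, (w 0 = 0 ∧ w (Fin.last (2 * m)) = 0 ∧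
      Function.Injective (fun i : Fin (2 * m) => w i.castSucc) ∧
      ∀ i : Fin (2 * m), ∑ j, |w i.castSucc j - w i.succ j| = 1) →
      ((fun i : Fin (2 * m) => w i.castSucc) ⟨0, by omega⟩ = 0 ∧
      Function.Injective (fun i : Fin (2 * m) => w i.castSucc) ∧
      (∀ (i : ℕ) (hi : i + 1 < 2 * m),
        adj ((fun i : Fin (2 * m) => w i.castSucc) ⟨i, Nat.lt_of_succ_lt hi⟩)
          ((fun i : Fin (2 * m) => w i.castSucc) ⟨i + 1, hi⟩)) ∧
      adj ((fun i : Fin (2 * m) => w i.castSucc) ⟨2 * m - 1, by omega⟩)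
        ((fun i : Fin (2 * m) => w i.castSucc) ⟨0, by omega⟩)) := by
    rintro w ⟨h1, h2, h3, h4⟩
    refine ⟨h1, h3, ?_, ?_⟩
    · intro i hi
      exact h4 ⟨i, Nat.lt_of_succ_lt hi⟩
    · have h5 := h4 ⟨2 * m - 1, by omega⟩
      have h6 : (⟨2 * m - 1, by omega⟩ : Fin (2 * m)).succ = Fin.last (2 * m) := by
        apply Fin.ext
        show 2 * m - 1 + 1 = 2 * m
        omega
      rw [h6, h2] at h5
      have h7 : (fun i : Fin (2 * m) => w i.castSucc) ⟨0, by omega⟩ = 0 := h1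
      rw [h7]
      exact h5
  let f : {w : Fin (2*m+1) → Fin d → ℤ //
      w 0 = 0 ∧ w (Fin.last (2*m)) = 0 ∧
      Function.Injective (fun i : Fin (2*m) => w i.castSucc) ∧
      ∀ i : Fin (2*m), ∑ j, |w i.castSucc j - w i.succ j| = 1} → ↥(CW d (2 * m)) :=
    fun w => ⟨List.ofFn (fun i : Fin (2 * m) => w.1 i.castSucc),
      (fz3_mem (h d) hN _).mpr ⟨_, rfl, key w.1 w.2⟩⟩
  have hf : Function.Bijective f := by
    constructor
    · rintro ⟨w, hw⟩ ⟨w', hw'⟩ he
      apply Subtype.ext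
      have h1 := List.ofFn_injective (congrArg Subtype.val he)
      funext i
      rcases Fin.eq_castSucc_or_eq_last i with ⟨j, rfl⟩ | rfl
      · exact congrFun h1 j
      · show w (Fin.last (2 * m)) = w' (Fin.last (2 * m))
        rw [hw.2.1, hw'.2.1]
    · rintro ⟨P, hP⟩
      obtain ⟨v, rfl, h1, h2, h3, h4⟩ := (fz3_mem (h d) hN P).mp hP
      refine ⟨⟨(Fin.snoc (α := fun _ => Vx d) v 0 : Fin (2 * m + 1) → Vx d), ?_, ?_, ?_, ?_⟩, ?_⟩
      · have : (0 : Fin (2 * m + 1)) = (⟨0, by omega⟩ : Fin (2 * m)).castSucc := rfl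
        rw [this, Fin.snoc_castSucc, h1]
      · rw [Fin.snoc_last]
      · simpa only [Fin.snoc_castSucc] using h2
      · intro i
        rw [Fin.snoc_castSucc]
        by_cases hi : i.val + 1 < 2 * m
        · have h5 : i.succ = (⟨i.val + 1, hi⟩ : Fin (2 * m)).castSucc := by
            apply Fin.ext; rfl
          rw [h5, Fin.snoc_castSucc]
          exact h3 i.val hi
        · have h5 : i.succ = Fin.last (2 * m) := by
            apply Fin.ext
            have := i.2
            show i.val + 1 = 2 * m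
            omega
          have h6 : i = ⟨2 * m - 1, by omega⟩ := by
            apply Fin.ext
            have := i.2
            show i.val = 2 * m - 1
            omega
          rw [h5, Fin.snoc_last, h6, ← h1]
          exact h4
      · apply Subtype.ext
        show List.ofFn (fun i : Fin (2 * m) =>
          (Fin.snoc (α := fun _ => Vx d) v 0 : Fin (2 * m + 1) → Vx d) i.castSucc) = List.ofFn v
        congr 1
        funext i
        rw [Fin.snoc_castSucc]
  have h1 : ∀ w : {w : Fin (2*m+1) → Fin d → ℤ //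
      w 0 = 0 ∧ w (Fin.last (2*m)) = 0 ∧
      Function.Injective (fun i : Fin (2*m) => w i.castSucc) ∧
      ∀ i : Fin (2*m), ∑ j, |w i.castSucc j - w i.succ j| = 1},
      Real.exp (β * (((Finset.univ : Finset (Fin (2*m) × Fin (2*m))).filter
      (fun p => p.1.val + 2 ≤ p.2.val ∧
        ¬ (p.1.val = 0 ∧ p.2.val + 1 = 2*m) ∧
        ∑ j, |w.1 p.1.castSucc j - w.1 p.2.castSucc j| = 1)).card : ℝ)) =
      (fun P : ↥(CW d (2 * m)) => Real.exp (-(β * (2 * m : ℕ))) * wt β P.1)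
        (Equiv.ofBijective f hf w) := by
    intro w
    obtain ⟨-, h3, h4, h5⟩ := key w.1 w.2
    refine (fz3_wt (v := fun i => w.1 i.castSucc) (h d) hN β h3 h4 h5).trans ?_
    rfl
  refine (tsum_congr h1).trans ((Equiv.tsum_eq (Equiv.ofBijective f hf)
    (fun P : ↥(CW d (2 * m)) => Real.exp (-(β * (2 * m : ℕ))) * wt β P.1)).trans
    ((Finset.tsum_subtype (CW d (2 * m))
    (fun P => Real.exp (-(β * (2 * m : ℕ))) * wt β P)).trans ?_))
  unfold Zc
  rw [Finset.mul_sum]

end Pool.Agent.H981R3.IS
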