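import Pool.Agent.H981R3.IS.Stubs

set_option autoImplicit false
open Classical Filter Topology

namespace Pool.Agent.H981R3.IS

theorem fin_pos (d : ℕ) (β : ℝ) : ∀ n : ℕ, 0 ≤ Zw d β n := by
  intro n
  exact Finset.sum_nonneg (fun P _ => (Real.exp_pos _).le)

/-- the line of steps in direction `k` -/
theorem fin_line {d : ℕ} (k : Fin d) (n : ℕ) :
    (List.ofFn (fun t : Fin (n + 1) => (fun j => if j = k then (t.val : ℤ) else 0 : Vx d))) ∈ SW d n := by
  unfold SW
  rw [Finset.mem_filter]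
  refine ⟨?_, ⟨?_, ?_⟩, ?_⟩
  · unfold LL
    rw [Finset.mem_image]
    refine ⟨_, ?_, rfl⟩
    rw [Fintype.mem_piFinset]
    intro t
    unfold cube
    rw [Fintype.mem_piFinset]
    intro j
    rw [Finset.mem_Icc]
    have := t.isLt
    by_cases hj : j = k
    · simp only [hj, if_true]; omega
    · simp only [hj, if_false]; omega
  · rw [List.isChain_iff_getElem]
    intro i hi
    simp only [List.length_ofFn] at hi
    simp only [List.getElem_ofFn]
    unfold adj
    rw [Finset.sum_eq_single k]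
    · simp
    · intro b _ hb
      simp [hb]
    · intro h; exact absurd (Finset.mem_univ k) h
  · rw [List.nodup_ofFn]
    intro a b hab
    have := congrFun hab k
    simp at this
    exact Fin.ext (by exact_mod_cast this)
  · rw [List.ofFn_succ]
    simp only [List.head?_cons, Option.some.injEq]
    funext j
    by_cases hj : j = k <;> simp [hj]

theorem fin_Zw_pos {d : ℕ} (hd : 2 ≤ d) (β : ℝ) (n : ℕ) : 0 < Zw d β n := by
  unfold Zw
  exact Finset.sum_pos (fun P _ => Real.exp_pos _) ⟨_, fin_line ⟨0, by omega⟩ n⟩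

theorem fin_R1 (h_LIM : ∀ d, St_LIM d) (h_FZ1 : St_FZ1) :
    ∀ d : ℕ, 2 ≤ d → ∀ β : ℝ, 0 < β →
      ∃ L : ℝ, Tendsto
        (fun n : ℕ =>
          (1 / (n : ℝ)) * Real.log
            (∑ w ∈ (Fintype.piFinset
                (fun _ : Fin (n + 1) =>
                  Fintype.piFinset (fun _ : Fin d => Finset.Icc (-(n : ℤ)) (n : ℤ)))).filter
                (fun w : Fin (n + 1) → Fin d → ℤ =>
                  w 0 = 0 ∧
                  (∀ i j : Fin (n + 1), w i = w j → i = j) ∧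
                  (∀ i : Fin n, ∑ k : Fin d, |w i.succ k - w i.castSucc k| = 1)),
              Real.exp (β * ((((Finset.univ : Finset (Fin (n + 1) × Fin (n + 1))).filter
                (fun p : Fin (n + 1) × Fin (n + 1) =>
                  p.1.val + 1 < p.2.val ∧
                  ∑ k : Fin d, |w p.1 k - w p.2 k| = 1)).card : ℕ) : ℝ))))
        atTop (𝓝 L) := by
  intro d hd β hβ
  obtain ⟨F0, h1, h2⟩ := h_LIM d hd β hβ.le
  refine ⟨F0 - β, ?_⟩
  have h3 : Tendsto (fun n : ℕ => Real.log (Zw d β n) / n - β) atTop (𝓝 (F0 - β)) :=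
    h1.sub_const β
  refine h3.congr' ?_
  filter_upwards [eventually_ge_atTop 1] with n hn
  have hn' : (0 : ℝ) < n := by exact_mod_cast hn
  have e := h_FZ1 d n β
  have e2 : Real.log (Real.exp (-(β * n)) * Zw d β n) = -(β * n) + Real.log (Zw d β n) := by
    rw [Real.log_mul (Real.exp_pos _).ne' (fin_Zw_pos hd β n).ne', Real.log_exp]
  have e3 : (1 / (n : ℝ)) * (-(β * n) + Real.log (Zw d β n)) = Real.log (Zw d β n) / n - β := by
    field_simp
    ring
  rw [← e3, ← e2, ← e]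

theorem fin_Zc_pos {d : ℕ} (hd : 2 ≤ d) (β : ℝ) (hβ : 0 ≤ β) (h_K0 : St_K0 d) (m : ℕ) (hm : 2 ≤ m) :
    0 < Zc d β (2 * m) := by
  obtain ⟨k, rfl⟩ : ∃ k, m = k + 1 := ⟨m - 1, by omega⟩
  have h := h_K0 ⟨0, by omega⟩ ⟨1, by omega⟩ β (2 * (k + 1)) (by simp) hβ
  have h1 := h.1 k (by omega)
  have h2 := h.2.1
  have : 2 * k + 2 = 2 * (k + 1) := by ring
  rw [this] at h1
  linarith

theorem fin_R2 (h_LIM : ∀ d, St_LIM d) (h_K0 : ∀ d, St_K0 d) (h_FZ2 : St_FZ2) (h_FZ3 : St_FZ3) :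
  ∀ d : ℕ, 2 ≤ d → ∀ β : ℝ, 0 < β → ∃ L : ℝ,
    Filter.Tendsto
      (fun n : ℕ => (1 / (n : ℝ)) * Real.log
        (∑' w : {w : Fin (n+1) → Fin d → ℤ //
              w 0 = 0 ∧ Function.Injective w ∧
              ∀ i : Fin n, ∑ j, |w i.castSucc j - w i.succ j| = 1},
          Real.exp (β * (((Finset.univ : Finset (Fin (n+1) × Fin (n+1))).filter
            (fun p => p.1.val + 2 ≤ p.2.val ∧
              ∑ j, |w.1 p.1 j - w.1 p.2 j| = 1)).card : ℝ))))
      Filter.atTop (nhds L) ∧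
    Filter.Tendsto
      (fun m : ℕ => (1 / ((2 * m : ℕ) : ℝ)) * Real.log
        (∑' w : {w : Fin (2*m+1) → Fin d → ℤ //
              w 0 = 0 ∧ w (Fin.last (2*m)) = 0 ∧
              Function.Injective (fun i : Fin (2*m) => w i.castSucc) ∧
              ∀ i : Fin (2*m), ∑ j, |w i.castSucc j - w i.succ j| = 1},
          Real.exp (β * (((Finset.univ : Finset (Fin (2*m) × Fin (2*m))).filter
            (fun p => p.1.val + 2 ≤ p.2.val ∧
              ¬ (p.1.val = 0 ∧ p.2.val + 1 = 2*m) ∧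
              ∑ j, |w.1 p.1.castSucc j - w.1 p.2.castSucc j| = 1)).card : ℝ))))
      Filter.atTop (nhds L) := by
  intro d hd β hβ
  obtain ⟨F0, h1, h2⟩ := h_LIM d hd β hβ.le
  refine ⟨F0 - β, ?_, ?_⟩
  · have h3 : Tendsto (fun n : ℕ => Real.log (Zw d β n) / n - β) atTop (𝓝 (F0 - β)) :=
      h1.sub_const β
    refine h3.congr' ?_
    filter_upwards [eventually_ge_atTop 1] with n hn
    have hn' : (0 : ℝ) < n := by exact_mod_cast hn
    have e := h_FZ2 d n β
    have e2 : Real.log (Real.exp (-(β * n)) * Zw d β n) = -(β * n) + Real.log (Zw d β n) := by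
      rw [Real.log_mul (Real.exp_pos _).ne' (fin_Zw_pos hd β n).ne', Real.log_exp]
    have e3 : (1 / (n : ℝ)) * (-(β * n) + Real.log (Zw d β n)) = Real.log (Zw d β n) / n - β := by
      field_simp
      ring
    rw [← e3, ← e2, ← e]
  · have h3 : Tendsto (fun m : ℕ => Real.log (Zc d β (2 * m)) / ((2 * m : ℕ) : ℝ) - β) atTop
        (𝓝 (F0 - β)) := h2.sub_const β
    refine h3.congr' ?_
    filter_upwards [eventually_ge_atTop 2] with m hm
    have hn' : (0 : ℝ) < ((2 * m : ℕ) : ℝ) := by exact_mod_cast (by omega : 0 < 2 * m)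
    have e := h_FZ3 d m β hm
    have e2 : Real.log (Real.exp (-(β * ((2 * m : ℕ) : ℝ))) * Zc d β (2 * m)) =
        -(β * ((2 * m : ℕ) : ℝ)) + Real.log (Zc d β (2 * m)) := by
      rw [Real.log_mul (Real.exp_pos _).ne' (fin_Zc_pos hd β hβ.le (h_K0 d) m hm).ne', Real.log_exp]
    have e3 : (1 / ((2 * m : ℕ) : ℝ)) * (-(β * ((2 * m : ℕ) : ℝ)) + Real.log (Zc d β (2 * m))) =
        Real.log (Zc d β (2 * m)) / ((2 * m : ℕ) : ℝ) - β := by
      field_simp
      ring
    rw [← e3, ← e2, ← e]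

end Pool.Agent.H981R3.IS
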