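import Pool.Agent.H981R3.IS.ACM

set_option autoImplicit false

namespace Pool.Agent.H981R3.IS

open Finset

variable {d : ℕ}

/-- sign of a face -/
def geo_sg (σ : Bool) : ℤ := if σ then 1 else -1

theorem geo_ht_le (α : Vx d) (h : ℕ) (x : Vx d) (T : ℕ) : ht α h x ≤ T ↔ x ∈ bxT α h T := by
  unfold ht bxT
  rw [Finset.sup_le_iff]
  constructor
  · intro H k
    have := H k (mem_univ k)
    rw [Int.toNat_le] at this
    have h1 := le_trans (le_max_left _ _) this
    have h2 := le_trans (le_max_right _ _) this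
    constructor <;> omega
  · intro H k _
    have := H k
    rw [Int.toNat_le]
    apply max_le <;> omega

theorem geo_ht_ge (α : Vx d) (h : ℕ) (x : Vx d) (k : Fin d) :
    (max (α k - x k) (x k - (α k + h) + 1)).toNat ≤ ht α h x := by
  unfold ht
  exact Finset.le_sup (f := fun k => (max (α k - x k) (x k - (α k + h) + 1)).toNat) (mem_univ k)

theorem geo_cel (α : Vx d) (h : ℕ) (x : Vx d) : x ∈ cel α h ↔ ht α h x = 0 := by
  rw [← Nat.le_zero, geo_ht_le]
  unfold cel bxT
  simp only [Set.mem_ofPred_eq, Nat.cast_zero, sub_zero, add_zero]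

theorem geo_odir_i {α : Vx d} {h : ℕ} {i : Fin d} {σ : Bool} {t : ℕ} {x : Vx d}
    (ht1 : 1 ≤ t) (hx : x ∈ col α h i σ t) : odir α h x i = geo_sg σ := by
  obtain ⟨h1, h2⟩ := hx
  unfold odir geo_sg
  rcases σ with _ | _
  · simp at h1 ⊢
    omega
  · simp at h1 ⊢
    rw [if_neg (by omega), if_pos (by omega)]

theorem geo_odir_k {α : Vx d} {h : ℕ} {i : Fin d} {σ : Bool} {t : ℕ} {x : Vx d}
    (hx : x ∈ col α h i σ t) {k : Fin d} (hk : k ≠ i) : odir α h x k = 0 := by
  obtain ⟨h1, h2⟩ := hx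
  have := h2 k hk
  unfold odir
  rw [if_neg (by omega), if_neg (by omega)]

theorem geo_ray_i {α : Vx d} {h : ℕ} {i : Fin d} {σ : Bool} {t : ℕ} {x : Vx d}
    (ht1 : 1 ≤ t) (hx : x ∈ col α h i σ t) (s : ℕ) :
    ray α h x s i = x i + s * geo_sg σ := by
  unfold ray
  rw [geo_odir_i ht1 hx]

theorem geo_ray_k {α : Vx d} {h : ℕ} {i : Fin d} {σ : Bool} {t : ℕ} {x : Vx d}
    (hx : x ∈ col α h i σ t) {k : Fin d} (hk : k ≠ i) (s : ℕ) :
    ray α h x s k = x k := by
  unfold ray
  rw [geo_odir_k hx hk]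
  ring

theorem geo_ray_col {α : Vx d} {h : ℕ} {i : Fin d} {σ : Bool} {t : ℕ} {x : Vx d}
    (ht1 : 1 ≤ t) (hx : x ∈ col α h i σ t) (s : ℕ) :
    ray α h x s ∈ col α h i σ (t + s) := by
  refine ⟨?_, ?_⟩
  · rw [geo_ray_i ht1 hx s, hx.1]
    unfold geo_sg
    rcases σ with _ | _
    · simp; ring
    · simp; ring
  · intro k hk
    rw [geo_ray_k hx hk s]
    exact hx.2 k hk

theorem geo_col_ht {α : Vx d} {h : ℕ} {i : Fin d} {σ : Bool} {t : ℕ} {x : Vx d}
    (ht1 : 1 ≤ t) (hx : x ∈ col α h i σ t) : ht α h x = t := by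
  apply le_antisymm
  · rw [geo_ht_le]
    intro k
    by_cases hk : k = i
    · subst hk
      have := hx.1
      rcases σ with _ | _
      · simp at this
        omega
      · simp at this
        omega
    · have := hx.2 k hk
      omega
  · refine le_trans ?_ (geo_ht_ge α h x i)
    have h0 := hx.1
    rcases σ with _ | _
    · simp at h0
      have : (t : ℤ) ≤ max (α i - x i) (x i - (α i + h) + 1) := le_trans (by omega) (le_max_left _ _)
      omega
    · simp at h0
      have : (t : ℤ) ≤ max (α i - x i) (x i - (α i + h) + 1) :=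
        le_trans (by omega) (le_max_right _ _)
      omega

theorem geo_foot_k {α : Vx d} {h : ℕ} {i : Fin d} {σ : Bool} {t : ℕ} {x : Vx d}
    (hx : x ∈ col α h i σ t) {k : Fin d} (hk : k ≠ i) : foot α h x k = x k := by
  have := hx.2 k hk
  unfold foot
  rw [min_eq_left (by omega), max_eq_right (by omega)]

theorem geo_foot_i {α : Vx d} {h : ℕ} {i : Fin d} {σ : Bool} {t : ℕ} {x : Vx d}
    (ht1 : 1 ≤ t) (hx : x ∈ col α h i σ t) :
    foot α h x i = if σ then α i + h - 1 + 1 else α i - 1 := by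
  have := hx.1
  unfold foot
  rcases σ with _ | _
  · simp at this ⊢
    rw [this]
    left
    omega
  · simp at this ⊢
    rw [min_eq_right (by omega), max_eq_right (by omega)]

theorem geo_foot_col {α : Vx d} {h : ℕ} {i : Fin d} {σ : Bool} {t : ℕ} {x : Vx d}
    (ht1 : 1 ≤ t) (hx : x ∈ col α h i σ t) : foot α h x ∈ col α h i σ 1 := by
  refine ⟨?_, ?_⟩
  · rw [geo_foot_i ht1 hx]
    simp
  · intro k hk
    rw [geo_foot_k hx hk]
    exact hx.2 k hk

theorem geo_ray_foot {α : Vx d} {h : ℕ} {i : Fin d} {σ : Bool} {t : ℕ} {x : Vx d}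
    (ht1 : 1 ≤ t) (hx : x ∈ col α h i σ t) : ray α h (foot α h x) (t - 1) = x := by
  funext k
  by_cases hk : k = i
  · subst hk
    rw [geo_ray_i le_rfl (geo_foot_col ht1 hx), geo_foot_i ht1 hx, hx.1]
    unfold geo_sg
    rcases σ with _ | _
    · simp [Nat.cast_sub ht1]
    · simp [Nat.cast_sub ht1]
      ring
  · rw [geo_ray_k (geo_foot_col ht1 hx) hk, geo_foot_k hx hk]

theorem geo_foot_self {α : Vx d} {h : ℕ} {i : Fin d} {σ : Bool} {z : Vx d}
    (hz : z ∈ col α h i σ 1) : foot α h z = z := by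
  funext k
  by_cases hk : k = i
  · subst hk
    rw [geo_foot_i le_rfl hz, hz.1]
    simp
  · rw [geo_foot_k hz hk]

theorem geo_foot_ray {α : Vx d} {h : ℕ} {i : Fin d} {σ : Bool} {z : Vx d}
    (hz : z ∈ col α h i σ 1) (t : ℕ) : foot α h (ray α h z t) = z := by
  have h1 := geo_ray_col le_rfl hz t
  funext k
  by_cases hk : k = i
  · subst hk
    rw [geo_foot_i (by omega) h1, hz.1]
    simp
  · rw [geo_foot_k h1 hk, geo_ray_k hz hk]

theorem geo_ray_adj {α : Vx d} {h : ℕ} {i : Fin d} {σ : Bool} {z : Vx d}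
    (hz : z ∈ col α h i σ 1) (t : ℕ) : adj (ray α h z t) (ray α h z (t + 1)) := by
  unfold adj
  rw [Finset.sum_eq_single i]
  · rw [geo_ray_i le_rfl hz, geo_ray_i le_rfl hz]
    unfold geo_sg
    rcases σ with _ | _
    · simp
    · simp
  · intro k _ hk
    rw [geo_ray_k hz hk, geo_ray_k hz hk]
    simp
  · simp

theorem geo_ray_zero (α : Vx d) (h : ℕ) (z : Vx d) : ray α h z 0 = z := by
  funext k
  simp [ray]

theorem geo_col_uniq {α : Vx d} {h : ℕ} {i i' : Fin d} {σ σ' : Bool} {t t' : ℕ} {x : Vx d}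
    (ht1 : 1 ≤ t) (hx : x ∈ col α h i σ t) (ht1' : 1 ≤ t') (hx' : x ∈ col α h i' σ' t') :
    i = i' ∧ σ = σ' ∧ t = t' := by
  have e1 := geo_col_ht ht1 hx
  have e2 := geo_col_ht ht1' hx'
  have e3 : t = t' := by omega
  subst e3
  have hi : i = i' := by
    by_contra hne
    have h1 := hx'.2 i hne
    have h2 := hx.1
    rcases σ with _ | _
    · simp at h2; omega
    · simp at h2; omega
  subst hi
  refine ⟨rfl, ?_, rfl⟩
  have h1 := hx.1
  have h2 := hx'.1
  rcases σ with _ | _ <;> rcases σ' with _ | _ <;> simp at h1 h2 ⊢ <;> omega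

theorem geo_foot_mem {α : Vx d} {h : ℕ} (hh : 1 ≤ h) {i : Fin d} {σ : Bool} {x : Vx d}
    (hx : foot α h x ∈ col α h i σ 1) : 1 ≤ ht α h x ∧ x ∈ col α h i σ (ht α h x) := by
  obtain ⟨h1, h2⟩ := hx
  have hk : ∀ k, k ≠ i → α k ≤ x k ∧ x k < α k + h := by
    intro k hk
    have := h2 k hk
    unfold foot at this
    omega
  have hi : (σ = true → α i + h ≤ x i) ∧ (σ = false → x i < α i) := by
    unfold foot at h1
    rcases σ with _ | _
    · simp at h1 ⊢
      omega
    · simp at h1 ⊢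
      omega
  -- the height
  have : ∃ t : ℕ, 1 ≤ t ∧ x ∈ col α h i σ t := by
    rcases σ with _ | _
    · refine ⟨(α i - x i).toNat, ?_, ?_, hk⟩
      · have := hi.2 rfl
        omega
      · have := hi.2 rfl
        simp
        omega
    · refine ⟨(x i - (α i + h) + 1).toNat, ?_, ?_, hk⟩
      · have := hi.1 rfl
        omega
      · have := hi.1 rfl
        simp
        omega
  obtain ⟨t, ht1, hxt⟩ := this
  rw [geo_col_ht ht1 hxt]
  exact ⟨ht1, hxt⟩

theorem geo_adj_ray {α : Vx d} {h : ℕ} {i : Fin d} {σ : Bool} {z z' : Vx d} (t : ℕ)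
    (hz : z ∈ col α h i σ 1) (hz' : z' ∈ col α h i σ 1) (ha : adj z z') :
    adj (ray α h z t) (ray α h z' t) := by
  unfold adj at ha ⊢
  rw [← ha]
  apply Finset.sum_congr rfl
  intro k _
  by_cases hk : k = i
  · subst hk
    rw [geo_ray_i le_rfl hz, geo_ray_i le_rfl hz']
    congr 1
    ring
  · rw [geo_ray_k hz hk, geo_ray_k hz' hk]

theorem geo_exit {α : Vx d} {h : ℕ} {x y : Vx d} (hx : x ∈ cel α h) (hy : y ∉ cel α h)
    (ha : adj x y) : ∃ i σ, y ∈ col α h i σ 1 := by
  obtain ⟨k, hk⟩ := (acm_adj_iff x y).mp ha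
  have hx' : ∀ j, α j ≤ x j ∧ x j < α j + h := hx
  rcases hk with hk | hk
  · refine ⟨k, true, ?_, ?_⟩
    · have hne : ¬ (∀ j, α j ≤ y j ∧ y j < α j + h) := hy
      have hyk : y k = x k + 1 := by rw [hk]; simp [ev]
      have : ¬ (y k < α k + h) := by
        intro hlt
        apply hne
        intro j
        by_cases hj : j = k
        · subst hj
          have := hx' j
          omega
        · have : y j = x j := by rw [hk]; simp [ev, Pi.single_eq_of_ne hj]
          rw [this]
          exact hx' j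
      have := hx' k
      simp
      omega
    · intro j hj
      have : y j = x j := by rw [hk]; simp [ev, Pi.single_eq_of_ne hj]
      rw [this]
      exact hx' j
  · refine ⟨k, false, ?_, ?_⟩
    · have hne : ¬ (∀ j, α j ≤ y j ∧ y j < α j + h) := hy
      have hyk : y k = x k - 1 := by rw [hk]; simp [ev]
      have : ¬ (α k ≤ y k) := by
        intro hlt
        apply hne
        intro j
        by_cases hj : j = k
        · subst hj
          have := hx' j
          omega
        · have : y j = x j := by rw [hk]; simp [ev, Pi.single_eq_of_ne hj]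
          rw [this]
          exact hx' j
      have := hx' k
      simp
      omega
    · intro j hj
      have : y j = x j := by rw [hk]; simp [ev, Pi.single_eq_of_ne hj]
      rw [this]
      exact hx' j

theorem p_GEO (d : ℕ) : St_GEO d := by
  intro α h hh
  refine ⟨geo_cel α h, ?_, ?_, ?_, ?_, ?_, geo_ht_le α h, ?_⟩
  · intro i σ t x ht1 hx
    exact ⟨geo_col_ht ht1 hx, geo_foot_col ht1 hx, geo_ray_foot ht1 hx, geo_ray_col ht1 hx⟩
  · intro i σ z hz
    refine ⟨geo_foot_self hz, ?_, geo_foot_ray hz, geo_ray_adj hz, geo_ray_zero α h z⟩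
    intro t
    rw [geo_col_ht (by omega) (geo_ray_col le_rfl hz t)]
    omega
  · intro i σ i' σ' t x ht1 hx t' ht1' hx'
    exact geo_col_uniq ht1 hx ht1' hx'
  · intro x i σ hx
    exact geo_foot_mem hh hx
  · intro i σ z z' t hz hz' ha
    exact geo_adj_ray t hz hz' ha
  · intro x y hx hy ha
    exact geo_exit hx hy ha

end Pool.Agent.H981R3.IS
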