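import Pool.Agent.H981R3.IS.Stubs

set_option autoImplicit false

namespace Pool.Agent.H981R3.IS

open Finset

/-- the two cells of a group -/
theorem gu_cells {d : ℕ} (h_ARI : St_ARI d) (D : Dt d) (hρ : 2 ≤ D.ρ) (hg : 1 ≤ D.g)
    (hw : Sw D.w D.n) (y : Vx d × Vx d) (hy : y ∈ D.grs) :
    ∃ (s t : ℕ) (i : Fin d), s ≤ D.n ∧ t ≤ D.n ∧ y.1 = ev i ∧
      D.ci (D.w s) i = y.2 i - 1 ∧ D.ci (D.w t) i = y.2 i ∧
      ∀ k, k ≠ i → D.ci (D.w s) k = y.2 k / (D.ρ : ℤ) ∧ D.ci (D.w t) k = y.2 k / (D.ρ : ℤ) := by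
  obtain ⟨-, -, -, a4, -, a6, -⟩ := h_ARI D hρ hg hw
  obtain ⟨p, hp, rfl⟩ := Finset.mem_image.1 hy
  obtain ⟨i, e1, e2, e3, e4, e5⟩ := a6 p hp
  have hpn := (a4 p hp).1
  rcases abs_eq (by norm_num : (0 : ℤ) ≤ 1) |>.1 e2 with h | h
  · refine ⟨p, p + 1, i, by omega, by omega, e1, ?_, ?_, fun k hk => ?_⟩
    · rw [e3, max_eq_right (by omega)]
      omega
    · rw [e3, max_eq_right (by omega)]
    · obtain ⟨-, f2, -, f4⟩ := e5 k hk
      exact ⟨f4, f2.trans f4⟩
  · refine ⟨p + 1, p, i, by omega, by omega, e1, ?_, ?_, fun k hk => ?_⟩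
    · rw [e3, max_eq_left (by omega)]
      omega
    · rw [e3, max_eq_left (by omega)]
    · obtain ⟨-, f2, -, f4⟩ := e5 k hk
      exact ⟨f2.trans f4, f4⟩

theorem gu_ev {d : ℕ} {i k : Fin d} : (ev i : Vx d) k = 1 ↔ k = i := by
  unfold ev
  by_cases h : k = i
  · subst h; simp
  · simp [h]

theorem gu_ev_inj {d : ℕ} {i j : Fin d} (h : (ev i : Vx d) = ev j) : i = j := by
  have := gu_ev.2 (rfl : i = i)
  rw [h] at this
  exact gu_ev.1 this

/-- windows agree on both sides of a section which is not on the boundary of a window -/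
theorem gu_div {ρ a : ℤ} (hρ : 0 < ρ) (h : ¬ ρ ∣ a) : (a - 1) / ρ = a / ρ := by
  have h1 := Int.mul_ediv_add_emod a ρ
  have h2 := Int.emod_nonneg a hρ.ne'
  have h3 := Int.emod_lt_of_pos a hρ
  have h4 : a % ρ ≠ 0 := fun h0 => h (Int.dvd_of_emod_eq_zero h0)
  exact ((Int.ediv_emod_unique hρ (a := a - 1) (q := a / ρ) (r := a % ρ - 1)).2
    ⟨by linarith, by omega, by omega⟩).1

theorem p_GU (d : ℕ) (h_LAL : St_LAL) (h_CLS : St_CLS d) (h_ARI : St_ARI d) : St_GU d := by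
  classical
  intro D hρ hg hw
  obtain ⟨c1, c2, -⟩ := h_CLS D hw
  have hρ0 : (0 : ℤ) < D.ρ := by exact_mod_cast (by omega : 0 < D.ρ)
  have hsub : ∀ y : {y // y ∈ D.ggood}, y.1 ∈ D.grs := fun y => (Finset.mem_sdiff.1 y.2).1
  choose s t ax hs ht hax h1 h2 h3 using fun y : {y // y ∈ D.ggood} =>
    gu_cells h_ARI D hρ hg hw y.1 (hsub y)
  -- the condition defining `S y`
  set cond : {y // y ∈ D.ggood} → Vx d → Prop := fun y c =>
    y.1.2 (ax y) ≤ c (ax y) ∧ c (ax y) / (D.ρ : ℤ) = y.1.2 (ax y) / (D.ρ : ℤ) ∧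
      ∀ k, k ≠ ax y → c k / (D.ρ : ℤ) = y.1.2 k / (D.ρ : ℤ) / (D.ρ : ℤ) with hcond
  let X := {u // u ∈ D.uns}
  let U : (r : ℕ) → r ≤ D.n → X := fun r hr => ⟨D.uc r,
    Finset.mem_image_of_mem _ (Finset.mem_range.2 (by omega))⟩
  let S : {y // y ∈ D.ggood} → Set X := fun y => {u | ∃ r ∈ u.1, cond y (D.ci (D.w r))}
  have hUS : ∀ (y : {y // y ∈ D.ggood}) (r : ℕ) (hr : r ≤ D.n),
      U r hr ∈ S y ↔ cond y (D.ci (D.w r)) := by
    intro y r hr
    constructor
    · rintro ⟨q, hq, hc⟩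
      have := (c2 q r hq).2.2.1
      rwa [this] at hc
    · intro hc
      exact ⟨r, (c1 r hr).1, hc⟩
  have hne : Nonempty X := ⟨U 0 (Nat.zero_le _)⟩
  have key := h_LAL X {y // y ∈ D.ggood} Unit (fun y => U (s y) (hs y)) (fun y => U (t y) (ht y)) S
    (fun _ => ()) (fun b => ⟨hne.some, rfl⟩) ?_ ?_ (fun _ => rfl)
  · simp only [Fintype.card_coe, Fintype.card_unit, X] at key
    omega
  · intro y
    rw [hUS y _ (hs y), hUS y _ (ht y)]
    constructor
    · rintro ⟨h, -⟩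
      rw [h1] at h
      omega
    · refine ⟨by rw [h2], by rw [h2], fun k hk => by rw [(h3 y k hk).2]⟩
  · intro y y' hyy
    rw [hUS y _ (hs y'), hUS y _ (ht y')]
    have hgood := Finset.mem_sdiff.1 y.2
    have hgood' := Finset.mem_sdiff.1 y'.2
    rw [Finset.mem_union, not_or] at hgood hgood'
    -- windows agree
    have hnd : ¬ (D.ρ : ℤ) ∣ y'.1.2 (ax y') := by
      intro hd
      apply hgood'.2.1
      unfold Dt.gbd
      rw [Finset.mem_filter]
      exact ⟨hgood'.1, ax y', by rw [hax]; exact gu_ev.2 rfl, hd⟩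
    have hwin : ∀ k, D.ci (D.w (s y')) k / (D.ρ : ℤ) = D.ci (D.w (t y')) k / (D.ρ : ℤ) := by
      intro k
      by_cases hk : k = ax y'
      · rw [hk, h1, h2]
        exact gu_div hρ0 hnd
      · rw [(h3 y' k hk).1, (h3 y' k hk).2]
    constructor
    · rintro ⟨g1, g2, g3⟩
      refine ⟨?_, by rw [← hwin]; exact g2, fun k hk => by rw [← hwin]; exact g3 k hk⟩
      by_cases hk : ax y = ax y'
      · rw [hk] at g1 ⊢
        rw [h1] at g1
        rw [h2]
        omega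
      · rw [(h3 y' _ hk).2, ← (h3 y' _ hk).1]
        exact g1
    · rintro ⟨g1, g2, g3⟩
      refine ⟨?_, by rw [hwin]; exact g2, fun k hk => by rw [hwin]; exact g3 k hk⟩
      by_cases hk : ax y = ax y'
      · by_contra hcon
        -- then the sections agree
        rw [hk] at g1 hcon
        rw [h1] at hcon
        rw [h2] at g1
        have hyi : y.1.2 (ax y') = y'.1.2 (ax y') := by omega
        apply hgood.2.2
        unfold Dt.gbad
        rw [Finset.mem_filter]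
        refine ⟨hgood.1, hgood.2.1, y'.1, hgood'.1, fun h => hyy (Subtype.ext h), ?_⟩
        unfold Dt.sc
        have hev : y'.1.1 = y.1.1 := by rw [hax, hax, hk]
        refine Prod.ext hev ?_
        funext k
        simp only [hev]
        by_cases hk2 : k = ax y
        · have h5 : y.1.1 k = 1 := by rw [hax]; exact gu_ev.2 hk2
          rw [if_pos h5, if_pos h5, hk2, hk, hyi]
        · have h5 : ¬ y.1.1 k = 1 := by
            rw [hax]
            exact fun h => hk2 (gu_ev.1 h)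
          rw [if_neg h5, if_neg h5]
          have h6 := g3 k hk2
          rw [(h3 y' k (by rw [← hk]; exact hk2)).2] at h6
          have h7 : ((D.ρ ^ 2 : ℕ) : ℤ) = (D.ρ : ℤ) * D.ρ := by push_cast; ring
          rw [h7, ← Int.ediv_ediv_of_nonneg hρ0.le, ← Int.ediv_ediv_of_nonneg hρ0.le]
          exact h6
      · rw [(h3 y' _ hk).1, ← (h3 y' _ hk).2]
        exact g1

end Pool.Agent.H981R3.IS
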