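import Pool.Agent.H981R3.IS.Stubs

/-!
# Lattice automorphisms (task ISO, helper439)
-/

set_option autoImplicit false

namespace Pool.Agent.H981R3.IS

open Finset

variable {d : ℕ}

open scoped Classical in
/-- ordered adjacent pairs -/
noncomputable def iso_O (S : Finset (Vx d)) : Finset (Vx d × Vx d) :=
  (S ×ˢ S).filter (fun p => adj p.1 p.2)

theorem iso_ev_inj {k j : Fin d} (h : ev k = ev j) : k = j := by
  by_contra hne
  have := congrFun h k
  unfold ev at this
  rw [Pi.single_eq_same, Pi.single_eq_of_ne hne] at this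
  norm_num at this

theorem iso_ev_add {x : Vx d} {k j : Fin d} (h : x = x + ev j + ev k) : False := by
  have h1 := congrFun h j
  simp only [Pi.add_apply] at h1
  have h2 : (ev j : Vx d) j = 1 := by
    unfold ev
    exact Pi.single_eq_same _ _
  have h3 : 0 ≤ (ev k : Vx d) j := by
    unfold ev
    by_cases hkj : j = k
    · subst hkj
      rw [Pi.single_eq_same]
      norm_num
    · rw [Pi.single_eq_of_ne hkj]
  omega

theorem iso_two (hA : ∀ x y : Vx d, adj x y ↔ ∃ k, y = x + ev k ∨ x = y + ev k)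
    (S : Finset (Vx d)) : (iso_O S).card = 2 * Ac S := by
  classical
  set A := (S ×ˢ (univ : Finset (Fin d))).filter (fun p => p.1 + ev p.2 ∈ S) with hAdef
  let f1 : Vx d × Fin d → Vx d × Vx d := fun p => (p.1, p.1 + ev p.2)
  let f2 : Vx d × Fin d → Vx d × Vx d := fun p => (p.1 + ev p.2, p.1)
  have h1 : iso_O S = A.image f1 ∪ A.image f2 := by
    ext ⟨x, y⟩
    simp only [iso_O, hAdef, f1, f2, Finset.mem_filter, Finset.mem_product, Finset.mem_union,
      Finset.mem_image, Finset.mem_univ, and_true, Prod.mk.injEq, Prod.exists]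
    constructor
    · rintro ⟨⟨hx, hy⟩, hxy⟩
      obtain ⟨k, rfl | rfl⟩ := (hA x y).1 hxy
      · exact Or.inl ⟨x, k, ⟨hx, hy⟩, rfl, rfl⟩
      · exact Or.inr ⟨y, k, ⟨hy, hx⟩, rfl, rfl⟩
    · rintro (⟨a, k, ⟨ha, hk⟩, rfl, rfl⟩ | ⟨a, k, ⟨ha, hk⟩, rfl, rfl⟩)
      · exact ⟨⟨ha, hk⟩, (hA _ _).2 ⟨k, Or.inl rfl⟩⟩
      · exact ⟨⟨hk, ha⟩, (hA _ _).2 ⟨k, Or.inr rfl⟩⟩
  have hi1 : Function.Injective f1 := by
    rintro ⟨x, k⟩ ⟨y, j⟩ h
    simp only [f1, Prod.mk.injEq] at h
    obtain ⟨rfl, h⟩ := h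
    rw [iso_ev_inj (add_left_cancel h)]
  have hi2 : Function.Injective f2 := by
    rintro ⟨x, k⟩ ⟨y, j⟩ h
    simp only [f2, Prod.mk.injEq] at h
    obtain ⟨h, rfl⟩ := h
    rw [iso_ev_inj (add_left_cancel h)]
  have hdis : Disjoint (A.image f1) (A.image f2) := by
    rw [Finset.disjoint_left]
    rintro ⟨x, y⟩ hx hy
    simp only [f1, f2, Finset.mem_image, Prod.mk.injEq, Prod.exists] at hx hy
    obtain ⟨a, k, _, rfl, rfl⟩ := hx
    obtain ⟨b, j, _, h1, rfl⟩ := hy
    exact iso_ev_add h1.symm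
  rw [h1, Finset.card_union_of_disjoint hdis, Finset.card_image_of_injective _ hi1,
    Finset.card_image_of_injective _ hi2]
  have hAc : Ac S = A.card := by
    unfold Ac
    rw [hAdef]
  omega

theorem p_ISO (d : ℕ) (hACM : St_ACM d) : St_ISO d := by
  classical
  have hA := hACM.2.2.2.2.1
  intro φ hφ hadj
  have hAc : ∀ S : Finset (Vx d), Ac (S.image φ) = Ac S := by
    intro S
    have h1 := iso_two hA S
    have h2 := iso_two hA (S.image φ)
    have h3 : iso_O (S.image φ) = (iso_O S).image (fun p => (φ p.1, φ p.2)) := by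
      ext ⟨x, y⟩
      simp only [iso_O, Finset.mem_filter, Finset.mem_product, Finset.mem_image, Prod.mk.injEq,
        Prod.exists]
      constructor
      · rintro ⟨⟨⟨a, ha, rfl⟩, ⟨b, hb, rfl⟩⟩, hab⟩
        exact ⟨a, b, ⟨⟨ha, hb⟩, (hadj a b).1 hab⟩, rfl, rfl⟩
      · rintro ⟨a, b, ⟨⟨ha, hb⟩, hab⟩, rfl, rfl⟩
        exact ⟨⟨⟨a, ha, rfl⟩, ⟨b, hb, rfl⟩⟩, (hadj a b).2 hab⟩
    have h4 : (iso_O (S.image φ)).card = (iso_O S).card := by
      rw [h3]
      apply Finset.card_image_of_injective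
      rintro ⟨a, b⟩ ⟨a', b'⟩ h
      simp only [Prod.mk.injEq] at h
      rw [hφ h.1, hφ h.2]
    omega
  refine ⟨hAc, fun β P => ?_⟩
  have hP : IsP (P.map φ) ↔ IsP P := by
    unfold IsP
    rw [List.isChain_map, List.nodup_map_iff hφ]
    constructor
    · rintro ⟨h1, h2⟩
      exact ⟨h1.imp (fun a b h => (hadj a b).1 h), h2⟩
    · rintro ⟨h1, h2⟩
      exact ⟨h1.imp (fun a b h => (hadj a b).2 h), h2⟩
  refine ⟨hP, ?_, ?_, ?_⟩
  · unfold IsC
    rw [hP, List.length_map, List.head?_map, List.getLast?_map]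
    constructor
    · rintro ⟨h1, h2, x, y, hx, hy, hxy⟩
      rw [Option.map_eq_some_iff] at hx hy
      obtain ⟨a, ha, rfl⟩ := hx
      obtain ⟨b, hb, rfl⟩ := hy
      exact ⟨h1, h2, a, b, ha, hb, (hadj _ _).1 hxy⟩
    · rintro ⟨h1, h2, x, y, hx, hy, hxy⟩
      refine ⟨h1, h2, φ x, φ y, ?_, ?_, (hadj _ _).2 hxy⟩
      · rw [hx]
        rfl
      · rw [hy]
        rfl
  · unfold wt
    have : (P.map φ).toFinset = P.toFinset.image φ := by
      ext x
      simp
    rw [this, hAc]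
  · intro x y
    have key : ∀ a b : Vx d, [φ a, φ b] <:+: P.map φ ↔ [a, b] <:+: P := by
      intro a b
      constructor
      · intro h
        rw [List.infix_map_iff] at h
        obtain ⟨l, hl, hl2⟩ := h
        have : l = [a, b] := by
          apply List.map_injective_iff.2 hφ
          rw [← hl2]
          rfl
        rw [← this]
        exact hl
      · intro h
        exact h.map φ
    unfold St
    rw [key, key]

end Pool.Agent.H981R3.IS
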