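import Pool.Agent.H981R3.IS.Stubs

/-!
# JOIN: joining two paths of a system through a layer
-/

set_option autoImplicit false

namespace Pool.Agent.H981R3.IS

open Finset

variable {d : ℕ}

lemma join_getLast?_mem {β : Type} {P : List β} {a : β} (h : P.getLast? = some a) : a ∈ P := by
  obtain ⟨P0, rfl⟩ := List.getLast?_eq_some_iff.1 h
  simp

lemma join_head?_mem {β : Type} {P : List β} {a : β} (h : P.head? = some a) : a ∈ P := by
  obtain ⟨P0, rfl⟩ := List.head?_eq_some_iff.1 h
  simp

lemma join_tip_mem {L : List (Vx d)} {z : Vx d} (h : tipz L z) : z ∈ L := by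
  rcases h with h | h
  · exact join_head?_mem h
  · exact join_getLast?_mem h

/-- steps of a concatenation -/
lemma join_St_append (hA : St_ACM d) (P Q : List (Vx d)) (u v : Vx d) :
    St (P ++ Q) u v ↔ St P u v ∨ St Q u v ∨ ∃ a b, P.getLast? = some a ∧ Q.head? = some b ∧
      ((u = a ∧ v = b) ∨ (u = b ∧ v = a)) := by
  have h9 := hA.2.2.2.2.2.2.2.2.1
  have hnil : ¬ St ([] : List (Vx d)) u v := by
    rintro (h | h)
    · have := h.length_le; simp at this
    · have := h.length_le; simp at this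
  rcases List.eq_nil_or_concat P with rfl | ⟨P0, a, rfl⟩
  · simp [hnil]
  · cases Q with
    | nil => simp [hnil]
    | cons b Q0 =>
      have e : (P0.concat a) ++ (b :: Q0) = P0 ++ a :: b :: Q0 := by simp
      rw [e, h9]
      have e2 : P0.concat a = P0 ++ [a] := by simp
      rw [e2]
      simp only [List.getLast?_append, List.getLast?_singleton, List.head?_cons]
      constructor
      · rintro (h | h | h | h)
        · exact Or.inl h
        · exact Or.inr (Or.inl h)
        · exact Or.inr (Or.inr ⟨a, b, by simp, by simp, Or.inl h⟩)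
        · exact Or.inr (Or.inr ⟨a, b, by simp, by simp, Or.inr h⟩)
      · rintro (h | h | ⟨a', b', h1, h2, h⟩)
        · exact Or.inl h
        · exact Or.inr (Or.inl h)
        · simp only [Option.some_or, Option.some.injEq] at h1 h2
          subst h1; subst h2
          rcases h with h | h
          · exact Or.inr (Or.inr (Or.inl h))
          · exact Or.inr (Or.inr (Or.inr h))

/-- gluing two chains through a third one -/
lemma join_glue (hs : ∀ x y : Vx d, adj x y ↔ adj y x) {A A' M : List (Vx d)} {p q : Vx d}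
    (hA : A.IsChain adj) (hA' : A'.IsChain adj) (lA : A.getLast? = some p)
    (lA' : A'.getLast? = some q) (hM : (p :: (M ++ [q])).IsChain adj) :
    (A ++ M ++ A'.reverse).IsChain adj := by
  obtain ⟨A0, rfl⟩ := List.getLast?_eq_some_iff.1 lA
  obtain ⟨A1, rfl⟩ := List.getLast?_eq_some_iff.1 lA'
  have e : A0 ++ [p] ++ M ++ (A1 ++ [q]).reverse = A0 ++ p :: (M ++ (q :: A1.reverse)) := by simp
  have e2 : p :: (M ++ (q :: A1.reverse)) = (p :: M) ++ q :: A1.reverse := by simp
  have h3 : (q :: A1.reverse).IsChain adj := by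
    have h4 : (A1 ++ [q]).reverse = q :: A1.reverse := by simp
    rw [← h4, List.isChain_reverse]
    refine hA'.imp ?_
    intro x y hxy
    exact (hs _ _).1 hxy
  rw [e, List.isChain_split]
  refine ⟨hA, ?_⟩
  rw [e2, List.isChain_split]
  exact ⟨hM, h3⟩

/-- the leg above `z`, of length `n` -/
def join_leg (α : Vx d) (h : ℕ) (z : Vx d) (n : ℕ) : List (Vx d) :=
  (List.range n).map (fun s => ray α h z (s + 1))

lemma join_mem_leg {α : Vx d} {h : ℕ} {z : Vx d} {n : ℕ} {u : Vx d} :
    u ∈ join_leg α h z n ↔ ∃ s, 1 ≤ s ∧ s ≤ n ∧ u = ray α h z s := by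
  unfold join_leg
  simp only [List.mem_map, List.mem_range]
  constructor
  · rintro ⟨s, hs, rfl⟩
    exact ⟨s + 1, by omega, by omega, rfl⟩
  · rintro ⟨s, h1, h2, rfl⟩
    exact ⟨s - 1, by omega, by congr 1; omega⟩

lemma join_leg_length (α : Vx d) (h : ℕ) (z : Vx d) (n : ℕ) : (join_leg α h z n).length = n := by
  simp [join_leg]

lemma join_leg_chain {α : Vx d} {h : ℕ} {z : Vx d} {L : List (Vx d)}
    (hadj : ∀ t, adj (ray α h z t) (ray α h z (t + 1)))
    (hL : L.IsChain adj) (hl : L.getLast? = some (ray α h z 0)) : ∀ n : ℕ,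
    (L ++ join_leg α h z n).IsChain adj ∧
      (L ++ join_leg α h z n).getLast? = some (ray α h z n) := by
  intro n
  induction n with
  | zero => simpa [join_leg] using ⟨hL, hl⟩
  | succ n ih =>
    have e : L ++ join_leg α h z (n + 1) = (L ++ join_leg α h z n) ++ [ray α h z (n + 1)] := by
      unfold join_leg
      rw [List.range_succ, List.map_append, ← List.append_assoc]
      rfl
    rw [e]
    constructor
    · rw [List.isChain_append]
      refine ⟨ih.1, by simp, ?_⟩
      intro x hx y hy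
      rw [ih.2] at hx
      simp only [Option.mem_some_iff, List.head?_cons] at hx hy
      subst hx; subst hy
      exact hadj n
    · simp

lemma join_leg_nodup {α : Vx d} {h : ℕ} {z : Vx d} (hht : ∀ t, ht α h (ray α h z t) = t + 1)
    (n : ℕ) : (join_leg α h z n).Nodup := by
  unfold join_leg
  refine List.Nodup.map ?_ List.nodup_range
  intro a b hab
  have h1 := hht (a + 1)
  have h2 := hht (b + 1)
  have : ray α h z (a + 1) = ray α h z (b + 1) := hab
  rw [this] at h1
  omega

/-- a list with given tip, oriented so that the tip is the last element -/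
lemma join_orient {L : List (Vx d)} {z : Vx d} (hn : L.Nodup) (h2 : 2 ≤ L.length)
    (hz : tipz L z) : ∃ (w : Vx d) (L' : List (Vx d)), (L' = L ∨ L' = L.reverse) ∧
      L'.getLast? = some z ∧ L'.head? = some w ∧ z ≠ w ∧ ∀ v, tipz L v ↔ v = z ∨ v = w := by
  -- first a version for a list given by its ends
  obtain ⟨a, L0, rfl⟩ : ∃ a L0, L = a :: L0 := by
    cases L with
    | nil => simp at h2
    | cons a L0 => exact ⟨a, L0, rfl⟩
  have hL0 : L0 ≠ [] := by
    rintro rfl
    simp at h2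
  obtain ⟨K, b, rfl⟩ := (List.eq_nil_or_concat L0).resolve_left hL0
  have hab : a ≠ b := by
    rintro rfl
    simp at hn
  have hh : (a :: (K.concat b)).head? = some a := by simp
  have hl : (a :: (K.concat b)).getLast? = some b := by
    rw [List.getLast?_eq_some_iff]
    exact ⟨a :: K, by simp⟩
  have ht : ∀ v, tipz (a :: (K.concat b)) v ↔ v = a ∨ v = b := by
    intro v
    unfold tipz
    rw [hh, hl]
    simp only [Option.some.injEq]
    constructor
    · rintro (h | h)
      · exact Or.inl h.symm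
      · exact Or.inr h.symm
    · rintro (h | h)
      · exact Or.inl h.symm
      · exact Or.inr h.symm
  rcases (ht z).1 hz with rfl | rfl
  · refine ⟨b, (z :: (K.concat b)).reverse, Or.inr rfl, ?_, ?_, hab, ht⟩
    · rw [List.getLast?_reverse]; exact hh
    · rw [List.head?_reverse]; exact hl
  · refine ⟨a, a :: (K.concat z), Or.inl rfl, hl, hh, hab.symm, fun v => ?_⟩
    rw [ht v]; tauto

lemma join_orient_mem {L L' : List (Vx d)} (h : L' = L ∨ L' = L.reverse) (u : Vx d) :
    u ∈ L' ↔ u ∈ L := by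
  rcases h with rfl | rfl <;> simp

theorem p_JOIN (d : ℕ) (h_GEO : St_GEO d) (h_SCH : St_SCH d) (h_ACM : St_ACM d) : St_JOIN d := by
  intro α h F t S L1 L2 C x y hh hF ht2 hS hSF hL1 hL2 hL12 hx hy hxS hyS hC hCh hCl hCS
  obtain ⟨g1, -, g3, -, -, -, -, -⟩ := h_GEO α h hh
  have hsym : ∀ x y : Vx d, adj x y ↔ adj y x := h_ACM.2.2.2.1
  have hrevP := h_ACM.2.2.2.2.2.1
  have hrevS := h_ACM.2.2.2.2.2.2.1
  have hStmem := h_ACM.2.2.2.2.2.2.2.1
  -- facts on tips
  have tip : ∀ z, Tp F z → foot α h z = z ∧ (∀ t, ht α h (ray α h z t) = t + 1) ∧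
      (∀ t, foot α h (ray α h z t) = z) ∧ (∀ t, adj (ray α h z t) (ray α h z (t + 1))) ∧
      ray α h z 0 = z := by
    intro z hz
    obtain ⟨i, σ, hc⟩ := hF.tips z hz
    exact g3 i σ z hc
  have rinj : ∀ z z', Tp F z → Tp F z' → ∀ s s', ray α h z s = ray α h z' s' → z = z' := by
    intro z z' hz hz' s s' e
    have h1 := (tip z hz).2.2.1 s
    have h2 := (tip z' hz').2.2.1 s'
    rw [← h1, ← h2, e]
  let A : Set (Vx d) := {v | ∃ z, tipz L1 z ∧ v = ray α h z (t - 1)}
  let B : Set (Vx d) := {v | ∃ L ∈ F, L ≠ L1 ∧ ∃ z, tipz L z ∧ v = ray α h z (t - 1)}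
  have hAB : Disjoint A B := by
    rw [Set.disjoint_left]
    rintro v ⟨z, hz, rfl⟩ ⟨L, hL, hLne, z', hz', e⟩
    have := rinj z z' ⟨L1, hL1, hz⟩ ⟨L, hL, hz'⟩ _ _ e
    subst this
    exact hF.dis L hL L1 hL1 hLne (join_tip_mem hz') (join_tip_mem hz)
  obtain ⟨p, q, M, hpA, hpS, hqB, hqS, hPM, hM, hlen⟩ := h_SCH S A B C _ _ hAB hC hCh hCl
    ⟨x, hx, rfl⟩ ⟨L2, hL2, hL12.symm, y, hy, rfl⟩ hCS
  obtain ⟨z1, hz1, rfl⟩ := hpA
  obtain ⟨L3, hL3, hL31, z2, hz2, rfl⟩ := hqB
  have T1 : Tp F z1 := ⟨L1, hL1, hz1⟩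
  have T2 : Tp F z2 := ⟨L3, hL3, hz2⟩
  obtain ⟨w1, L1', hL1', l1, f1, n1, t1⟩ := join_orient (hF.isp L1 hL1).2 (hF.two L1 hL1) hz1
  obtain ⟨w2, L3', hL3', l3, f3, n3, t3⟩ := join_orient (hF.isp L3 hL3).2 (hF.two L3 hL3) hz2
  have W1 : Tp F w1 := ⟨L1, hL1, (t1 w1).2 (Or.inr rfl)⟩
  have W2 : Tp F w2 := ⟨L3, hL3, (t3 w2).2 (Or.inr rfl)⟩
  have P1' : IsP L1' := by
    rcases hL1' with rfl | rfl
    · exact hF.isp _ hL1
    · exact hrevP _ (hF.isp _ hL1)
  have P3' : IsP L3' := by
    rcases hL3' with rfl | rfl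
    · exact hF.isp _ hL3
    · exact hrevP _ (hF.isp _ hL3)
  have d13 : ∀ u, u ∈ L1 → u ∈ L3 → False := fun u h1 h3 => hF.dis L3 hL3 L1 hL1 hL31 h3 h1
  have hz12 : z1 ≠ z2 := by
    rintro rfl
    exact d13 _ (join_tip_mem hz1) (join_tip_mem hz2)
  set A1 := L1' ++ join_leg α h z1 (t - 1) with hA1
  set A3 := L3' ++ join_leg α h z2 (t - 1) with hA3
  have c1 := join_leg_chain (tip z1 T1).2.2.2.1 P1'.1 (by rw [l1, (tip z1 T1).2.2.2.2]) (t - 1)
  have c3 := join_leg_chain (tip z2 T2).2.2.2.1 P3'.1 (by rw [l3, (tip z2 T2).2.2.2.2]) (t - 1)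
  set N := A1 ++ M ++ A3.reverse with hN
  have cN : N.IsChain adj := join_glue hsym c1.1 c3.1 c1.2 c3.2 hPM.1
  -- membership
  have memN : ∀ u, u ∈ N ↔ u ∈ L1 ∨ u ∈ join_leg α h z1 (t - 1) ∨ u ∈ M ∨ u ∈ L3 ∨
      u ∈ join_leg α h z2 (t - 1) := by
    intro u
    rw [hN, List.mem_append, List.mem_append, List.mem_reverse, hA1, hA3, List.mem_append,
      List.mem_append, join_orient_mem hL1', join_orient_mem hL3']
    tauto
  -- rays of tips avoid M
  have rayM : ∀ z, Tp F z → ∀ s, 1 ≤ s → ray α h z s ∉ M := by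
    intro z hz s hs hm
    obtain ⟨m1, m2, m3⟩ := hM _ hm
    have h1 := hS _ m1
    rw [(tip z hz).2.1 s] at h1
    have hs' : s = t - 1 := by omega
    subst hs'
    obtain ⟨L, hL, hzL⟩ := hz
    by_cases hLL : L = L1
    · subst hLL
      exact m2 ⟨z, hzL, rfl⟩
    · exact m3 ⟨L, hL, hLL, z, hzL, rfl⟩
  have legF : ∀ z, Tp F z → ∀ u ∈ join_leg α h z (t - 1), ∀ L ∈ F, u ∉ L := by
    intro z hz u hu L hL
    obtain ⟨s, s1, s2, rfl⟩ := join_mem_leg.1 hu
    exact hF.free z hz L hL s s1
  have legM : ∀ z, Tp F z → ∀ u ∈ join_leg α h z (t - 1), u ∉ M := by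
    intro z hz u hu
    obtain ⟨s, s1, s2, rfl⟩ := join_mem_leg.1 hu
    exact rayM z hz s s1
  have legleg : ∀ u, u ∈ join_leg α h z1 (t - 1) → u ∈ join_leg α h z2 (t - 1) → False := by
    intro u hu hu'
    obtain ⟨s, s1, s2, rfl⟩ := join_mem_leg.1 hu
    obtain ⟨s', s1', s2', e⟩ := join_mem_leg.1 hu'
    exact hz12 (rinj z1 z2 T1 T2 _ _ e)
  have MF : ∀ u ∈ M, ∀ L ∈ F, u ∉ L := fun u hu L hL => hSF u (hM u hu).1 L hL
  have nM : M.Nodup := by
    have := hPM.2
    rw [List.nodup_cons] at this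
    exact (List.nodup_append.1 this.2).1
  have nN : N.Nodup := by
    rw [hN]
    refine List.nodup_append.2 ⟨List.nodup_append.2 ⟨List.nodup_append.2 ⟨P1'.2,
      join_leg_nodup (tip z1 T1).2.1 _, ?_⟩, nM, ?_⟩, List.nodup_reverse.2 (List.nodup_append.2
      ⟨P3'.2, join_leg_nodup (tip z2 T2).2.1 _, ?_⟩), ?_⟩
    · rintro a ha b hb rfl
      exact legF z1 T1 a hb L1 hL1 ((join_orient_mem hL1' a).1 ha)
    · rintro a ha b hb rfl
      rcases List.mem_append.1 ha with ha | ha
      · exact MF a hb L1 hL1 ((join_orient_mem hL1' a).1 ha)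
      · exact legM z1 T1 a ha hb
    · rintro a ha b hb rfl
      exact legF z2 T2 a hb L3 hL3 ((join_orient_mem hL3' a).1 ha)
    · rintro a ha b hb rfl
      rw [List.mem_reverse, hA3, List.mem_append, join_orient_mem hL3'] at hb
      rw [List.mem_append, hA1, List.mem_append, join_orient_mem hL1'] at ha
      rcases ha with (ha | ha) | ha
      · rcases hb with hb | hb
        · exact d13 a ha hb
        · exact legF z2 T2 a hb L1 hL1 ha
      · rcases hb with hb | hb
        · exact legF z1 T1 a ha L3 hL3 hb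
        · exact legleg a ha hb
      · rcases hb with hb | hb
        · exact MF a ha L3 hL3 hb
        · exact legM z2 T2 a hb ha
  have hNP : IsP N := ⟨cN, nN⟩
  -- tips of N
  have hNh : N.head? = some w1 := by
    obtain ⟨K, hK⟩ := List.head?_eq_some_iff.1 f1
    rw [hN, hA1, hK]; simp
  have hNl : N.getLast? = some w2 := by
    obtain ⟨K, hK⟩ := List.head?_eq_some_iff.1 f3
    rw [hN, hA3, hK]; simp
  have tN : ∀ z, tipz N z ↔ z = w1 ∨ z = w2 := by
    intro z
    unfold tipz
    rw [hNh, hNl]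
    simp only [Option.some.injEq]
    constructor
    · rintro (h | h)
      · exact Or.inl h.symm
      · exact Or.inr h.symm
    · rintro (h | h)
      · exact Or.inl h.symm
      · exact Or.inr h.symm
  have hNlen : N.length = L1.length + (t - 1) + M.length + (L3.length + (t - 1)) := by
    have e1 : L1'.length = L1.length := by rcases hL1' with rfl | rfl <;> simp
    have e3 : L3'.length = L3.length := by rcases hL3' with rfl | rfl <;> simp
    rw [hN, hA1, hA3]
    simp only [List.length_append, List.length_reverse, join_leg_length, e1, e3]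
  have hNF : N ∉ F := by
    intro hNF
    have m1 : w1 ∈ N := (memN w1).2 (Or.inl (join_tip_mem ((t1 w1).2 (Or.inr rfl))))
    have m2 : w2 ∈ N := (memN w2).2 (Or.inr (Or.inr (Or.inr (Or.inl
      (join_tip_mem ((t3 w2).2 (Or.inr rfl)))))))
    have e1 : N = L1 := by
      by_contra hne
      exact hF.dis N hNF L1 hL1 hne m1 (join_tip_mem ((t1 w1).2 (Or.inr rfl)))
    have e2 : N = L3 := by
      by_contra hne
      exact hF.dis N hNF L3 hL3 hne m2 (join_tip_mem ((t3 w2).2 (Or.inr rfl)))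
    exact hL31 (e2.symm.trans e1)
  -- disjointness of N and the other lists
  have disN : ∀ L ∈ F, L ≠ L1 → L ≠ L3 → ∀ u, u ∈ N → u ∉ L := by
    intro L hL hne1 hne3 u hu huL
    rcases (memN u).1 hu with h1 | h1 | h1 | h1 | h1
    · exact hF.dis L hL L1 hL1 hne1 huL h1
    · exact legF z1 T1 u h1 L hL huL
    · exact MF u h1 L hL huL
    · exact hF.dis L hL L3 hL3 hne3 huL h1
    · exact legF z2 T2 u h1 L hL huL
  have memF' : ∀ L, L ∈ insert N ((F.erase L1).erase L3) ↔
      L = N ∨ (L ≠ L3 ∧ L ≠ L1 ∧ L ∈ F) := by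
    intro L
    rw [Finset.mem_insert, Finset.mem_erase, Finset.mem_erase]
  have tipF' : ∀ z, Tp (insert N ((F.erase L1).erase L3)) z → Tp F z ∧ z ≠ z1 ∧ z ≠ z2 := by
    rintro z ⟨L, hL, hzL⟩
    rcases (memF' L).1 hL with rfl | ⟨h3, h1, hLF⟩
    · rcases (tN z).1 hzL with rfl | rfl
      · refine ⟨W1, n1.symm, ?_⟩
        rintro rfl
        exact d13 _ (join_tip_mem ((t1 z).2 (Or.inr rfl))) (join_tip_mem hz2)
      · refine ⟨W2, ?_, n3.symm⟩
        rintro rfl
        exact d13 _ (join_tip_mem hz1) (join_tip_mem ((t3 z).2 (Or.inr rfl)))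
    · refine ⟨⟨L, hLF, hzL⟩, ?_, ?_⟩
      · rintro rfl
        exact hF.dis L hLF L1 hL1 h1 (join_tip_mem hzL) (join_tip_mem hz1)
      · rintro rfl
        exact hF.dis L hLF L3 hL3 h3 (join_tip_mem hzL) (join_tip_mem hz2)
  refine ⟨L3, hL3, hL31, z1, w1, z2, w2, N, n1, n3, t1, t3, hpS, hqS, tN, hNF, ?_, ?_, ?_, ?_, ?_⟩
  · -- the new system
    refine ⟨?_, ?_, ?_, ?_, ?_⟩
    · intro L hL
      rcases (memF' L).1 hL with rfl | ⟨-, -, hLF⟩
      · exact hNP
      · exact hF.isp L hLF
    · intro L hL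
      rcases (memF' L).1 hL with rfl | ⟨-, -, hLF⟩
      · have := hF.two L1 hL1
        omega
      · exact hF.two L hLF
    · intro L hL L' hL' hne u hu hu'
      rcases (memF' L).1 hL with rfl | ⟨h3, h1, hLF⟩
      · rcases (memF' L').1 hL' with rfl | ⟨h3', h1', hLF'⟩
        · exact hne rfl
        · exact disN L' hLF' h1' h3' u hu hu'
      · rcases (memF' L').1 hL' with rfl | ⟨h3', h1', hLF'⟩
        · exact disN L hLF h1 h3 u hu' hu
        · exact hF.dis L hLF L' hLF' hne hu hu'
    · intro z hz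
      exact hF.tips z (tipF' z hz).1
    · intro z hz L hL s hs hmem
      obtain ⟨hzF, hzz1, hzz2⟩ := tipF' z hz
      rcases (memF' L).1 hL with rfl | ⟨h3, h1, hLF⟩
      · rcases (memN _).1 hmem with h1 | h1 | h1 | h1 | h1
        · exact hF.free z hzF L1 hL1 s hs h1
        · obtain ⟨s', _, _, e⟩ := join_mem_leg.1 h1
          exact hzz1 (rinj z z1 hzF T1 _ _ e)
        · exact rayM z hzF s hs h1
        · exact hF.free z hzF L3 hL3 s hs h1
        · obtain ⟨s', _, _, e⟩ := join_mem_leg.1 h1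
          exact hzz2 (rinj z z2 hzF T2 _ _ e)
      · exact hF.free z hzF L hLF s hs hmem
  · -- steps
    intro u hu v
    have hu0 : ht α h u = 0 := (g1 u).1 hu
    set G := join_leg α h z1 (t - 1) ++ M ++ (join_leg α h z2 (t - 1)).reverse with hG
    have eN : N = (L1' ++ G) ++ L3'.reverse := by
      rw [hN, hA1, hA3, hG, List.reverse_append]
      simp only [List.append_assoc]
    have hGh : ∀ g ∈ G, 2 ≤ ht α h g := by
      intro g hg
      rw [hG, List.mem_append, List.mem_append, List.mem_reverse] at hg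
      rcases hg with (hg | hg) | hg
      · obtain ⟨s, s1, s2, rfl⟩ := join_mem_leg.1 hg
        rw [(tip z1 T1).2.1 s]; omega
      · rw [hS g (hM g hg).1]; exact ht2
      · obtain ⟨s, s1, s2, rfl⟩ := join_mem_leg.1 hg
        rw [(tip z2 T2).2.1 s]; omega
    have hz1h : ht α h z1 = 1 := by
      have := (tip z1 T1).2.1 0
      rwa [(tip z1 T1).2.2.2.2] at this
    have hz2h : ht α h z2 = 1 := by
      have := (tip z2 T2).2.1 0
      rwa [(tip z2 T2).2.2.2.2] at this
    have hGne : G ≠ [] := by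
      intro h0
      have : G.length = 0 := by rw [h0]; rfl
      rw [hG, List.length_append, List.length_append, join_leg_length] at this
      omega
    have hSt1 : St (L1' ++ G) u v ↔ St L1 u v := by
      rw [join_St_append h_ACM]
      have e1 : St L1' u v ↔ St L1 u v := by
        rcases hL1' with rfl | rfl
        · exact Iff.rfl
        · exact hrevS _ _ _
      rw [e1]
      constructor
      · rintro (h1 | h1 | ⟨a, b, ha, hb, h1⟩)
        · exact h1
        · have := hGh u (hStmem _ _ _ h1).1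
          omega
        · rw [l1] at ha
          simp only [Option.some.injEq] at ha
          subst ha
          have hbG := hGh b (join_head?_mem hb)
          rcases h1 with ⟨rfl, _⟩ | ⟨rfl, _⟩ <;> omega
      · exact Or.inl
    rw [eN, join_St_append h_ACM, hSt1]
    have e3 : St L3'.reverse u v ↔ St L3 u v := by
      rw [hrevS]
      rcases hL3' with rfl | rfl
      · exact Iff.rfl
      · exact hrevS _ _ _
    rw [e3]
    constructor
    · rintro (h1 | h1 | ⟨a, b, ha, hb, h1⟩)
      · exact Or.inl h1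
      · exact Or.inr h1
      · rw [List.getLast?_append_of_ne_nil _ hGne] at ha
        have haG := hGh a (join_getLast?_mem ha)
        rw [List.head?_reverse, l3] at hb
        simp only [Option.some.injEq] at hb
        subst hb
        rcases h1 with ⟨rfl, _⟩ | ⟨rfl, _⟩ <;> omega
    · rintro (h1 | h1)
      · exact Or.inl h1
      · exact Or.inr (Or.inl h1)
  · rintro u (h1 | h1)
    · exact (memN u).2 (Or.inl h1)
    · exact (memN u).2 (Or.inr (Or.inr (Or.inr (Or.inl h1))))
  · intro u hu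
    rcases (memN u).1 hu with h1 | h1 | h1 | h1 | h1
    · exact Or.inl h1
    · obtain ⟨s, s1, s2, e⟩ := join_mem_leg.1 h1
      exact Or.inr (Or.inr (Or.inr ⟨s, s1, s2, Or.inl e⟩))
    · exact Or.inr (Or.inr (Or.inl (hM u h1).1))
    · exact Or.inr (Or.inl h1)
    · obtain ⟨s, s1, s2, e⟩ := join_mem_leg.1 h1
      exact Or.inr (Or.inr (Or.inr ⟨s, s1, s2, Or.inr e⟩))
  · rw [hNlen]; omega

end Pool.Agent.H981R3.IS
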