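import Pool.Agent.H981R3.IS.Stubs

/-! # K0: rectangles and trivial bounds (helper419) -/

set_option autoImplicit false

namespace Pool.Agent.H981R3.IS

open Finset

variable {d : ℕ}

theorem k0_mem_LL (S : Finset (Vx d)) (l : ℕ) (P : List (Vx d)) :
    P ∈ LL S l ↔ P.length = l ∧ ∀ x ∈ P, x ∈ S := by
  unfold LL
  simp only [Finset.mem_image, Fintype.mem_piFinset]
  constructor
  · rintro ⟨f, hf, rfl⟩
    refine ⟨List.length_ofFn, ?_⟩
    intro x hx
    rw [List.mem_ofFn] at hx
    obtain ⟨i, rfl⟩ := hx
    exact hf i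
  · rintro ⟨rfl, h⟩
    exact ⟨P.get, fun i => h _ (List.get_mem P i), List.ofFn_get P⟩

open scoped Classical in
/-- all chains with `l` steps starting at `x` -/
noncomputable def k0_C : ℕ → Vx d → Finset (List (Vx d))
  | 0, x => {[x]}
  | (l+1), x => (univ : Finset (Fin d × Bool)).biUnion
      (fun p => (k0_C l (if p.2 then x + ev p.1 else x - ev p.1)).image (fun L => x :: L))

theorem k0_card (l : ℕ) : ∀ x : Vx d, (k0_C l x).card ≤ (2 * d) ^ l := by
  classical
  induction l with
  | zero => intro x; simp [k0_C]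
  | succ l ih =>
    intro x
    unfold k0_C
    refine (Finset.card_biUnion_le).trans ?_
    refine (Finset.sum_le_card_nsmul _ _ ((2 * d) ^ l) ?_).trans ?_
    · intro p _
      exact Finset.card_image_le.trans (ih _)
    · simp only [Finset.card_univ, Fintype.card_prod, Fintype.card_fin, Fintype.card_bool,
        smul_eq_mul]
      rw [pow_succ]
      exact le_of_eq (by ring)

theorem k0_mem (hadj : ∀ x y : Vx d, adj x y ↔ ∃ k, y = x + ev k ∨ x = y + ev k) :
    ∀ (L : List (Vx d)) (x : Vx d), (x :: L).IsChain adj → (x :: L) ∈ k0_C L.length x := by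
  classical
  intro L
  induction L with
  | nil => intro x _; simp [k0_C]
  | cons y L ih =>
    intro x h
    rw [List.isChain_cons_cons] at h
    obtain ⟨h1, h2⟩ := h
    have h3 := ih y h2
    rw [List.length_cons]
    unfold k0_C
    rw [Finset.mem_biUnion]
    obtain ⟨k, hk | hk⟩ := (hadj x y).mp h1
    · refine ⟨(k, true), Finset.mem_univ _, ?_⟩
      rw [Finset.mem_image]
      refine ⟨y :: L, ?_, rfl⟩
      simp only [if_true]
      rw [← hk]
      exact h3
    · refine ⟨(k, false), Finset.mem_univ _, ?_⟩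
      rw [Finset.mem_image]
      refine ⟨y :: L, ?_, rfl⟩
      have hk' : x - ev k = y := by rw [hk]; simp
      simp only [Bool.false_eq_true, if_false]
      rw [hk']
      exact h3

theorem k0_even_abs (f : Fin d → ℤ) : Even (∑ k, |f k| - ∑ k, f k) := by
  rw [← Finset.sum_sub_distrib]
  apply Finset.even_sum
  intro k _
  rcases abs_choice (f k) with h | h
  · rw [h]; simp
  · rw [h]; exact ⟨-f k, by ring⟩

theorem k0_par : ∀ (L : List (Vx d)) (x y : Vx d), (x :: L).IsChain adj →
    (x :: L).getLast? = some y → Even (∑ k, (y k - x k) - (L.length : ℤ)) := by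
  intro L
  induction L with
  | nil =>
    intro x y _ h
    simp only [List.getLast?_singleton, Option.some.injEq] at h
    subst h
    simp
  | cons z L ih =>
    intro x y h hl
    rw [List.isChain_cons_cons] at h
    obtain ⟨h1, h2⟩ := h
    rw [List.getLast?_cons_cons] at hl
    have h3 := ih z y h2 hl
    have h4 := k0_even_abs (fun k => x k - z k)
    unfold adj at h1
    rw [h1] at h4
    rw [Finset.sum_sub_distrib] at h3 h4 ⊢
    rw [List.length_cons]
    obtain ⟨a, ha⟩ := h3
    obtain ⟨b, hb⟩ := h4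
    push_cast
    exact ⟨a + b - 1 - (∑ k, z k) + (∑ k, z k), by linarith⟩

theorem k0_odd {l : ℕ} (hl : Odd l) : CW d l = ∅ := by
  classical
  rw [Finset.eq_empty_iff_forall_notMem]
  intro P hP
  unfold CW at hP
  rw [Finset.mem_filter, k0_mem_LL] at hP
  obtain ⟨⟨hlen, -⟩, ⟨⟨hch, -⟩, h3, x, y, hx, hy, hyx⟩, -⟩ := hP
  cases P with
  | nil => simp at h3
  | cons x' L =>
    simp only [List.head?_cons, Option.some.injEq] at hx
    subst hx
    have k1 := k0_par L x' y hch hy
    have k2 := k0_even_abs (fun k => y k - x' k)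
    unfold adj at hyx
    rw [hyx] at k2
    rw [List.length_cons] at hlen
    obtain ⟨a, ha⟩ := k1
    obtain ⟨b, hb⟩ := k2
    obtain ⟨c, hc⟩ := hl
    have : (L.length : ℤ) + 1 = 2 * c + 1 := by exact_mod_cast hlen.trans hc
    omega

theorem k0_wt_one {β : ℝ} (hβ : 0 ≤ β) (P : List (Vx d)) : 1 ≤ wt β P := by
  unfold wt
  exact Real.one_le_exp (by positivity)

/-- the boundary of a rectangle -/
def k0_R (i0 i1 : Fin d) (m : ℕ) : List (Vx d) :=
  (List.range (m + 1)).map (fun t : ℕ => (-(t : ℤ)) • ev i0) ++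
    ((List.range (m + 1)).map (fun t : ℕ => (-(t : ℤ)) • ev i0 - ev i1)).reverse

theorem k0_R_mem {i0 i1 : Fin d} {m : ℕ} {x : Vx d} (hx : x ∈ k0_R i0 i1 m) :
    ∃ t : ℕ, t ≤ m ∧ (x = (-(t : ℤ)) • ev i0 ∨ x = (-(t : ℤ)) • ev i0 - ev i1) := by
  unfold k0_R at hx
  rw [List.mem_append, List.mem_reverse, List.mem_map, List.mem_map] at hx
  rcases hx with ⟨t, ht, rfl⟩ | ⟨t, ht, rfl⟩
  · rw [List.mem_range] at ht
    exact ⟨t, by omega, Or.inl rfl⟩
  · rw [List.mem_range] at ht
    exact ⟨t, by omega, Or.inr rfl⟩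

theorem k0_R_KW (hadj : ∀ x y : Vx d, adj x y ↔ ∃ k, y = x + ev k ∨ x = y + ev k)
    {i0 i1 : Fin d} (hi : i0 ≠ i1) {m : ℕ} (hm : 1 ≤ m) :
    k0_R i0 i1 m ∈ KW i0 i1 (2 * m + 2) := by
  classical
  have hlen : (k0_R i0 i1 m).length = 2 * m + 2 := by
    unfold k0_R
    simp only [List.length_append, List.length_map, List.length_range, List.length_reverse]
    ring
  have ev_self : ∀ k : Fin d, (ev k : Vx d) k = 1 := by intro k; simp [ev]
  have ev_ne : ∀ k j : Fin d, j ≠ k → (ev k : Vx d) j = 0 := by
    intro k j h; simp [ev, h]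
  have hstep : ∀ t : ℕ, (-(t : ℤ)) • (ev i0 : Vx d) = (-((t + 1 : ℕ) : ℤ)) • ev i0 + ev i0 := by
    intro t
    push_cast
    rw [neg_add, add_smul]
    simp
  have hlast : (k0_R i0 i1 m).getLast? = some (-ev i1) := by
    unfold k0_R
    rw [List.getLast?_append, List.getLast?_reverse, List.head?_map]
    simp [List.range_succ_eq_map]
  have hhead : (k0_R i0 i1 m).head? = some 0 := by
    unfold k0_R
    simp [List.range_succ_eq_map]
  have hchain : (k0_R i0 i1 m).IsChain adj := by
    unfold k0_R
    rw [List.isChain_append]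
    refine ⟨?_, ?_, ?_⟩
    · rw [List.isChain_map, List.isChain_range_succ]
      intro t _
      rw [hadj]
      exact ⟨i0, Or.inr (hstep t)⟩
    · rw [List.isChain_reverse, List.isChain_map, List.isChain_range_succ]
      intro t _
      show adj _ _
      rw [hadj]
      refine ⟨i0, Or.inl ?_⟩
      rw [hstep t]
      simp only [Nat.succ_eq_add_one]
      abel
    · intro x hx y hy
      rw [List.head?_reverse, List.getLast?_map, List.range_succ] at hy
      rw [List.getLast?_map, List.range_succ] at hx
      simp at hx hy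
      rw [hadj]
      refine ⟨i1, Or.inr ?_⟩
      rw [← hx, ← hy]
      abel
  have hnd : (k0_R i0 i1 m).Nodup := by
    unfold k0_R
    rw [List.nodup_append', List.nodup_reverse]
    refine ⟨?_, ?_, ?_⟩
    · refine List.Nodup.map ?_ List.nodup_range
      intro a b hab
      have := congrFun hab i0
      simp only [Pi.smul_apply, ev_self, smul_eq_mul, mul_one] at this
      omega
    · refine List.Nodup.map ?_ List.nodup_range
      intro a b hab
      have := congrFun hab i0
      simp only [Pi.smul_apply, Pi.sub_apply, ev_self, smul_eq_mul, mul_one] at this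
      omega
    · intro x hx hy
      rw [List.mem_reverse, List.mem_map] at hy
      rw [List.mem_map] at hx
      obtain ⟨a, -, rfl⟩ := hx
      obtain ⟨b, -, hb⟩ := hy
      have := congrFun hb i1
      simp only [Pi.smul_apply, Pi.sub_apply, ev_self, smul_eq_mul,
        ev_ne i0 i1 (Ne.symm hi), mul_zero] at this
      omega
  unfold KW CW
  rw [Finset.mem_filter, Finset.mem_filter, k0_mem_LL]
  refine ⟨⟨⟨hlen, ?_⟩, ⟨⟨hchain, hnd⟩, by omega, 0, -ev i1, hhead, hlast, ?_⟩, hhead⟩, hlast, ?_⟩
  · intro x hx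
    obtain ⟨t, ht, h⟩ := k0_R_mem hx
    unfold cube
    rw [Fintype.mem_piFinset]
    intro k
    rw [Finset.mem_Icc]
    have h0 : (ev i0 : Vx d) k = 0 ∨ (ev i0 : Vx d) k = 1 := by
      by_cases hk : k = i0
      · subst hk; exact Or.inr (ev_self _)
      · exact Or.inl (ev_ne _ _ hk)
    have h1 : (ev i1 : Vx d) k = 0 ∨ (ev i1 : Vx d) k = 1 := by
      by_cases hk : k = i1
      · subst hk; exact Or.inr (ev_self _)
      · exact Or.inl (ev_ne _ _ hk)
    rcases h with rfl | rfl
    · simp only [Pi.smul_apply, smul_eq_mul]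
      rcases h0 with h0 | h0 <;> rw [h0] <;> push_cast <;> constructor <;> omega
    · simp only [Pi.smul_apply, Pi.sub_apply, smul_eq_mul]
      rcases h0 with h0 | h0 <;> rcases h1 with h1 | h1 <;> rw [h0, h1] <;> push_cast <;>
        constructor <;> omega
  · rw [hadj]
    exact ⟨i1, Or.inl (by simp)⟩
  · intro x hx
    obtain ⟨t, ht, h⟩ := k0_R_mem hx
    rcases h with rfl | rfl
    · simp only [Pi.smul_apply, smul_eq_mul, ev_self]
      omega
    · simp only [Pi.smul_apply, Pi.sub_apply, smul_eq_mul, ev_self, ev_ne i1 i0 hi]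
      omega

theorem p_K0 (d : ℕ) (h_ACM : St_ACM d) : St_K0 d := by
  classical
  obtain ⟨-, -, hAc, -, hadj, -, -, -, -, -⟩ := h_ACM
  intro i0 i1 β l hi hβ
  refine ⟨?_, ?_, ?_, ?_⟩
  · intro m hm
    unfold Kr
    refine (k0_wt_one hβ (k0_R i0 i1 m)).trans ?_
    exact Finset.single_le_sum (f := fun P => wt β P) (fun P _ => (Real.exp_pos _).le)
      (k0_R_KW hadj hi hm)
  · unfold Kr Zc
    apply Finset.sum_le_sum_of_subset_of_nonneg
    · unfold KW
      exact Finset.filter_subset _ _
    · intro P _ _
      exact (Real.exp_pos _).le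
  · have hd : 1 ≤ d := by
      have := i0.isLt
      omega
    have hd' : (1:ℝ) ≤ d := by exact_mod_cast hd
    have hcard : (CW d l).card ≤ (2 * d) ^ l := by
      rcases Nat.eq_zero_or_pos l with h0 | h0
      · subst h0
        have : CW d 0 = ∅ := by
          rw [Finset.eq_empty_iff_forall_notMem]
          intro P hP
          unfold CW at hP
          rw [Finset.mem_filter, k0_mem_LL] at hP
          obtain ⟨⟨hlen, -⟩, ⟨-, h3, -⟩, -⟩ := hP
          omega
        rw [this]
        simp
      · have hsub : CW d l ⊆ k0_C (l - 1) 0 := by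
          intro P hP
          unfold CW at hP
          rw [Finset.mem_filter, k0_mem_LL] at hP
          obtain ⟨⟨hlen, -⟩, ⟨⟨hch, -⟩, -⟩, hh⟩ := hP
          cases P with
          | nil => simp at hh
          | cons x L =>
            simp only [List.head?_cons, Option.some.injEq] at hh
            subst hh
            have := k0_mem hadj L 0 hch
            rw [List.length_cons] at hlen
            have e : L.length = l - 1 := by omega
            rw [e] at this
            exact this
        calc (CW d l).card ≤ (k0_C (l - 1) (0 : Vx d)).card := Finset.card_le_card hsub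
          _ ≤ (2 * d) ^ (l - 1) := k0_card _ _
          _ ≤ (2 * d) ^ l := Nat.pow_le_pow_right (by omega) (by omega)
    unfold Zc
    have hw : ∀ P ∈ CW d l, wt β P ≤ Real.exp (β * d * l) := by
      intro P hP
      unfold CW at hP
      rw [Finset.mem_filter, k0_mem_LL] at hP
      obtain ⟨⟨hlen, -⟩, -⟩ := hP
      unfold wt
      apply Real.exp_le_exp.mpr
      rw [mul_assoc]
      apply mul_le_mul_of_nonneg_left _ hβ
      have h1 : Ac P.toFinset ≤ d * l := by
        refine (hAc _).trans ?_
        apply Nat.mul_le_mul_left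
        rw [← hlen]
        exact List.toFinset_card_le P
      exact_mod_cast h1
    calc ∑ P ∈ CW d l, wt β P ≤ (CW d l).card • Real.exp (β * d * l) :=
          Finset.sum_le_card_nsmul _ _ _ hw
      _ = ((CW d l).card : ℝ) * Real.exp (β * d * l) := by rw [nsmul_eq_mul]
      _ ≤ (2 * d) ^ l * Real.exp (β * d * l) := by
          apply mul_le_mul_of_nonneg_right _ (Real.exp_pos _).le
          exact_mod_cast hcard
  · intro hodd
    unfold Zc
    rw [k0_odd hodd]
    simp

end Pool.Agent.H981R3.IS
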