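import Pool.Agent.H981R3.IS.Stubs

/-!
# KK: joining two rooted polygons
-/

set_option autoImplicit false

namespace Pool.Agent.H981R3.IS

open Finset

variable {d : ℕ}

theorem kk_mem_LL (S : Finset (Vx d)) (l : ℕ) (P : List (Vx d)) :
    P ∈ LL S l ↔ P.length = l ∧ ∀ x ∈ P, x ∈ S := by
  unfold LL
  rw [Finset.mem_image]
  constructor
  · rintro ⟨f, hf, rfl⟩
    rw [Fintype.mem_piFinset] at hf
    refine ⟨List.length_ofFn, ?_⟩
    intro x hx
    rw [List.mem_ofFn] at hx
    obtain ⟨i, rfl⟩ := hx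
    exact hf i
  · rintro ⟨rfl, hP⟩
    refine ⟨fun i => P.get i, ?_, List.ofFn_get P⟩
    rw [Fintype.mem_piFinset]
    intro i
    exact hP _ (List.get_mem P i)

/-- the reflection-shift -/
def kk_phi (i0 : Fin d) (x : Vx d) : Vx d := Function.update x i0 (1 - x i0)

theorem kk_phi_inv (i0 : Fin d) (x : Vx d) : kk_phi i0 (kk_phi i0 x) = x := by
  unfold kk_phi
  ext k
  by_cases hk : k = i0
  · subst hk; simp
  · simp [Function.update_of_ne hk]

theorem kk_phi_inj (i0 : Fin d) : Function.Injective (kk_phi i0) :=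
  Function.LeftInverse.injective (kk_phi_inv i0)

theorem kk_phi_abs (i0 : Fin d) (x y : Vx d) (k : Fin d) :
    |kk_phi i0 x k - kk_phi i0 y k| = |x k - y k| := by
  unfold kk_phi
  by_cases hk : k = i0
  · subst hk
    simp only [Function.update_self]
    rw [show (1 - x k) - (1 - y k) = -(x k - y k) by ring, abs_neg]
  · simp [Function.update_of_ne hk]

theorem kk_phi_adj (i0 : Fin d) (x y : Vx d) : adj (kk_phi i0 x) (kk_phi i0 y) ↔ adj x y := by
  unfold adj
  rw [Finset.sum_congr rfl (fun k _ => kk_phi_abs i0 x y k)]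

theorem kk_adj_of (x y : Vx d) (k : Fin d) (h1 : |x k - y k| = 1)
    (h0 : ∀ j, j ≠ k → x j = y j) : adj x y := by
  unfold adj
  rw [Finset.sum_eq_single k]
  · exact h1
  · intro j _ hj
    rw [h0 j hj]; simp
  · intro h; exact absurd (Finset.mem_univ k) h

theorem p_KK (d : ℕ) (h_ISO : St_ISO d) (h_ACM : St_ACM d) : St_KK d := by
  intro i0 i1 β m l h01 hβ hm hl
  obtain ⟨-, hACdis, -, hadjs, -, hrev, -, -, -, hcube⟩ := h_ACM
  obtain ⟨-, hISO⟩ := h_ISO (kk_phi i0) (kk_phi_inj i0) (kk_phi_adj i0)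
  classical
  set g : List (Vx d) × List (Vx d) → List (Vx d) :=
    fun p => p.1 ++ (p.2.map (kk_phi i0)).reverse with hg
  -- basic facts
  have hKW : ∀ (n : ℕ) (P : List (Vx d)), P ∈ KW i0 i1 n → P.length = n ∧ IsP P ∧
      P.head? = some 0 ∧ P.getLast? = some (-ev i1) ∧ ∀ x ∈ P, x i0 ≤ 0 := by
    intro n P hP
    unfold KW CW at hP
    rw [Finset.mem_filter, Finset.mem_filter, kk_mem_LL] at hP
    exact ⟨hP.1.1.1, hP.1.2.1.1, hP.1.2.2, hP.2.1, hP.2.2⟩
  have hmain : ∀ p ∈ KW i0 i1 m ×ˢ KW i0 i1 l, g p ∈ CW d (m + l) ∧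
      wt β p.1 * wt β p.2 ≤ wt β (g p) := by
    rintro ⟨P, P'⟩ hp
    rw [Finset.mem_product] at hp
    obtain ⟨hPl, hPP, hPh, hPe, hPx⟩ := hKW m P hp.1
    obtain ⟨hPl', hPP', hPh', hPe', hPx'⟩ := hKW l P' hp.2
    simp only [hg]
    set Q := P'.map (kk_phi i0) with hQ
    have hQP : IsP Q := ((hISO β P').1).2 hPP'
    have hQr : IsP Q.reverse := hrev Q hQP
    have hQx : ∀ x ∈ Q, 1 ≤ x i0 := by
      intro x hx
      rw [hQ, List.mem_map] at hx
      obtain ⟨y, hy, rfl⟩ := hx
      have := hPx' y hy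
      unfold kk_phi
      simp only [Function.update_self]
      omega
    have hQh : Q.head? = some (ev i0) := by
      rw [hQ, List.head?_map, hPh']
      simp only [Option.map_some, Option.some.injEq]
      ext k
      unfold kk_phi ev
      by_cases hk : k = i0
      · subst hk; simp
      · simp [Function.update_of_ne hk, Pi.single_eq_of_ne hk]
    have hQe : Q.getLast? = some (ev i0 - ev i1) := by
      rw [hQ, List.getLast?_map, hPe']
      simp only [Option.map_some, Option.some.injEq]
      ext k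
      unfold kk_phi ev
      by_cases hk : k = i0
      · subst hk; simp [Pi.single_eq_of_ne h01]
      · simp [Function.update_of_ne hk, Pi.single_eq_of_ne hk]
    have hdisj : List.Disjoint P Q.reverse := by
      intro x hx hx'
      rw [List.mem_reverse] at hx'
      have h1 := hPx x hx
      have h2 := hQx x hx'
      omega
    have hadj1 : adj (-ev i1) (ev i0 - ev i1) := by
      refine kk_adj_of _ _ i0 ?_ ?_
      · unfold ev; simp [Pi.single_eq_of_ne h01]
      · intro j hj
        unfold ev; simp [Pi.single_eq_of_ne hj]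
    have hadj2 : adj (ev i0) (0 : Vx d) := by
      refine kk_adj_of _ _ i0 ?_ ?_
      · unfold ev; simp
      · intro j hj
        unfold ev; simp [Pi.single_eq_of_ne hj]
    have hchain : (P ++ Q.reverse).IsChain adj := by
      rw [List.isChain_append]
      refine ⟨hPP.1, hQr.1, ?_⟩
      intro x hx y hy
      rw [hPe] at hx
      rw [List.head?_reverse, hQe] at hy
      simp only [Option.mem_def, Option.some.injEq] at hx hy
      rw [← hx, ← hy]
      exact hadj1
    have hnodup : (P ++ Q.reverse).Nodup := by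
      rw [List.nodup_append']
      exact ⟨hPP.2, hQr.2, hdisj⟩
    have hPne : P ≠ [] := by
      intro h; rw [h] at hPl; simp at hPl; omega
    have hhead : (P ++ Q.reverse).head? = some 0 := by
      rw [List.head?_append_of_ne_nil _ hPne, hPh]
    have hlen : (P ++ Q.reverse).length = m + l := by
      rw [List.length_append, List.length_reverse, hQ, List.length_map, hPl, hPl']
    have hlast : (P ++ Q.reverse).getLast? = some (ev i0) := by
      rw [List.getLast?_append, List.getLast?_reverse, hQh]; rfl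
    refine ⟨?_, ?_⟩
    · unfold CW
      rw [Finset.mem_filter, kk_mem_LL]
      refine ⟨⟨hlen, ?_⟩, ⟨⟨hchain, hnodup⟩, by omega, ⟨0, ev i0, hhead, hlast, hadj2⟩⟩, hhead⟩
      exact hcube _ (m + l) hchain hhead (by omega)
    · have h1 : wt β P' = wt β Q := ((hISO β P').2.2.1).symm
      rw [h1]
      unfold wt
      rw [← Real.exp_add, ← mul_add]
      apply Real.exp_le_exp.mpr
      apply mul_le_mul_of_nonneg_left _ hβ
      have h2 : (P ++ Q.reverse).toFinset = P.toFinset ∪ Q.toFinset := by
        rw [List.toFinset_append, List.toFinset_reverse]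
      rw [h2]
      have h3 : Disjoint P.toFinset Q.toFinset := by
        rw [Finset.disjoint_left]
        intro x hx hx'
        rw [List.mem_toFinset] at hx hx'
        exact hdisj hx (List.mem_reverse.mpr hx')
      exact_mod_cast hACdis _ _ h3
  have hinj : Set.InjOn g (KW i0 i1 m ×ˢ KW i0 i1 l : Finset _) := by
    rintro ⟨P, P'⟩ hp ⟨R, R'⟩ hr hpr
    rw [Finset.mem_coe, Finset.mem_product] at hp hr
    obtain ⟨hPl, -⟩ := hKW m P hp.1
    obtain ⟨hRl, -⟩ := hKW m R hr.1
    simp only [hg] at hpr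
    obtain ⟨h1, h2⟩ := List.append_inj hpr (by rw [hPl, hRl])
    have h3 : P'.map (kk_phi i0) = R'.map (kk_phi i0) := List.reverse_injective h2
    have h4 : P' = R' := (List.map_injective_iff.mpr (kk_phi_inj i0)) h3
    rw [h1, h4]
  calc Kr i0 i1 β m * Kr i0 i1 β l
      = ∑ p ∈ KW i0 i1 m ×ˢ KW i0 i1 l, wt β p.1 * wt β p.2 := by
        unfold Kr
        rw [Finset.sum_mul_sum, Finset.sum_product]
    _ ≤ ∑ p ∈ KW i0 i1 m ×ˢ KW i0 i1 l, wt β (g p) :=
        Finset.sum_le_sum (fun p hp => (hmain p hp).2)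
    _ = ∑ R ∈ (KW i0 i1 m ×ˢ KW i0 i1 l).image g, wt β R := by
        rw [Finset.sum_image hinj]
    _ ≤ ∑ R ∈ CW d (m + l), wt β R := by
        apply Finset.sum_le_sum_of_subset_of_nonneg
        · intro R hR
          rw [Finset.mem_image] at hR
          obtain ⟨p, hp, rfl⟩ := hR
          exact (hmain p hp).1
        · intro R _ _
          exact (Real.exp_pos _).le
    _ = Zc d β (m + l) := rfl

end Pool.Agent.H981R3.IS
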