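import Pool.Agent.H981R3.IS.Stubs

set_option autoImplicit false

namespace Pool.Agent.H981R3.IS

open Finset

theorem lal_ell {X : Type} [Fintype X] [DecidableEq X] (A : X → Prop) [DecidablePred A] (x : X) :
    ∑ y, (if A y then (Pi.single x (1 : ℝ) : X → ℝ) y else 0) = if A x then 1 else 0 := by
  rw [Finset.sum_eq_single x]
  · simp
  · intro y _ hy
    simp [hy]
  · simp

theorem p_LAL : St_LAL := by
  classical
  intro X E K _ _ _ lo hi S comp hc h1 h2 h3
  choose r hr using hc
  set v : E ⊕ K → (X → ℝ) := fun q => match q with
    | Sum.inl e => Pi.single (hi e) 1 - Pi.single (lo e) 1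
    | Sum.inr k => Pi.single (r k) 1 with hv
  have hli : LinearIndependent ℝ v := by
    rw [Fintype.linearIndependent_iff]
    intro a ha
    have hA : ∀ (A : X → Prop), ∑ e, a (Sum.inl e) * ((if A (hi e) then 1 else 0) -
        (if A (lo e) then 1 else 0)) + ∑ k, a (Sum.inr k) * (if A (r k) then 1 else 0) = 0 := by
      intro A
      have e1 : ∑ y, (if A y then (∑ i, a i • v i) y else 0) = 0 := by
        rw [ha]
        simp
      refine Eq.trans ?_ e1
      have e2 : ∀ y, (if A y then (∑ i, a i • v i) y else 0) =
          ∑ i, a i * (if A y then v i y else 0) := by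
        intro y
        split_ifs with hy
        · simp
        · simp
      rw [Finset.sum_congr rfl fun y _ => e2 y, Finset.sum_comm, Fintype.sum_sum_type]
      congr 1
      · refine Finset.sum_congr rfl fun e _ => ?_
        rw [← Finset.mul_sum]
        congr 1
        rw [← lal_ell A (hi e), ← lal_ell A (lo e), ← Finset.sum_sub_distrib]
        refine Finset.sum_congr rfl fun y _ => ?_
        simp only [hv]
        split_ifs <;> simp
      · refine Finset.sum_congr rfl fun k _ => ?_
        rw [← Finset.mul_sum]
        congr 1
        rw [← lal_ell A (r k)]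
    have hK : ∀ k, a (Sum.inr k) = 0 := by
      intro k
      have := hA (fun x => comp x = k)
      simp only [h3, sub_self, mul_zero, Finset.sum_const_zero, zero_add, hr] at this
      rw [Finset.sum_eq_single k] at this
      · simpa using this
      · intro k' _ hk
        simp [hk]
      · simp
    have hE : ∀ e, a (Sum.inl e) = 0 := by
      intro e
      have := hA (fun x => x ∈ S e)
      simp only [hK, zero_mul, Finset.sum_const_zero, add_zero] at this
      rw [Finset.sum_eq_single e] at this
      · simpa [(h1 e).1, (h1 e).2] using this
      · intro e' _ he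
        have h4 := h2 e e' he
        by_cases h5 : hi e' ∈ S e
        · simp [h5, h4.2 h5]
        · simp [h5, mt h4.1 h5]
      · simp
    rintro (e | k)
    · exact hE e
    · exact hK k
  have := hli.fintype_card_le_finrank
  simpa using this

end Pool.Agent.H981R3.IS
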