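import Pool.Agent.H981R3.IS.Stubs

/-! Task LF (helper417): bundles with few or many good groups. -/

set_option autoImplicit false

namespace Pool.Agent.H981R3.IS

open Finset

namespace LFaux

open scoped Classical

section Abs

variable {X E W : Type} [Fintype X] [Fintype E] {d : ℕ} (cell : X → Fin d → ℤ) (win : X → W)
  (lo hi : E → X) (ax : E → Fin d)

/-- the relation of the graph -/
def rr (x x' : X) : Prop := ∃ e, lo e = x ∧ hi e = x'

/-- the edges at `x` -/
noncomputable def T (x : X) : Finset E := univ.filter (fun e => lo e = x ∨ hi e = x)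

theorem mem_T (x : X) (e : E) : e ∈ T lo hi x ↔ lo e = x ∨ hi e = x := by
  unfold T
  rw [mem_filter]
  exact ⟨fun h => h.2, fun h => ⟨mem_univ _, h⟩⟩

theorem comp_inv (S : Set X) (hS : ∀ e, lo e ∈ S ↔ hi e ∈ S) (x x' : X)
    (h : Quot.mk (rr lo hi) x = Quot.mk (rr lo hi) x') : x ∈ S ↔ x' ∈ S := by
  have key := congrArg (Quot.lift (fun x => x ∈ S) (by
    rintro a b ⟨e, rfl, rfl⟩
    exact propext (hS e))) h
  exact iff_of_eq key

theorem win_inv (h2 : ∀ e, win (lo e) = win (hi e)) (x x' : X)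
    (h : Quot.mk (rr lo hi) x = Quot.mk (rr lo hi) x') : win x = win x' := by
  have key := congrArg (Quot.lift win (by
    rintro a b ⟨e, rfl, rfl⟩
    exact h2 e)) h
  exact key

/-- the side of an edge -/
def SS (e : E) : Set X := {x | cell (hi e) (ax e) ≤ cell x (ax e) ∧ win x = win (hi e)}

theorem SS_lo (h1 : ∀ e, cell (lo e) (ax e) = cell (hi e) (ax e) - 1) (e : E) :
    lo e ∉ SS cell win hi ax e := by
  rintro ⟨h, _⟩
  rw [h1] at h
  omega

theorem SS_hi (e : E) : hi e ∈ SS cell win hi ax e := ⟨le_rfl, rfl⟩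

theorem SS_inv (h1 : ∀ e, cell (lo e) (ax e) = cell (hi e) (ax e) - 1)
    (h1' : ∀ e k, k ≠ ax e → cell (lo e) k = cell (hi e) k)
    (h2 : ∀ e, win (lo e) = win (hi e))
    (h3 : ∀ e e', ax e = ax e' → cell (hi e) (ax e) = cell (hi e') (ax e) →
      win (hi e) = win (hi e') → e = e') (e e' : E) (hne : e' ≠ e) :
    lo e' ∈ SS cell win hi ax e ↔ hi e' ∈ SS cell win hi ax e := by
  constructor
  · rintro ⟨ha, hb⟩
    refine ⟨?_, by rw [← h2, hb]⟩
    by_cases hx : ax e = ax e'
    · rw [hx] at ha ⊢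
      have := h1 e'
      omega
    · rw [h1' e' _ hx] at ha
      exact ha
  · rintro ⟨ha, hb⟩
    refine ⟨?_, by rw [h2, hb]⟩
    by_cases hx : ax e = ax e'
    · have h4 : cell (hi e) (ax e) ≠ cell (hi e') (ax e) := fun h =>
        hne (h3 e e' hx h hb.symm).symm
      have h5 := h1 e'
      rw [← hx] at h5
      omega
    · rw [h1' e' _ hx]
      exact ha

variable (h1 : ∀ e, cell (lo e) (ax e) = cell (hi e) (ax e) - 1)
  (h1' : ∀ e k, k ≠ ax e → cell (lo e) k = cell (hi e) k)
  (h2 : ∀ e, win (lo e) = win (hi e))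
  (h3 : ∀ e e', ax e = ax e' → cell (hi e) (ax e) = cell (hi e') (ax e) →
      win (hi e) = win (hi e') → e = e')

include h1 h1' h2 h3

theorem HH (x x' : X) (e e' : E) (hT : T lo hi x = {e}) (hx : hi e = x) (hx' : hi e' = x')
    (hax : ax e = ax e') (hc : Quot.mk (rr lo hi) x = Quot.mk (rr lo hi) x')
    (hlt : cell (hi e) (ax e) < cell (hi e') (ax e)) : False := by
  have hT' : ∀ e'', lo e'' = x ∨ hi e'' = x → e'' = e := by
    intro e'' h
    have : e'' ∈ T lo hi x := by
      unfold T; rw [mem_filter]; exact ⟨mem_univ _, h⟩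
    rw [hT, mem_singleton] at this
    exact this
  have hne : x' ≠ x := by
    intro h
    rw [hx, hx', h] at hlt
    exact lt_irrefl _ hlt
  have key := comp_inv lo hi {z | z ∈ SS cell win hi ax e ∧ z ≠ x} ?_ x x' hc
  · have hw : win x = win x' := win_inv win lo hi h2 x x' hc
    have : x' ∈ {z | z ∈ SS cell win hi ax e ∧ z ≠ x} := by
      refine ⟨⟨?_, ?_⟩, hne⟩
      · rw [← hx']; exact hlt.le
      · rw [hx, hw]
    exact (key.2 this).2 rfl
  · intro e''
    by_cases he : e'' = e
    · subst he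
      constructor
      · rintro ⟨h, _⟩
        exact absurd h (SS_lo cell win lo hi ax h1 e'')
      · rintro ⟨_, h⟩
        exact absurd hx h
    · have n1 : lo e'' ≠ x := fun h => he (hT' e'' (Or.inl h))
      have n2 : hi e'' ≠ x := fun h => he (hT' e'' (Or.inr h))
      have := SS_inv cell win lo hi ax h1 h1' h2 h3 e e'' he
      constructor
      · rintro ⟨h, _⟩; exact ⟨this.1 h, n2⟩
      · rintro ⟨h, _⟩; exact ⟨this.2 h, n1⟩

theorem LL' (x x' : X) (e e' : E) (hT : T lo hi x' = {e'}) (hx : lo e = x) (hx' : lo e' = x')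
    (hax : ax e = ax e') (hc : Quot.mk (rr lo hi) x = Quot.mk (rr lo hi) x')
    (hlt : cell (hi e) (ax e) < cell (hi e') (ax e)) : False := by
  have hT' : ∀ e'', lo e'' = x' ∨ hi e'' = x' → e'' = e' := by
    intro e'' h
    have : e'' ∈ T lo hi x' := by
      unfold T; rw [mem_filter]; exact ⟨mem_univ _, h⟩
    rw [hT, mem_singleton] at this
    exact this
  have e1 := h1 e
  have e2 := h1 e'
  rw [← hax] at e2
  have hne : x ≠ x' := by
    intro h
    rw [hx, h] at e1
    rw [hx'] at e2
    omega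
  have key := comp_inv lo hi {z | z ∈ SS cell win hi ax e' ∨ z = x'} ?_ x x' hc
  · rcases key.2 (Or.inr rfl) with h | h
    · have h4 := h.1
      rw [← hax, ← hx] at h4
      omega
    · exact hne h
  · intro e''
    by_cases he : e'' = e'
    · subst he
      constructor
      · intro _
        exact Or.inl (SS_hi cell win hi ax e'')
      · intro _
        exact Or.inr hx'
    · have n1 : lo e'' ≠ x' := fun h => he (hT' e'' (Or.inl h))
      have n2 : hi e'' ≠ x' := fun h => he (hT' e'' (Or.inr h))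
      have := SS_inv cell win lo hi ax h1 h1' h2 h3 e' e'' he
      constructor
      · rintro (h | h)
        · exact Or.inl (this.1 h)
        · exact absurd h n1
      · rintro (h | h)
        · exact Or.inl (this.2 h)
        · exact absurd h n2

theorem leaf_inj (x x' : X) (e e' : E) (hT : T lo hi x = {e}) (hT' : T lo hi x' = {e'})
    (hax : ax e = ax e') (hs : hi e = x ↔ hi e' = x')
    (hc : Quot.mk (rr lo hi) x = Quot.mk (rr lo hi) x') : x = x' := by
  have me : lo e = x ∨ hi e = x := by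
    have : e ∈ T lo hi x := by rw [hT]; exact mem_singleton_self e
    unfold T at this
    exact (mem_filter.1 this).2
  have me' : lo e' = x' ∨ hi e' = x' := by
    have : e' ∈ T lo hi x' := by rw [hT']; exact mem_singleton_self e'
    unfold T at this
    exact (mem_filter.1 this).2
  have hw : win x = win x' := win_inv win lo hi h2 x x' hc
  by_cases hh : hi e = x
  · have hh' : hi e' = x' := hs.1 hh
    rcases lt_trichotomy (cell (hi e) (ax e)) (cell (hi e') (ax e)) with h | h | h
    · exact (HH cell win lo hi ax h1 h1' h2 h3 x x' e e' hT hh hh' hax hc h).elim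
    · have := h3 e e' hax h (by rw [hh, hh', hw])
      rw [← hh, ← hh', this]
    · rw [hax] at h
      exact (HH cell win lo hi ax h1 h1' h2 h3 x' x e' e hT' hh' hh hax.symm hc.symm h).elim
  · have hh' : hi e' ≠ x' := fun h => hh (hs.2 h)
    have hl : lo e = x := me.resolve_right hh
    have hl' : lo e' = x' := me'.resolve_right hh'
    rcases lt_trichotomy (cell (hi e) (ax e)) (cell (hi e') (ax e)) with h | h | h
    · exact (LL' cell win lo hi ax h1 h1' h2 h3 x x' e e' hT' hl hl' hax hc h).elim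
    · have := h3 e e' hax h (by rw [← h2, ← h2, hl, hl', hw])
      rw [← hl, ← hl', this]
    · rw [hax] at h
      exact (LL' cell win lo hi ax h1 h1' h2 h3 x' x e' e hT hl' hl hax.symm hc.symm h).elim

theorem abs_main (hLAL : St_LAL) : ∃ κ : ℕ, Fintype.card E + κ ≤ Fintype.card X ∧
    (univ.filter (fun x => (T lo hi x).card ≤ 1)).card ≤ (2 * d + 1) * κ ∧
    ∑ x, ((T lo hi x).card - 2) ≤ (2 * d + 2) * κ := by
  haveI : Fintype (Quot (rr lo hi)) := Fintype.ofSurjective _ Quot.mk_surjective
  set κ := Fintype.card (Quot (rr lo hi)) with hκ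
  have hEK : Fintype.card E + κ ≤ Fintype.card X :=
    hLAL X E (Quot (rr lo hi)) lo hi (SS cell win hi ax) (Quot.mk (rr lo hi)) Quot.mk_surjective
      (fun e => ⟨SS_lo cell win lo hi ax h1 e, SS_hi cell win hi ax e⟩)
      (fun e e' hne => SS_inv cell win lo hi ax h1 h1' h2 h3 e e' hne)
      (fun e => Quot.sound ⟨e, rfl, rfl⟩)
  -- leaves
  have hA1 : (univ.filter (fun x => (T lo hi x).card = 1)).card ≤ κ * (d * 2) := by
    have hch : ∀ x : X, (T lo hi x).card = 1 → ∃ e, T lo hi x = {e} := fun x hx =>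
      card_eq_one.1 hx
    by_cases hE : Nonempty E
    · let f : X → E := fun x => if h : (T lo hi x).card = 1 then (hch x h).choose else hE.some
      have hf : ∀ x, (T lo hi x).card = 1 → T lo hi x = {f x} := by
        intro x hx
        simp only [f, hx, dif_pos]
        exact (hch x hx).choose_spec
      have hcard : Fintype.card (Quot (rr lo hi) × Fin d × Bool) = κ * (d * 2) := by
        rw [Fintype.card_prod, Fintype.card_prod, Fintype.card_fin, Fintype.card_bool]
      rw [← hcard, ← card_univ]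
      refine card_le_card_of_injOn
        (fun x => (Quot.mk (rr lo hi) x, ax (f x), decide (hi (f x) = x))) (fun _ _ => by simp) ?_
      intro x hx x' hx' hxx
      rw [mem_coe, mem_filter] at hx hx'
      simp only [Prod.mk.injEq, decide_eq_decide] at hxx
      exact leaf_inj cell win lo hi ax h1 h1' h2 h3 x x' (f x) (f x') (hf x hx.2) (hf x' hx'.2)
        hxx.2.1 hxx.2.2 hxx.1
    · have : univ.filter (fun x => (T lo hi x).card = 1) = ∅ := by
        rw [filter_eq_empty_iff]
        intro x _ hx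
        obtain ⟨e, _⟩ := hch x hx
        exact hE ⟨e⟩
      rw [this]
      simp
  -- isolated nodes
  have hA0 : (univ.filter (fun x => (T lo hi x).card = 0)).card ≤ κ := by
    rw [hκ, ← card_univ]
    refine card_le_card_of_injOn (fun x => Quot.mk (rr lo hi) x) (fun _ _ => by simp) ?_
    intro x hx x' hx' hxx
    rw [mem_coe, mem_filter, card_eq_zero] at hx
    have hn : ∀ e, lo e ≠ x ∧ hi e ≠ x := by
      intro e
      have : e ∉ T lo hi x := by rw [hx.2]; exact notMem_empty e
      unfold T at this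
      rw [mem_filter] at this
      push Not at this
      exact this (mem_univ _)
    have key := comp_inv lo hi {z | z = x} (by
      intro e
      constructor
      · intro h; exact absurd h (hn e).1
      · intro h; exact absurd h (hn e).2) x x' hxx
    exact (key.1 rfl).symm
  -- degree sum
  have hsum : ∑ x, (T lo hi x).card = 2 * Fintype.card E := by
    have h5 : ∀ x, (T lo hi x).card = ∑ e, if lo e = x ∨ hi e = x then 1 else 0 := by
      intro x
      unfold T
      rw [card_filter]
    simp only [h5]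
    rw [sum_comm]
    have h6 : ∀ e : E, ∑ x, (if lo e = x ∨ hi e = x then 1 else 0) = 2 := by
      intro e
      rw [← card_filter]
      have hne : lo e ≠ hi e := by
        intro h
        have := h1 e
        rw [h] at this
        omega
      have : univ.filter (fun x => lo e = x ∨ hi e = x) = {lo e, hi e} := by
        ext x
        simp [eq_comm]
      rw [this, card_pair hne]
    rw [sum_congr rfl (fun e _ => h6 e), sum_const, card_univ, smul_eq_mul, mul_comm]
  refine ⟨κ, hEK, ?_, ?_⟩
  · have h7 : univ.filter (fun x => (T lo hi x).card ≤ 1) ⊆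
        univ.filter (fun x => (T lo hi x).card = 1) ∪ univ.filter (fun x => (T lo hi x).card = 0) := by
      intro x hx
      rw [mem_filter] at hx
      rw [mem_union, mem_filter, mem_filter]
      have := hx.2
      rcases Nat.lt_or_ge (T lo hi x).card 1 with h | h
      · right; exact ⟨mem_univ _, by omega⟩
      · left; exact ⟨mem_univ _, by omega⟩
    have h8 := (card_le_card h7).trans (card_union_le _ _)
    have : κ * (d * 2) + κ = (2 * d + 1) * κ := by ring
    omega
  · have h7 : ∀ x : X, ((T lo hi x).card - 2) + 2 = (T lo hi x).card +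
        (if (T lo hi x).card = 1 then 1 else 0) + 2 * (if (T lo hi x).card = 0 then 1 else 0) := by
      intro x
      split_ifs <;> omega
    have h8 : ∑ x, (((T lo hi x).card - 2) + 2) = ∑ x, ((T lo hi x).card +
        (if (T lo hi x).card = 1 then 1 else 0) + 2 * (if (T lo hi x).card = 0 then 1 else 0)) :=
      sum_congr rfl (fun x _ => h7 x)
    rw [sum_add_distrib, sum_add_distrib, sum_add_distrib, ← mul_sum, ← card_filter,
      ← card_filter, hsum, sum_const, card_univ, smul_eq_mul] at h8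
    have h9 : κ * (d * 2) + 2 * κ = (2 * d + 2) * κ := by ring
    omega

end Abs

theorem div_pred {a ρ : ℤ} (hρ : 2 ≤ ρ) (h : ¬ ρ ∣ a) : (a - 1) / ρ = a / ρ := by
  have h0 : 0 < ρ := by omega
  have h1 : a % ρ ≠ 0 := fun h' => h (Int.dvd_of_emod_eq_zero h')
  have h2 : 0 ≤ a % ρ := Int.emod_nonneg a (by omega)
  have h3 : a % ρ < ρ := Int.emod_lt_of_pos a h0
  have h4 : a - 1 = (a % ρ - 1) + ρ * (a / ρ) := by
    have := Int.emod_add_mul_ediv a ρ
    linarith
  rw [h4, Int.add_mul_ediv_left _ _ (by omega : ρ ≠ 0),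
    Int.ediv_eq_zero_of_lt (by omega) (by omega), zero_add]

theorem edge {d : ℕ} (hARI : St_ARI d) (hCLS : St_CLS d) (D : Dt d) (hρ : 2 ≤ D.ρ) (hg : 1 ≤ D.g)
    (hS : Sw D.w D.n) (y : Vx d × Vx d) (hy : y ∈ D.grs) :
    ∃ (i : Fin d) (sl sh : ℕ), sl ≤ D.n ∧ sh ≤ D.n ∧ y.1 = ev i ∧
      D.ci (D.w sh) i = y.2 i ∧ D.ci (D.w sl) i = y.2 i - 1 ∧
      (∀ k, k ≠ i → D.ci (D.w sl) k = D.ci (D.w sh) k ∧ D.ci (D.w sh) k = y.2 k / (D.ρ : ℤ)) ∧
      ∀ x ∈ D.bns, (y ∈ D.tgr x ↔ D.bc sl = x ∨ D.bc sh = x) := by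
  obtain ⟨-, -, -, A4, -, A6, A7⟩ := hARI D hρ hg hS
  obtain ⟨C1, -, C3, -, -, C6, -, -, C9, -⟩ := hCLS D hS
  unfold Dt.grs at hy
  rw [mem_image] at hy
  obtain ⟨p, hp, rfl⟩ := hy
  have hpn := (A4 p hp).1
  obtain ⟨i, h1, h2, h3, h4, h5⟩ := A6 p hp
  have htg : ∀ x ∈ D.bns, (D.gc p ∈ D.tgr x ↔ D.bc p = x ∨ D.bc (p + 1) = x) := by
    intro x hx
    unfold Dt.tgr
    rw [mem_filter]
    constructor
    · rintro ⟨-, q, hq, hqp, hqx⟩
      have hC := C9 q hq p hp hqp
      rcases hqx with hqx | hqx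
      · have hbx : D.bc q = x := ((C6 x hx).2 q hqx).2
        rcases A7 q hq p hp hqp with ⟨e1, e2⟩ | ⟨e1, e2⟩
        · left
          rw [← hbx]
          exact (hC q p (Or.inl rfl) (Or.inl rfl) e1).1.symm
        · right
          rw [← hbx]
          exact (hC q (p + 1) (Or.inl rfl) (Or.inr rfl) e1).1.symm
      · have hbx : D.bc (q + 1) = x := ((C6 x hx).2 (q + 1) hqx).2
        rcases A7 q hq p hp hqp with ⟨e1, e2⟩ | ⟨e1, e2⟩
        · right
          rw [← hbx]
          exact (hC (q + 1) (p + 1) (Or.inr rfl) (Or.inr rfl) e2).1.symm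
        · left
          rw [← hbx]
          exact (hC (q + 1) p (Or.inr rfl) (Or.inl rfl) e2).1.symm
    · intro h
      refine ⟨mem_image_of_mem _ hp, p, hp, rfl, ?_⟩
      rcases h with h | h
      · left
        rw [← h]
        exact (C1 p (by omega)).2
      · right
        rw [← h]
        exact (C1 (p + 1) (by omega)).2
  rcases (abs_eq (zero_le_one)).1 h2 with h6 | h6
  · refine ⟨i, p, p + 1, by omega, by omega, h1, ?_, ?_, ?_, htg⟩
    · rw [h3, max_eq_right]; omega
    · rw [h3, max_eq_right] <;> omega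
    · intro k hk
      obtain ⟨k1, k2, k3, k4⟩ := h5 k hk
      exact ⟨k2.symm, by rw [k2, k4]⟩
  · refine ⟨i, p + 1, p, by omega, by omega, h1, ?_, ?_, ?_, ?_⟩
    · rw [h3, max_eq_left]; omega
    · rw [h3, max_eq_left] <;> omega
    · intro k hk
      obtain ⟨k1, k2, k3, k4⟩ := h5 k hk
      exact ⟨k2, k4⟩
    · intro x hx
      rw [htg x hx, or_comm]

end LFaux

open LFaux in
open scoped Classical in
theorem p_LF (d : ℕ) (h_LAL : St_LAL) (h_NB : St_NB d) (h_CLS : St_CLS d) (h_ARI : St_ARI d) :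
    St_LF d := by
  intro D hρ hg hS
  have hNB := h_NB D hρ hg hS
  obtain ⟨C1, -, C3, -, -, C6, -, -, C9, -⟩ := h_CLS D hS
  have hedge := edge h_ARI h_CLS D hρ hg hS
  have hρ' : (2 : ℤ) ≤ (D.ρ : ℤ) := by exact_mod_cast hρ
  let X : Type := {x // x ∈ D.bns}
  let E : Type := {y // y ∈ D.ggood}
  have hgg : ∀ y ∈ D.ggood, y ∈ D.grs ∧ y ∉ D.gbd ∧ y ∉ D.gbad := by
    intro y hy
    unfold Dt.ggood at hy
    rw [mem_sdiff, mem_union] at hy
    push Not at hy
    exact hy
  choose ax sl sh e1 e2 e3 e4 e5 e6 e7 using fun e : E => hedge e.1 (hgg e.1 e.2).1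
  have hbns : ∀ t, t ≤ D.n → D.bc t ∈ D.bns := by
    intro t ht
    unfold Dt.bns
    exact mem_image_of_mem _ (mem_range.2 (by omega))
  let lo : E → X := fun e => ⟨D.bc (sl e), hbns _ (e1 e)⟩
  let hi : E → X := fun e => ⟨D.bc (sh e), hbns _ (e2 e)⟩
  let tx : X → ℕ := fun x => (C6 x.1 x.2).1.choose
  have htx : ∀ x : X, tx x ∈ x.1 := fun x => (C6 x.1 x.2).1.choose_spec
  let cell : X → Fin d → ℤ := fun x => D.ci (D.w (tx x))
  have hcell : ∀ t (ht : t ≤ D.n), cell ⟨D.bc t, hbns t ht⟩ = D.ci (D.w t) := by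
    intro t ht
    exact (C3 _ t (htx ⟨D.bc t, hbns t ht⟩)).2.2.1
  have clo : ∀ e, cell (lo e) = D.ci (D.w (sl e)) := fun e => hcell _ (e1 e)
  have chi : ∀ e, cell (hi e) = D.ci (D.w (sh e)) := fun e => hcell _ (e2 e)
  let win : X → Fin d → ℤ := fun x k => cell x k / (D.ρ : ℤ)
  have h1 : ∀ e, cell (lo e) (ax e) = cell (hi e) (ax e) - 1 := by
    intro e
    rw [clo, chi, e4, e5]
  have h1' : ∀ e k, k ≠ ax e → cell (lo e) k = cell (hi e) k := by
    intro e k hk
    rw [clo, chi]
    exact (e6 e k hk).1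
  have hev : ∀ (i k : Fin d), (ev i : Vx d) k = if k = i then 1 else 0 := by
    intro i k
    unfold ev
    by_cases h : k = i
    · subst h; simp
    · rw [Pi.single_eq_of_ne h, if_neg h]
  have h2 : ∀ e, win (lo e) = win (hi e) := by
    intro e
    funext k
    show cell (lo e) k / (D.ρ : ℤ) = cell (hi e) k / (D.ρ : ℤ)
    by_cases hk : k = ax e
    · rw [hk, h1]
      apply div_pred hρ'
      rw [chi, e4]
      intro hdvd
      apply (hgg e.1 e.2).2.1
      unfold Dt.gbd
      rw [mem_filter]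
      refine ⟨(hgg e.1 e.2).1, ax e, ?_, hdvd⟩
      rw [e3, hev, if_pos rfl]
    · rw [h1' e k hk]
  have h3 : ∀ e e', ax e = ax e' → cell (hi e) (ax e) = cell (hi e') (ax e) →
      win (hi e) = win (hi e') → e = e' := by
    intro e e' hax hc hw
    by_contra hne
    apply (hgg e.1 e.2).2.2
    unfold Dt.gbad
    rw [mem_filter]
    refine ⟨(hgg e.1 e.2).1, (hgg e.1 e.2).2.1, e'.1, (hgg e'.1 e'.2).1, ?_, ?_⟩
    · intro h
      exact hne (Subtype.ext h.symm)
    · unfold Dt.sc
      apply Prod.ext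
      · show e'.1.1 = e.1.1
        rw [e3, e3, hax]
      · funext k
        show (if e'.1.1 k = 1 then e'.1.2 k else e'.1.2 k / ((D.ρ ^ 2 : ℕ) : ℤ)) =
          (if e.1.1 k = 1 then e.1.2 k else e.1.2 k / ((D.ρ ^ 2 : ℕ) : ℤ))
        rw [e3, e3, ← hax, hev]
        by_cases hk : k = ax e
        · rw [if_pos hk]
          simp only [if_true]
          rw [chi, chi, e4] at hc
          rw [hk]
          have h4' := e4 e'
          rw [← hax] at h4'
          rw [hc, h4']
        · rw [if_neg hk]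
          simp only [zero_ne_one, if_false]
          have q1 := congrFun hw k
          have q2 : win (hi e) k = e.1.2 k / (D.ρ : ℤ) / (D.ρ : ℤ) := by
            show cell (hi e) k / (D.ρ : ℤ) = _
            rw [chi, (e6 e k hk).2]
          have q3 : win (hi e') k = e'.1.2 k / (D.ρ : ℤ) / (D.ρ : ℤ) := by
            show cell (hi e') k / (D.ρ : ℤ) = _
            rw [hax] at hk
            rw [chi, (e6 e' k hk).2]
          have q4 : ∀ a : ℤ, a / ((D.ρ ^ 2 : ℕ) : ℤ) = a / (D.ρ : ℤ) / (D.ρ : ℤ) := by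
            intro a
            rw [Int.ediv_ediv_of_nonneg (by omega : (0 : ℤ) ≤ (D.ρ : ℤ))]
            push_cast
            rw [sq]
          rw [q4, q4, ← q2, ← q3, q1]
  obtain ⟨κ, k1, k2, k3⟩ := abs_main cell win lo hi ax h1 h1' h2 h3 h_LAL
  -- number of components
  have hκ : κ ≤ D.gbad.card + D.gbd.card + 1 := by
    have hX : Fintype.card X = D.bns.card := Fintype.card_coe _
    have hE : Fintype.card E = D.ggood.card := Fintype.card_coe _
    have hsub : D.grs ⊆ D.ggood ∪ (D.gbd ∪ D.gbad) := by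
      intro y hy
      rw [mem_union]
      by_cases h : y ∈ D.gbd ∪ D.gbad
      · exact Or.inr h
      · left
        unfold Dt.ggood
        exact mem_sdiff.2 ⟨hy, h⟩
    have q1 := (card_le_card hsub).trans (card_union_le _ _)
    have q2 := card_union_le D.gbd D.gbad
    omega
  -- degrees
  have hdeg : ∀ x : X, (D.tgr x.1 ∩ D.ggood).card = (T lo hi x).card := by
    intro x
    have : (T lo hi x).map (Function.Embedding.subtype _) = D.tgr x.1 ∩ D.ggood := by
      ext y
      rw [mem_map, mem_inter]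
      constructor
      · rintro ⟨e, he, rfl⟩
        rw [mem_T] at he
        refine ⟨?_, e.2⟩
        show e.1 ∈ D.tgr x.1
        rw [e7 e x.1 x.2]
        rcases he with h | h
        · exact Or.inl (congrArg Subtype.val h)
        · exact Or.inr (congrArg Subtype.val h)
      · rintro ⟨hy1, hy2⟩
        refine ⟨⟨y, hy2⟩, ?_, rfl⟩
        rw [mem_T]
        have := (e7 ⟨y, hy2⟩ x.1 x.2).1 hy1
        rcases this with h | h
        · exact Or.inl (Subtype.ext h)
        · exact Or.inr (Subtype.ext h)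
    rw [← this, card_map]
  constructor
  · have hsub : D.bns.filter (fun x => (D.tgr x ∩ D.ggood).card ≤ 1) ⊆
        (univ.filter (fun x : X => (T lo hi x).card ≤ 1)).image Subtype.val := by
      intro x hx
      rw [mem_filter] at hx
      rw [mem_image]
      refine ⟨⟨x, hx.1⟩, ?_, rfl⟩
      rw [mem_filter]
      refine ⟨mem_univ _, ?_⟩
      rw [← hdeg]
      exact hx.2
    calc _ ≤ _ := card_le_card hsub
      _ ≤ _ := card_image_le
      _ ≤ _ := k2
      _ ≤ _ := Nat.mul_le_mul_left _ hκ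
  · calc ∑ x ∈ D.bns, ((D.tgr x ∩ D.ggood).card - 2)
        = ∑ x : X, ((D.tgr x.1 ∩ D.ggood).card - 2) :=
          (Finset.sum_coe_sort D.bns (fun x => (D.tgr x ∩ D.ggood).card - 2)).symm
      _ = ∑ x : X, ((T lo hi x).card - 2) := sum_congr rfl (fun x _ => by rw [hdeg])
      _ ≤ _ := k3
      _ ≤ _ := Nat.mul_le_mul_left _ hκ

end Pool.Agent.H981R3.IS
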