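import Pool.Agent.H981R3.IS.Stubs

/-!
# Interacting self-avoiding walks: the main theorem in our notation
-/

set_option autoImplicit false

namespace Pool.Agent.H981R3.IS

open Finset Filter Topology

variable {d : ℕ}

theorem lim_wt_ge {β : ℝ} (hβ : 0 ≤ β) (P : List (Vx d)) : 1 ≤ wt β P := by
  rw [wt]
  exact Real.one_le_exp (by positivity)

theorem lim_log_nonneg {β : ℝ} (hβ : 0 ≤ β) (S : Finset (List (Vx d))) :
    0 ≤ Real.log (∑ P ∈ S, wt β P) := by
  rcases S.eq_empty_or_nonempty with h | h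
  · simp [h]
  · apply Real.log_nonneg
    obtain ⟨Q, hQ⟩ := h
    have h1 : wt β Q ≤ ∑ P ∈ S, wt β P :=
      Finset.single_le_sum (f := fun P => wt β P)
        (fun P _ => le_trans zero_le_one (lim_wt_ge hβ P)) hQ
    exact (lim_wt_ge hβ Q).trans h1

theorem lim_log_mono {β : ℝ} (hβ : 0 ≤ β) (S T : Finset (List (Vx d)))
    (h : ∑ P ∈ S, wt β P ≤ ∑ P ∈ T, wt β P) :
    Real.log (∑ P ∈ S, wt β P) ≤ Real.log (∑ P ∈ T, wt β P) := by
  have h0 : 0 ≤ ∑ P ∈ S, wt β P :=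
    Finset.sum_nonneg (fun P _ => le_trans zero_le_one (lim_wt_ge hβ P))
  rcases h0.eq_or_lt with h1 | h1
  · rw [← h1, Real.log_zero]
    exact lim_log_nonneg hβ T
  · exact Real.log_le_log h1 h

/-- abstract form of the limit -/
theorem lim_core {a k : ℕ → ℝ} {F0 C1 : ℝ} (hF : 0 ≤ F0) (hC1 : 0 < C1)
    (ha : ∀ n, 0 ≤ Real.log (a n)) (hk : ∀ n, 0 ≤ k n)
    (hlow1 : ∀ m : ℕ, 2 ≤ m → k m ≤ Real.log (a (2 * m - 1)))
    (hlow2 : ∀ m : ℕ, 2 ≤ m → k m ≤ Real.log (a (2 * m)))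
    (hup : ∀ ρ J : ℕ, 2 ≤ ρ → 1 ≤ J → ∃ C2 : ℝ, 0 < C2 ∧ ∀ n : ℕ, 1 ≤ n →
      a n ≤ C2 * Real.exp (n * (F0 + C1 * (1 / Real.sqrt ρ + 1 / J))))
    (hlim : Tendsto (fun m : ℕ => k m / ((2 * m : ℕ) : ℝ)) atTop (nhds F0))
    (ha0 : ∀ n, 0 ≤ a n) :
    Tendsto (fun n : ℕ => Real.log (a n) / n) atTop (nhds F0) := by
  rw [tendsto_order]
  constructor
  · intro b hb
    have h1 : Tendsto (fun n : ℕ => (n + 1) / 2) atTop atTop := by
      apply tendsto_atTop.2
      intro c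
      filter_upwards [eventually_ge_atTop (2 * c)] with n hn
      omega
    have h2 := (hlim.comp h1).eventually_const_lt hb
    filter_upwards [h2, eventually_ge_atTop 3] with n hn hn3
    simp only [Function.comp] at hn
    obtain ⟨m, hm⟩ : ∃ m : ℕ, m = (n + 1) / 2 := ⟨_, rfl⟩
    rw [← hm] at hn
    have h3 : k m ≤ Real.log (a n) := by
      rcases (show n = 2 * m - 1 ∨ n = 2 * m by omega) with h | h
      · rw [h]
        exact hlow1 m (by omega)
      · rw [h]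
        exact hlow2 m (by omega)
    have hn0 : (0 : ℝ) < n := by
      have : 0 < n := by omega
      exact_mod_cast this
    have hnm : (n : ℝ) ≤ ((2 * m : ℕ) : ℝ) := by
      have : n ≤ 2 * m := by omega
      exact_mod_cast this
    calc b < k m / ((2 * m : ℕ) : ℝ) := hn
      _ ≤ k m / n := div_le_div_of_nonneg_left (hk m) hn0 hnm
      _ ≤ Real.log (a n) / n := div_le_div_of_nonneg_right h3 hn0.le
  · intro b hb
    obtain ⟨ε, hε, hbe⟩ : ∃ ε : ℝ, 0 < ε ∧ F0 + 4 * C1 * ε < b := by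
      refine ⟨(b - F0) / (8 * C1), by apply div_pos <;> linarith, ?_⟩
      have : 4 * C1 * ((b - F0) / (8 * C1)) = (b - F0) / 2 := by
        field_simp
        ring
      linarith
    obtain ⟨N, hN⟩ := exists_nat_gt (1 / ε)
    have hN0 : (0 : ℝ) < N := lt_trans (by positivity) hN
    have hN1 : 1 ≤ N := by
      have : 0 < N := by exact_mod_cast hN0
      omega
    have hNe : 1 / (N : ℝ) < ε := by
      rw [div_lt_iff₀ hN0]
      rw [div_lt_iff₀ hε] at hN
      linarith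
    obtain ⟨C2, hC2, hu⟩ := hup ((N + 1) ^ 2) N (by nlinarith) hN1
    have hs : Real.sqrt (((N + 1) ^ 2 : ℕ) : ℝ) = N + 1 := by
      push_cast
      rw [Real.sqrt_sq (by linarith)]
    have hs2 : 1 / Real.sqrt (((N + 1) ^ 2 : ℕ) : ℝ) + 1 / (N : ℝ) ≤ 2 * ε := by
      rw [hs]
      have : 1 / ((N : ℝ) + 1) ≤ 1 / (N : ℝ) := by
        apply one_div_le_one_div_of_le hN0
        linarith
      linarith
    have h5 : Tendsto (fun n : ℕ => |Real.log C2| / (n : ℝ)) atTop (nhds 0) :=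
      tendsto_const_div_atTop_nhds_zero_nat _
    have h6 := h5.eventually_lt_const (show (0 : ℝ) < 2 * C1 * ε by positivity)
    filter_upwards [h6, eventually_ge_atTop 1] with n hn hn1
    have hn0 : (0 : ℝ) < n := by exact_mod_cast hn1
    rcases (ha0 n).eq_or_lt with h7 | h7
    · rw [← h7, Real.log_zero, zero_div]
      have : 0 ≤ 4 * C1 * ε := by positivity
      linarith
    · have h8 := Real.log_le_log h7 (hu n hn1)
      rw [Real.log_mul (by positivity) (by positivity), Real.log_exp] at h8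
      have h9 : Real.log (a n) / n ≤
          |Real.log C2| / n + (F0 + C1 * (1 / Real.sqrt (((N + 1) ^ 2 : ℕ) : ℝ) + 1 / (N : ℝ))) := by
        rw [div_add' _ _ _ hn0.ne']
        apply div_le_div_of_nonneg_right _ hn0.le
        have := le_abs_self (Real.log C2)
        linarith
      have h10 : C1 * (1 / Real.sqrt (((N + 1) ^ 2 : ℕ) : ℝ) + 1 / (N : ℝ)) ≤ C1 * (2 * ε) :=
        mul_le_mul_of_nonneg_left hs2 hC1.le
      linarith

theorem p_LIM (d : ℕ) (h_POL : St_POL d) (h_OBJ : St_OBJ d) (h_ENC : St_ENC d)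
    (h_LOW : St_LOW d) : St_LIM d := by
  intro hd β hβ
  obtain ⟨F0, C0, hF0, hC0, hb, hl1, hl2⟩ := h_POL hd β hβ
  obtain ⟨B, hB1, hB⟩ := h_OBJ hd β F0 C0 hβ hF0 hC0 hb
  obtain ⟨C1, hC1, hup⟩ := h_ENC hd β F0 B hβ hF0 hB1 hB
  refine ⟨F0, ?_, hl1⟩
  have hne : (⟨0, by omega⟩ : Fin d) ≠ ⟨1, by omega⟩ := by
    intro h
    have := congrArg Fin.val h
    simp at this
  have hl := hl2 ⟨0, by omega⟩ ⟨1, by omega⟩ hne
  refine lim_core (k := fun m => Real.log (Kr (⟨0, by omega⟩ : Fin d) ⟨1, by omega⟩ β (2 * m)))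
    hF0 hC1 (fun n => lim_log_nonneg hβ _) (fun n => lim_log_nonneg hβ _) ?_ ?_ hup hl ?_
  · intro m hm
    exact lim_log_mono hβ _ _ (h_LOW _ _ β m hne hβ hm).1
  · intro m hm
    exact lim_log_mono hβ _ _ (h_LOW _ _ β m hne hβ hm).2
  · intro n
    exact Finset.sum_nonneg (fun P _ => le_trans zero_le_one (lim_wt_ge hβ P))

end Pool.Agent.H981R3.IS
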