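import Pool.Agent.H981R3.IS.Stubs

set_option autoImplicit false

namespace Pool.Agent.H981R3.IS

open Finset

theorem low_mem_LL {d : ℕ} (S : Finset (Vx d)) (l : ℕ) (P : List (Vx d)) :
    P ∈ LL S l ↔ P.length = l ∧ ∀ x ∈ P, x ∈ S := by
  unfold LL
  rw [Finset.mem_image]
  constructor
  · rintro ⟨f, hf, rfl⟩
    rw [Fintype.mem_piFinset] at hf
    refine ⟨List.length_ofFn, ?_⟩
    intro x hx
    rw [List.mem_ofFn] at hx
    obtain ⟨i, rfl⟩ := hx
    exact hf i
  · rintro ⟨rfl, h⟩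
    refine ⟨P.get, ?_, List.ofFn_get P⟩
    rw [Fintype.mem_piFinset]
    intro i
    exact h _ (List.get_mem P i)

theorem low_mem_CW {d : ℕ} (l : ℕ) (P : List (Vx d)) :
    P ∈ CW d l ↔ (P.length = l ∧ ∀ x ∈ P, x ∈ cube d l) ∧ IsC P ∧ P.head? = some 0 := by
  classical
  unfold CW
  rw [Finset.mem_filter, low_mem_LL]

theorem low_mem_SW {d : ℕ} (n : ℕ) (P : List (Vx d)) :
    P ∈ SW d n ↔ (P.length = n + 1 ∧ ∀ x ∈ P, x ∈ cube d n) ∧ IsP P ∧ P.head? = some 0 := by
  classical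
  unfold SW
  rw [Finset.mem_filter, low_mem_LL]

theorem low_mem_KW {d : ℕ} (i0 i1 : Fin d) (l : ℕ) (P : List (Vx d)) :
    P ∈ KW i0 i1 l ↔ P ∈ CW d l ∧ P.getLast? = some (-ev i1) ∧ ∀ x ∈ P, x i0 ≤ 0 := by
  classical
  unfold KW
  rw [Finset.mem_filter]

theorem low_adj_sub {d : ℕ} (v x y : Vx d) : adj (x - v) (y - v) ↔ adj x y := by
  unfold adj
  simp

theorem low_wt_nonneg {d : ℕ} (β : ℝ) (P : List (Vx d)) : 0 ≤ wt β P := (Real.exp_pos _).le

theorem low_one {d : ℕ} (h10 : ∀ (P : List (Vx d)) (n : ℕ), P.IsChain adj → P.head? = some 0 →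
    P.length ≤ n + 1 → ∀ x ∈ P, x ∈ cube d n) (i0 i1 : Fin d) (β : ℝ) (m : ℕ) (hm : 2 ≤ m) :
    Kr i0 i1 β (2 * m) ≤ Zw d β (2 * m - 1) := by
  unfold Kr Zw
  apply Finset.sum_le_sum_of_subset_of_nonneg
  · intro P hP
    rw [low_mem_KW, low_mem_CW] at hP
    obtain ⟨⟨⟨hl, -⟩, hc, hh⟩, -, -⟩ := hP
    rw [low_mem_SW]
    refine ⟨⟨by omega, ?_⟩, hc.1, hh⟩
    exact h10 P (2 * m - 1) hc.1.1 hh (by omega)
  · intro P _ _
    exact low_wt_nonneg β P

theorem low_two {d : ℕ} (hI : St_ISO d) (h1 : ∀ S T : Finset (Vx d), S ⊆ T → Ac S ≤ Ac T)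
    (h10 : ∀ (P : List (Vx d)) (n : ℕ), P.IsChain adj → P.head? = some 0 →
    P.length ≤ n + 1 → ∀ x ∈ P, x ∈ cube d n) (i0 i1 : Fin d) (β : ℝ) (m : ℕ) (hβ : 0 ≤ β) :
    Kr i0 i1 β (2 * m) ≤ Zw d β (2 * m) := by
  have hinj : Function.Injective (fun x : Vx d => x - ev i0) := fun a b h => by simpa using h
  have hadj : ∀ x y : Vx d, adj (x - ev i0) (y - ev i0) ↔ adj x y := fun x y => low_adj_sub _ _ _
  obtain ⟨hAc, hP⟩ := hI (fun x => x - ev i0) hinj hadj
  have ha0 : adj (0 : Vx d) (0 - ev i0) := by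
    unfold adj ev
    rw [Finset.sum_eq_single i0]
    · simp
    · intro b _ hb
      simp [hb]
    · intro h; exact absurd (Finset.mem_univ _) h
  set φ : List (Vx d) → List (Vx d) := fun P => 0 :: P.map (fun x => x - ev i0) with hφ
  have hφinj : Function.Injective φ := by
    intro P Q h
    have := List.cons.inj h
    exact (List.map_injective_iff.mpr hinj) this.2
  unfold Kr Zw
  have key : ∀ P ∈ KW i0 i1 (2 * m), φ P ∈ SW d (2 * m) ∧ wt β P ≤ wt β (φ P) := by
    intro P hPm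
    rw [low_mem_KW, low_mem_CW] at hPm
    obtain ⟨⟨⟨hl, -⟩, hc, hh⟩, -, hneg⟩ := hPm
    have hPP := (hP β P).1.mpr hc.1
    have hchain : (φ P).IsChain adj := by
      cases P with
      | nil => simp at hh
      | cons a P' =>
        simp only [List.head?_cons, Option.some.injEq] at hh
        subst hh
        simp only [hφ, List.map_cons]
        rw [List.isChain_cons_cons]
        refine ⟨ha0, ?_⟩
        have := hPP.1
        simpa using this
    have hnd : (φ P).Nodup := by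
      simp only [hφ, List.nodup_cons]
      refine ⟨?_, hPP.2⟩
      intro h0
      rw [List.mem_map] at h0
      obtain ⟨x, hx, hx0⟩ := h0
      have h := hneg x hx
      have h' := congrFun hx0 i0
      simp [ev] at h'
      omega
    constructor
    · rw [low_mem_SW]
      refine ⟨⟨by simp [hφ, hl], ?_⟩, ⟨hchain, hnd⟩, by simp [hφ]⟩
      exact h10 _ _ hchain (by simp [hφ]) (by simp [hφ, hl])
    · rw [← (hP β P).2.2.1]
      unfold wt
      apply Real.exp_le_exp.mpr
      apply mul_le_mul_of_nonneg_left _ hβ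
      have : Ac (List.map (fun x => x - ev i0) P).toFinset ≤ Ac (φ P).toFinset := by
        apply h1
        intro x hx
        simp only [hφ, List.toFinset_cons]
        exact Finset.mem_insert_of_mem hx
      exact_mod_cast this
  calc ∑ P ∈ KW i0 i1 (2 * m), wt β P ≤ ∑ P ∈ KW i0 i1 (2 * m), wt β (φ P) :=
        Finset.sum_le_sum fun P hPm => (key P hPm).2
    _ = ∑ Q ∈ (KW i0 i1 (2 * m)).image φ, wt β Q :=
        (Finset.sum_image fun a _ b _ h => hφinj h).symm
    _ ≤ ∑ Q ∈ SW d (2 * m), wt β Q := by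
        apply Finset.sum_le_sum_of_subset_of_nonneg
        · intro Q hQ
          rw [Finset.mem_image] at hQ
          obtain ⟨P, hPm, rfl⟩ := hQ
          exact (key P hPm).1
        · intro P _ _
          exact low_wt_nonneg β P

theorem p_LOW (d : ℕ) (hI : St_ISO d) (hA : St_ACM d) : St_LOW d := by
  obtain ⟨h1, -, -, -, -, -, -, -, -, h10⟩ := hA
  intro i0 i1 β m _ hβ hm
  exact ⟨low_one h10 i0 i1 β m hm, low_two hI h1 h10 i0 i1 β m hβ⟩

end Pool.Agent.H981R3.IS
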