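import Pool.Agent.H981R3.IS.Stubs

set_option autoImplicit false

namespace Pool.Agent.H981R3.IS

open Finset

theorem p_NB (d : ℕ) (h_CLS : St_CLS d) (h_ARI : St_ARI d) : St_NB d := by
  classical
  intro D hρ hg hw
  obtain ⟨c1, -, -, -, -, c6, -, c8, c9, -⟩ := h_CLS D hw
  obtain ⟨-, -, -, -, -, -, a7⟩ := h_ARI D hρ hg hw
  set m : Finset ℕ → ℕ := fun x => sInf (x : Set ℕ) with hm
  have hmem : ∀ x ∈ D.bns, m x ∈ x := fun x hx => by
    have := Nat.sInf_mem (s := (x : Set ℕ)) (by exact_mod_cast (c6 x hx).1)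
    exact_mod_cast this
  have hmin : ∀ x ∈ D.bns, ∀ t ∈ x, m x ≤ t := fun x _ t ht => Nat.sInf_le (by exact_mod_cast ht)
  -- the predecessor of the least time is a crossing step
  have hcrs : ∀ x ∈ D.bns, 0 ∉ x → ∃ p, m x = p + 1 ∧ p ∈ D.crs := by
    intro x hx h0
    have h1 := hmem x hx
    have h2 : m x ≠ 0 := fun h => h0 (h ▸ h1)
    obtain ⟨p, hp⟩ := Nat.exists_eq_succ_of_ne_zero h2
    refine ⟨p, hp, ?_⟩
    by_contra hc
    have h3 := (c6 x hx).2 _ h1
    rw [hp] at h3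
    have h4 := (c8 p (by omega) hc).1
    have h5 := (c1 p (by omega)).2
    rw [h4, h3.2] at h5
    have := hmin x hx p h5
    omega
  have hsplit : D.bns.card ≤ (D.bns.filter (fun x => 0 ∉ x)).card + 1 := by
    rw [← Finset.card_filter_add_card_filter_not (s := D.bns) (fun x => 0 ∉ x)]
    apply Nat.add_le_add_left
    rw [Finset.card_le_one]
    intro x hx y hy
    rw [Finset.mem_filter, not_not] at hx hy
    rw [← ((c6 x hx.1).2 0 hx.2).2, ← ((c6 y hy.1).2 0 hy.2).2]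
  refine hsplit.trans (Nat.add_le_add_right ?_ 1)
  apply Finset.card_le_card_of_injOn (fun x => D.gc (m x - 1))
  · intro x hx
    simp only [Finset.coe_filter, Set.mem_ofPred_eq] at hx
    obtain ⟨p, hp, hpc⟩ := hcrs x hx.1 hx.2
    simp only [hp, Nat.add_sub_cancel]
    exact Finset.mem_coe.2 (Finset.mem_image_of_mem _ hpc)
  · intro x hx y hy hxy
    simp only [Finset.coe_filter, Set.mem_ofPred_eq] at hx hy
    obtain ⟨p, hp, hpc⟩ := hcrs x hx.1 hx.2
    obtain ⟨q, hq, hqc⟩ := hcrs y hy.1 hy.2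
    simp only [hp, hq, Nat.add_sub_cancel] at hxy
    have hx1 := (c6 x hx.1).2 _ (hmem x hx.1)
    have hy1 := (c6 y hy.1).2 _ (hmem y hy.1)
    rw [hp] at hx1
    rw [hq] at hy1
    rcases a7 p hpc q hqc hxy with ⟨-, h2⟩ | ⟨h1, h2⟩
    · have := (c9 p hpc q hqc hxy (p + 1) (q + 1) (Or.inr rfl) (Or.inr rfl) h2).1
      rw [← hx1.2, ← hy1.2, this]
    · exfalso
      have e1 := (c9 p hpc q hqc hxy (p + 1) q (Or.inr rfl) (Or.inl rfl) h2).1
      have e2 := (c9 p hpc q hqc hxy p (q + 1) (Or.inl rfl) (Or.inr rfl) h1).1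
      have e3 := (c1 q (by omega)).2
      rw [← e1, hx1.2] at e3
      have e4 := (c1 p (by omega)).2
      rw [e2, hy1.2] at e4
      have e5 := hmin x hx.1 q e3
      have e6 := hmin y hy.1 p e4
      omega

end Pool.Agent.H981R3.IS
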