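import Pool.Agent.H981R3.IS.Stubs

/-!
# OBJ: sum over objects
-/

set_option autoImplicit false

namespace Pool.Agent.H981R3.IS

open Finset

variable {d : ℕ}

theorem obj_mem_LL (S : Finset (Vx d)) (l : ℕ) (P : List (Vx d)) :
    P ∈ LL S l ↔ P.length = l ∧ ∀ x ∈ P, x ∈ S := by
  unfold LL
  rw [Finset.mem_image]
  constructor
  · rintro ⟨f, hf, rfl⟩
    rw [Fintype.mem_piFinset] at hf
    refine ⟨List.length_ofFn, ?_⟩
    intro x hx
    rw [List.mem_ofFn] at hx
    obtain ⟨i, rfl⟩ := hx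
    exact hf i
  · rintro ⟨rfl, hP⟩
    refine ⟨fun i => P.get i, ?_, List.ofFn_get P⟩
    rw [Fintype.mem_piFinset]
    intro i
    exact hP _ (List.get_mem P i)

theorem obj_fiber (β : ℝ) (F G : Finset (List (Vx d))) (φ : Vx d → Vx d)
    (hφ : Function.Injective φ) (hw : ∀ P ∈ F, wt β (P.map φ) = wt β P)
    (hm : ∀ P ∈ F, P.map φ ∈ G) : ∑ P ∈ F, wt β P ≤ ∑ Q ∈ G, wt β Q := by
  classical
  calc ∑ P ∈ F, wt β P = ∑ P ∈ F, wt β (P.map φ) :=
        Finset.sum_congr rfl (fun P hP => (hw P hP).symm)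
    _ = ∑ Q ∈ F.image (List.map φ), wt β Q := by
        rw [Finset.sum_image]
        intro P _ Q _ h
        exact (List.map_injective_iff.mpr hφ) h
    _ ≤ ∑ Q ∈ G, wt β Q := by
        apply Finset.sum_le_sum_of_subset_of_nonneg
        · intro R hR
          rw [Finset.mem_image] at hR
          obtain ⟨p, hp, rfl⟩ := hR
          exact hm p hp
        · intro R _ _
          exact (Real.exp_pos _).le

theorem obj_adj_sub (c x y : Vx d) : adj (x - c) (y - c) ↔ adj x y := by
  unfold adj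
  simp only [Pi.sub_apply, sub_sub_sub_cancel_right]

theorem obj_sub_inj (c : Vx d) : Function.Injective (fun x : Vx d => x - c) := by
  intro x y h
  exact sub_left_injective h

/-- the box -/
noncomputable def obj_X (d h T : ℕ) : Finset (Vx d) :=
  Fintype.piFinset (fun _ => Ico (-(T : ℤ)) ((h : ℤ) + T))

theorem obj_card (d h T : ℕ) : (obj_X d h T).card = (h + 2 * T) ^ d := by
  unfold obj_X
  rw [Fintype.card_piFinset]
  simp only [Int.card_Ico, Finset.prod_const, Finset.card_univ, Fintype.card_fin]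
  congr 1
  omega

theorem obj_mem_X (h T : ℕ) (x : Vx d) : x ∈ obj_X d h T ↔ x ∈ bxT 0 h T := by
  unfold obj_X bxT
  rw [Fintype.mem_piFinset]
  simp only [Finset.mem_Ico, Set.mem_ofPred_eq, Pi.zero_apply, zero_sub, zero_add]

theorem obj_len (P : List (Vx d)) (hn : P.Nodup) (X : Finset (Vx d)) (hX : ∀ x ∈ P, x ∈ X) :
    P.length ≤ X.card := by
  classical
  rw [← List.toFinset_card_of_nodup hn]
  exact Finset.card_le_card (fun x hx => hX x (List.mem_toFinset.1 hx))

theorem obj_closed (h_ISO : St_ISO d) (h_ACM : St_ACM d) (β F0 C0 : ℝ) (hC0 : 0 ≤ C0)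
    (hZ : ∀ l : ℕ, 1 ≤ l → Zc d β l ≤ C0 * (l : ℝ) ^ 2 * Real.exp (F0 * l))
    (X : Finset (Vx d)) (A : Finset (List (Vx d)))
    (hA : ∀ P ∈ A, IsC P ∧ ∀ x ∈ P, x ∈ X) :
    ∑ P ∈ A, Real.exp (β * (Ac P.toFinset : ℝ) - F0 * P.length) ≤ C0 * (X.card : ℝ) ^ 4 := by
  classical
  obtain ⟨-, -, -, -, -, -, -, -, -, hcube⟩ := h_ACM
  set key : List (Vx d) → Vx d × ℕ := fun P => (P.head?.getD 0, P.length) with hkey
  have hmaps : ∀ P ∈ A, key P ∈ X ×ˢ Icc 1 X.card := by
    intro P hP
    obtain ⟨⟨hPP, hP3, x, y, hx, hy, hxy⟩, hPX⟩ := hA P hP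
    rw [Finset.mem_product]
    simp only [hkey, hx, Option.getD_some, Finset.mem_Icc]
    refine ⟨hPX x (List.mem_of_mem_head? hx), by omega, obj_len P hPP.2 X hPX⟩
  rw [← Finset.sum_fiberwise_of_maps_to hmaps]
  have hfib : ∀ z ∈ X ×ˢ Icc 1 X.card,
      ∑ P ∈ A with key P = z, Real.exp (β * (Ac P.toFinset : ℝ) - F0 * P.length) ≤
        C0 * (X.card : ℝ) ^ 2 := by
    rintro ⟨c, l⟩ hz
    rw [Finset.mem_product, Finset.mem_Icc] at hz
    simp only at hz
    have h1 : ∑ P ∈ A with key P = (c, l), Real.exp (β * (Ac P.toFinset : ℝ) - F0 * P.length) =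
        (∑ P ∈ A with key P = (c, l), wt β P) * Real.exp (-(F0 * l)) := by
      rw [Finset.sum_mul]
      apply Finset.sum_congr rfl
      intro P hP
      rw [Finset.mem_filter] at hP
      have h2 : P.length = l := congrArg Prod.snd hP.2
      unfold wt
      rw [← Real.exp_add, h2]
      ring_nf
    rw [h1]
    obtain ⟨-, hISO⟩ := h_ISO (fun x => x - c) (obj_sub_inj c) (obj_adj_sub c)
    have h3 : ∑ P ∈ A with key P = (c, l), wt β P ≤ ∑ Q ∈ CW d l, wt β Q := by
      apply obj_fiber β _ _ (fun x => x - c) (obj_sub_inj c)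
      · intro P _
        exact (hISO β P).2.2.1
      · intro P hP
        rw [Finset.mem_filter] at hP
        obtain ⟨hPC, hPX⟩ := hA P hP.1
        have h2 : P.length = l := congrArg Prod.snd hP.2
        have h4 : P.head?.getD 0 = c := congrArg Prod.fst hP.2
        have hC' : IsC (P.map (fun x => x - c)) := ((hISO β P).2.1).2 hPC
        obtain ⟨hPP, hP3, x, y, hx, hy, hxy⟩ := hPC
        have h5 : x = c := by rw [hx] at h4; simpa using h4
        have hhead : (P.map (fun x => x - c)).head? = some 0 := by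
          rw [List.head?_map, hx, h5]; simp
        unfold CW
        rw [Finset.mem_filter, obj_mem_LL]
        refine ⟨⟨by rw [List.length_map, h2], ?_⟩, hC', hhead⟩
        exact hcube _ l hC'.1.1 hhead (by rw [List.length_map, h2]; omega)
    have h6 : (∑ P ∈ A with key P = (c, l), wt β P) ≤ C0 * (l : ℝ) ^ 2 * Real.exp (F0 * l) :=
      le_trans h3 (hZ l hz.2.1)
    calc (∑ P ∈ A with key P = (c, l), wt β P) * Real.exp (-(F0 * l))
        ≤ (C0 * (l : ℝ) ^ 2 * Real.exp (F0 * l)) * Real.exp (-(F0 * l)) :=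
          mul_le_mul_of_nonneg_right h6 (Real.exp_pos _).le
      _ = C0 * (l : ℝ) ^ 2 := by
          rw [mul_assoc, ← Real.exp_add]; simp
      _ ≤ C0 * (X.card : ℝ) ^ 2 := by
          apply mul_le_mul_of_nonneg_left _ hC0
          have : (l : ℝ) ≤ X.card := by exact_mod_cast hz.2.2
          gcongr
  refine le_trans (Finset.sum_le_card_nsmul _ _ _ hfib) ?_
  rw [Finset.card_product, Nat.card_Icc, nsmul_eq_mul]
  simp only [Nat.add_sub_cancel]
  push_cast
  apply le_of_eq
  ring

theorem obj_open (h_ISO : St_ISO d) (β F0 K : ℝ) (h T s : ℕ) (hs : s = h + 2 * T) (hs2 : 2 ≤ s)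
    (hK : 0 ≤ K)
    (hCR : ∀ (l : ℕ) (i i' : Fin d) (p q : Vx d), 1 ≤ l → (p i = 0 ∨ p i = s - 1) →
      (q i' = 0 ∨ q i' = s - 1) → (i = i' → p i ≠ q i) →
      Pq d β s p q l ≤ K * Real.exp (F0 * l))
    (A : Finset (List (Vx d)))
    (hA : ∀ P ∈ A, IsP P ∧ (∀ x ∈ P, x ∈ bxT 0 h T) ∧
      ∃ (i i' : Fin d) (σ σ' : Bool) (x y : Vx d), (i, σ) ≠ (i', σ') ∧ P.head? = some x ∧
        P.getLast? = some y ∧ x ∈ fce 0 h T i σ ∧ y ∈ fce 0 h T i' σ') :
    ∑ P ∈ A, Real.exp (β * (Ac P.toFinset : ℝ) - F0 * P.length) ≤ K * ((s : ℝ) ^ d) ^ 3 := by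
  classical
  set X := obj_X d h T with hX
  have hXc : X.card = s ^ d := by rw [hX, obj_card, hs]
  set key : List (Vx d) → Vx d × Vx d × ℕ :=
    fun P => (P.head?.getD 0, P.getLast?.getD 0, P.length) with hkey
  have hmaps : ∀ P ∈ A, key P ∈ X ×ˢ X ×ˢ Icc 1 X.card := by
    intro P hP
    obtain ⟨hPP, hPX, i, i', σ, σ', x, y, hne, hx, hy, hxf, hyf⟩ := hA P hP
    rw [Finset.mem_product, Finset.mem_product]
    simp only [hkey, hx, hy, Option.getD_some, Finset.mem_Icc]
    have hxP : x ∈ P := List.mem_of_mem_head? hx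
    have hyP : y ∈ P := List.mem_of_mem_getLast? hy
    refine ⟨(obj_mem_X h T x).2 (hPX x hxP), (obj_mem_X h T y).2 (hPX y hyP), ?_,
      obj_len P hPP.2 X (fun x hx => (obj_mem_X h T x).2 (hPX x hx))⟩
    exact List.length_pos_of_mem hxP
  rw [← Finset.sum_fiberwise_of_maps_to hmaps]
  have hfib : ∀ z ∈ X ×ˢ X ×ˢ Icc 1 X.card,
      ∑ P ∈ A with key P = z, Real.exp (β * (Ac P.toFinset : ℝ) - F0 * P.length) ≤ K := by
    rintro ⟨c, e, l⟩ hz
    rw [Finset.mem_product, Finset.mem_product, Finset.mem_Icc] at hz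
    simp only at hz
    rcases (A.filter (fun P => key P = (c, e, l))).eq_empty_or_nonempty with hE | ⟨P0, hP0⟩
    · rw [hE]; simpa using hK
    have h1 : ∑ P ∈ A with key P = (c, e, l),
          Real.exp (β * (Ac P.toFinset : ℝ) - F0 * P.length) =
        (∑ P ∈ A with key P = (c, e, l), wt β P) * Real.exp (-(F0 * l)) := by
      rw [Finset.sum_mul]
      apply Finset.sum_congr rfl
      intro P hP
      rw [Finset.mem_filter] at hP
      have h2 : P.length = l := congrArg (fun z => z.2.2) hP.2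
      unfold wt
      rw [← Real.exp_add, h2]
      ring_nf
    rw [h1]
    set v : Vx d := fun _ => -(T : ℤ) with hv
    obtain ⟨-, hISO⟩ := h_ISO (fun x => x - v) (obj_sub_inj v) (obj_adj_sub v)
    have h3 : ∑ P ∈ A with key P = (c, e, l), wt β P ≤ Pq d β s (c - v) (e - v) l := by
      unfold Pq
      apply obj_fiber β _ _ (fun x => x - v) (obj_sub_inj v)
      · intro P _
        exact (hISO β P).2.2.1
      · intro P hP
        rw [Finset.mem_filter] at hP
        obtain ⟨hPP, hPX, i, i', σ, σ', x, y, hne, hx, hy, hxf, hyf⟩ := hA P hP.1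
        have h2 : P.length = l := congrArg (fun z => z.2.2) hP.2
        have h4 : P.head?.getD 0 = c := congrArg (fun z => z.1) hP.2
        have h5 : P.getLast?.getD 0 = e := congrArg (fun z => z.2.1) hP.2
        rw [hx] at h4; rw [hy] at h5
        simp only [Option.getD_some] at h4 h5
        rw [Finset.mem_filter, obj_mem_LL]
        refine ⟨⟨by rw [List.length_map, h2], ?_⟩, ((hISO β P).1).2 hPP, ?_, ?_⟩
        · intro z hz
          rw [List.mem_map] at hz
          obtain ⟨w, hw, rfl⟩ := hz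
          have h6 := hPX w hw
          unfold bxF
          rw [Fintype.mem_piFinset]
          intro k
          have h7 := h6 k
          simp only [Pi.zero_apply] at h7
          simp only [hv, Pi.sub_apply, Finset.mem_Ico]
          rw [hs]; push_cast
          constructor <;> omega
        · rw [List.head?_map, hx, h4]; simp
        · rw [List.getLast?_map, hy, h5]; simp
    have h8 : Pq d β s (c - v) (e - v) l ≤ K * Real.exp (F0 * l) := by
      rw [Finset.mem_filter] at hP0
      obtain ⟨hPP, hPX, i, i', σ, σ', x, y, hne, hx, hy, hxf, hyf⟩ := hA P0 hP0.1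
      have h4 : P0.head?.getD 0 = c := congrArg (fun z => z.1) hP0.2
      have h5 : P0.getLast?.getD 0 = e := congrArg (fun z => z.2.1) hP0.2
      rw [hx] at h4; rw [hy] at h5
      simp only [Option.getD_some] at h4 h5
      subst h4 h5
      have hxi := hxf.2
      have hyi := hyf.2
      simp only [Pi.zero_apply] at hxi hyi
      apply hCR l i i' (x - v) (y - v) hz.2.2.1
      · simp only [hv, Pi.sub_apply]
        rw [hxi, hs]
        cases σ
        · left; simp
        · right; simp; ring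
      · simp only [hv, Pi.sub_apply]
        rw [hyi, hs]
        cases σ'
        · left; simp
        · right; simp; ring
      · intro hii
        subst hii
        simp only [hv, Pi.sub_apply]
        rw [hxi, hyi]
        have hσ : σ ≠ σ' := fun h => hne (by rw [h])
        cases σ <;> cases σ'
        · exact absurd rfl hσ
        · simp only [if_true, Bool.false_eq_true, if_false]; omega
        · simp only [if_true, Bool.false_eq_true, if_false]; omega
        · exact absurd rfl hσ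
    calc (∑ P ∈ A with key P = (c, e, l), wt β P) * Real.exp (-(F0 * l))
        ≤ (K * Real.exp (F0 * l)) * Real.exp (-(F0 * l)) :=
          mul_le_mul_of_nonneg_right (le_trans h3 h8) (Real.exp_pos _).le
      _ = K := by
          rw [mul_assoc, ← Real.exp_add]; simp
  refine le_trans (Finset.sum_le_card_nsmul _ _ _ hfib) ?_
  rw [Finset.card_product, Finset.card_product, Nat.card_Icc, nsmul_eq_mul, hXc]
  simp only [Nat.add_sub_cancel]
  push_cast
  apply le_of_eq
  ring

theorem p_OBJ (d : ℕ) (h_ISO : St_ISO d) (h_ACM : St_ACM d) (h_CR : St_CR d) : St_OBJ d := by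
  intro hd β F0 C0 hβ hF0 hC0 hZ
  have hexp : 1 ≤ Real.exp F0 := Real.one_le_exp hF0
  set E : ℝ := (1 + 65 * C0) * Real.exp F0 with hE
  have hE1 : 1 ≤ E := by
    rw [hE]
    calc (1 : ℝ) = 1 * 1 := by ring
      _ ≤ (1 + 65 * C0) * Real.exp F0 :=
        mul_le_mul (by linarith) hexp (by norm_num) (by linarith)
  have hdR : (2 : ℝ) ≤ d := by exact_mod_cast hd
  refine ⟨25 * d * E, ?_, ?_⟩
  · nlinarith
  intro g h A hg hgh hA
  classical
  have hh : 1 ≤ h := le_trans hg hgh
  have hhR : (1 : ℝ) ≤ h := by exact_mod_cast hh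
  have hghR : (g : ℝ) ≤ h := by exact_mod_cast hgh
  have hgR : (1 : ℝ) ≤ g := by exact_mod_cast hg
  set N : ℝ := 25 * d * h with hN
  have hN1 : 1 ≤ N := by rw [hN]; nlinarith
  -- split
  set Ac' := A.filter (fun P => IsC P ∧ ∀ x ∈ P, x ∈ bxT 0 h (12 * d * h)) with hAc
  set Ao := A.filter (fun P => ¬ (IsC P ∧ ∀ x ∈ P, x ∈ bxT 0 h (12 * d * h))) with hAo
  have hsplit : ∑ P ∈ A, Real.exp (β * (Ac P.toFinset : ℝ) - F0 * P.length) =
      ∑ P ∈ Ac', Real.exp (β * (Ac P.toFinset : ℝ) - F0 * P.length) +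
      ∑ P ∈ Ao, Real.exp (β * (Ac P.toFinset : ℝ) - F0 * P.length) :=
    (Finset.sum_filter_add_sum_filter_not A _ _).symm
  have hcl : ∑ P ∈ Ac', Real.exp (β * (Ac P.toFinset : ℝ) - F0 * P.length) ≤ C0 * N ^ (6 * d) := by
    have h1 := obj_closed h_ISO h_ACM β F0 C0 hC0 hZ (obj_X d h (12 * d * h)) Ac' (by
      intro P hP
      rw [hAc, Finset.mem_filter] at hP
      exact ⟨hP.2.1, fun x hx => (obj_mem_X h _ x).2 (hP.2.2 x hx)⟩)
    refine le_trans h1 ?_
    apply mul_le_mul_of_nonneg_left _ hC0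
    rw [obj_card]
    push_cast
    rw [← pow_mul]
    calc ((h : ℝ) + 2 * (12 * d * h)) ^ (d * 4) ≤ N ^ (d * 4) := by
          apply pow_le_pow_left₀ (by positivity)
          rw [hN]
          nlinarith
      _ ≤ N ^ (6 * d) := pow_le_pow_right₀ hN1 (by omega)
  set s : ℕ := h + 2 * (6 * d * g) with hs
  have hs2 : 2 ≤ s := by
    have : 1 ≤ d * g := Nat.mul_pos (by omega) hg
    rw [hs]; nlinarith
  set K : ℝ := (1 + 64 * C0) * Real.exp F0 * (s : ℝ) ^ (2 * d + 2) with hK
  have hK0 : 0 ≤ K := by rw [hK]; positivity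
  have hop : ∑ P ∈ Ao, Real.exp (β * (Ac P.toFinset : ℝ) - F0 * P.length) ≤
      (1 + 64 * C0) * Real.exp F0 * N ^ (6 * d) := by
    have h1 := obj_open h_ISO β F0 K h (6 * d * g) s hs hs2 hK0 (by
      intro l i i' p q hl hp hq hpq
      exact h_CR hd β F0 C0 hβ hF0 hC0 hZ s l i i' p q (by omega) hl hp hq hpq) Ao (by
      intro P hP
      rw [hAo, Finset.mem_filter] at hP
      rcases hA P hP.1 with h2 | h2
      · exact absurd h2 hP.2
      · exact h2)
    refine le_trans h1 ?_
    rw [hK, mul_assoc]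
    apply mul_le_mul_of_nonneg_left _ (by positivity)
    rw [← pow_mul, ← pow_add]
    have hsN : (s : ℝ) ≤ N := by
      rw [hs, hN]; push_cast
      nlinarith
    calc (s : ℝ) ^ (2 * d + 2 + d * 3) ≤ N ^ (2 * d + 2 + d * 3) :=
          pow_le_pow_left₀ (by positivity) hsN _
      _ ≤ N ^ (6 * d) := pow_le_pow_right₀ hN1 (by omega)
  rw [hsplit]
  have hNp : 0 ≤ N ^ (6 * d) := by positivity
  calc _ ≤ C0 * N ^ (6 * d) + (1 + 64 * C0) * Real.exp F0 * N ^ (6 * d) := add_le_add hcl hop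
    _ ≤ E * N ^ (6 * d) := by
        rw [← add_mul]
        apply mul_le_mul_of_nonneg_right _ hNp
        rw [hE]
        nlinarith
    _ ≤ E ^ (6 * d) * N ^ (6 * d) := by
        apply mul_le_mul_of_nonneg_right _ hNp
        exact le_self_pow₀ hE1 (by omega)
    _ = (25 * d * E * h) ^ (6 * d) := by
        rw [← mul_pow, hN]; ring

end Pool.Agent.H981R3.IS
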