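import Pool.Agent.H981R3.IS.Stubs

/-! TEAM IS, task POL (helper930): free energy of polygons, assembly. -/

set_option autoImplicit false

namespace Pool.Agent.H981R3.IS

open Finset Filter

theorem pol_up (a b e : ℕ → ℝ) (L : ℝ) (h : ∀ m, 2 ≤ m → a m ≤ b m ∧ b m ≤ a m + e m)
    (he : Tendsto (fun m : ℕ => e m / ((2 * m : ℕ) : ℝ)) atTop (nhds 0))
    (ha : Tendsto (fun m : ℕ => a m / ((2 * m : ℕ) : ℝ)) atTop (nhds L)) :
    Tendsto (fun m : ℕ => b m / ((2 * m : ℕ) : ℝ)) atTop (nhds L) := by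
  have h1 := ha.add he
  rw [add_zero] at h1
  refine tendsto_of_tendsto_of_tendsto_of_le_of_le' ha h1 ?_ ?_
  · filter_upwards [eventually_ge_atTop 2] with m hm
    exact div_le_div_of_nonneg_right (h m hm).1 (Nat.cast_nonneg _)
  · filter_upwards [eventually_ge_atTop 2] with m hm
    rw [← add_div]
    exact div_le_div_of_nonneg_right (h m hm).2 (Nat.cast_nonneg _)

theorem pol_down (a b e : ℕ → ℝ) (L : ℝ) (h : ∀ m, 2 ≤ m → a m ≤ b m ∧ b m ≤ a m + e m)
    (he : Tendsto (fun m : ℕ => e m / ((2 * m : ℕ) : ℝ)) atTop (nhds 0))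
    (hb : Tendsto (fun m : ℕ => b m / ((2 * m : ℕ) : ℝ)) atTop (nhds L)) :
    Tendsto (fun m : ℕ => a m / ((2 * m : ℕ) : ℝ)) atTop (nhds L) := by
  have h1 := hb.sub he
  rw [sub_zero] at h1
  refine tendsto_of_tendsto_of_tendsto_of_le_of_le' h1 hb ?_ ?_
  · filter_upwards [eventually_ge_atTop 2] with m hm
    rw [← sub_div]
    apply div_le_div_of_nonneg_right _ (Nat.cast_nonneg _)
    have := (h m hm).2
    linarith
  · filter_upwards [eventually_ge_atTop 2] with m hm
    exact div_le_div_of_nonneg_right (h m hm).1 (Nat.cast_nonneg _)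

theorem pol_log (d : ℕ) (hd : 2 ≤ d) :
    Tendsto (fun m : ℕ => Real.log (4 * d * m) / ((2 * m : ℕ) : ℝ)) atTop (nhds 0) := by
  have hd' : (0 : ℝ) < d := by
    have : 0 < d := by omega
    exact_mod_cast this
  have h1 := Real.isLittleO_log_id_atTop.tendsto_div_nhds_zero
  have h2 : Tendsto (fun m : ℕ => 4 * (d : ℝ) * m) atTop atTop :=
    Tendsto.const_mul_atTop (by positivity) tendsto_natCast_atTop_atTop
  have h3 := (h1.comp h2).const_mul (2 * (d : ℝ))
  rw [mul_zero] at h3
  refine h3.congr' ?_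
  filter_upwards [eventually_ge_atTop 1] with m hm
  have hm' : (0 : ℝ) < m := by exact_mod_cast hm
  simp only [Function.comp_apply, id]
  push_cast
  field_simp
  norm_num

theorem pol_two (d : ℕ) (β : ℝ) : Zc d β 2 = 0 := by
  classical
  unfold Zc CW
  rw [Finset.filter_eq_empty_iff.2, Finset.sum_empty]
  intro P hP h
  unfold LL at hP
  rw [mem_image] at hP
  obtain ⟨f, _, rfl⟩ := hP
  have := h.1.2.1
  rw [List.length_ofFn] at this
  omega

theorem p_POL (d : ℕ) (h_KK : St_KK d) (h_ZK : St_ZK d) (h_K0 : St_K0 d) (h_SEQ : St_SEQ) :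
    St_POL d := by
  intro hd β hβ
  have hd' : (2 : ℝ) ≤ d := by exact_mod_cast hd
  obtain ⟨j0, hj0⟩ : ∃ j : Fin d, j = ⟨0, by omega⟩ := ⟨_, rfl⟩
  obtain ⟨j1, hj1⟩ : ∃ j : Fin d, j = ⟨1, by omega⟩ := ⟨_, rfl⟩
  have hj : j0 ≠ j1 := by
    rw [hj0, hj1]
    intro h
    have := congrArg Fin.val h
    simp at this
  -- general facts
  have hK1 : ∀ (i0 i1 : Fin d), i0 ≠ i1 → ∀ m, 2 ≤ m → 1 ≤ Kr i0 i1 β (2 * m) := by
    intro i0 i1 hi m hm
    have h1 := (h_K0 i0 i1 β 0 hi hβ).1 (m - 1) (by omega)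
    have h2 : 2 * (m - 1) + 2 = 2 * m := by omega
    rwa [h2] at h1
  have hKZ : ∀ (i0 i1 : Fin d), i0 ≠ i1 → ∀ m, 2 ≤ m →
      Kr i0 i1 β (2 * m) ≤ Zc d β (2 * m) ∧
      Zc d β (2 * m) ≤ 4 * d * m * Kr i0 i1 β (2 * m) := by
    intro i0 i1 hi m hm
    refine ⟨(h_K0 i0 i1 β (2 * m) hi hβ).2.1, ?_⟩
    have h1 := h_ZK i0 i1 β (2 * m) hi (by omega)
    refine h1.trans (le_of_eq ?_)
    push_cast
    ring
  have hlogs : ∀ (i0 i1 : Fin d), i0 ≠ i1 → ∀ m, 2 ≤ m →
      Real.log (Kr i0 i1 β (2 * m)) ≤ Real.log (Zc d β (2 * m)) ∧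
      Real.log (Zc d β (2 * m)) ≤ Real.log (Kr i0 i1 β (2 * m)) + Real.log (4 * d * m) := by
    intro i0 i1 hi m hm
    obtain ⟨h1, h2⟩ := hKZ i0 i1 hi m hm
    have h3 := hK1 i0 i1 hi m hm
    have hm' : (0 : ℝ) < m := by
      have : 0 < m := by omega
      exact_mod_cast this
    refine ⟨Real.log_le_log (by linarith) h1, ?_⟩
    have h4 := Real.log_le_log (by linarith) h2
    rw [Real.log_mul (by positivity) (by linarith)] at h4
    linarith
  obtain ⟨C, hC⟩ : ∃ C : ℝ, C = max (4 * (d : ℝ)) (2 * Real.log (2 * d) + 2 * β * d) :=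
    ⟨_, rfl⟩
  have hC1 : 4 * (d : ℝ) ≤ C := hC ▸ le_max_left _ _
  have hC2 : 2 * Real.log (2 * d) + 2 * β * d ≤ C := hC ▸ le_max_right _ _
  obtain ⟨F, hF0, hFt, hFu⟩ := h_SEQ (fun m => Real.log (Kr j0 j1 β (2 * m))) C (by linarith)
    (by
      intro m n hm hn
      have h1 := h_KK j0 j1 β (2 * m) (2 * n) hj hβ (by omega) (by omega)
      have h2 : 2 * m + 2 * n = 2 * (m + n) := by ring
      rw [h2] at h1
      have h3 := (hKZ j0 j1 hj (m + n) (by omega)).2
      have h4 := hK1 j0 j1 hj m hm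
      have h5 := hK1 j0 j1 hj n hn
      have h6 := hK1 j0 j1 hj (m + n) (by omega)
      have hmn : (0 : ℝ) < m + n := by
        have : 0 < m + n := by omega
        exact_mod_cast this
      have h7 : Kr j0 j1 β (2 * m) * Kr j0 j1 β (2 * n) ≤
          Kr j0 j1 β (2 * (m + n)) * (C * (m + n)) := by
        refine (h1.trans h3).trans ?_
        push_cast
        have h8 : 4 * (d : ℝ) * (m + n) ≤ C * (m + n) := mul_le_mul_of_nonneg_right hC1 hmn.le
        calc 4 * (d : ℝ) * (m + n) * Kr j0 j1 β (2 * (m + n)) ≤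
              C * (m + n) * Kr j0 j1 β (2 * (m + n)) := mul_le_mul_of_nonneg_right h8 (by linarith)
          _ = _ := by ring
      have h9 := Real.log_le_log (by positivity) h7
      rw [Real.log_mul (by linarith) (by linarith), Real.log_mul (by linarith)
        (by
          have : 0 < C * (m + n) := by
            apply mul_pos _ hmn
            linarith
          exact this.ne')] at h9
      exact h9)
    (by
      intro m hm
      have h1 := hK1 j0 j1 hj m hm
      refine ⟨Real.log_nonneg h1, ?_⟩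
      have h2 := ((h_K0 j0 j1 β (2 * m) hj hβ).2.1).trans (h_K0 j0 j1 β (2 * m) hj hβ).2.2.1
      have h3 := Real.log_le_log (by linarith) h2
      rw [Real.log_mul (by positivity) (by positivity), Real.log_pow, Real.log_exp] at h3
      refine h3.trans ?_
      have h4 : (2 * Real.log (2 * d) + 2 * β * d) * m ≤ C * m :=
        mul_le_mul_of_nonneg_right hC2 (Nat.cast_nonneg _)
      refine le_trans (le_of_eq ?_) h4
      push_cast
      ring)
  have hF2 : Tendsto (fun m : ℕ => Real.log (Kr j0 j1 β (2 * m)) / ((2 * m : ℕ) : ℝ)) atTop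
      (nhds (F / 2)) := by
    have h1 := hFt.div_const 2
    refine h1.congr fun m => ?_
    push_cast
    rw [div_div, mul_comm (m : ℝ)]
  have hZt : Tendsto (fun m : ℕ => Real.log (Zc d β (2 * m)) / ((2 * m : ℕ) : ℝ)) atTop
      (nhds (F / 2)) :=
    pol_up _ _ (fun m => Real.log (4 * d * m)) _ (hlogs j0 j1 hj) (pol_log d hd) hF2
  have hC0 : 0 ≤ C := by linarith
  refine ⟨F / 2, 4 * C * d, by linarith, by positivity, ?_, hZt, ?_⟩
  · intro l hl
    have hpos : 0 ≤ 4 * C * d * (l : ℝ) ^ 2 * Real.exp (F / 2 * l) := by positivity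
    rcases Nat.even_or_odd' l with ⟨m, hm | hm⟩
    · rcases Nat.lt_or_ge m 2 with h2 | h2
      · have h3 : l = 2 := by omega
        rw [h3] at hpos ⊢
        rw [pol_two]
        exact hpos
      · rw [hm]
        have h3 := (hKZ j0 j1 hj m h2).2
        have h4 := hK1 j0 j1 hj m h2
        have h5 := hFu m h2
        have hm' : (0 : ℝ) < m := by
          have : 0 < m := by omega
          exact_mod_cast this
        have h6 : Kr j0 j1 β (2 * m) ≤ Real.exp (F * m) * (4 * C * m) := by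
          have h7 := Real.exp_le_exp.2 h5
          rw [Real.exp_log (by linarith), Real.exp_add, Real.exp_log (by
            have : 0 < C := by linarith
            positivity)] at h7
          exact h7
        calc Zc d β (2 * m) ≤ 4 * d * m * Kr j0 j1 β (2 * m) := h3
          _ ≤ 4 * d * m * (Real.exp (F * m) * (4 * C * m)) :=
              mul_le_mul_of_nonneg_left h6 (by positivity)
          _ = 4 * C * d * ((2 * m : ℕ) : ℝ) ^ 2 * Real.exp (F / 2 * ((2 * m : ℕ) : ℝ)) := by
              have h8 : F / 2 * ((2 * m : ℕ) : ℝ) = F * m := by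
                push_cast
                ring
              rw [h8]
              push_cast
              ring
    · rw [(h_K0 j0 j1 β l hj hβ).2.2.2 ⟨m, hm⟩]
      exact hpos
  · intro i0 i1 hi
    exact pol_down _ _ (fun m => Real.log (4 * d * m)) _ (hlogs i0 i1 hi) (pol_log d hd) hZt

end Pool.Agent.H981R3.IS
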