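import Pool.Agent.H981R3.IS.Stubs

/-! TEAM IS, task RG (helper930): a unit which is one plain bundle is regular. -/

set_option autoImplicit false

namespace Pool.Agent.H981R3.IS

open Finset

variable {d : ℕ}

/-- moving without crossing -/
theorem rg_mv (D : Dt d) (u : Finset ℕ) (hmv : ∀ s, s < D.n → s ∉ D.crs → (s ∈ u ↔ s + 1 ∈ u))
    (a k : ℕ) (hb : a + k ≤ D.n) (h : ∀ r, a ≤ r → r < a + k → r ∉ D.crs) :
    a ∈ u ↔ a + k ∈ u := by
  induction k with
  | zero => rfl
  | succ k ih =>
    rw [ih (by omega) (fun r h1 h2 => h r h1 (by omega))]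
    exact hmv (a + k) (by omega) (h _ (by omega) (by omega))

/-- last crossing before `t` -/
def rgpr (D : Dt d) (t : ℕ) : ℕ := (D.crs.filter (fun p => p < t)).sup id

theorem rg_pr_mem (D : Dt d) (t : ℕ) (h : ∃ p ∈ D.crs, p < t) :
    rgpr D t ∈ D.crs ∧ rgpr D t < t ∧ ∀ r, rgpr D t < r → r < t → r ∉ D.crs := by
  obtain ⟨p, hp, hpt⟩ := h
  have hne : (D.crs.filter (fun p => p < t)).Nonempty := ⟨p, mem_filter.2 ⟨hp, hpt⟩⟩
  obtain ⟨q, hq, hqe⟩ := Finset.exists_mem_eq_sup _ hne id
  have hq' := mem_filter.1 hq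
  have he : rgpr D t = q := hqe
  rw [he]
  refine ⟨hq'.1, hq'.2, fun r h1 h2 h3 => ?_⟩
  have h4 : id r ≤ (D.crs.filter (fun p => p < t)).sup id :=
    Finset.le_sup (f := id) (mem_filter.2 ⟨h3, h2⟩)
  rw [hqe] at h4
  simp only [id] at h4
  omega

theorem p_RG (d : ℕ) (h_CLS : St_CLS d) : St_RG d := by
  classical
  intro D hρ hg hw u hu hub hsp hgood hcard
  obtain ⟨c1, c2, c3, c4, c5, c6, c7, c8, c9, c10⟩ := h_CLS D hw
  by_contra hreg
  have hn : ∀ t ∈ u, t ≤ D.n := fun t ht => ((c6 u hub).2 t ht).1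
  have hmv : ∀ s, s < D.n → s ∉ D.crs → (s ∈ u ↔ s + 1 ∈ u) := by
    intro s hs hc
    have h1 := (c8 s hs hc).1
    constructor
    · intro h
      have h2 := ((c6 u hub).2 s h).2
      rw [← h2, h1]
      exact (c1 (s + 1) (by omega)).2
    · intro h
      have h2 := ((c6 u hub).2 (s + 1) h).2
      rw [← h2, ← h1]
      exact (c1 s (by omega)).2
  have hmv' := rg_mv D u hmv
  -- crossing before and after
  have hbef : ∀ t ∈ u, ∃ p ∈ D.crs, p < t := by
    intro t ht
    by_contra hc
    push Not at hc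
    have h1 := hmv' 0 t (by have := hn t ht; omega) (fun r _ h2 h3 => by
      have := hc r h3
      omega)
    rw [zero_add] at h1
    exact hsp (Or.inl (h1.2 ht))
  have haft : ∀ t ∈ u, ∃ q, q ∈ D.crs ∧ t ≤ q := by
    intro t ht
    by_contra hc
    push Not at hc
    have h0 := hn t ht
    have h1 := hmv' t (D.n - t) (by omega) (fun r h1 _ h3 => by
      have := hc r h3
      omega)
    have h2 : t + (D.n - t) = D.n := by omega
    rw [h2] at h1
    exact hsp (Or.inr (h1.1 ht))
  -- all strands have the same group at both ends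
  have hstr : ∀ p ∈ D.crs, ∀ q ∈ D.crs, p < q → (∀ t, p < t → t ≤ q → t ∈ u) →
      D.gc p = D.gc q := by
    intro p hp q hq hpq hall
    by_contra hne
    apply hreg
    have hp1 : D.gc p ∈ D.tgr u := by
      unfold Dt.tgr
      rw [mem_filter]
      exact ⟨mem_image_of_mem _ hp, p, hp, rfl, Or.inr (hall _ (by omega) (by omega))⟩
    have hq1 : D.gc q ∈ D.tgr u := by
      unfold Dt.tgr
      rw [mem_filter]
      exact ⟨mem_image_of_mem _ hq, q, hq, rfl, Or.inl (hall _ hpq le_rfl)⟩
    refine ⟨hsp, p, hp, q, hq, hpq, hne, hgood hp1, hgood hq1, ?_, hall⟩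
    symm
    apply Finset.eq_of_subset_of_card_le
    · intro y hy
      rw [mem_insert, mem_singleton] at hy
      rcases hy with rfl | rfl
      · exact hp1
      · exact hq1
    · rw [hcard, card_pair hne]
  have hnx : ∀ t ∈ u, ∀ q ∈ D.crs, t ≤ q → (∀ r, t ≤ r → r < q → r ∉ D.crs) →
      D.gc (rgpr D t) = D.gc q := by
    intro t ht q hq htq hmin
    obtain ⟨h1, h2, h3⟩ := rg_pr_mem D t (hbef t ht)
    apply hstr _ h1 q hq (by omega)
    intro r hr1 hr2
    have hqn : q < D.n := by
      unfold Dt.crs at hq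
      rw [mem_filter, mem_range] at hq
      exact hq.1
    rcases le_total r t with h | h
    · have h4 := hmv' r (t - r) (by omega) (fun x hx1 hx2 => h3 x (by omega) (by omega))
      have h5 : r + (t - r) = t := by omega
      rw [h5] at h4
      exact h4.2 ht
    · have h4 := hmv' t (r - t) (by omega) (fun x hx1 hx2 => hmin x (by omega) (by omega))
      have h5 : t + (r - t) = r := by omega
      rw [h5] at h4
      exact h4.1 ht
  -- value at the ends of a crossing step
  have hval : ∀ s ∈ u, ∀ p ∈ D.crs, (s = p ∨ s = p + 1) → D.gc (rgpr D s) = D.gc p := by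
    intro s hs p hp hsp'
    rcases hsp' with h | h
    · exact hnx s hs p hp (by omega) (fun r h1 h2 => by omega)
    · obtain ⟨h1, h2, h3⟩ := rg_pr_mem D s (hbef s hs)
      have h4 : rgpr D s = p := by
        by_contra hne
        exact h3 p (by omega) (by omega) hp
      rw [h4]
  -- invariance along bundles
  obtain ⟨t0, ht0, htu⟩ := mem_image.1 hub
  have humem : ∀ s, s ∈ u ↔ s ≤ D.n ∧ Relation.EqvGen D.Rb t0 s := by
    intro s
    rw [← htu]
    unfold Dt.bc
    rw [mem_filter, mem_range]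
    constructor
    · rintro ⟨h1, h2⟩
      exact ⟨by omega, h2⟩
    · rintro ⟨h1, h2⟩
      exact ⟨by omega, h2⟩
  have hstep : ∀ s t, Relation.EqvGen D.Rb s t →
      (s ∈ u ↔ t ∈ u) ∧ (s ∈ u → D.gc (rgpr D s) = D.gc (rgpr D t)) := by
    intro s t hst
    induction hst with
    | rel s t h =>
      have h1 : s ∈ u ↔ t ∈ u := by
        rw [humem, humem]
        constructor
        · rintro ⟨_, h3⟩
          exact ⟨h.2.1, h3.trans _ _ _ (Relation.EqvGen.rel _ _ h)⟩
        · rintro ⟨_, h3⟩
          exact ⟨h.1, h3.trans _ _ _ ((Relation.EqvGen.rel _ _ h).symm _ _)⟩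
      refine ⟨h1, fun hs => ?_⟩
      have ht := h1.1 hs
      rcases h.2.2.2 with h2 | ⟨p, hp, q, hq, hpq, hsp', htq⟩
      · have h3 : s ∉ D.crs := by
          intro hc
          unfold Dt.crs at hc
          rw [mem_filter] at hc
          apply hc.2
          rw [← h2]
          exact h.2.2.1
        have h4 : rgpr D t = rgpr D s := by
          unfold rgpr
          congr 1
          ext x
          rw [mem_filter, mem_filter]
          constructor
          · rintro ⟨hx1, hx2⟩
            refine ⟨hx1, ?_⟩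
            have : x ≠ s := fun hxs => h3 (hxs ▸ hx1)
            omega
          · rintro ⟨hx1, hx2⟩
            exact ⟨hx1, by omega⟩
        rw [h4]
      · rw [hval s hs p hp hsp', hval t ht q hq htq, hpq]
    | refl s => exact ⟨Iff.rfl, fun _ => rfl⟩
    | symm s t _ ih => exact ⟨ih.1.symm, fun ht => (ih.2 (ih.1.2 ht)).symm⟩
    | trans s t r _ _ ih1 ih2 =>
      exact ⟨ih1.1.trans ih2.1, fun hs => (ih1.2 hs).trans (ih2.2 (ih1.1.1 hs))⟩
  have ht0u : t0 ∈ u := by
    rw [humem]
    rw [mem_range] at ht0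
    exact ⟨by omega, Relation.EqvGen.refl _⟩
  have hall : ∀ y ∈ D.tgr u, y = D.gc (rgpr D t0) := by
    intro y hy
    unfold Dt.tgr at hy
    rw [mem_filter] at hy
    obtain ⟨_, p, hp, hpy, hpu⟩ := hy
    rcases hpu with h | h
    · rw [(hstep t0 p ((humem p).1 h).2).2 ht0u, hval p h p hp (Or.inl rfl), hpy]
    · rw [(hstep t0 (p + 1) ((humem (p + 1)).1 h).2).2 ht0u, hval (p + 1) h p hp (Or.inr rfl), hpy]
  have hle : (D.tgr u).card ≤ 1 := by
    rw [Finset.card_le_one]
    intro a ha b hb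
    rw [hall a ha, hall b hb]
  omega

end Pool.Agent.H981R3.IS
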