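import Pool.Agent.H981R3.IS.Stubs

/-!
# SCH: a shortest chain between two disjoint sets
-/

set_option autoImplicit false

namespace Pool.Agent.H981R3.IS

theorem sch_dup {α : Type*} (l : List α) (h : ¬ l.Nodup) :
    ∃ (X : List α) (v : α) (Y Z : List α), l = X ++ v :: (Y ++ v :: Z) := by
  induction l with
  | nil => exact absurd List.nodup_nil h
  | cons a t ih =>
    by_cases ha : a ∈ t
    · obtain ⟨Y, Z, hYZ⟩ := List.append_of_mem ha
      exact ⟨[], a, Y, Z, by rw [hYZ]; rfl⟩
    · have ht : ¬ t.Nodup := fun ht => h (List.nodup_cons.2 ⟨ha, ht⟩)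
      obtain ⟨X, v, Y, Z, hX⟩ := ih ht
      exact ⟨a :: X, v, Y, Z, by rw [hX]; rfl⟩

theorem p_SCH (d : ℕ) : St_SCH d := by
  intro S A B C
  induction hn : C.length using Nat.strong_induction_on generalizing C with
  | _ n ih =>
    intro x y hAB hC hx hy hxA hyB hS
    have hne : x ≠ y := by
      rintro rfl
      exact Set.disjoint_left.1 hAB hxA hyB
    -- shape of `C`
    obtain ⟨C', rfl⟩ : ∃ C', C = x :: C' := by
      cases C with
      | nil => simp at hx
      | cons a t =>
        simp only [List.head?_cons, Option.some.injEq] at hx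
        exact ⟨t, by rw [hx]⟩
    have hC'ne : C' ≠ [] := by
      rintro rfl
      simp only [List.getLast?_singleton, Option.some.injEq] at hy
      exact hne hy
    obtain ⟨M, rfl⟩ : ∃ M, C' = M ++ [y] := by
      have h1 : (x :: C').getLast? = C'.getLast? := by
        cases C' with
        | nil => exact absurd rfl hC'ne
        | cons a t => simp [List.getLast?_cons_cons]
      rw [h1] at hy
      exact ⟨C'.dropLast, (List.dropLast_append_getLast? y hy).symm⟩
    have hlen : n = M.length + 2 := by
      rw [← hn]
      simp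
    by_cases h1 : ∃ c ∈ M, c ∈ A
    · obtain ⟨c, hcM, hcA⟩ := h1
      obtain ⟨M1, M2, rfl⟩ := List.append_of_mem hcM
      have hsplit : x :: ((M1 ++ c :: M2) ++ [y]) = (x :: M1) ++ c :: (M2 ++ [y]) := by simp
      rw [hsplit] at hC
      have hC2 := (List.isChain_split.1 hC).2
      obtain ⟨p, q, N, hp, hpS, hq, hqS, hPN, hN, hl⟩ := ih (c :: (M2 ++ [y])).length (by
        simp only [List.length_cons, List.length_append, List.length_nil] at hlen ⊢
        omega) (c :: (M2 ++ [y])) rfl c y hAB hC2 rfl (by simp [List.getLast?_cons]) hcA hyB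
        (fun e he => hS e (by rw [hsplit]; exact List.mem_append_right _ he))
      refine ⟨p, q, N, hp, hpS, hq, hqS, hPN, hN, ?_⟩
      simp only [List.length_cons, List.length_append, List.length_nil] at hl hlen hn ⊢
      omega
    by_cases h2 : ∃ c ∈ M, c ∈ B
    · obtain ⟨c, hcM, hcB⟩ := h2
      obtain ⟨M1, M2, rfl⟩ := List.append_of_mem hcM
      have hsplit : x :: ((M1 ++ c :: M2) ++ [y]) = (x :: M1) ++ c :: (M2 ++ [y]) := by simp
      rw [hsplit] at hC
      have hC2 := (List.isChain_split.1 hC).1
      obtain ⟨p, q, N, hp, hpS, hq, hqS, hPN, hN, hl⟩ := ih ((x :: M1) ++ [c]).length (by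
        simp only [List.length_cons, List.length_append, List.length_nil] at hlen ⊢
        omega) ((x :: M1) ++ [c]) rfl x c hAB hC2 rfl List.getLast?_concat hxA hcB
        (fun e he => hS e (by
          rw [hsplit]
          rcases List.mem_append.1 he with he | he
          · exact List.mem_append_left _ he
          · exact List.mem_append_right _ (by
              rw [List.mem_singleton] at he
              rw [he]
              exact List.mem_cons_self ..)))
      refine ⟨p, q, N, hp, hpS, hq, hqS, hPN, hN, ?_⟩
      simp only [List.length_cons, List.length_append, List.length_nil] at hl hlen hn ⊢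
      omega
    by_cases h3 : M.Nodup
    · push Not at h1 h2
      refine ⟨x, y, M, hxA, hS x (List.mem_cons_self ..), hyB, hS y (by simp), ⟨hC, ?_⟩,
        fun c hc => ⟨hS c (by simp [hc]), h1 c hc, h2 c hc⟩, by rw [← hlen, ← hn]⟩
      rw [List.nodup_cons]
      refine ⟨?_, ?_⟩
      · intro h
        rcases List.mem_append.1 h with h | h
        · exact h1 x h hxA
        · exact hne (List.mem_singleton.1 h)
      · rw [List.nodup_append]
        refine ⟨h3, List.nodup_singleton _, ?_⟩
        intro a ha b hb hab
        rw [List.mem_singleton] at hb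
        subst hb
        exact h2 a ha (hab ▸ hyB)
    · obtain ⟨X, v, Y, Z, rfl⟩ := sch_dup M h3
      have hs1 : x :: ((X ++ v :: (Y ++ v :: Z)) ++ [y]) =
          (x :: X) ++ v :: ((Y ++ v :: Z) ++ [y]) := by simp
      have hs2 : x :: ((X ++ v :: (Y ++ v :: Z)) ++ [y]) =
          ((x :: X) ++ v :: Y) ++ v :: (Z ++ [y]) := by simp
      have hC1 := hC
      rw [hs1] at hC1
      have hA1 := (List.isChain_split.1 hC1).1
      have hC2 := hC
      rw [hs2] at hC2
      have hA2 := (List.isChain_split.1 hC2).2
      have hnew : List.IsChain adj ((x :: X) ++ v :: (Z ++ [y])) :=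
        List.isChain_split.2 ⟨hA1, hA2⟩
      obtain ⟨p, q, N, hp, hpS, hq, hqS, hPN, hN, hl⟩ :=
        ih ((x :: X) ++ v :: (Z ++ [y])).length (by
        simp only [List.length_cons, List.length_append, List.length_nil] at hlen ⊢
        omega) ((x :: X) ++ v :: (Z ++ [y])) rfl x y hAB hnew rfl (by simp [List.getLast?_cons])
        hxA hyB (fun e he => hS e (by
          simp only [List.mem_append, List.mem_cons] at he ⊢
          tauto))
      refine ⟨p, q, N, hp, hpS, hq, hqS, hPN, hN, ?_⟩
      simp only [List.length_cons, List.length_append, List.length_nil] at hl hlen hn ⊢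
      omega

end Pool.Agent.H981R3.IS
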