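import Pool.Agent.H981R3.IS.Stubs

/-!
# SEL: choice of the scale and of the offset by averaging
-/

set_option autoImplicit false

namespace Pool.Agent.H981R3.IS

open Finset

/-- the offsets -/
noncomputable def sel_Om (d L : ℕ) : Finset (Vx d) :=
  Fintype.piFinset (fun _ : Fin d => Ico (0 : ℤ) L)

theorem sel_mem {d L : ℕ} (a : Vx d) : a ∈ sel_Om d L ↔ ∀ k, 0 ≤ a k ∧ a k < (L : ℤ) := by
  simp [sel_Om, Fintype.mem_piFinset]

theorem sel_count (L m : ℕ) (hm : 0 < m) (hL : m ∣ L) (p : ℤ) :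
    m * ((Ico (0 : ℤ) L).filter (fun x => (m : ℤ) ∣ p - x)).card = L := by
  obtain ⟨q, rfl⟩ := hL
  have hm' : (0 : ℤ) < (m : ℤ) := by exact_mod_cast hm
  have h := Int.Ico_filter_modEq_card (0 : ℤ) ((m * q : ℕ) : ℤ) hm' p
  have h2 : ((Ico (0 : ℤ) ((m * q : ℕ) : ℤ)).filter (fun x => (m : ℤ) ∣ p - x)) =
      ((Ico (0 : ℤ) ((m * q : ℕ) : ℤ)).filter (fun x => x ≡ p [ZMOD (m : ℤ)])) := by
    apply Finset.filter_congr
    intro x _
    exact (Int.modEq_iff_dvd).symm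
  rw [h2]
  have h3 : (((m * q : ℕ) : ℤ) - p : ℚ) / ((m : ℤ) : ℚ) = (0 - (p : ℚ)) / ((m : ℤ) : ℚ) + (q : ℕ) := by
    have : ((m : ℤ) : ℚ) ≠ 0 := by exact_mod_cast hm.ne'
    push_cast
    push_cast at this
    field_simp
    ring
  have h4 : ((((Ico (0 : ℤ) ((m * q : ℕ) : ℤ)).filter (fun x => x ≡ p [ZMOD (m : ℤ)])).card : ℕ) : ℤ)
      = (q : ℤ) := by
    rw [h]
    push_cast at h3 ⊢
    rw [h3, Int.ceil_add_natCast]
    have : (0 : ℤ) ≤ (q : ℤ) := by positivity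
    simp
  have h5 : ((Ico (0 : ℤ) ((m * q : ℕ) : ℤ)).filter (fun x => x ≡ p [ZMOD (m : ℤ)])).card = q := by
    exact_mod_cast h4
  rw [h5]

theorem sel_fub {d : ℕ} (L : ℕ) (hL0 : 0 < L) (i : Fin d) (F : Vx d → ℕ) :
    ∑ a ∈ sel_Om d L, F a = ∑ b ∈ (sel_Om d L).filter (fun b => b i = 0),
      ∑ x ∈ Ico (0 : ℤ) L, F (Function.update b i x) := by
  rw [← Finset.sum_product']
  symm
  apply Finset.sum_nbij' (fun q => Function.update q.1 i q.2)
    (fun a => (Function.update a i 0, a i))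
  · intro q hq
    simp only [mem_product, mem_filter, sel_mem, mem_Ico] at hq
    rw [sel_mem]
    intro k
    by_cases hk : k = i
    · subst hk
      simp only [Function.update_self]
      exact hq.2
    · rw [Function.update_of_ne hk]
      exact hq.1.1 k
  · intro a ha
    rw [sel_mem] at ha
    simp only [mem_product, mem_filter, sel_mem, mem_Ico]
    refine ⟨⟨fun k => ?_, by simp⟩, ha i⟩
    by_cases hk : k = i
    · subst hk
      simp only [Function.update_self]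
      exact ⟨le_refl _, by exact_mod_cast hL0⟩
    · rw [Function.update_of_ne hk]
      exact ha k
  · intro q hq
    simp only [mem_product, mem_filter] at hq
    ext1
    · simp only [Function.update_idem]
      rw [← hq.1.2, Function.update_eq_self]
    · simp
  · intro a _
    simp
  · intro q _
    rfl

theorem sel_W {d : ℕ} (L m : ℕ) (hL0 : 0 < L) (hm : 0 < m) (hL : m ∣ L) (i : Fin d) (p : ℤ)
    (f : Vx d → ℕ) (hf : ∀ a x, f (Function.update a i x) = f a) :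
    m * ∑ a ∈ sel_Om d L, (if (m : ℤ) ∣ p - a i then f a else 0) = ∑ a ∈ sel_Om d L, f a := by
  rw [sel_fub L hL0 i, sel_fub L hL0 i, Finset.mul_sum]
  apply Finset.sum_congr rfl
  intro b _
  have h1 : ∑ x ∈ Ico (0 : ℤ) L, (if (m : ℤ) ∣ p - (Function.update b i x) i then
      f (Function.update b i x) else 0) =
      ((Ico (0 : ℤ) L).filter (fun x => (m : ℤ) ∣ p - x)).card * f b := by
    rw [Finset.card_eq_sum_ones, Finset.sum_mul, Finset.sum_filter]
    apply Finset.sum_congr rfl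
    intro x _
    simp only [Function.update_self, hf, one_mul]
  rw [h1, ← mul_assoc, sel_count L m hm hL p]
  simp [hf]

theorem sel_bad {α β : Type*} [DecidableEq α] [DecidableEq β] (S : Finset α) (f : α → β)
    (B : Finset α) (hB : B ⊆ S) (hB' : ∀ y ∈ B, ∃ y' ∈ S, y' ≠ y ∧ f y' = f y) :
    B.card + 2 * (S.image f).card ≤ 2 * S.card := by
  have h1 : S.card = ∑ b ∈ S.image f, (S.filter (fun x => f x = b)).card :=
    Finset.card_eq_sum_card_fiberwise (fun x hx => Finset.mem_image_of_mem f hx)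
  have h2 : B.card = ∑ b ∈ S.image f, (B.filter (fun x => f x = b)).card :=
    Finset.card_eq_sum_card_fiberwise (fun x hx => Finset.mem_image_of_mem f (hB hx))
  have h3 : 2 * (S.image f).card = ∑ b ∈ S.image f, 2 := by
    rw [Finset.sum_const, smul_eq_mul, mul_comm]
  rw [h1, h2, h3, Finset.mul_sum, ← Finset.sum_add_distrib]
  apply Finset.sum_le_sum
  intro b hb
  rcases Finset.eq_empty_or_nonempty (B.filter (fun x => f x = b)) with he | ⟨y, hy⟩
  · rw [he, Finset.card_empty]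
    obtain ⟨x, hx, hxb⟩ := Finset.mem_image.1 hb
    have : 0 < (S.filter (fun x => f x = b)).card :=
      Finset.card_pos.2 ⟨x, Finset.mem_filter.2 ⟨hx, hxb⟩⟩
    omega
  · obtain ⟨hy1, hy2⟩ := Finset.mem_filter.1 hy
    obtain ⟨y', hy'S, hne, hfy⟩ := hB' y hy1
    have h4 : 1 < (S.filter (fun x => f x = b)).card := by
      rw [Finset.one_lt_card]
      exact ⟨y', Finset.mem_filter.2 ⟨hy'S, by rw [hfy, hy2]⟩, y,
        Finset.mem_filter.2 ⟨hB hy1, hy2⟩, hne⟩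
    have h5 : (B.filter (fun x => f x = b)).card ≤ (S.filter (fun x => f x = b)).card :=
      Finset.card_le_card (Finset.filter_subset_filter _ hB)
    omega

theorem sel_img {α β γ : Type*} [DecidableEq β] [DecidableEq γ] (S : Finset α) (f : α → β)
    (g : α → γ) (h : ∀ s ∈ S, ∀ t ∈ S, f s = f t ↔ g s = g t) :
    (S.image f).card = (S.image g).card := by
  classical
  have h1 : (S.image f) = (S.image (fun s => (f s, g s))).image Prod.fst := by
    rw [Finset.image_image]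
    rfl
  have h2 : (S.image g) = (S.image (fun s => (f s, g s))).image Prod.snd := by
    rw [Finset.image_image]
    rfl
  have h3 : ((S.image (fun s => (f s, g s))).image Prod.fst).card =
      (S.image (fun s => (f s, g s))).card := by
    apply Finset.card_image_of_injOn
    intro x hx y hy hxy
    obtain ⟨s, hs, rfl⟩ := Finset.mem_image.1 (Finset.mem_coe.1 hx)
    obtain ⟨t, ht, rfl⟩ := Finset.mem_image.1 (Finset.mem_coe.1 hy)
    exact Prod.ext hxy ((h s hs t ht).1 hxy)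
  have h4 : ((S.image (fun s => (f s, g s))).image Prod.snd).card =
      (S.image (fun s => (f s, g s))).card := by
    apply Finset.card_image_of_injOn
    intro x hx y hy hxy
    obtain ⟨s, hs, rfl⟩ := Finset.mem_image.1 (Finset.mem_coe.1 hx)
    obtain ⟨t, ht, rfl⟩ := Finset.mem_image.1 (Finset.mem_coe.1 hy)
    exact Prod.ext ((h s hs t ht).2 hxy) hxy
  rw [h1, h2, h3, h4]

/-- the code of a step at scale `s` -/
def sel_cd {d : ℕ} (w : ℕ → Vx d) (I : ℕ → Fin d) (P : ℕ → ℤ) (s : ℕ) (a : Vx d) (t : ℕ) :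
    Fin d × ℤ × Vx d :=
  (I t, P t, fun k => if k = I t then 0 else (w t k - a k) / (s : ℤ))

theorem sel_dec {d : ℕ} (w : ℕ → Vx d) (I : ℕ → Fin d) (P : ℕ → ℤ) (s : ℕ) (a : Vx d) (n : ℕ)
    (S : Finset ℕ) (hS : S ⊆ range n) :
    (S.image (sel_cd w I P s a)).card = ∑ ip ∈ (range n).image (fun t => (I t, P t)),
      ((S.filter (fun t => (I t, P t) = ip)).image (sel_cd w I P s a)).card := by
  rw [Finset.card_eq_sum_card_fiberwise (f := fun c : Fin d × ℤ × Vx d => (c.1, c.2.1))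
    (t := (range n).image (fun t => (I t, P t)))]
  · apply Finset.sum_congr rfl
    intro ip _
    rw [Finset.filter_image]
    rfl
  · intro c hc
    obtain ⟨t, ht, rfl⟩ := Finset.mem_image.1 (Finset.mem_coe.1 hc)
    exact Finset.mem_coe.2 (Finset.mem_image.2 ⟨t, hS ht, rfl⟩)

theorem sel_inv {d : ℕ} (w : ℕ → Vx d) (I : ℕ → Fin d) (P : ℕ → ℤ) (s n : ℕ) (ip : Fin d × ℤ)
    (a : Vx d) (x : ℤ) :
    (((range n).filter (fun t => (I t, P t) = ip)).image
      (sel_cd w I P s (Function.update a ip.1 x))).card =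
    (((range n).filter (fun t => (I t, P t) = ip)).image (sel_cd w I P s a)).card := by
  congr 1
  apply Finset.image_congr
  intro t ht
  have ht' : (I t, P t) = ip := (Finset.mem_filter.1 (Finset.mem_coe.1 ht)).2
  have h1 : I t = ip.1 := by rw [← ht']
  unfold sel_cd
  congr 2
  funext k
  by_cases hk : k = I t
  · simp [hk]
  · rw [if_neg hk, if_neg hk, Function.update_of_ne (by rw [← h1]; exact hk)]

/-- averaging over the offsets -/
theorem sel_avg {d : ℕ} (w : ℕ → Vx d) (I : ℕ → Fin d) (P : ℕ → ℤ) (s n L m : ℕ) (hL0 : 0 < L)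
    (hm : 0 < m) (hL : m ∣ L) :
    m * ∑ a ∈ sel_Om d L, (((range n).filter (fun t => (m : ℤ) ∣ P t - a (I t))).image
      (sel_cd w I P s a)).card =
    ∑ a ∈ sel_Om d L, ((range n).image (sel_cd w I P s a)).card := by
  have h1 : ∀ a : Vx d, (((range n).filter (fun t => (m : ℤ) ∣ P t - a (I t))).image
      (sel_cd w I P s a)).card = ∑ ip ∈ (range n).image (fun t => (I t, P t)),
        (if (m : ℤ) ∣ ip.2 - a ip.1 then
          (((range n).filter (fun t => (I t, P t) = ip)).image (sel_cd w I P s a)).card else 0) := by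
    intro a
    rw [sel_dec w I P s a n _ (Finset.filter_subset _ _)]
    apply Finset.sum_congr rfl
    intro ip _
    split_ifs with h
    · congr 2
      ext t
      simp only [mem_filter]
      constructor
      · rintro ⟨⟨h1, _⟩, h3⟩
        exact ⟨h1, h3⟩
      · rintro ⟨h1, h3⟩
        refine ⟨⟨h1, ?_⟩, h3⟩
        rw [← h3] at h
        exact h
    · rw [Finset.card_eq_zero, Finset.image_eq_empty, Finset.filter_eq_empty_iff]
      intro t ht h3
      rw [← h3] at h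
      exact h (Finset.mem_filter.1 ht).2
  simp only [h1]
  rw [Finset.sum_comm, Finset.mul_sum]
  have h2 : ∀ ip ∈ (range n).image (fun t => (I t, P t)),
      m * ∑ a ∈ sel_Om d L, (if (m : ℤ) ∣ ip.2 - a ip.1 then
          (((range n).filter (fun t => (I t, P t) = ip)).image (sel_cd w I P s a)).card else 0) =
      ∑ a ∈ sel_Om d L,
        (((range n).filter (fun t => (I t, P t) = ip)).image (sel_cd w I P s a)).card := by
    intro ip _
    exact sel_W L m hL0 hm hL ip.1 ip.2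
      (fun a => (((range n).filter (fun t => (I t, P t) = ip)).image (sel_cd w I P s a)).card)
      (fun a x => sel_inv w I P s n ip a x)
  rw [Finset.sum_congr rfl h2, Finset.sum_comm]
  apply Finset.sum_congr rfl
  intro a _
  exact (sel_dec w I P s a n _ (Finset.Subset.refl _)).symm

/-- counting the offsets for which a given position is on the grid -/
theorem sel_one {d : ℕ} (L m : ℕ) (hL0 : 0 < L) (hm : 0 < m) (hL : m ∣ L) (i : Fin d) (p : ℤ) :
    m * ∑ a ∈ sel_Om d L, (if (m : ℤ) ∣ p - a i then 1 else 0) = L ^ d := by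
  rw [sel_W L m hL0 hm hL i p (fun _ => 1) (fun _ _ => rfl)]
  simp [sel_Om]

/-! ### the steps of the walk -/

theorem sel_dir {d : ℕ} (hd : 1 ≤ d) (w : ℕ → Vx d) (n : ℕ) (hw : Sw w n) :
    ∃ I : ℕ → Fin d, ∀ t, t < n → |w (t + 1) (I t) - w t (I t)| = 1 ∧
      ∀ k, k ≠ I t → w (t + 1) k = w t k := by
  classical
  have key : ∀ t, t < n → ∃ i : Fin d, |w (t + 1) i - w t i| = 1 ∧
      ∀ k, k ≠ i → w (t + 1) k = w t k := by
    intro t ht
    have h := hw.1 t ht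
    unfold adj at h
    have hex : ∃ i : Fin d, w t i ≠ w (t + 1) i := by
      by_contra hc
      push Not at hc
      have : ∑ k, |w t k - w (t + 1) k| = 0 := by
        apply Finset.sum_eq_zero
        intro k _
        rw [hc k]; simp
      omega
    obtain ⟨i, hi⟩ := hex
    have h1 : 1 ≤ |w t i - w (t + 1) i| := by
      have : 0 < |w t i - w (t + 1) i| := abs_pos.2 (sub_ne_zero.2 hi)
      omega
    have h2 : |w t i - w (t + 1) i| + ∑ k ∈ univ.erase i, |w t k - w (t + 1) k| = 1 := by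
      rw [Finset.add_sum_erase univ (fun k => |w t k - w (t + 1) k|) (Finset.mem_univ i)]
      exact h
    have h3 : 0 ≤ ∑ k ∈ univ.erase i, |w t k - w (t + 1) k| :=
      Finset.sum_nonneg (fun k _ => abs_nonneg _)
    refine ⟨i, ?_, ?_⟩
    · rw [abs_sub_comm]; omega
    · intro k hk
      have h4 : ∑ k ∈ univ.erase i, |w t k - w (t + 1) k| = 0 := by omega
      have h5 := (Finset.sum_eq_zero_iff_of_nonneg (fun k _ => abs_nonneg _)).1 h4 k
        (Finset.mem_erase.2 ⟨hk, Finset.mem_univ k⟩)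
      have h6 := abs_eq_zero.1 h5
      omega
  have : Nonempty (Fin d) := ⟨⟨0, hd⟩⟩
  choose! I hI using key
  exact ⟨I, hI⟩

/-- the position of a step -/
def sel_P {d : ℕ} (w : ℕ → Vx d) (I : ℕ → Fin d) (t : ℕ) : ℤ := max (w t (I t)) (w (t + 1) (I t))

theorem sel_div (x h : ℤ) (hh : 0 < h) : (x - 1) / h ≠ x / h ↔ h ∣ x := by
  constructor
  · intro hne
    by_contra hd
    apply hne
    have h1 := Int.emod_add_mul_ediv x h
    have h2 := Int.emod_nonneg x hh.ne'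
    have h3 := Int.emod_lt_of_pos x hh
    have h4 : x % h ≠ 0 := fun h0 => hd (Int.dvd_of_emod_eq_zero h0)
    have h5 : 1 ≤ x % h := by omega
    rw [Int.ediv_eq_iff_of_pos hh]
    constructor
    · linarith [mul_comm h (x / h)]
    · linarith [mul_comm h (x / h)]
  · rintro ⟨c, rfl⟩ hne
    rw [Int.mul_ediv_cancel_left _ hh.ne', Int.ediv_eq_iff_of_pos hh] at hne
    nlinarith [hne.1]

theorem sel_div_le (x h : ℤ) (hh : 0 < h) : (x - 1) / h ≤ x / h :=
  Int.ediv_le_ediv hh (by omega)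

/-- data of the scale `j` -/
theorem sel_crs {d : ℕ} (D : Dt d) (I : ℕ → Fin d) (hρ : 0 < D.ρ) (hg : 0 < D.g)
    (hI : ∀ t, t < D.n → |D.w (t + 1) (I t) - D.w t (I t)| = 1 ∧
      ∀ k, k ≠ I t → D.w (t + 1) k = D.w t k) :
    D.crs = (range D.n).filter (fun t => (D.h : ℤ) ∣ sel_P D.w I t - D.a (I t)) := by
  have hh : (0 : ℤ) < (D.h : ℤ) := by
    have : 0 < D.h := Nat.mul_pos hρ hg
    exact_mod_cast this
  unfold Dt.crs
  apply Finset.filter_congr
  intro t ht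
  obtain ⟨h1, h2⟩ := hI t (Finset.mem_range.1 ht)
  have h3 : D.ci (D.w t) ≠ D.ci (D.w (t + 1)) ↔
      (D.w t (I t) - D.a (I t)) / (D.h : ℤ) ≠ (D.w (t + 1) (I t) - D.a (I t)) / (D.h : ℤ) := by
    constructor
    · intro hne he
      apply hne
      funext k
      unfold Dt.ci
      by_cases hk : k = I t
      · rw [hk]; exact he
      · rw [h2 k hk]
    · intro hne he
      apply hne
      have := congrFun he (I t)
      unfold Dt.ci at this
      exact this
  rw [h3]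
  have h4 : D.w (t + 1) (I t) = D.w t (I t) + 1 ∨ D.w t (I t) = D.w (t + 1) (I t) + 1 := by
    rcases (abs_eq (by norm_num : (0 : ℤ) ≤ 1)).1 h1 with h | h
    · left; omega
    · right; omega
  rcases h4 with h4 | h4
  · have h5 : sel_P D.w I t = D.w (t + 1) (I t) := by
      unfold sel_P; rw [h4]; simp
    have h6 : D.w t (I t) - D.a (I t) = (D.w (t + 1) (I t) - D.a (I t)) - 1 := by rw [h4]; ring
    rw [h5, h6]
    exact sel_div _ _ hh
  · have h5 : sel_P D.w I t = D.w t (I t) := by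
      unfold sel_P; rw [h4]; simp
    have h6 : D.w (t + 1) (I t) - D.a (I t) = (D.w t (I t) - D.a (I t)) - 1 := by rw [h4]; ring
    rw [h5, h6, ne_comm]
    exact sel_div _ _ hh

theorem sel_gc {d : ℕ} (D : Dt d) (I : ℕ → Fin d) (hρ : 0 < D.ρ) (hg : 0 < D.g) (t : ℕ)
    (hI : |D.w (t + 1) (I t) - D.w t (I t)| = 1 ∧ ∀ k, k ≠ I t → D.w (t + 1) k = D.w t k) :
    D.gc t = (ev (I t), fun k => if k = I t then (sel_P D.w I t - D.a (I t)) / (D.h : ℤ)
      else (D.w t k - D.a k) / (D.g : ℤ)) := by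
  have hh : (0 : ℤ) < (D.h : ℤ) := by
    have : 0 < D.h := Nat.mul_pos hρ hg
    exact_mod_cast this
  obtain ⟨h1, h2⟩ := hI
  unfold Dt.gc
  ext k
  · show |D.w (t + 1) k - D.w t k| = ev (I t) k
    unfold ev
    by_cases hk : k = I t
    · rw [hk, h1]; simp
    · rw [h2 k hk]; simp [hk]
  · show (if |D.w (t + 1) k - D.w t k| = 1 then max (D.ci (D.w t) k) (D.ci (D.w (t + 1)) k)
      else (D.w t k - D.a k) / (D.g : ℤ)) = (if k = I t then (sel_P D.w I t - D.a (I t)) / (D.h : ℤ)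
      else (D.w t k - D.a k) / (D.g : ℤ))
    by_cases hk : k = I t
    · subst hk
      rw [if_pos h1, if_pos rfl]
      have h4 : D.w (t + 1) (I t) = D.w t (I t) + 1 ∨ D.w t (I t) = D.w (t + 1) (I t) + 1 := by
        rcases (abs_eq (by norm_num : (0 : ℤ) ≤ 1)).1 h1 with h | h
        · left; omega
        · right; omega
      unfold Dt.ci
      rcases h4 with h4 | h4
      · have h5 : sel_P D.w I t = D.w (t + 1) (I t) := by
          unfold sel_P; rw [h4]; simp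
        have h6 : D.w t (I t) - D.a (I t) = (D.w (t + 1) (I t) - D.a (I t)) - 1 := by rw [h4]; ring
        rw [h5, h6]
        exact max_eq_right (sel_div_le _ _ hh)
      · have h5 : sel_P D.w I t = D.w t (I t) := by
          unfold sel_P; rw [h4]; simp
        have h6 : D.w (t + 1) (I t) - D.a (I t) = (D.w t (I t) - D.a (I t)) - 1 := by rw [h4]; ring
        rw [h5, h6]
        exact max_eq_left (sel_div_le _ _ hh)
    · have : |D.w (t + 1) k - D.w t k| ≠ 1 := by rw [h2 k hk]; simp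
      rw [if_neg this, if_neg hk]

theorem sel_ev {d : ℕ} (i k : Fin d) : ev i k = 1 ↔ k = i := by
  unfold ev
  by_cases hk : k = i
  · subst hk; simp
  · simp [hk]

theorem sel_ev_inj {d : ℕ} (i k : Fin d) (h : ev i = ev k) : i = k := by
  have h1 : ev i i = 1 := (sel_ev i i).2 rfl
  rw [h] at h1
  exact (sel_ev k i).1 h1

theorem sel_grs {d : ℕ} (D : Dt d) (I : ℕ → Fin d) (hρ : 0 < D.ρ) (hg : 0 < D.g)
    (hI : ∀ t, t < D.n → |D.w (t + 1) (I t) - D.w t (I t)| = 1 ∧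
      ∀ k, k ≠ I t → D.w (t + 1) k = D.w t k) :
    D.grs.card = (((range D.n).filter (fun t => (D.h : ℤ) ∣ sel_P D.w I t - D.a (I t))).image
      (sel_cd D.w I (sel_P D.w I) D.g D.a)).card := by
  have hh : (0 : ℤ) < (D.h : ℤ) := by
    have : 0 < D.h := Nat.mul_pos hρ hg
    exact_mod_cast this
  unfold Dt.grs
  rw [sel_crs D I hρ hg hI]
  apply sel_img
  intro s hs t ht
  obtain ⟨hs1, hs2⟩ := Finset.mem_filter.1 hs
  obtain ⟨ht1, ht2⟩ := Finset.mem_filter.1 ht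
  rw [sel_gc D I hρ hg s (hI s (Finset.mem_range.1 hs1)),
    sel_gc D I hρ hg t (hI t (Finset.mem_range.1 ht1))]
  unfold sel_cd
  simp only [Prod.mk.injEq]
  constructor
  · rintro ⟨h1, h2⟩
    have h3 := sel_ev_inj _ _ h1
    rw [← h3] at h2 ht2 ⊢
    refine ⟨rfl, ?_, ?_⟩
    · have h4 := congrFun h2 (I s)
      simp only [if_true] at h4
      have h5 := (Int.ediv_left_inj hs2 ht2).1 h4
      omega
    · funext k
      have h4 := congrFun h2 k
      by_cases hk : k = I s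
      · simp [hk]
      · simp only [if_neg hk] at h4 ⊢
        exact h4
  · rintro ⟨h1, h2, h3⟩
    refine ⟨by rw [h1], ?_⟩
    funext k
    have h4 := congrFun h3 k
    by_cases hk : k = I s
    · rw [← h1, ← h2]; simp [hk]
    · have hk' : k ≠ I t := by rw [← h1]; exact hk
      simp only [if_neg hk, if_neg hk'] at h4 ⊢
      exact h4

theorem sel_sec {d : ℕ} (D : Dt d) (I : ℕ → Fin d) (hρ : 0 < D.ρ) (hg : 0 < D.g)
    (hI : ∀ t, t < D.n → |D.w (t + 1) (I t) - D.w t (I t)| = 1 ∧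
      ∀ k, k ≠ I t → D.w (t + 1) k = D.w t k) :
    (D.grs.image D.sc).card =
      (((range D.n).filter (fun t => (D.h : ℤ) ∣ sel_P D.w I t - D.a (I t))).image
      (sel_cd D.w I (sel_P D.w I) (D.g * D.ρ ^ 2) D.a)).card := by
  have hh : (0 : ℤ) < (D.h : ℤ) := by
    have : 0 < D.h := Nat.mul_pos hρ hg
    exact_mod_cast this
  unfold Dt.grs
  rw [sel_crs D I hρ hg hI, Finset.image_image]
  apply sel_img
  intro s hs t ht
  obtain ⟨hs1, hs2⟩ := Finset.mem_filter.1 hs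
  obtain ⟨ht1, ht2⟩ := Finset.mem_filter.1 ht
  have hsc : ∀ r, r < D.n → D.sc (D.gc r) = (ev (I r), fun k => if k = I r then
      (sel_P D.w I r - D.a (I r)) / (D.h : ℤ)
      else (D.w r k - D.a k) / ((D.g * D.ρ ^ 2 : ℕ) : ℤ)) := by
    intro r hr
    rw [sel_gc D I hρ hg r (hI r hr)]
    unfold Dt.sc
    simp only [Prod.mk.injEq, true_and]
    funext k
    by_cases hk : k = I r
    · rw [if_pos ((sel_ev (I r) k).2 hk), if_pos hk, if_pos hk]
    · rw [if_neg (fun hc => hk ((sel_ev (I r) k).1 hc)), if_neg hk, if_neg hk]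
      rw [Int.ediv_ediv_of_nonneg (by positivity)]
      push_cast
      rfl
  simp only [Function.comp]
  rw [hsc s (Finset.mem_range.1 hs1), hsc t (Finset.mem_range.1 ht1)]
  unfold sel_cd
  simp only [Prod.mk.injEq]
  constructor
  · rintro ⟨h1, h2⟩
    have h3 := sel_ev_inj _ _ h1
    rw [← h3] at h2 ht2 ⊢
    refine ⟨rfl, ?_, ?_⟩
    · have h4 := congrFun h2 (I s)
      simp only [if_true] at h4
      have h5 := (Int.ediv_left_inj hs2 ht2).1 h4
      omega
    · funext k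
      have h4 := congrFun h2 k
      by_cases hk : k = I s
      · simp [hk]
      · simp only [if_neg hk] at h4 ⊢
        exact h4
  · rintro ⟨h1, h2, h3⟩
    refine ⟨by rw [h1], ?_⟩
    funext k
    have h4 := congrFun h3 k
    by_cases hk : k = I s
    · rw [← h1, ← h2]; simp [hk]
    · have hk' : k ≠ I t := by rw [← h1]; exact hk
      simp only [if_neg hk, if_neg hk'] at h4 ⊢
      exact h4

theorem sel_gbd {d : ℕ} (D : Dt d) (I : ℕ → Fin d) (hρ : 0 < D.ρ) (hg : 0 < D.g)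
    (hI : ∀ t, t < D.n → |D.w (t + 1) (I t) - D.w t (I t)| = 1 ∧
      ∀ k, k ≠ I t → D.w (t + 1) k = D.w t k) :
    D.gbd.card ≤ ∑ t ∈ range D.n,
      (if ((D.ρ * D.h : ℕ) : ℤ) ∣ sel_P D.w I t - D.a (I t) then 1 else 0) := by
  classical
  rw [← Finset.card_filter]
  have hsub : D.gbd ⊆ ((range D.n).filter
      (fun t => ((D.ρ * D.h : ℕ) : ℤ) ∣ sel_P D.w I t - D.a (I t))).image D.gc := by
    intro y hy
    unfold Dt.gbd at hy
    obtain ⟨hy1, k, hk1, hk2⟩ := Finset.mem_filter.1 hy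
    unfold Dt.grs at hy1
    obtain ⟨t, ht, rfl⟩ := Finset.mem_image.1 hy1
    rw [sel_crs D I hρ hg hI] at ht
    obtain ⟨ht1, ht2⟩ := Finset.mem_filter.1 ht
    refine Finset.mem_image.2 ⟨t, Finset.mem_filter.2 ⟨ht1, ?_⟩, rfl⟩
    rw [sel_gc D I hρ hg t (hI t (Finset.mem_range.1 ht1))] at hk1 hk2
    have hk : k = I t := (sel_ev (I t) k).1 hk1
    simp only [if_pos hk] at hk2
    obtain ⟨c, hc⟩ := ht2
    have hh : (D.h : ℤ) ≠ 0 := by
      have : 0 < D.h := Nat.mul_pos hρ hg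
      exact_mod_cast this.ne'
    rw [hc, Int.mul_ediv_cancel_left _ hh] at hk2
    rw [hc]
    push_cast
    rw [mul_comm]
    exact mul_dvd_mul_left _ hk2
  exact (Finset.card_le_card hsub).trans Finset.card_image_le

theorem sel_crb {d : ℕ} (D : Dt d) (hρ : 0 < D.ρ) (hg : 0 < D.g) :
    D.crb ≤ ∑ p ∈ D.vs ×ˢ (univ : Finset (Fin d)),
      (if (D.h : ℤ) ∣ (p.1 p.2 + 1) - D.a p.2 then 1 else 0) := by
  have hh : (0 : ℤ) < (D.h : ℤ) := by
    have : 0 < D.h := Nat.mul_pos hρ hg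
    exact_mod_cast this
  rw [← Finset.card_filter]
  unfold Dt.crb
  apply Finset.card_le_card
  intro p hp
  obtain ⟨hp1, _, hp3⟩ := Finset.mem_filter.1 hp
  refine Finset.mem_filter.2 ⟨hp1, ?_⟩
  by_contra hc
  apply hp3
  funext k
  unfold Dt.ci
  have hk' : ev p.2 k = if k = p.2 then 1 else 0 := by
    unfold ev; rw [Pi.single_apply]
  by_cases hk : k = p.2
  · subst hk
    have h1 : (p.1 + ev p.2) p.2 = p.1 p.2 + 1 := by
      rw [Pi.add_apply, hk', if_pos rfl]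
    rw [h1]
    have h2 := (sel_div (p.1 p.2 + 1 - D.a p.2) (D.h : ℤ) hh).not.2 hc
    rw [not_not] at h2
    rw [← h2]
    congr 1
    ring
  · have h1 : (p.1 + ev p.2) k = p.1 k := by
      rw [Pi.add_apply, hk', if_neg hk, add_zero]
    rw [h1]

/-- total number of codes at scale `s` -/
noncomputable def sel_A {d : ℕ} (w : ℕ → Vx d) (I : ℕ → Fin d) (n L s : ℕ) : ℕ :=
  ∑ a ∈ sel_Om d L, ((range n).image (sel_cd w I (sel_P w I) s a)).card

theorem sel_B3 {d : ℕ} (w : ℕ → Vx d) (I : ℕ → Fin d) (n ρ J j : ℕ) (hρ : 0 < ρ) (hj : j < J)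
    (hI : ∀ t, t < n → |w (t + 1) (I t) - w t (I t)| = 1 ∧
      ∀ k, k ≠ I t → w (t + 1) k = w t k) :
    ρ ^ (2 * j + 1) * ∑ a ∈ sel_Om d (ρ ^ (2 * J)), (Dt.mk w n a ρ (ρ ^ (2 * j))).gbad.card +
      2 * sel_A w I n (ρ ^ (2 * J)) (ρ ^ (2 * (j + 1))) ≤
      2 * sel_A w I n (ρ ^ (2 * J)) (ρ ^ (2 * j)) := by
  classical
  have hL0 : 0 < ρ ^ (2 * J) := pow_pos hρ _
  have hg0 : 0 < ρ ^ (2 * j) := pow_pos hρ _
  have hh0 : 0 < ρ ^ (2 * j + 1) := pow_pos hρ _
  have hdvd : ρ ^ (2 * j + 1) ∣ ρ ^ (2 * J) := pow_dvd_pow _ (by omega)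
  have h1 := sel_avg w I (sel_P w I) (ρ ^ (2 * j)) n (ρ ^ (2 * J)) (ρ ^ (2 * j + 1)) hL0 hh0 hdvd
  have h2 := sel_avg w I (sel_P w I) (ρ ^ (2 * (j + 1))) n (ρ ^ (2 * J)) (ρ ^ (2 * j + 1)) hL0 hh0
    hdvd
  unfold sel_A
  rw [← h1, ← h2]
  have h3 : ∀ a ∈ sel_Om d (ρ ^ (2 * J)), (Dt.mk w n a ρ (ρ ^ (2 * j))).gbad.card +
      2 * (((range n).filter (fun t => ((ρ ^ (2 * j + 1) : ℕ) : ℤ) ∣ sel_P w I t - a (I t))).image
        (sel_cd w I (sel_P w I) (ρ ^ (2 * (j + 1))) a)).card ≤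
      2 * (((range n).filter (fun t => ((ρ ^ (2 * j + 1) : ℕ) : ℤ) ∣ sel_P w I t - a (I t))).image
        (sel_cd w I (sel_P w I) (ρ ^ (2 * j)) a)).card := by
    intro a _
    have hh : (Dt.mk w n a ρ (ρ ^ (2 * j))).h = ρ ^ (2 * j + 1) := by
      unfold Dt.h
      show ρ * ρ ^ (2 * j) = ρ ^ (2 * j + 1)
      rw [pow_succ, mul_comm]
    have hgg : ρ ^ (2 * j) * ρ ^ 2 = ρ ^ (2 * (j + 1)) := by
      rw [← pow_add]; congr 1
    have h4 := sel_grs (Dt.mk w n a ρ (ρ ^ (2 * j))) I hρ hg0 hI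
    have h5 := sel_sec (Dt.mk w n a ρ (ρ ^ (2 * j))) I hρ hg0 hI
    rw [hh] at h4 h5
    have h6 := sel_bad (Dt.mk w n a ρ (ρ ^ (2 * j))).grs (Dt.mk w n a ρ (ρ ^ (2 * j))).sc
      (Dt.mk w n a ρ (ρ ^ (2 * j))).gbad (Finset.filter_subset _ _) (by
        intro y hy
        unfold Dt.gbad at hy
        obtain ⟨_, _, y', hy1, hy2, hy3⟩ := Finset.mem_filter.1 hy
        exact ⟨y', hy1, hy2, hy3⟩)
    rw [h4, h5] at h6
    simp only at h6
    rw [hgg] at h6
    exact h6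
  have h4 := Finset.sum_le_sum h3
  rw [Finset.sum_add_distrib, ← Finset.mul_sum, ← Finset.mul_sum] at h4
  calc _ = ρ ^ (2 * j + 1) * (∑ a ∈ sel_Om d (ρ ^ (2 * J)),
        (Dt.mk w n a ρ (ρ ^ (2 * j))).gbad.card + 2 * ∑ a ∈ sel_Om d (ρ ^ (2 * J)),
        (((range n).filter (fun t => ((ρ ^ (2 * j + 1) : ℕ) : ℤ) ∣ sel_P w I t - a (I t))).image
        (sel_cd w I (sel_P w I) (ρ ^ (2 * (j + 1))) a)).card) := by ring
    _ ≤ ρ ^ (2 * j + 1) * (2 * ∑ a ∈ sel_Om d (ρ ^ (2 * J)),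
        (((range n).filter (fun t => ((ρ ^ (2 * j + 1) : ℕ) : ℤ) ∣ sel_P w I t - a (I t))).image
        (sel_cd w I (sel_P w I) (ρ ^ (2 * j)) a)).card) := Nat.mul_le_mul_left _ h4
    _ = _ := by ring

theorem sel_Omcard (d L : ℕ) : (sel_Om d L).card = L ^ d := by
  simp [sel_Om]

theorem sel_B2 {d : ℕ} (w : ℕ → Vx d) (I : ℕ → Fin d) (n ρ J j : ℕ) (hρ : 0 < ρ) (hj : j < J)
    (hI : ∀ t, t < n → |w (t + 1) (I t) - w t (I t)| = 1 ∧
      ∀ k, k ≠ I t → w (t + 1) k = w t k) :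
    ρ ^ (2 * j + 2) * ∑ a ∈ sel_Om d (ρ ^ (2 * J)), (Dt.mk w n a ρ (ρ ^ (2 * j))).gbd.card ≤
      n * (ρ ^ (2 * J)) ^ d := by
  have hL0 : 0 < ρ ^ (2 * J) := pow_pos hρ _
  have hg0 : 0 < ρ ^ (2 * j) := pow_pos hρ _
  have hh0 : 0 < ρ ^ (2 * j + 2) := pow_pos hρ _
  have hdvd : ρ ^ (2 * j + 2) ∣ ρ ^ (2 * J) := pow_dvd_pow _ (by omega)
  have h3 : ∀ a ∈ sel_Om d (ρ ^ (2 * J)), (Dt.mk w n a ρ (ρ ^ (2 * j))).gbd.card ≤
      ∑ t ∈ range n, (if ((ρ ^ (2 * j + 2) : ℕ) : ℤ) ∣ sel_P w I t - a (I t) then 1 else 0) := by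
    intro a _
    have h4 := sel_gbd (Dt.mk w n a ρ (ρ ^ (2 * j))) I hρ hg0 hI
    have hh : (Dt.mk w n a ρ (ρ ^ (2 * j))).ρ * (Dt.mk w n a ρ (ρ ^ (2 * j))).h =
        ρ ^ (2 * j + 2) := by
      unfold Dt.h
      show ρ * (ρ * ρ ^ (2 * j)) = ρ ^ (2 * j + 2)
      ring
    rw [hh] at h4
    exact h4
  calc _ ≤ ρ ^ (2 * j + 2) * ∑ a ∈ sel_Om d (ρ ^ (2 * J)), ∑ t ∈ range n,
        (if ((ρ ^ (2 * j + 2) : ℕ) : ℤ) ∣ sel_P w I t - a (I t) then 1 else 0) :=
        Nat.mul_le_mul_left _ (Finset.sum_le_sum h3)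
    _ = ∑ t ∈ range n, ρ ^ (2 * j + 2) * ∑ a ∈ sel_Om d (ρ ^ (2 * J)),
        (if ((ρ ^ (2 * j + 2) : ℕ) : ℤ) ∣ sel_P w I t - a (I t) then 1 else 0) := by
        rw [Finset.sum_comm, Finset.mul_sum]
    _ = ∑ t ∈ range n, (ρ ^ (2 * J)) ^ d := by
        apply Finset.sum_congr rfl
        intro t _
        exact sel_one _ _ hL0 hh0 hdvd _ _
    _ = n * (ρ ^ (2 * J)) ^ d := by simp

theorem sel_B1 {d : ℕ} (w : ℕ → Vx d) (n ρ J j : ℕ) (hρ : 0 < ρ) (hj : j < J) :
    ρ ^ (2 * j + 1) * ∑ a ∈ sel_Om d (ρ ^ (2 * J)), (Dt.mk w n a ρ (ρ ^ (2 * j))).crb ≤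
      d * (n + 1) * (ρ ^ (2 * J)) ^ d := by
  have hL0 : 0 < ρ ^ (2 * J) := pow_pos hρ _
  have hg0 : 0 < ρ ^ (2 * j) := pow_pos hρ _
  have hh0 : 0 < ρ ^ (2 * j + 1) := pow_pos hρ _
  have hdvd : ρ ^ (2 * j + 1) ∣ ρ ^ (2 * J) := pow_dvd_pow _ (by omega)
  have h3 : ∀ a ∈ sel_Om d (ρ ^ (2 * J)), (Dt.mk w n a ρ (ρ ^ (2 * j))).crb ≤
      ∑ p ∈ ((range (n + 1)).image w) ×ˢ (univ : Finset (Fin d)),
        (if ((ρ ^ (2 * j + 1) : ℕ) : ℤ) ∣ (p.1 p.2 + 1) - a p.2 then 1 else 0) := by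
    intro a _
    have h4 := sel_crb (Dt.mk w n a ρ (ρ ^ (2 * j))) hρ hg0
    have hh : (Dt.mk w n a ρ (ρ ^ (2 * j))).h = ρ ^ (2 * j + 1) := by
      unfold Dt.h
      show ρ * ρ ^ (2 * j) = ρ ^ (2 * j + 1)
      ring
    rw [hh] at h4
    exact h4
  calc _ ≤ ρ ^ (2 * j + 1) * ∑ a ∈ sel_Om d (ρ ^ (2 * J)),
        ∑ p ∈ ((range (n + 1)).image w) ×ˢ (univ : Finset (Fin d)),
        (if ((ρ ^ (2 * j + 1) : ℕ) : ℤ) ∣ (p.1 p.2 + 1) - a p.2 then 1 else 0) :=
        Nat.mul_le_mul_left _ (Finset.sum_le_sum h3)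
    _ = ∑ p ∈ ((range (n + 1)).image w) ×ˢ (univ : Finset (Fin d)), ρ ^ (2 * j + 1) *
        ∑ a ∈ sel_Om d (ρ ^ (2 * J)),
        (if ((ρ ^ (2 * j + 1) : ℕ) : ℤ) ∣ (p.1 p.2 + 1) - a p.2 then 1 else 0) := by
        rw [Finset.sum_comm, Finset.mul_sum]
    _ = ∑ p ∈ ((range (n + 1)).image w) ×ˢ (univ : Finset (Fin d)), (ρ ^ (2 * J)) ^ d := by
        apply Finset.sum_congr rfl
        intro t _
        exact sel_one _ _ hL0 hh0 hdvd _ _
    _ = (((range (n + 1)).image w).card * d) * (ρ ^ (2 * J)) ^ d := by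
        rw [Finset.sum_const, Finset.card_product, smul_eq_mul]
        simp
    _ ≤ d * (n + 1) * (ρ ^ (2 * J)) ^ d := by
        apply Nat.mul_le_mul_right
        have : ((range (n + 1)).image w).card ≤ n + 1 := by
          simpa using (Finset.card_image_le (s := range (n + 1)) (f := w))
        rw [mul_comm]
        exact Nat.mul_le_mul_left _ this

theorem p_SEL (d : ℕ) : St_SEL d := by
  intro hd w n ρ J hρ2 hJ hw
  have hρ : 0 < ρ := by omega
  obtain ⟨I, hI⟩ := sel_dir hd w n hw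
  set L : ℕ := ρ ^ (2 * J) with hL
  have hL0 : 0 < L := pow_pos hρ _
  have hN0 : 0 < L ^ d := pow_pos hL0 _
  -- telescoping
  have tele : ∀ K, K ≤ J → ∑ j ∈ range K, ρ ^ (2 * j + 1) *
      ∑ a ∈ sel_Om d L, (Dt.mk w n a ρ (ρ ^ (2 * j))).gbad.card +
      2 * sel_A w I n L (ρ ^ (2 * K)) ≤ 2 * sel_A w I n L (ρ ^ (2 * 0)) := by
    intro K
    induction K with
    | zero => intro _; simp
    | succ K ih =>
      intro hK
      have h1 := ih (by omega)
      have h2 := sel_B3 w I n ρ J K hρ (by omega) hI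
      rw [← hL] at h2
      rw [Finset.sum_range_succ]
      omega
  have hA0 : sel_A w I n L (ρ ^ (2 * 0)) ≤ n * L ^ d := by
    unfold sel_A
    calc _ ≤ ∑ a ∈ sel_Om d L, n := by
          apply Finset.sum_le_sum
          intro a _
          exact (Finset.card_image_le (s := range n)
            (f := sel_cd w I (sel_P w I) (ρ ^ (2 * 0)) a)).trans (le_of_eq (card_range n))
      _ = n * L ^ d := by rw [Finset.sum_const, sel_Omcard, smul_eq_mul, mul_comm]
  have hB3 := tele J le_rfl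
  -- the averaged quantity
  have hsum : ∑ q ∈ range J ×ˢ sel_Om d L,
      (2 * (ρ ^ (2 * q.1 + 1) * (Dt.mk w n q.2 ρ (ρ ^ (2 * q.1))).crb) +
        2 * d * (ρ ^ (2 * q.1 + 2) * (Dt.mk w n q.2 ρ (ρ ^ (2 * q.1))).gbd.card) +
        d * J * (ρ ^ (2 * q.1 + 1) * (Dt.mk w n q.2 ρ (ρ ^ (2 * q.1))).gbad.card)) ≤
      ∑ q ∈ range J ×ˢ sel_Om d L, 6 * d * (n + 1) := by
    rw [Finset.sum_product, Finset.sum_const, Finset.card_product, sel_Omcard, card_range,
      smul_eq_mul]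
    have e1 : ∑ j ∈ range J, ∑ a ∈ sel_Om d L,
        (2 * (ρ ^ (2 * j + 1) * (Dt.mk w n a ρ (ρ ^ (2 * j))).crb) +
        2 * d * (ρ ^ (2 * j + 2) * (Dt.mk w n a ρ (ρ ^ (2 * j))).gbd.card) +
        d * J * (ρ ^ (2 * j + 1) * (Dt.mk w n a ρ (ρ ^ (2 * j))).gbad.card)) =
        ∑ j ∈ range J, (2 * (ρ ^ (2 * j + 1) * ∑ a ∈ sel_Om d L,
          (Dt.mk w n a ρ (ρ ^ (2 * j))).crb)) +
        ∑ j ∈ range J, (2 * d * (ρ ^ (2 * j + 2) * ∑ a ∈ sel_Om d L,
          (Dt.mk w n a ρ (ρ ^ (2 * j))).gbd.card)) +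
        d * J * ∑ j ∈ range J, (ρ ^ (2 * j + 1) * ∑ a ∈ sel_Om d L,
          (Dt.mk w n a ρ (ρ ^ (2 * j))).gbad.card) := by
      rw [Finset.mul_sum, ← Finset.sum_add_distrib, ← Finset.sum_add_distrib]
      apply Finset.sum_congr rfl
      intro j _
      rw [Finset.sum_add_distrib, Finset.sum_add_distrib]
      simp only [Finset.mul_sum]
    simp only at e1 ⊢
    rw [e1]
    have b1 : ∑ j ∈ range J, (2 * (ρ ^ (2 * j + 1) * ∑ a ∈ sel_Om d L,
          (Dt.mk w n a ρ (ρ ^ (2 * j))).crb)) ≤ J * (2 * (d * (n + 1) * L ^ d)) := by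
      calc _ ≤ ∑ j ∈ range J, 2 * (d * (n + 1) * L ^ d) := by
            apply Finset.sum_le_sum
            intro j hj
            exact Nat.mul_le_mul_left _ (sel_B1 w n ρ J j hρ (Finset.mem_range.1 hj))
        _ = _ := by simp
    have b2 : ∑ j ∈ range J, (2 * d * (ρ ^ (2 * j + 2) * ∑ a ∈ sel_Om d L,
          (Dt.mk w n a ρ (ρ ^ (2 * j))).gbd.card)) ≤ J * (2 * d * (n * L ^ d)) := by
      calc _ ≤ ∑ j ∈ range J, 2 * d * (n * L ^ d) := by
            apply Finset.sum_le_sum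
            intro j hj
            exact Nat.mul_le_mul_left _ (sel_B2 w I n ρ J j hρ (Finset.mem_range.1 hj) hI)
        _ = _ := by simp
    have b3 : d * J * ∑ j ∈ range J, (ρ ^ (2 * j + 1) * ∑ a ∈ sel_Om d L,
          (Dt.mk w n a ρ (ρ ^ (2 * j))).gbad.card) ≤ d * J * (2 * (n * L ^ d)) := by
      apply Nat.mul_le_mul_left
      omega
    calc _ ≤ J * (2 * (d * (n + 1) * L ^ d)) + J * (2 * d * (n * L ^ d)) +
          d * J * (2 * (n * L ^ d)) := by
          exact Nat.add_le_add (Nat.add_le_add b1 b2) b3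
      _ ≤ J * L ^ d * (6 * d * (n + 1)) := by
          have : 0 ≤ J * L ^ d * d := Nat.zero_le _
          nlinarith
  have hne : (range J ×ˢ sel_Om d L).Nonempty := by
    rw [← Finset.card_pos, Finset.card_product, card_range, sel_Omcard]
    exact Nat.mul_pos (by omega) hN0
  obtain ⟨q, hq, hle⟩ := Finset.exists_le_of_sum_le hne hsum
  obtain ⟨hq1, hq2⟩ := Finset.mem_product.1 hq
  refine ⟨q.1, Finset.mem_range.1 hq1, q.2, ?_, ?_, ?_, ?_⟩
  · exact (sel_mem q.2).1 hq2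
  · have : 2 * (ρ ^ (2 * q.1 + 1) * (Dt.mk w n q.2 ρ (ρ ^ (2 * q.1))).crb) ≤
        6 * d * (n + 1) := by omega
    have h2 : 6 * d * (n + 1) = 2 * (3 * d * (n + 1)) := by ring
    omega
  · have : 2 * d * (ρ ^ (2 * q.1 + 2) * (Dt.mk w n q.2 ρ (ρ ^ (2 * q.1))).gbd.card) ≤
        6 * d * (n + 1) := by omega
    have h2 : 6 * d * (n + 1) = 2 * d * (3 * (n + 1)) := by ring
    rw [h2] at this
    exact Nat.le_of_mul_le_mul_left this (by omega)
  · have : d * J * (ρ ^ (2 * q.1 + 1) * (Dt.mk w n q.2 ρ (ρ ^ (2 * q.1))).gbad.card) ≤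
        6 * d * (n + 1) := by omega
    have h2 : 6 * d * (n + 1) = d * (6 * (n + 1)) := by ring
    rw [h2, mul_assoc d J] at this
    have h3 := Nat.le_of_mul_le_mul_left this (by omega)
    rw [mul_assoc]
    exact h3

end Pool.Agent.H981R3.IS
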