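import Pool.Agent.H981R3.IS.Stubs

set_option autoImplicit false

/-! SEQ: approximately superadditive sequences. -/

namespace Pool.Agent.H981R3.IS

open Filter

theorem seq_log (D : ℝ) (hD : 0 < D) (e : ℝ) (he : 0 < e) :
    ∃ N : ℕ, ∀ n : ℕ, N ≤ n → Real.log (D * n) ≤ e * n := by
  have h1 : ∀ᶠ x : ℝ in atTop, ‖Real.log x‖ ≤ (e / D) * ‖id x‖ :=
    Real.isLittleO_log_id_atTop.def (by positivity)
  have h2 : Tendsto (fun n : ℕ => D * (n : ℝ)) atTop atTop :=
    tendsto_natCast_atTop_atTop.const_mul_atTop hD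
  have h3 := h2.eventually h1
  obtain ⟨N, hN⟩ := eventually_atTop.1 h3
  refine ⟨N, fun n hn => ?_⟩
  have h4 := hN n hn
  simp only [id] at h4
  have h5 : ‖D * (n : ℝ)‖ = D * n := by
    rw [Real.norm_eq_abs, abs_of_nonneg (by positivity)]
  rw [h5] at h4
  have h6 : (e / D) * (D * (n : ℝ)) = e * n := by
    field_simp
  rw [h6] at h4
  exact (le_abs_self _).trans h4

/-- doubling step -/
theorem seq_dbl (u : ℕ → ℝ) (C : ℝ) (hC : 1 ≤ C)
    (h1 : ∀ m n : ℕ, 2 ≤ m → 2 ≤ n → u m + u n ≤ u (m + n) + Real.log (C * (m + n)))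
    (m : ℕ) (hm : 2 ≤ m) (a : ℝ) (ha : a * m ≤ u m - Real.log (4 * C * m)) :
    a * ((2 * m : ℕ) : ℝ) ≤ u (2 * m) - Real.log (4 * C * ((2 * m : ℕ) : ℝ)) := by
  have h2 := h1 m m hm hm
  have hm0 : (0 : ℝ) < m := by exact_mod_cast (by omega : 0 < m)
  have hC0 : (0 : ℝ) < C := by linarith
  have h3 : m + m = 2 * m := by ring
  rw [h3] at h2
  have h4 : Real.log (C * ((m : ℝ) + m)) = Real.log (C * m) + Real.log 2 := by
    rw [← Real.log_mul (by positivity) (by norm_num)]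
    congr 1; ring
  have h5 : Real.log (4 * C * m) = Real.log (C * m) + 2 * Real.log 2 := by
    have : (2 : ℝ) * Real.log 2 = Real.log 4 := by
      rw [show (4 : ℝ) = 2 ^ 2 by norm_num, Real.log_pow]; norm_num
    rw [this, ← Real.log_mul (by positivity) (by norm_num)]
    congr 1; ring
  have h6 : Real.log (4 * C * ((2 * m : ℕ) : ℝ)) = Real.log (C * m) + 3 * Real.log 2 := by
    have : (3 : ℝ) * Real.log 2 = Real.log 8 := by
      rw [show (8 : ℝ) = 2 ^ 3 by norm_num, Real.log_pow]; norm_num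
    rw [this, ← Real.log_mul (by positivity) (by norm_num)]
    congr 1; push_cast; ring
  rw [h4] at h2
  rw [h5] at ha
  rw [h6]
  push_cast
  nlinarith

theorem seq_pow (u : ℕ → ℝ) (C : ℝ) (hC : 1 ≤ C)
    (h1 : ∀ m n : ℕ, 2 ≤ m → 2 ≤ n → u m + u n ≤ u (m + n) + Real.log (C * (m + n)))
    (m : ℕ) (hm : 2 ≤ m) (a : ℝ) (ha : a * m ≤ u m - Real.log (4 * C * m)) (k : ℕ) :
    a * ((2 ^ k * m : ℕ) : ℝ) ≤ u (2 ^ k * m) - Real.log (4 * C * ((2 ^ k * m : ℕ) : ℝ)) := by
  induction k with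
  | zero => simpa using ha
  | succ k ih =>
    have h2 : 2 ≤ 2 ^ k * m := by
      have : 1 ≤ 2 ^ k := Nat.one_le_two_pow
      nlinarith
    have h3 := seq_dbl u C hC h1 (2 ^ k * m) h2 a ih
    have h4 : 2 ^ (k + 1) * m = 2 * (2 ^ k * m) := by ring
    rw [h4]
    exact h3

theorem seq_low (u : ℕ → ℝ) (C : ℝ) (hC : 1 ≤ C)
    (h1 : ∀ m n : ℕ, 2 ≤ m → 2 ≤ n → u m + u n ≤ u (m + n) + Real.log (C * (m + n)))
    (h0 : ∀ m : ℕ, 2 ≤ m → 0 ≤ u m)
    (m : ℕ) (hm : 2 ≤ m) (a : ℝ) (ha : a * m ≤ u m - Real.log (4 * C * m))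
    (e : ℝ) (he : 0 < e) :
    ∃ K : ℝ, ∀ n : ℕ, 2 ≤ n → (a - e) * n - K ≤ u n := by
  have hC0 : (0 : ℝ) < C := by linarith
  obtain ⟨N, hN⟩ := seq_log C hC0 (e / 4) (by positivity)
  refine ⟨|a - e| * ((N + m + 4 : ℕ) : ℝ), ?_⟩
  intro n
  induction n using Nat.strong_induction_on with
  | _ n ih =>
    intro hn
    by_cases hlt : n < N + m + 4
    · have h2 : (n : ℝ) ≤ ((N + m + 4 : ℕ) : ℝ) := by exact_mod_cast hlt.le
      have h3 : (a - e) * n ≤ |a - e| * n :=
        mul_le_mul_of_nonneg_right (le_abs_self _) (Nat.cast_nonneg _)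
      have h4 : |a - e| * (n : ℝ) ≤ |a - e| * ((N + m + 4 : ℕ) : ℝ) :=
        mul_le_mul_of_nonneg_left h2 (abs_nonneg _)
      have := h0 n hn
      linarith
    · have hge : N + m + 4 ≤ n := by omega
      set k := Nat.log 2 ((n - 2) / m) with hk
      have hm1 : 0 < m := by omega
      have hq : (n - 2) / m ≠ 0 := by
        have : 1 ≤ (n - 2) / m := by
          rw [Nat.le_div_iff_mul_le hm1]; omega
        omega
      have h5 : 2 ^ k ≤ (n - 2) / m := Nat.pow_log_le_self 2 hq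
      have h6 : (n - 2) / m < 2 ^ (k + 1) := Nat.lt_pow_succ_log_self (by norm_num) _
      have h7 : 2 ^ k * m ≤ n - 2 := (Nat.le_div_iff_mul_le hm1).1 h5
      have h8 : n - 2 < 2 ^ (k + 1) * m := (Nat.div_lt_iff_lt_mul hm1).1 h6
      have h9 : 2 ≤ 2 ^ k * m := by
        have : 1 ≤ 2 ^ k := Nat.one_le_two_pow
        nlinarith
      obtain ⟨r, hr⟩ : ∃ r, n = 2 ^ k * m + r := ⟨n - 2 ^ k * m, by omega⟩
      have hr2 : 2 ≤ r := by omega
      have hrn : r < n := by omega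
      have h10 := ih r hrn hr2
      have h11 := seq_pow u C hC h1 m hm a ha k
      have h12 := h1 (2 ^ k * m) r h9 hr2
      rw [← hr] at h12
      have h13 : ((2 ^ k * m : ℕ) : ℝ) + (r : ℝ) = (n : ℝ) := by
        rw [hr]; push_cast; ring
      rw [h13] at h12
      have h14 := hN n (by omega)
      have h15 : 0 ≤ Real.log (4 * C * ((2 ^ k * m : ℕ) : ℝ)) := by
        apply Real.log_nonneg
        have : (2 : ℝ) ≤ ((2 ^ k * m : ℕ) : ℝ) := by exact_mod_cast h9
        nlinarith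
      have h16 : (n : ℝ) ≤ 4 * ((2 ^ k * m : ℕ) : ℝ) := by
        have : n ≤ 4 * (2 ^ k * m) := by
          have e1 : 2 ^ (k + 1) * m = 2 * (2 ^ k * m) := by ring
          rw [e1] at h8
          omega
        exact_mod_cast this
      set P : ℝ := ((2 ^ k * m : ℕ) : ℝ) with hP
      have h17 : (a - e) * (n : ℝ) = (a - e) * P + (a - e) * r := by
        rw [← h13]; ring
      nlinarith

theorem p_SEQ : St_SEQ := by
  intro u C hC h1 h2
  have hC0 : (0 : ℝ) < C := by linarith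
  let w : ℕ → ℝ := fun m => (u m - Real.log (4 * C * m)) / m
  have hlog : ∀ m : ℕ, 2 ≤ m → 0 ≤ Real.log (4 * C * (m : ℝ)) := by
    intro m hm
    apply Real.log_nonneg
    have : (2 : ℝ) ≤ (m : ℝ) := by exact_mod_cast hm
    nlinarith
  let S : Set ℝ := {x | ∃ m : ℕ, 2 ≤ m ∧ x = w m}
  have hSne : S.Nonempty := ⟨w 2, 2, le_refl _, rfl⟩
  have hSb : BddAbove S := by
    refine ⟨C, ?_⟩
    rintro x ⟨m, hm, rfl⟩
    have hm0 : (0 : ℝ) < m := by exact_mod_cast (by omega : 0 < m)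
    show (u m - Real.log (4 * C * m)) / m ≤ C
    rw [div_le_iff₀ hm0]
    have := (h2 m hm).2
    have := hlog m hm
    linarith
  set F := sSup S with hF
  have hup : ∀ m : ℕ, 2 ≤ m → u m ≤ F * m + Real.log (4 * C * m) := by
    intro m hm
    have hm0 : (0 : ℝ) < m := by exact_mod_cast (by omega : 0 < m)
    have : w m ≤ F := le_csSup hSb ⟨m, hm, rfl⟩
    have h3 : (u m - Real.log (4 * C * m)) / m ≤ F := this
    rw [div_le_iff₀ hm0] at h3
    linarith
  have hlim : Tendsto (fun m : ℕ => u m / m) atTop (nhds F) := by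
    rw [Metric.tendsto_atTop]
    intro d hd
    obtain ⟨x, ⟨m, hm, rfl⟩, hx⟩ := exists_lt_of_lt_csSup hSne (show F - d / 4 < sSup S by
      rw [← hF]; linarith)
    have hm0 : (0 : ℝ) < m := by exact_mod_cast (by omega : 0 < m)
    have ha : w m * m ≤ u m - Real.log (4 * C * m) := by
      show (u m - Real.log (4 * C * m)) / m * m ≤ _
      rw [div_mul_cancel₀ _ hm0.ne']
    obtain ⟨K, hK⟩ := seq_low u C hC h1 (fun m hm => (h2 m hm).1) m hm (w m) ha (d / 4)
      (by positivity)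
    obtain ⟨N, hN⟩ := seq_log (4 * C) (by positivity) (d / 4) (by positivity)
    obtain ⟨M, hM⟩ := exists_nat_gt (K / (d / 4))
    refine ⟨N + M + 2, fun n hn => ?_⟩
    have hn2 : 2 ≤ n := by omega
    have hn0 : (0 : ℝ) < n := by exact_mod_cast (by omega : 0 < n)
    have e1 := hK n hn2
    have e2 := hN n (by omega)
    have e3 := hup n hn2
    have e4 : K ≤ d / 4 * n := by
      have : (M : ℝ) ≤ n := by exact_mod_cast (by omega : M ≤ n)
      rw [div_lt_iff₀ (by positivity)] at hM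
      nlinarith
    rw [Real.dist_eq, abs_lt]
    have hk : u n / n * n = u n := div_mul_cancel₀ _ hn0.ne'
    constructor
    · rw [lt_sub_iff_add_lt, lt_div_iff₀ hn0]
      have : (F - d / 4) * n < w m * n := mul_lt_mul_of_pos_right hx hn0
      nlinarith
    · rw [sub_lt_iff_lt_add, div_lt_iff₀ hn0]
      nlinarith
  refine ⟨F, ?_, hlim, hup⟩
  refine ge_of_tendsto hlim ?_
  filter_upwards [eventually_ge_atTop 2] with m hm
  exact div_nonneg (h2 m hm).1 (Nat.cast_nonneg _)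

end Pool.Agent.H981R3.IS
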