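import Pool.Agent.H981R3.IS.BL

/-!
# SH: closing everything into one polygon, far outside
-/

set_option autoImplicit false

namespace Pool.Agent.H981R3.IS

open Finset

variable {d : ℕ}

/-- there are at least as many tips as lists -/
lemma sh_card_le {α : Vx d} {h : ℕ} {F : Finset (List (Vx d))} (hF : Sys α h F) :
    F.card ≤ nt F Set.univ := by
  classical
  have hfin : {z | Tp F z ∧ z ∈ Set.univ}.Finite := by
    refine (Finset.finite_toSet (F.biUnion List.toFinset)).subset ?_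
    rintro z ⟨⟨L, hL, hz⟩, -⟩
    rw [Finset.mem_coe, Finset.mem_biUnion]
    exact ⟨L, hL, List.mem_toFinset.2 (join_tip_mem hz)⟩
  let f : List (Vx d) → Vx d := fun L => L.head?.getD 0
  have hf : ∀ L ∈ F, L.head? = some (f L) := by
    intro L hL
    have h2 := hF.two L hL
    cases L with
    | nil => simp at h2
    | cons a L => rfl
  have hinj : Set.InjOn f F := by
    intro L hL L' hL' e
    by_contra hne
    have h1 := join_head?_mem (hf L hL)
    have h2 := join_head?_mem (hf L' hL')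
    rw [← e] at h2
    exact hF.dis L hL L' hL' hne h1 h2
  rw [← Finset.card_image_of_injOn hinj, ← Set.ncard_coe_finset]
  refine Set.ncard_le_ncard ?_ hfin
  intro z hz
  rw [Finset.mem_coe, Finset.mem_image] at hz
  obtain ⟨L, hL, rfl⟩ := hz
  exact ⟨⟨L, hL, Or.inl (hf L hL)⟩, trivial⟩

lemma sh_main (h_GEO : St_GEO d) (h_JOIN : St_JOIN d) (h_CLO : St_CLO d) (h_SHC : St_SHC d)
    (hd : 2 ≤ d) (α : Vx d) (h : ℕ) (hh : 1 ≤ h) : ∀ (m H : ℕ) (F : Finset (List (Vx d))),
    1 ≤ H → F.card = m + 1 → Sys α h F → (∀ L ∈ F, ∀ x ∈ L, ht α h x ≤ H) →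
    ∃ P : List (Vx d), IsC P ∧ (∀ u ∈ cel α h, ∀ v, St P u v ↔ ∃ L ∈ F, St L u v) ∧
      (∀ L ∈ F, ∀ x ∈ L, x ∈ P) ∧ (∀ x ∈ P, ht α h x ≤ H + (m + 1)) ∧
      P.length ≤ tot F + (m + 1) * (2 * (H + m + 1) + 4 * d * (h + 2 * (H + m + 1)) + 4) := by
  obtain ⟨-, g2, g3, -, -, -, -, -⟩ := h_GEO α h hh
  intro m
  induction m with
  | zero =>
    intro H F hH hc hF hht
    obtain ⟨L, rfl⟩ := Finset.card_eq_one.1 hc
    have hLm : L ∈ ({L} : Finset (List (Vx d))) := Finset.mem_singleton_self L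
    obtain ⟨z, hz⟩ : ∃ z, tipz L z := by
      have h2 := hF.two L hLm
      cases L with
      | nil => simp at h2
      | cons a L => exact ⟨a, Or.inl rfl⟩
    obtain ⟨w, hzw, hLt⟩ := bl_two hF hLm hz
    have hw : tipz L w := (hLt w).2 (Or.inr rfl)
    obtain ⟨i, σ, hzc⟩ := hF.tips z ⟨L, hLm, hz⟩
    obtain ⟨i', σ', hwc⟩ := hF.tips w ⟨L, hLm, hw⟩
    have hzr : ∀ s, ht α h (ray α h z s) = s + 1 := (g3 i σ z hzc).2.1
    have hwr : ∀ s, ht α h (ray α h w s) = s + 1 := (g3 i' σ' w hwc).2.1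
    obtain ⟨C, cC, hCh, hCl, hCt, hClen⟩ := h_SHC hd α h (1 + H) i i' σ σ' (ray α h z H)
      (ray α h w H) hh (by omega) ((g2 i σ 1 z le_rfl hzc).2.2.2 H)
      ((g2 i' σ' 1 w le_rfl hwc).2.2.2 H)
    obtain ⟨P, hPC, hPst, hPsub, hPmem, hPlen⟩ := h_CLO α h (1 + H) {s | ht α h s = 1 + H} L C z w
      hh hF (by omega) (fun s hs => hs) (fun s hs hsL => by
        have h1 := hht L hLm s hsL
        have h2 : ht α h s = 1 + H := hs
        omega) hzw hLt
      (by rw [Nat.add_sub_cancel_left]; show ht α h _ = _; rw [hzr]; omega)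
      (by rw [Nat.add_sub_cancel_left]; show ht α h _ = _; rw [hwr]; omega) cC
      (by rw [Nat.add_sub_cancel_left]; exact hCh) (by rw [Nat.add_sub_cancel_left]; exact hCl)
      (fun c hc => hCt c hc)
    rw [Nat.add_sub_cancel_left] at hPmem hPlen
    refine ⟨P, hPC, ?_, ?_, ?_, ?_⟩
    · intro u hu v
      rw [hPst u hu v]
      constructor
      · intro h; exact ⟨L, hLm, h⟩
      · rintro ⟨L', hL', h⟩
        rw [Finset.mem_singleton] at hL'
        rwa [hL'] at h
    · intro L' hL' x hx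
      rw [Finset.mem_singleton] at hL'
      rw [hL'] at hx
      exact hPsub x hx
    · intro x hx
      rcases hPmem x hx with h1 | h1 | ⟨s, s1, s2, h1⟩
      · have := hht L hLm x h1
        omega
      · have h2 : ht α h x = 1 + H := h1
        omega
      · rcases h1 with rfl | rfl
        · rw [hzr]; omega
        · rw [hwr]; omega
    · have e1 : tot {L} = L.length := by simp [tot]
      rw [e1]
      have e2 : 4 * d * (h + 2 * (1 + H)) = 4 * d * (h + 2 * (H + 0 + 1)) := by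
        congr 2; omega
      rw [e2] at hClen
      omega
  | succ m ih =>
    intro H F hH hc hF hht
    obtain ⟨L1, hL1, L2, hL2, hL12⟩ := Finset.one_lt_card.1 (by omega : 1 < F.card)
    obtain ⟨z, hz⟩ : ∃ z, tipz L1 z := by
      have h2 := hF.two L1 hL1
      cases L1 with
      | nil => simp at h2
      | cons a L => exact ⟨a, Or.inl rfl⟩
    obtain ⟨w, hw⟩ : ∃ z, tipz L2 z := by
      have h2 := hF.two L2 hL2
      cases L2 with
      | nil => simp at h2
      | cons a L => exact ⟨a, Or.inl rfl⟩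
    obtain ⟨i, σ, hzc⟩ := hF.tips z ⟨L1, hL1, hz⟩
    obtain ⟨i', σ', hwc⟩ := hF.tips w ⟨L2, hL2, hw⟩
    have hzr : ∀ s, ht α h (ray α h z s) = s + 1 := (g3 i σ z hzc).2.1
    have hwr : ∀ s, ht α h (ray α h w s) = s + 1 := (g3 i' σ' w hwc).2.1
    obtain ⟨C, cC, hCh, hCl, hCt, hClen⟩ := h_SHC hd α h (1 + H) i i' σ σ' (ray α h z H)
      (ray α h w H) hh (by omega) ((g2 i σ 1 z le_rfl hzc).2.2.2 H)
      ((g2 i' σ' 1 w le_rfl hwc).2.2.2 H)
    obtain ⟨L3, hL3, h31, z1, w1, z2, w2, N, n1, n3, t1, t3, hz1S, hz2S, tN, hNF, hsys, hst, hsub,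
      hmem, hlen⟩ := h_JOIN α h F (1 + H) {s | ht α h s = 1 + H} L1 L2 C z w
      hh hF (by omega) (fun s hs => hs) (fun s hs L hL hsL => by
        have h1 := hht L hL s hsL
        have h2 : ht α h s = 1 + H := hs
        omega) hL1 hL2 hL12 hz hw
      (by rw [Nat.add_sub_cancel_left]; show ht α h _ = _; rw [hzr]; omega)
      (by rw [Nat.add_sub_cancel_left]; show ht α h _ = _; rw [hwr]; omega) cC
      (by rw [Nat.add_sub_cancel_left]; exact hCh) (by rw [Nat.add_sub_cancel_left]; exact hCl)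
      (fun c hc => hCt c hc)
    obtain ⟨eT, etot, est, esub, ecard, hz12, T1, T2⟩ :=
      bl_eff hF hL1 hL3 h31 n1 n3 t1 t3 tN hNF hst hsub
    rw [Nat.add_sub_cancel_left] at hmem hlen
    have hr : ∀ z, Tp F z → ∀ s, ht α h (ray α h z s) = s + 1 := by
      intro z hz
      obtain ⟨i, σ, hc⟩ := hF.tips z hz
      exact (g3 i σ z hc).2.1
    obtain ⟨P, hPC, hPst, hPsub, hPmem, hPlen⟩ := ih (H + 1) _ (by omega) (by omega) hsys (by
      intro L hL x hx
      rw [Finset.mem_insert, Finset.mem_erase, Finset.mem_erase] at hL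
      rcases hL with rfl | ⟨-, -, hLF⟩
      · rcases hmem x hx with h1 | h1 | h1 | ⟨s, s1, s2, h1⟩
        · exact (hht L1 hL1 x h1).trans (Nat.le_succ H)
        · exact (hht L3 hL3 x h1).trans (Nat.le_succ H)
        · have h2 : ht α h x = 1 + H := h1
          omega
        · rcases h1 with rfl | rfl
          · rw [hr z1 T1]; omega
          · rw [hr z2 T2]; omega
      · exact (hht L hLF x hx).trans (Nat.le_succ H))
    refine ⟨P, hPC, fun u hu v => (hPst u hu v).trans (est u hu v), ?_, ?_, ?_⟩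
    · intro L hL x hx
      obtain ⟨L', hL', hx'⟩ := esub L hL x hx
      exact hPsub L' hL' x hx'
    · intro x hx
      have := hPmem x hx
      omega
    · have e0 : H + 1 + m + 1 = H + (m + 1) + 1 := by omega
      rw [e0] at hPlen
      set K := H + (m + 1) + 1 with hK
      have e2 : 4 * d * (h + 2 * (1 + H)) ≤ 4 * d * (h + 2 * K) :=
        Nat.mul_le_mul_left _ (by omega)
      have e3 : (m + 1 + 1) * (2 * K + 4 * d * (h + 2 * K) + 4) =
        (m + 1) * (2 * K + 4 * d * (h + 2 * K) + 4) + (2 * K + 4 * d * (h + 2 * K) + 4) := by ring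
      rw [e3]
      generalize (m + 1) * (2 * K + 4 * d * (h + 2 * K) + 4) = X at hPlen ⊢
      generalize 4 * d * (h + 2 * K) = Y at e2 hPlen ⊢
      omega

theorem p_SH (d : ℕ) (h_GEO : St_GEO d) (h_JOIN : St_JOIN d) (h_CLO : St_CLO d)
    (h_SHC : St_SHC d) : St_SH d := by
  intro hd α h H F hh hH hne hF hht
  obtain ⟨m, hm⟩ : ∃ m, F.card = m + 1 := ⟨F.card - 1, by
    have := Finset.card_pos.2 hne; omega⟩
  have hle := sh_card_le hF
  rw [hm] at hle
  obtain ⟨P, hPC, hPst, hPsub, hPmem, hPlen⟩ := sh_main h_GEO h_JOIN h_CLO h_SHC hd α h hh m H F hH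
    hm hF hht
  refine ⟨P, hPC, hPst, hPsub, fun x hx => (hPmem x hx).trans (by omega), hPlen.trans ?_⟩
  refine Nat.add_le_add_left ?_ _
  refine Nat.mul_le_mul hle ?_
  generalize nt F Set.univ = n at hle
  have h1 : 2 * (H + m + 1) + 4 * d * (h + 2 * (H + m + 1)) + 4 ≤
      5 * d * (h + 2 * (H + m + 1)) + 2 := by
    have h2 : 2 * (h + 2 * (H + m + 1)) ≤ d * (h + 2 * (H + m + 1)) :=
      Nat.mul_le_mul_right _ hd
    have h3 : 5 * d * (h + 2 * (H + m + 1)) = 4 * d * (h + 2 * (H + m + 1)) +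
      d * (h + 2 * (H + m + 1)) := by ring
    rw [h3]
    generalize d * (h + 2 * (H + m + 1)) = X at h2 ⊢
    generalize 4 * d * (h + 2 * (H + m + 1)) = Y
    omega
  refine h1.trans ?_
  refine Nat.add_le_add_right (Nat.mul_le_mul_left _ ?_) _
  omega

end Pool.Agent.H981R3.IS
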