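import Pool.Agent.H981R3.IS.Stubs

/-! Task SHC: shells are connected. -/

set_option autoImplicit false

namespace Pool.Agent.H981R3.IS

open Finset

variable {d : ℕ}

theorem shc_ht (α : Vx d) (h t : ℕ) (hh : 1 ≤ h) (ht1 : 1 ≤ t) (x : Vx d)
    (hx : ∀ k, α k - t ≤ x k ∧ x k ≤ α k + h - 1 + t) (k : Fin d)
    (hk : x k = α k - t ∨ x k = α k + h - 1 + t) : ht α h x = t := by
  apply le_antisymm
  · refine Finset.sup_le fun j _ => ?_
    have := hx j
    omega
  · have h1 : (max (α k - x k) (x k - (α k + h) + 1)).toNat ≤ ht α h x :=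
      Finset.le_sup (f := fun k => (max (α k - x k) (x k - (α k + h) + 1)).toNat)
        (Finset.mem_univ k)
    omega

/-- a path of points of height `t` with at most `n` points -/
def shc_R (α : Vx d) (h t n : ℕ) (u v : Vx d) : Prop :=
  ∃ C : List (Vx d), C.IsChain adj ∧ C.head? = some u ∧ C.getLast? = some v ∧
    (∀ c ∈ C, ht α h c = t) ∧ C.length ≤ n

theorem shc_trans {α : Vx d} {h t n m : ℕ} {u v w : Vx d} (h1 : shc_R α h t n u v)
    (h2 : shc_R α h t m v w) : shc_R α h t (n + m) u w := by
  obtain ⟨C, c1, c2, c3, c4, c5⟩ := h1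
  obtain ⟨D, d1, d2, d3, d4, d5⟩ := h2
  cases D with
  | nil => simp at d2
  | cons a l =>
    simp only [List.head?_cons, Option.some.injEq] at d2
    subst d2
    cases l with
    | nil =>
      simp only [List.getLast?_singleton, Option.some.injEq] at d3
      subst d3
      exact ⟨C, c1, c2, c3, c4, by omega⟩
    | cons b l =>
      refine ⟨C ++ b :: l, ?_, ?_, ?_, ?_, ?_⟩
      · rw [List.isChain_append]
        rw [List.isChain_cons_cons] at d1
        refine ⟨c1, d1.2, ?_⟩
        intro x hx y hy
        rw [c3] at hx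
        simp only [Option.mem_def, Option.some.injEq, List.head?_cons] at hx hy
        rw [← hx, ← hy]
        exact d1.1
      · rw [List.head?_append, c2]
        rfl
      · have d6 : (b :: l).getLast? = some w := by rw [← d3, List.getLast?_cons_cons]
        rw [List.getLast?_append, d6]
        rfl
      · intro c hc
        rcases List.mem_append.1 hc with hc | hc
        · exact c4 c hc
        · exact d4 c (List.mem_cons_of_mem _ hc)
      · simp only [List.length_append, List.length_cons] at d5 ⊢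
        omega

theorem shc_mono (hc : St_CHN d) (α : Vx d) (h t : ℕ) (hh : 1 ≤ h) (ht1 : 1 ≤ t) (u v : Vx d)
    (hu : ∀ k, α k - t ≤ u k ∧ u k ≤ α k + h - 1 + t)
    (hv : ∀ k, α k - t ≤ v k ∧ v k ≤ α k + h - 1 + t) (k : Fin d) (huv : u k = v k)
    (hk : u k = α k - t ∨ u k = α k + h - 1 + t) :
    shc_R α h t (d * (h + 2 * t) + 1) u v := by
  obtain ⟨C, c1, c2, c3, c4, c5⟩ := hc u v
  refine ⟨C, c1, c2, c3, ?_, ?_⟩
  · intro c hcC
    refine shc_ht α h t hh ht1 c (fun j => ?_) k ?_
    · have e1 := c4 c hcC j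
      have e2 := hu j
      have e3 := hv j
      omega
    · have e1 := c4 c hcC k
      rw [← huv] at e1
      simp only [min_self, max_self] at e1
      omega
  · have e1 : ∑ k, |u k - v k| ≤ ∑ _k : Fin d, ((h : ℤ) + 2 * t) := by
      refine Finset.sum_le_sum fun j _ => ?_
      have e2 := hu j
      have e3 := hv j
      rw [abs_le]
      omega
    rw [Finset.sum_const, Finset.card_univ, Fintype.card_fin, nsmul_eq_mul] at e1
    have e4 : (C.length : ℤ) ≤ ((d * (h + 2 * t) + 1 : ℕ) : ℤ) := by
      push_cast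
      linarith
    exact_mod_cast e4

theorem shc_col (α : Vx d) (h t : ℕ) (hh : 1 ≤ h) (i : Fin d) (σ : Bool) (z : Vx d)
    (hz : z ∈ col α h i σ t) : (∀ k, α k - t ≤ z k ∧ z k ≤ α k + h - 1 + t) ∧
      (z i = α i - t ∨ z i = α i + h - 1 + t) := by
  obtain ⟨h1, h2⟩ := hz
  have h3 : z i = α i - t ∨ z i = α i + h - 1 + t := by
    cases σ
    · left
      simpa using h1
    · right
      simpa using h1
  refine ⟨fun k => ?_, h3⟩
  by_cases hk : k = i
  · subst hk
    omega
  · have := h2 k hk
    omega

theorem shc_upd (α : Vx d) (h t : ℕ) (z : Vx d)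
    (hz : ∀ k, α k - t ≤ z k ∧ z k ≤ α k + h - 1 + t) (k : Fin d) (a : ℤ)
    (ha : α k - t ≤ a ∧ a ≤ α k + h - 1 + t) :
    ∀ j, α j - t ≤ Function.update z k a j ∧ Function.update z k a j ≤ α j + h - 1 + t := by
  intro j
  by_cases hj : j = k
  · subst hj
    rw [Function.update_self]
    exact ha
  · rw [Function.update_of_ne hj]
    exact hz j

theorem p_SHC (d : ℕ) (h_CHN : St_CHN d) : St_SHC d := by
  intro hd α h t i i' σ σ' z w hh ht1 hz hw
  obtain ⟨z1, z2⟩ := shc_col α h t hh i σ z hz
  obtain ⟨w1, w2⟩ := shc_col α h t hh i' σ' w hw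
  have key : ∃ n, shc_R α h t n z w ∧ n ≤ 3 * (d * (h + 2 * t) + 1) := by
    by_cases hi : i = i'
    · subst hi
      have hlt : 1 < Fintype.card (Fin d) := by rw [Fintype.card_fin]; omega
      obtain ⟨k, hk⟩ : ∃ k : Fin d, k ≠ i := by
        have : Nontrivial (Fin d) := Fintype.one_lt_card_iff_nontrivial.1 hlt
        exact exists_ne i
      set E : ℤ := α k + h - 1 + t with hE
      have hEr : α k - t ≤ E ∧ E ≤ α k + h - 1 + t := by omega
      have e1 := shc_mono h_CHN α h t hh ht1 z (Function.update z k E) z1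
        (shc_upd α h t z z1 k E hEr) i (by rw [Function.update_of_ne (Ne.symm hk)]) z2
      have e2 := shc_mono h_CHN α h t hh ht1 (Function.update z k E) (Function.update w k E)
        (shc_upd α h t z z1 k E hEr) (shc_upd α h t w w1 k E hEr) k
        (by rw [Function.update_self, Function.update_self])
        (by rw [Function.update_self]; exact Or.inr hE)
      have e3 := shc_mono h_CHN α h t hh ht1 (Function.update w k E) w
        (shc_upd α h t w w1 k E hEr) w1 i (by rw [Function.update_of_ne (Ne.symm hk)])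
        (by rw [Function.update_of_ne (Ne.symm hk)]; exact w2)
      exact ⟨_, (shc_trans (shc_trans e1 e2) e3), by omega⟩
    · have e1 := shc_mono h_CHN α h t hh ht1 z (Function.update z i' (w i')) z1
        (shc_upd α h t z z1 i' (w i') (w1 i')) i (by rw [Function.update_of_ne hi]) z2
      have e2 := shc_mono h_CHN α h t hh ht1 (Function.update z i' (w i')) w
        (shc_upd α h t z z1 i' (w i') (w1 i')) w1 i' (by rw [Function.update_self])
        (by rw [Function.update_self]; exact w2)
      exact ⟨_, shc_trans e1 e2, by omega⟩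
  obtain ⟨n, ⟨C, c1, c2, c3, c4, c5⟩, hn⟩ := key
  refine ⟨C, c1, c2, c3, c4, ?_⟩
  have e : 3 * (d * (h + 2 * t) + 1) ≤ 4 * d * (h + 2 * t) + 4 := by
    rw [mul_assoc]
    omega
  omega

end Pool.Agent.H981R3.IS
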