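import Pool.Agent.H981R3.IS.Stubs

set_option autoImplicit false

namespace Pool.Agent.H981R3.IS

open Finset

variable {d : ℕ}

/-- a crossing step is a crossing bond -/
theorem str_bond (h_ARI : St_ARI d) (D : Dt d) (hρ : 2 ≤ D.ρ) (hg : 1 ≤ D.g)
    (hw : Sw D.w D.n) : D.crs.card ≤ D.crb := by
  classical
  obtain ⟨-, -, -, a4, -, a6, -⟩ := h_ARI D hρ hg hw
  have hex : ∀ p ∈ D.crs, ∃ q : Vx d × Fin d,
      ((q.1 = D.w p ∧ q.1 + ev q.2 = D.w (p + 1)) ∨
        (q.1 = D.w (p + 1) ∧ q.1 + ev q.2 = D.w p)) := by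
    intro p hp
    obtain ⟨i, -, e2, -, -, e5⟩ := a6 p hp
    rcases abs_eq (by norm_num : (0 : ℤ) ≤ 1) |>.1 e2 with h | h
    · refine ⟨(D.w p, i), Or.inl ⟨rfl, ?_⟩⟩
      funext k
      by_cases hk : k = i
      · subst hk
        simp [ev]
        omega
      · simp [ev, hk, (e5 k hk).1]
    · refine ⟨(D.w (p + 1), i), Or.inr ⟨rfl, ?_⟩⟩
      funext k
      by_cases hk : k = i
      · subst hk
        simp [ev]
        omega
      · simp [ev, hk, (e5 k hk).1]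
  rcases Finset.eq_empty_or_nonempty D.crs with h0 | ⟨p0, hp0⟩
  · rw [h0]
    simp
  have hne : Nonempty (Vx d × Fin d) := ⟨(hex p0 hp0).choose⟩
  choose! φ hφ using hex
  unfold Dt.crb
  apply Finset.card_le_card_of_injOn φ
  · intro p hp
    have hp' : p ∈ D.crs := hp
    obtain ⟨h1, h2⟩ := a4 p hp'
    have m1 : D.w p ∈ D.vs := Finset.mem_image_of_mem _ (Finset.mem_range.2 (by omega))
    have m2 : D.w (p + 1) ∈ D.vs := Finset.mem_image_of_mem _ (Finset.mem_range.2 (by omega))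
    rw [Finset.mem_coe, Finset.mem_filter, Finset.mem_product]
    rcases hφ p hp' with ⟨e1, e2⟩ | ⟨e1, e2⟩
    · rw [e2, e1]
      exact ⟨⟨m1, Finset.mem_univ _⟩, m2, h2⟩
    · rw [e2, e1]
      exact ⟨⟨m2, Finset.mem_univ _⟩, m1, Ne.symm h2⟩
  · intro p hp q hq hpq
    have hp' : p ∈ D.crs := hp
    have hq' : q ∈ D.crs := hq
    have h1 := (a4 p hp').1
    have h2 := (a4 q hq').1
    have inj : ∀ s t, s ≤ D.n → t ≤ D.n → D.w s = D.w t → s = t :=
      fun s t hs ht h => hw.2 s hs t ht h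
    rcases hφ p hp' with ⟨e1, e2⟩ | ⟨e1, e2⟩ <;> rcases hφ q hq' with ⟨f1, f2⟩ | ⟨f1, f2⟩
    · rw [hpq, f1] at e1
      exact (inj q p (by omega) (by omega) e1).symm
    · rw [hpq] at e1 e2
      rw [f1] at e1
      rw [f2] at e2
      have g1 := inj _ _ (by omega) (by omega) e1
      have g2 := inj _ _ (by omega) (by omega) e2
      omega
    · rw [hpq] at e1 e2
      rw [f1] at e1
      rw [f2] at e2
      have g1 := inj _ _ (by omega) (by omega) e1
      have g2 := inj _ _ (by omega) (by omega) e2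
      omega
    · rw [hpq, f1] at e1
      have := inj _ _ (by omega) (by omega) e1
      omega

/-- every time is in at most one unit -/
theorem str_inc (h_CLS : St_CLS d) (D : Dt d) (hw : Sw D.w D.n) :
    ∑ u ∈ D.uns, D.inc u ≤ 2 * D.crs.card := by
  classical
  obtain ⟨-, -, -, -, c5, -⟩ := h_CLS D hw
  have key : ∀ f : ℕ → ℕ, ∑ u ∈ D.uns, (D.crs.filter (fun p => f p ∈ u)).card ≤ D.crs.card := by
    intro f
    have e1 : ∀ u ∈ D.uns, (D.crs.filter (fun p => f p ∈ u)).card =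
        ∑ p ∈ D.crs, if f p ∈ u then 1 else 0 := by
      intro u _
      rw [Finset.card_filter]
    rw [Finset.sum_congr rfl e1, Finset.sum_comm, Finset.card_eq_sum_ones]
    apply Finset.sum_le_sum
    intro p _
    rw [← Finset.card_filter, Finset.card_le_one]
    intro u hu v hv
    rw [Finset.mem_filter] at hu hv
    rw [← ((c5 u hu.1).2 _ hu.2).2, ← ((c5 v hv.1).2 _ hv.2).2]
  have h1 := key (fun p => p)
  have h2 := key (fun p => p + 1)
  unfold Dt.inc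
  rw [Finset.sum_add_distrib]
  omega

theorem p_STR (d : ℕ) (h_SEL : St_SEL d) (h_UNIT : St_UNIT d) (h_CNT : St_CNT d)
    (h_CLS : St_CLS d) (h_ARI : St_ARI d) : St_STR d := by
  classical
  intro hd w n ρ J hρ hJ hw
  obtain ⟨j, hj, a, ha, s1, s2, s3⟩ := h_SEL (by omega) w n ρ J hρ hJ hw
  refine ⟨j, hj, a, ha, s1, ?_⟩
  set D : Dt d := Dt.mk w n a ρ (ρ ^ (2 * j)) with hD
  have hρD : 2 ≤ D.ρ := hρ
  have hgD : 1 ≤ D.g := Nat.one_le_pow _ _ (by omega)
  have hwD : Sw D.w D.n := hw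
  have hU := h_UNIT hd D hρD hgD hwD
  set O : Finset ℕ → List (Vx d) := fun u =>
    if h : u ∈ D.uns ∧ ¬ D.spc u then Classical.choose (hU u h.1 h.2) else [] with hO
  have hOs : ∀ u, u ∈ D.uns → ¬ D.spc u → UO D u (O u) ∧
    (O u).length ≤ u.card + 40 * d * D.g * D.inc u +
      (if D.reg u then 0 else 400 * d ^ 3 * D.h * (D.tgr u).card) := by
    intro u h1 h2
    have h3 : O u = Classical.choose (hU u h1 h2) := by
      rw [hO]
      simp only
      rw [dif_pos ⟨h1, h2⟩]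
    rw [h3]
    exact Classical.choose_spec (hU u h1 h2)
  refine ⟨O, fun u h1 h2 => (hOs u h1 h2).1, ?_⟩
  -- the natural number estimate
  have hc10 : ∑ u ∈ D.uns, u.card = n + 1 := by
    obtain ⟨-, -, -, -, -, -, -, -, -, c10⟩ := h_CLS D hwD
    exact c10
  have hnat : ∑ u ∈ D.uns.filter (fun u => ¬ D.spc u), (O u).length ≤
      (n + 1) + 40 * d * D.g * (2 * D.crb) +
        400 * d ^ 3 * D.h * ((14 * d + 31) * (D.gbad.card + D.gbd.card + 1)) := by
    calc ∑ u ∈ D.uns.filter (fun u => ¬ D.spc u), (O u).length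
        ≤ ∑ u ∈ D.uns.filter (fun u => ¬ D.spc u), (u.card + 40 * d * D.g * D.inc u +
            (if D.reg u then 0 else 400 * d ^ 3 * D.h * (D.tgr u).card)) := by
          apply Finset.sum_le_sum
          intro u hu
          rw [Finset.mem_filter] at hu
          exact (hOs u hu.1 hu.2).2
      _ ≤ ∑ u ∈ D.uns, (u.card + 40 * d * D.g * D.inc u +
            (if D.reg u then 0 else 400 * d ^ 3 * D.h * (D.tgr u).card)) :=
          Finset.sum_le_sum_of_subset (Finset.filter_subset _ _)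
      _ = ∑ u ∈ D.uns, u.card + 40 * d * D.g * ∑ u ∈ D.uns, D.inc u +
            400 * d ^ 3 * D.h * ∑ u ∈ D.uns.filter (fun u => ¬ D.reg u), (D.tgr u).card := by
          rw [Finset.sum_add_distrib, Finset.sum_add_distrib, Finset.mul_sum, Finset.mul_sum,
            Finset.sum_filter]
          congr 1
          refine Finset.sum_congr rfl fun u _ => ?_
          by_cases h : D.reg u <;> simp [h]
      _ ≤ _ := by
          rw [hc10]
          apply Nat.add_le_add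
          · apply Nat.add_le_add_left
            apply Nat.mul_le_mul_left
            exact (str_inc h_CLS D hwD).trans
              (Nat.mul_le_mul_left _ (str_bond h_ARI D hρD hgD hwD))
          · apply Nat.mul_le_mul_left
            refine le_trans ?_ (h_CNT D hρD hgD hwD)
            exact Finset.sum_le_sum fun u _ => Nat.le_succ _
  -- real numbers
  have hnatR : ((∑ u ∈ D.uns.filter (fun u => ¬ D.spc u), (O u).length : ℕ) : ℝ) ≤
      ((n : ℝ) + 1) + 40 * d * D.g * (2 * D.crb) +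
        400 * d ^ 3 * D.h * ((14 * d + 31) * (D.gbad.card + D.gbd.card + 1)) := by
    exact_mod_cast hnat
  refine hnatR.trans ?_
  have hdR : (2 : ℝ) ≤ d := by exact_mod_cast hd
  have hρR : (2 : ℝ) ≤ ρ := by exact_mod_cast hρ
  have hJR : (1 : ℝ) ≤ J := by exact_mod_cast hJ
  have hn0 : (0 : ℝ) ≤ n := Nat.cast_nonneg n
  have hg : (D.g : ℝ) = (ρ : ℝ) ^ (2 * j) := by
    simp [hD]
  have hh : (D.h : ℝ) = ρ * (ρ : ℝ) ^ (2 * j) := by
    simp [hD, Dt.h]
  have t1 : (ρ : ℝ) ^ (2 * j + 1) * D.crb ≤ 3 * d * (n + 1) := by exact_mod_cast s1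
  have t2 : (ρ : ℝ) ^ (2 * j + 2) * D.gbd.card ≤ 3 * (n + 1) := by exact_mod_cast s2
  have t3 : (J : ℝ) * ρ ^ (2 * j + 1) * D.gbad.card ≤ 6 * (n + 1) := by exact_mod_cast s3
  have hρ0 : (0 : ℝ) < ρ := by linarith
  have hJ0 : (0 : ℝ) < J := by linarith
  have hR1 : (D.g : ℝ) * D.crb ≤ 3 * d * (n + 1) * (1 / ρ) := by
    rw [hg, mul_one_div, le_div_iff₀ hρ0]
    calc (ρ : ℝ) ^ (2 * j) * D.crb * ρ = (ρ : ℝ) ^ (2 * j + 1) * D.crb := by ring
      _ ≤ _ := t1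
  have hR2 : (D.h : ℝ) * D.gbd.card ≤ 3 * (n + 1) * (1 / ρ) := by
    rw [hh, mul_one_div, le_div_iff₀ hρ0]
    calc (ρ : ℝ) * (ρ : ℝ) ^ (2 * j) * D.gbd.card * ρ = (ρ : ℝ) ^ (2 * j + 2) * D.gbd.card := by
          ring
      _ ≤ _ := t2
  have hR3 : (D.h : ℝ) * D.gbad.card ≤ 6 * (n + 1) * (1 / J) := by
    rw [hh, mul_one_div, le_div_iff₀ hJ0]
    calc (ρ : ℝ) * (ρ : ℝ) ^ (2 * j) * D.gbad.card * J
        = (J : ℝ) * ρ ^ (2 * j + 1) * D.gbad.card := by ring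
      _ ≤ _ := t3
  have hR4 : (D.h : ℝ) ≤ (ρ : ℝ) ^ (2 * J) := by
    rw [hh]
    calc (ρ : ℝ) * (ρ : ℝ) ^ (2 * j) = (ρ : ℝ) ^ (2 * j + 1) := by ring
      _ ≤ _ := pow_le_pow_right₀ (by linarith) (by omega)
  set A : ℝ := (n + 1) * (1 / ρ) with hA
  set B : ℝ := (n + 1) * (1 / J) with hB
  have hA0 : 0 ≤ A := by positivity
  have hB0 : 0 ≤ B := by positivity
  have hC0 : 0 ≤ (ρ : ℝ) ^ (2 * J) := by positivity
  have hhs : (D.h : ℝ) * (D.gbad.card + D.gbd.card + 1) ≤ 6 * B + 3 * A + (ρ : ℝ) ^ (2 * J) := by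
    have : (D.h : ℝ) * (D.gbad.card + D.gbd.card + 1) =
      (D.h : ℝ) * D.gbad.card + (D.h : ℝ) * D.gbd.card + D.h := by ring
    rw [this, hA, hB]
    linarith
  have hd1 : (14 : ℝ) * d + 31 ≤ 29.5 * d := by linarith
  have hd3 : (0 : ℝ) ≤ 400 * d ^ 3 := by positivity
  have hX0 : 0 ≤ (D.h : ℝ) * (D.gbad.card + D.gbd.card + 1) := by positivity
  have f1 : 40 * d * D.g * (2 * D.crb) ≤ 240 * (d : ℝ) ^ 2 * A := by
    have : 40 * (d : ℝ) * D.g * (2 * D.crb) = 80 * d * (D.g * D.crb) := by ring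
    rw [this]
    calc 80 * (d : ℝ) * (D.g * D.crb) ≤ 80 * d * (3 * d * (n + 1) * (1 / ρ)) :=
          mul_le_mul_of_nonneg_left hR1 (by positivity)
      _ = 240 * (d : ℝ) ^ 2 * A := by rw [hA]; ring
  have f2 : 400 * (d : ℝ) ^ 3 * D.h * ((14 * d + 31) * (D.gbad.card + D.gbd.card + 1)) ≤
      11800 * (d : ℝ) ^ 4 * (6 * B + 3 * A + (ρ : ℝ) ^ (2 * J)) := by
    have : 400 * (d : ℝ) ^ 3 * D.h * ((14 * d + 31) * (D.gbad.card + D.gbd.card + 1)) =
      400 * (d : ℝ) ^ 3 * (14 * d + 31) * (D.h * (D.gbad.card + D.gbd.card + 1)) := by ring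
    rw [this]
    calc 400 * (d : ℝ) ^ 3 * (14 * d + 31) * (D.h * (D.gbad.card + D.gbd.card + 1))
        ≤ 400 * (d : ℝ) ^ 3 * (29.5 * d) * (D.h * (D.gbad.card + D.gbd.card + 1)) := by
          apply mul_le_mul_of_nonneg_right _ hX0
          exact mul_le_mul_of_nonneg_left hd1 hd3
      _ ≤ 400 * (d : ℝ) ^ 3 * (29.5 * d) * (6 * B + 3 * A + (ρ : ℝ) ^ (2 * J)) :=
          mul_le_mul_of_nonneg_left hhs (by positivity)
      _ = _ := by ring
  have hdd : (d : ℝ) ^ 2 ≤ (d : ℝ) ^ 4 := pow_le_pow_right₀ (by linarith) (by norm_num)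
  have f3 : 240 * (d : ℝ) ^ 2 * A ≤ 240 * (d : ℝ) ^ 4 * A :=
    mul_le_mul_of_nonneg_right (by linarith) hA0
  have f4 : ((n : ℝ) + 1) * (1 / ρ + 1 / J) = A + B := by rw [hA, hB]; ring
  rw [f4]
  have hd4 : (0 : ℝ) ≤ (d : ℝ) ^ 4 := by positivity
  have f5 : 240 * (d : ℝ) ^ 4 * A + 11800 * (d : ℝ) ^ 4 * (6 * B + 3 * A + (ρ : ℝ) ^ (2 * J)) ≤
      200000 * (d : ℝ) ^ 4 * (A + B + (ρ : ℝ) ^ (2 * J)) := by
    have g1 : 0 ≤ (d : ℝ) ^ 4 * A := mul_nonneg hd4 hA0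
    have g2 : 0 ≤ (d : ℝ) ^ 4 * B := mul_nonneg hd4 hB0
    have g3 : 0 ≤ (d : ℝ) ^ 4 * (ρ : ℝ) ^ (2 * J) := mul_nonneg hd4 hC0
    nlinarith
  linarith

end Pool.Agent.H981R3.IS
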