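import Pool.Agent.H981R3.IS.Stubs

/-! Task UNIT (helper417): objects for all units. -/

set_option autoImplicit false

namespace Pool.Agent.H981R3.IS

open Finset

theorem unit_ev {d : ℕ} (i k : Fin d) : (ev i : Vx d) k = if k = i then 1 else 0 := by
  unfold ev
  by_cases h : k = i
  · subst h; simp
  · rw [Pi.single_eq_of_ne h, if_neg h]

theorem unit_ev_inj {d : ℕ} (i k : Fin d) (h : (ev i : Vx d) = ev k) : i = k := by
  have := congrFun h i
  rw [unit_ev, unit_ev, if_pos rfl] at this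
  by_contra hne
  rw [if_neg hne] at this
  exact one_ne_zero this

theorem unit_div {x b : ℤ} (hb : 0 < b) : b * (x / b) ≤ x ∧ x < b * (x / b) + b := by
  have h1 := Int.emod_add_mul_ediv x b
  have h2 := Int.emod_nonneg x (by omega : b ≠ 0)
  have h3 := Int.emod_lt_of_pos x hb
  constructor <;> omega

theorem unit_div_unique {x b q : ℤ} (hb : 0 < b) (h1 : b * q ≤ x) (h2 : x < b * q + b) :
    x / b = q := by
  have h3 : x = (x - b * q) + b * q := by ring
  rw [h3, Int.add_mul_ediv_left _ _ (by omega : b ≠ 0),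
    Int.ediv_eq_zero_of_lt (by omega) (by omega), zero_add]

/-- lower corner of the block of a group -/
def unit_lo {d : ℕ} (D : Dt d) (y : Vx d × Vx d) : Vx d := fun k => D.a k + D.g * y.2 k

/-- upper corner of the block of a group -/
def unit_hi {d : ℕ} (D : Dt d) (y : Vx d × Vx d) : Vx d := fun k => D.a k + D.g * y.2 k + D.g - 1

/-- side of the block of a group, seen from the cell with index `c` -/
def unit_sd {d : ℕ} (c : Vx d) (i : Fin d) (y : Vx d × Vx d) : Bool := decide (y.2 i = c i + 1)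

theorem unit_key {d : ℕ} (h_ARI : St_ARI d) (D : Dt d) (hρ : 2 ≤ D.ρ) (hg : 1 ≤ D.g)
    (hS : Sw D.w D.n) (r : ℕ) (hr : r ∈ D.crs) (s s' : ℕ)
    (hs : (s = r ∧ s' = r + 1) ∨ (s = r + 1 ∧ s' = r)) (i : Fin d) (hi : (D.gc r).1 = ev i) :
    ((D.gc r).2 i = D.ci (D.w s) i + 1 ∨ (D.gc r).2 i = D.ci (D.w s) i) ∧
    (∀ k, k ≠ i → D.ci (D.w s) k = (D.gc r).2 k / (D.ρ : ℤ)) ∧
    D.w s' ∈ blk (D.og (D.w s)) D.h i (unit_sd (D.ci (D.w s)) i (D.gc r)) (unit_lo D (D.gc r))
      (unit_hi D (D.gc r)) := by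
  obtain ⟨-, -, -, -, -, A6, -⟩ := h_ARI D hρ hg hS
  obtain ⟨i0, h1, h2, h3, h4, h5⟩ := A6 r hr
  have hii : i0 = i := unit_ev_inj _ _ (h1.symm.trans hi)
  subst hii
  have hg0 : (0 : ℤ) < D.g := by exact_mod_cast hg
  have hh0 : (0 : ℤ) < D.h := by
    unfold Dt.h
    push_cast
    have : (0 : ℤ) < D.ρ := by exact_mod_cast (by omega : 0 < D.ρ)
    positivity
  -- uniform facts
  have u1 : |D.w s' i0 - D.w s i0| = 1 := by
    rcases hs with ⟨rfl, rfl⟩ | ⟨rfl, rfl⟩
    · exact h2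
    · rw [abs_sub_comm]; exact h2
  have u2 : (D.gc r).2 i0 = max (D.ci (D.w s) i0) (D.ci (D.w s') i0) := by
    rcases hs with ⟨rfl, rfl⟩ | ⟨rfl, rfl⟩
    · exact h3
    · rw [max_comm]; exact h3
  have u3 : D.ci (D.w s') i0 - D.ci (D.w s) i0 = D.w s' i0 - D.w s i0 := by
    rcases hs with ⟨rfl, rfl⟩ | ⟨rfl, rfl⟩
    · exact h4
    · omega
  have u4 : ∀ k, k ≠ i0 → D.w s' k = D.w s k ∧ (D.gc r).2 k = (D.w s k - D.a k) / (D.g : ℤ) ∧
      D.ci (D.w s) k = (D.gc r).2 k / (D.ρ : ℤ) := by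
    intro k hk
    obtain ⟨k1, k2, k3, k4⟩ := h5 k hk
    rcases hs with ⟨rfl, rfl⟩ | ⟨rfl, rfl⟩
    · exact ⟨k1, k3, k4⟩
    · exact ⟨k1.symm, by rw [k1]; exact k3, by rw [k2]; exact k4⟩
  have cellf : ∀ x k, D.h * D.ci x k ≤ x k - D.a k ∧ x k - D.a k < D.h * D.ci x k + D.h := by
    intro x k
    exact unit_div hh0
  have c1 := cellf (D.w s) i0
  have c2 := cellf (D.w s') i0
  refine ⟨?_, fun k hk => (u4 k hk).2.2, ⟨?_, ?_⟩, ?_⟩
  · rw [u2]
    rcases (abs_eq (zero_le_one)).1 u1 with h | h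
    · left; rw [max_eq_right] <;> omega
    · right; rw [max_eq_left]; omega
  · unfold unit_sd Dt.og
    rcases (abs_eq (zero_le_one)).1 u1 with h | h
    · have e1 : D.ci (D.w s') i0 = D.ci (D.w s) i0 + 1 := by omega
      have e2 : (D.gc r).2 i0 = D.ci (D.w s) i0 + 1 := by
        rw [u2, max_eq_right] <;> omega
      have e3 : (D.h : ℤ) * (D.ci (D.w s) i0 + 1) = D.h * D.ci (D.w s) i0 + D.h := by ring
      rw [e1, e3] at c2
      rw [e2]
      simp only [decide_true, if_true]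
      push_cast
      omega
    · have e1 : D.ci (D.w s') i0 = D.ci (D.w s) i0 - 1 := by omega
      have e2 : (D.gc r).2 i0 = D.ci (D.w s) i0 := by
        rw [u2, max_eq_left]; omega
      have e3 : (D.h : ℤ) * (D.ci (D.w s) i0 - 1) = D.h * D.ci (D.w s) i0 - D.h := by ring
      rw [e1, e3] at c2
      rw [e2]
      have e4 : ¬ (D.ci (D.w s) i0 = D.ci (D.w s) i0 + 1) := by omega
      simp only [e4, decide_false, Bool.false_eq_true, if_false]
      push_cast
      omega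
  · intro k hk
    rw [(u4 k hk).1]
    unfold Dt.og
    have := cellf (D.w s) k
    constructor <;> omega
  · intro k hk
    rw [(u4 k hk).1]
    unfold unit_lo unit_hi
    rw [(u4 k hk).2.1]
    have := unit_div (x := D.w s k - D.a k) hg0
    constructor <;> omega

theorem unit_blk {d : ℕ} (D : Dt d) (hρ : 2 ≤ D.ρ) (hg : 1 ≤ D.g) (x : Vx d) (y : Vx d × Vx d)
    (k : Fin d) (hk : D.ci x k = y.2 k / (D.ρ : ℤ)) :
    D.og x k ≤ unit_lo D y k ∧ unit_hi D y k < D.og x k + D.h ∧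
      unit_hi D y k < unit_lo D y k + D.g := by
  have hg0 : (0 : ℤ) < D.g := by exact_mod_cast hg
  have hρ0 : (0 : ℤ) < D.ρ := by exact_mod_cast (by omega : 0 < D.ρ)
  have h1 := unit_div (x := y.2 k) hρ0
  rw [← hk] at h1
  have e : (D.h : ℤ) = D.g * D.ρ := by
    unfold Dt.h
    push_cast
    ring
  unfold Dt.og unit_lo unit_hi
  have h2 : (D.g : ℤ) * (D.ρ * D.ci x k) ≤ D.g * y.2 k :=
    mul_le_mul_of_nonneg_left h1.1 hg0.le
  have h3 : (D.g : ℤ) * (y.2 k + 1) ≤ D.g * (D.ρ * D.ci x k + D.ρ) :=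
    mul_le_mul_of_nonneg_left (by omega) hg0.le
  have h4 : (D.h : ℤ) * D.ci x k = D.g * (D.ρ * D.ci x k) := by rw [e]; ring
  have h5 : (D.g : ℤ) * (D.ρ * D.ci x k + D.ρ) = D.g * (D.ρ * D.ci x k) + D.h := by rw [e]; ring
  have h6 : (D.g : ℤ) * (y.2 k + 1) = D.g * y.2 k + D.g := by ring
  refine ⟨?_, ?_, ?_⟩
  · omega
  · omega
  · omega

open scoped Classical in
theorem p_UNIT (d : ℕ) (h_FAM : St_FAM d) (h_CLR : St_CLR d) (h_CLN : St_CLN d)
    (h_ARI : St_ARI d) (h_CLS : St_CLS d) (h_GEO : St_GEO d) : St_UNIT d := by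
  intro hd D hρ hg hS u hu hspc
  have hARI := h_ARI D hρ hg hS
  obtain ⟨-, A2, -, -, -, A6, -⟩ := hARI
  obtain ⟨C1, C2, -, -, C5, -⟩ := h_CLS D hS
  have hg0 : (0 : ℤ) < D.g := by exact_mod_cast hg
  have hgh : D.g ≤ D.h := by
    unfold Dt.h
    exact Nat.le_mul_of_pos_left _ (by omega)
  have hh1 : 1 ≤ D.h := hg.trans hgh
  obtain ⟨⟨t0, ht0⟩, hcl⟩ := C5 u hu
  set c := D.ci (D.w t0) with hc
  set α := D.og (D.w t0) with hα
  have hci : ∀ t ∈ u, D.ci (D.w t) = c := by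
    intro t ht
    have : t ∈ D.uc t0 := by rw [(hcl t0 ht0).2]; exact ht
    exact (C2 t t0 this).2.2.1
  have hog : ∀ t ∈ u, D.og (D.w t) = α := by
    intro t ht
    rw [hα, A2]
    exact hci t ht
  obtain ⟨F, F1, F2, F3, F4, F5, F6, F7, F8⟩ := h_FAM D hρ hg hS u hu hspc α hog
  -- axis of a group
  let ax : Vx d × Vx d → Fin d := fun y =>
    if h : ∃ i, y.1 = ev i then h.choose else ⟨0, by omega⟩
  have hax : ∀ r ∈ D.crs, (D.gc r).1 = ev (ax (D.gc r)) := by
    intro r hr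
    have h : ∃ i, (D.gc r).1 = ev i := by
      obtain ⟨i, hi, _⟩ := A6 r hr
      exact ⟨i, hi⟩
    show (D.gc r).1 = ev (if h : ∃ i, (D.gc r).1 = ev i then h.choose else ⟨0, by omega⟩)
    rw [dif_pos h]
    exact h.choose_spec
  -- facts on crossing steps incident to `u`
  have hkey : ∀ r ∈ D.crs, ∀ z, ((r ∈ u ∧ z = D.w (r + 1)) ∨ (r + 1 ∈ u ∧ z = D.w r)) →
      ((D.gc r).2 (ax (D.gc r)) = c (ax (D.gc r)) + 1 ∨
        (D.gc r).2 (ax (D.gc r)) = c (ax (D.gc r))) ∧
      (∀ k, k ≠ ax (D.gc r) → c k = (D.gc r).2 k / (D.ρ : ℤ)) ∧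
      z ∈ blk α D.h (ax (D.gc r)) (unit_sd c (ax (D.gc r)) (D.gc r)) (unit_lo D (D.gc r))
        (unit_hi D (D.gc r)) := by
    intro r hr z hz
    rcases hz with ⟨hu1, rfl⟩ | ⟨hu1, rfl⟩
    · have := unit_key h_ARI D hρ hg hS r hr r (r + 1) (Or.inl ⟨rfl, rfl⟩) _ (hax r hr)
      rw [hci r hu1, hog r hu1] at this
      exact this
    · have := unit_key h_ARI D hρ hg hS r hr (r + 1) r (Or.inr ⟨rfl, rfl⟩) _ (hax r hr)
      rw [hci (r + 1) hu1, hog (r + 1) hu1] at this
      exact this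
  have htg : ∀ y ∈ D.tgr u, y ∈ D.grs ∧ y.1 = ev (ax y) ∧
      (y.2 (ax y) = c (ax y) + 1 ∨ y.2 (ax y) = c (ax y)) ∧
      (∀ k, k ≠ ax y → c k = y.2 k / (D.ρ : ℤ)) := by
    intro y hy
    unfold Dt.tgr at hy
    rw [mem_filter] at hy
    obtain ⟨hy1, r, hr, rfl, hru⟩ := hy
    rcases hru with h | h
    · obtain ⟨k1, k2, _⟩ := hkey r hr _ (Or.inl ⟨h, rfl⟩)
      exact ⟨hy1, hax r hr, k1, k2⟩
    · obtain ⟨k1, k2, _⟩ := hkey r hr _ (Or.inr ⟨h, rfl⟩)
      exact ⟨hy1, hax r hr, k1, k2⟩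
  have hinu : ∀ r ∈ D.crs, (r ∈ u ∨ r + 1 ∈ u) → D.gc r ∈ D.tgr u := by
    intro r hr h
    unfold Dt.tgr
    rw [mem_filter]
    exact ⟨mem_image_of_mem _ hr, r, hr, rfl, h⟩
  have hblk : ∀ y ∈ D.tgr u, ∀ k, k ≠ ax y → α k ≤ unit_lo D y k ∧
      unit_hi D y k < α k + D.h ∧ unit_hi D y k < unit_lo D y k + D.g := by
    intro y hy k hk
    exact unit_blk D hρ hg (D.w t0) y k ((htg y hy).2.2.2 k hk)
  -- the side determines the hyperplane
  have hside : ∀ y ∈ D.tgr u, ∀ y' ∈ D.tgr u, ax y = ax y' →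
      unit_sd c (ax y) y = unit_sd c (ax y') y' → y.2 (ax y) = y'.2 (ax y) := by
    intro y hy y' hy' h1 h2
    have k1 := (htg y hy).2.2.1
    have k2 := (htg y' hy').2.2.1
    rw [← h1] at k2
    unfold unit_sd at h2
    rw [decide_eq_decide, ← h1] at h2
    rcases k1 with k1 | k1
    · rw [k1, h2.1 k1]
    · rcases k2 with k2 | k2
      · rw [h2.2 k2, k2]
      · rw [k1, k2]
  -- final packaging
  have hfin : ∀ P : List (Vx d), Obj α D.g D.h P →
      (∀ x ∈ cel α D.h, ∀ v, St P x v ↔ ∃ L ∈ F, St L x v) →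
      (∀ L ∈ F, ∀ x ∈ L, x ∈ P) → UO D u P := by
    intro P p1 p2 p3
    refine ⟨fun t ht => by rw [hog t ht]; exact p1, ?_, ?_⟩
    · intro t ht x hx y
      rw [hog t ht] at hx
      rw [p2 x hx y]
      exact F3 x hx y
    · intro t ht
      obtain ⟨L, hL, hLt⟩ := F4 t ht
      exact p3 L hL _ hLt
  have hdg : 1 ≤ d * D.g := Nat.mul_pos (by omega) hg
  have hinc : D.inc u ≤ d * D.g * D.inc u := Nat.le_mul_of_pos_left _ hdg
  by_cases hreg : D.reg u
  · -- regular units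
    obtain ⟨-, p, hp, q, hq, hpq, hne, hgp, hgq, htgr, hst⟩ := hreg
    have hpu : D.gc p ∈ D.tgr u := by rw [htgr]; exact mem_insert_self _ _
    have hqu : D.gc q ∈ D.tgr u := by rw [htgr]; exact mem_insert_of_mem (mem_singleton_self _)
    have hface : (ax (D.gc p), unit_sd c (ax (D.gc p)) (D.gc p)) ≠
        (ax (D.gc q), unit_sd c (ax (D.gc q)) (D.gc q)) := by
      intro h
      rw [Prod.mk.injEq] at h
      obtain ⟨e1, e2⟩ := h
      have e3 := hside _ hpu _ hqu e1 e2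
      obtain ⟨kp1, kp2, -, kp4⟩ := htg _ hpu
      obtain ⟨kq1, kq2, -, kq4⟩ := htg _ hqu
      have hgp' := hgp
      unfold Dt.ggood at hgp'
      rw [mem_sdiff, mem_union] at hgp'
      push Not at hgp'
      apply hgp'.2.2
      unfold Dt.gbad
      rw [mem_filter]
      refine ⟨kp1, hgp'.2.1, D.gc q, kq1, hne.symm, ?_⟩
      unfold Dt.sc
      apply Prod.ext
      · show (D.gc q).1 = (D.gc p).1
        rw [kp2, kq2, e1]
      · funext k
        show (if (D.gc q).1 k = 1 then (D.gc q).2 k else (D.gc q).2 k / ((D.ρ ^ 2 : ℕ) : ℤ)) =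
          (if (D.gc p).1 k = 1 then (D.gc p).2 k else (D.gc p).2 k / ((D.ρ ^ 2 : ℕ) : ℤ))
        rw [kp2, kq2, ← e1, unit_ev]
        by_cases hk : k = ax (D.gc p)
        · rw [if_pos hk]
          simp only [if_true]
          rw [hk, e3]
        · rw [if_neg hk]
          simp only [zero_ne_one, if_false]
          have q4 : ∀ a : ℤ, a / ((D.ρ ^ 2 : ℕ) : ℤ) = a / (D.ρ : ℤ) / (D.ρ : ℤ) := by
            intro a
            rw [Int.ediv_ediv_of_nonneg (by omega : (0 : ℤ) ≤ (D.ρ : ℤ))]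
            push_cast
            rw [sq]
          rw [q4, q4, ← kp4 k hk, ← kq4 k (by rw [← e1]; exact hk)]
    obtain ⟨P, P1, P2, P3, P4⟩ := h_CLR hd α D.g D.h (ax (D.gc p)) (ax (D.gc q))
      (unit_sd c (ax (D.gc p)) (D.gc p)) (unit_sd c (ax (D.gc q)) (D.gc q))
      (unit_lo D (D.gc p)) (unit_hi D (D.gc p)) (unit_lo D (D.gc q)) (unit_hi D (D.gc q)) F
      hg hgh hface (hblk _ hpu) (hblk _ hqu) F1 (by
        intro z hz
        obtain ⟨r, hr, hz'⟩ := F7 z hz
        have h1 : D.gc r ∈ D.tgr u := hinu r hr (by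
          rcases hz' with h | h
          · exact Or.inl h.1
          · exact Or.inr h.1)
        have h2 := (hkey r hr z hz').2.2
        rw [htgr, mem_insert, mem_singleton] at h1
        rcases h1 with h1 | h1
        · left; rw [← h1]; exact h2
        · right; rw [← h1]; exact h2) (by
        obtain ⟨L, hL, hL1, hL2⟩ := F8 p hp q hq hpq hst
        refine ⟨L, hL, D.w p, D.w (q + 1), hL1, hL2, ?_, ?_⟩
        · exact (hkey p hp _ (Or.inr ⟨hst (p + 1) (by omega) (by omega), rfl⟩)).2.2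
        · exact (hkey q hq _ (Or.inl ⟨hst q hpq le_rfl, rfl⟩)).2.2)
    refine ⟨P, hfin P P1 P2 P3, ?_⟩
    have hreg' : D.reg u := ⟨hspc, p, hp, q, hq, hpq, hne, hgp, hgq, htgr, hst⟩
    rw [if_pos hreg']
    rw [F5, F6] at P4
    have e1 : 30 * d * D.g * D.inc u = 30 * (d * D.g * D.inc u) := by ring
    have e2 : 40 * d * D.g * D.inc u = 40 * (d * D.g * D.inc u) := by ring
    rw [e1] at P4
    rw [e2]
    omega
  · -- other units
    let Bk : Vx d × Vx d → Fin d × Bool × Vx d × Vx d := fun y =>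
      (ax y, unit_sd c (ax y) y, unit_lo D y, unit_hi D y)
    obtain ⟨P, P1, P2, P3, P4⟩ := h_CLN hd α D.g D.h ((D.tgr u).image Bk) F hg hgh (by
        intro x hx k hk
        rw [mem_image] at hx
        obtain ⟨y, hy, rfl⟩ := hx
        exact hblk y hy k hk) (by
        intro x hx x' hx' hne
        rw [mem_image] at hx hx'
        obtain ⟨y, hy, rfl⟩ := hx
        obtain ⟨y', hy', rfl⟩ := hx'
        rw [Set.disjoint_left]
        intro z hz hz'
        apply hne
        have hgeo := (h_GEO α D.h hh1).2.2.2.1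
        obtain ⟨e1, e2, -⟩ := hgeo _ _ _ _ 1 z le_rfl hz.1 1 le_rfl hz'.1
        have e1' : ax y = ax y' := e1
        have e2' : unit_sd c (ax y) y = unit_sd c (ax y') y' := e2
        have e3 := hside y hy y' hy' e1' e2'
        have e4 : y = y' := by
          apply Prod.ext
          · rw [(htg y hy).2.1, (htg y' hy').2.1, e1']
          · funext k
            by_cases hk : k = ax y
            · rw [hk]; exact e3
            · have h1 := hz.2 k hk
              have h2 := hz'.2 k (by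
                show k ≠ ax y'
                rw [← e1']; exact hk)
              change D.a k + D.g * y.2 k ≤ z k ∧ z k ≤ D.a k + D.g * y.2 k + D.g - 1 at h1
              change D.a k + D.g * y'.2 k ≤ z k ∧ z k ≤ D.a k + D.g * y'.2 k + D.g - 1 at h2
              have h3 : (z k - D.a k) / (D.g : ℤ) = y.2 k :=
                unit_div_unique hg0 (by omega) (by omega)
              have h4 : (z k - D.a k) / (D.g : ℤ) = y'.2 k :=
                unit_div_unique hg0 (by omega) (by omega)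
              rw [← h3, h4]
        rw [e4]) F1 F2 (by
        intro z hz
        obtain ⟨r, hr, hz'⟩ := F7 z hz
        have h1 : D.gc r ∈ D.tgr u := hinu r hr (by
          rcases hz' with h | h
          · exact Or.inl h.1
          · exact Or.inr h.1)
        have h2 := (hkey r hr z hz').2.2
        exact ⟨Bk (D.gc r), mem_image_of_mem _ h1, h2⟩)
    refine ⟨P, hfin P P1 P2 P3, ?_⟩
    rw [if_neg hreg]
    rw [F5, F6] at P4
    have hK : ((D.tgr u).image Bk).card ≤ (D.tgr u).card := card_image_le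
    have e0 : 400 * d ^ 3 * D.h * ((D.tgr u).image Bk).card ≤
        400 * d ^ 3 * D.h * (D.tgr u).card := Nat.mul_le_mul_left _ hK
    have e1 : (1 + 4 * d * D.g) * D.inc u = D.inc u + 4 * (d * D.g * D.inc u) := by ring
    have e2 : 40 * d * D.g * D.inc u = 40 * (d * D.g * D.inc u) := by ring
    rw [e1] at P4
    rw [e2]
    omega

end Pool.Agent.H981R3.IS
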