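import Pool.Agent.H981R3.IS.Stubs

/-!
# Interacting self-avoiding walks: every polygon has a good root (helper96)
-/

set_option autoImplicit false

namespace Pool.Agent.H981R3.IS

open Finset

variable {d : ℕ}

/-- reversal keeping the head -/
def zk_rev {α : Type} : List α → List α
  | [] => []
  | v :: T => v :: T.reverse

theorem zk_rev_rev {α : Type} (L : List α) : zk_rev (zk_rev L) = L := by
  cases L with
  | nil => rfl
  | cons v T => simp [zk_rev]

theorem zk_rev_map {α γ : Type} (f : α → γ) (L : List α) : zk_rev (L.map f) = (zk_rev L).map f := by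
  cases L with
  | nil => rfl
  | cons v T => simp [zk_rev]

/-- exchange of two coordinates -/
def zk_swp (j i1 : Fin d) (x : Vx d) : Vx d := fun k => x (Equiv.swap j i1 k)

theorem zk_swp_swp (j i1 : Fin d) (x : Vx d) : zk_swp j i1 (zk_swp j i1 x) = x := by
  funext k
  simp [zk_swp]

theorem zk_swp_inj (j i1 : Fin d) : Function.Injective (zk_swp j i1 : Vx d → Vx d) := by
  intro x y h
  rw [← zk_swp_swp j i1 x, h, zk_swp_swp]

theorem zk_swp_adj (j i1 : Fin d) (x y : Vx d) :
    adj (zk_swp j i1 x) (zk_swp j i1 y) ↔ adj x y := by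
  unfold adj zk_swp
  rw [Equiv.sum_comp (Equiv.swap j i1) (fun k => |x k - y k|)]

theorem zk_sub_adj (v x y : Vx d) : adj (x - v) (y - v) ↔ adj x y := by
  unfold adj
  simp

/-- decoding -/
noncomputable def zk_dec (i1 : Fin d) (l r : ℕ) (b : Bool) (j : Fin d) (Q : List (Vx d)) :
    List (Vx d) :=
  let Q1 := Q.map (zk_swp j i1)
  let Q2 := if b then zk_rev Q1 else Q1
  let Q3 := Q2.drop (l - r) ++ Q2.take (l - r)
  Q3.map (fun x => x - Q3.headD 0)

theorem zk_mem_LL {S : Finset (Vx d)} {l : ℕ} {P : List (Vx d)} :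
    P ∈ LL S l ↔ P.length = l ∧ ∀ x ∈ P, x ∈ S := by
  unfold LL
  rw [Finset.mem_image]
  constructor
  · rintro ⟨f, hf, rfl⟩
    rw [Fintype.mem_piFinset] at hf
    refine ⟨List.length_ofFn, ?_⟩
    intro x hx
    rw [List.mem_ofFn] at hx
    obtain ⟨i, rfl⟩ := hx
    exact hf i
  · rintro ⟨hl, hx⟩
    subst hl
    refine ⟨fun i => P.get i, ?_, List.ofFn_get P⟩
    rw [Fintype.mem_piFinset]
    intro i
    exact hx _ (List.get_mem _ _)

/-- a good vertex: maximal in the coordinate `i0`, no neighbour above -/
theorem zk_vertex (i0 : Fin d) (P : List (Vx d)) (hP : P ≠ []) :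
    ∃ v ∈ P, (∀ x ∈ P, x i0 ≤ v i0) ∧ ∀ k, v + ev k ∉ P := by
  classical
  have hne : P.toFinset.Nonempty := by
    obtain ⟨a, ha⟩ := List.exists_mem_of_ne_nil P hP
    exact ⟨a, List.mem_toFinset.2 ha⟩
  obtain ⟨u, hu, humax⟩ := Finset.exists_max_image P.toFinset (fun x => x i0) hne
  have hne2 : (P.toFinset.filter (fun x => x i0 = u i0)).Nonempty :=
    ⟨u, Finset.mem_filter.2 ⟨hu, rfl⟩⟩
  obtain ⟨v, hv, hvmax⟩ := Finset.exists_max_image (P.toFinset.filter (fun x => x i0 = u i0))
    (fun x => ∑ k, x k) hne2
  rw [Finset.mem_filter] at hv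
  refine ⟨v, List.mem_toFinset.1 hv.1, ?_, ?_⟩
  · intro x hx
    rw [hv.2]
    exact humax x (List.mem_toFinset.2 hx)
  · intro k hk
    have h1 := humax (v + ev k) (List.mem_toFinset.2 hk)
    simp only [Pi.add_apply] at h1
    by_cases hki : i0 = k
    · subst hki
      simp only [ev, Pi.single_eq_same] at h1
      rw [hv.2] at h1
      omega
    · have h2 : (ev k : Vx d) i0 = 0 := by
        simp only [ev]
        exact Pi.single_eq_of_ne hki _
      have h3 : v + ev k ∈ P.toFinset.filter (fun x => x i0 = u i0) := by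
        rw [Finset.mem_filter]
        refine ⟨List.mem_toFinset.2 hk, ?_⟩
        simp only [Pi.add_apply]
        rw [h2, hv.2, add_zero]
      have h4 := hvmax _ h3
      simp only [Pi.add_apply, Finset.sum_add_distrib] at h4
      have h5 : ∑ i, (ev k : Vx d) i = 1 := by
        simp [ev, Finset.sum_pi_single']
      rw [h5] at h4
      omega

/-- rotation of a closed path -/
theorem zk_rot {A B : List (Vx d)} (hB : B ≠ []) (h : IsC (A ++ B)) : IsC (B ++ A) := by
  by_cases hA : A = []
  · subst hA
    simpa using h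
  obtain ⟨⟨hch, hnd⟩, hlen, x, y, hx, hy, hxy⟩ := h
  have hx' : A.head? = some x := by
    rw [List.head?_append_of_ne_nil _ hA] at hx
    exact hx
  have hy' : B.getLast? = some y := by
    rw [List.getLast?_append_of_ne_nil _ hB] at hy
    exact hy
  rw [List.isChain_append] at hch
  obtain ⟨hcA, hcB, hAB⟩ := hch
  obtain ⟨a, ha⟩ : ∃ a, A.getLast? = some a := ⟨A.getLast hA, List.getLast?_eq_some_getLast hA⟩
  obtain ⟨b, hb⟩ : ∃ b, B.head? = some b := ⟨B.head hB, List.head?_eq_some_head hB⟩
  refine ⟨⟨?_, ?_⟩, ?_, b, a, ?_, ?_, ?_⟩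
  · rw [List.isChain_append]
    refine ⟨hcB, hcA, ?_⟩
    intro z hz w hw
    rw [hy'] at hz
    rw [hx'] at hw
    cases hz
    cases hw
    exact hxy
  · exact List.nodup_append_comm.1 hnd
  · rw [List.length_append] at hlen ⊢
    omega
  · rw [List.head?_append_of_ne_nil _ hB]
    exact hb
  · rw [List.getLast?_append_of_ne_nil _ hA]
    exact ha
  · exact hAB a (by rw [ha]; rfl) b (by rw [hb]; rfl)

/-- reversal of a closed path -/
theorem zk_revC (hsym : ∀ x y : Vx d, adj x y ↔ adj y x) {v : Vx d} {T : List (Vx d)}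
    (h : IsC (v :: T)) : IsC (v :: T.reverse) := by
  obtain ⟨⟨hch, hnd⟩, hlen, x, y, hx, hy, hxy⟩ := h
  have hx' : v = x := by simpa using hx
  subst hx'
  have hT : T ≠ [] := by
    intro h
    subst h
    simp at hlen
  have hy' : T.getLast? = some y := by
    rw [← hy, List.getLast?_cons_of_ne_nil hT]
  obtain ⟨t, ht⟩ : ∃ t, T.head? = some t := ⟨T.head hT, List.head?_eq_some_head hT⟩
  have hvt : adj v t := hch.rel_head? (by rw [ht]; rfl)
  refine ⟨⟨?_, ?_⟩, ?_, v, t, rfl, ?_, ?_⟩
  · rw [List.isChain_cons]
    constructor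
    · intro z hz
      rw [List.head?_reverse, hy'] at hz
      cases hz
      exact (hsym _ _).1 hxy
    · rw [List.isChain_reverse]
      have h1 := hch.tail
      simp only [List.tail_cons] at h1
      exact h1.imp fun a b hab => (hsym _ _).1 hab
  · rw [List.nodup_cons] at hnd ⊢
    rw [List.mem_reverse, List.nodup_reverse]
    exact hnd
  · simpa using hlen
  · rw [List.getLast?_cons_of_ne_nil (by simpa using hT), List.getLast?_reverse]
    exact ht
  · exact (hsym _ _).1 hvt

theorem p_ZK (d : ℕ) (h_ISO : St_ISO d) (h_ACM : St_ACM d) : St_ZK d := by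
  classical
  intro i0 i1 β l h01 hl
  obtain ⟨-, -, -, hsym, hadj, -, -, -, -, hcube⟩ := h_ACM
  have hCW : ∀ P : List (Vx d), P ∈ CW d l ↔ P.length = l ∧ IsC P ∧ P.head? = some 0 := by
    intro P
    unfold CW
    rw [Finset.mem_filter, zk_mem_LL]
    constructor
    · rintro ⟨⟨h1, -⟩, h2, h3⟩
      exact ⟨h1, h2, h3⟩
    · rintro ⟨h1, h2, h3⟩
      exact ⟨⟨h1, hcube P l h2.1.1 h3 (by omega)⟩, h2, h3⟩
  have main : ∀ P ∈ CW d l, ∃ (c : Fin l × Bool × Fin d) (Q : List (Vx d)), Q ∈ KW i0 i1 l ∧
      wt β Q = wt β P ∧ zk_dec i1 l c.1 c.2.1 c.2.2 Q = P := by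
    intro P hP
    obtain ⟨hlen, hC, hhead⟩ := (hCW P).1 hP
    have hne : P ≠ [] := by
      intro h
      subst h
      simp at hhead
    obtain ⟨v, hvP, hvmax, hvnb⟩ := zk_vertex i0 P hne
    obtain ⟨A, B, hAB⟩ := List.append_of_mem hvP
    have hC' : IsC (v :: (B ++ A)) := by
      rw [hAB] at hC
      exact zk_rot (by simp) hC
    set T := B ++ A with hT
    have hTlen : T.length + 1 = l := by
      rw [hT, ← hlen, hAB]
      simp
      omega
    have hTne : T ≠ [] := by
      intro h
      rw [h] at hTlen
      simp at hTlen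
      omega
    have hTP : ∀ x ∈ T, x ∈ P := by
      intro x hx
      rw [hAB]
      rw [hT, List.mem_append] at hx
      rw [List.mem_append, List.mem_cons]
      tauto
    have hPT : ∀ x, x ∈ P ↔ x = v ∨ x ∈ T := by
      intro x
      rw [hAB, hT, List.mem_append, List.mem_cons, List.mem_append]
      tauto
    -- neighbours of `v`
    have hnb : ∀ x ∈ T, adj v x → ∃ a, x = v - ev a := by
      intro x hx hvx
      obtain ⟨k, hk | hk⟩ := (hadj v x).1 hvx
      · exact absurd (hk ▸ hTP x hx) (hvnb k)
      · exact ⟨k, by rw [hk]; abel⟩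
    obtain ⟨⟨hch, hnd⟩, -, x0, y0, hx0, hy0, hxy0⟩ := id hC'
    have hx0' : v = x0 := by simpa using hx0
    subst hx0'
    rw [List.getLast?_cons_of_ne_nil hTne] at hy0
    obtain ⟨t, ht⟩ : ∃ t, T.head? = some t := ⟨T.head hTne, List.head?_eq_some_head hTne⟩
    have hvt : adj v t := hch.rel_head? (by rw [ht]; rfl)
    have htT : t ∈ T := List.mem_of_mem_head? (by rw [ht]; rfl)
    have hyT : y0 ∈ T := List.mem_of_mem_getLast? (by rw [hy0]; rfl)
    obtain ⟨a, ha⟩ := hnb t htT hvt
    obtain ⟨b, hb⟩ := hnb y0 hyT ((hsym _ _).1 hxy0)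
    have hab : a ≠ b := by
      intro hab
      have hty : t = y0 := by rw [ha, hb, hab]
      have hTnd : T.Nodup := (List.nodup_cons.1 hnd).2
      obtain ⟨T', hT'⟩ : ∃ T', T = t :: T' := by
        cases hh : T with
        | nil => exact absurd hh hTne
        | cons z T' =>
          rw [hh] at ht
          simp at ht
          exact ⟨T', by rw [ht]⟩
      have hT'ne : T' ≠ [] := by
        intro h
        rw [hT', h] at hTlen
        simp at hTlen
        omega
      rw [hT', List.getLast?_cons_of_ne_nil hT'ne] at hy0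
      have h1 : y0 ∈ T' := List.mem_of_mem_getLast? (by rw [hy0]; rfl)
      rw [hT', List.nodup_cons] at hTnd
      exact hTnd.1 (hty ▸ h1)
    -- the good orientation
    have hor : ∃ (bb : Bool) (j : Fin d) (T0 : List (Vx d)), j ≠ i0 ∧ IsC (v :: T0) ∧
        T0.length = T.length ∧ (∀ x, x ∈ T0 ↔ x ∈ T) ∧ T0.getLast? = some (v - ev j) ∧
        (if bb then zk_rev (v :: T0) else (v :: T0)) = v :: T := by
      by_cases hbi : b = i0
      · refine ⟨true, a, T.reverse, ?_, zk_revC hsym hC', by simp, by simp, ?_, ?_⟩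
        · rw [← hbi]; exact hab
        · rw [List.getLast?_reverse, ht, ha]
        · simp [zk_rev]
      · refine ⟨false, b, T, hbi, hC', rfl, fun x => Iff.rfl, ?_, ?_⟩
        · rw [hy0, hb]
        · simp
    obtain ⟨bb, j, T0, hj, hC0, hlen0, hmem0, hlast0, hbb⟩ := hor
    have hT0ne : T0 ≠ [] := by
      intro h
      rw [h] at hlen0
      simp at hlen0
      exact hTne (List.eq_nil_of_length_eq_zero hlen0.symm)
    set φ : Vx d → Vx d := fun x => zk_swp j i1 (x - v) with hφ
    have hφinj : Function.Injective φ := by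
      intro x y hxy
      have := zk_swp_inj j i1 hxy
      exact sub_left_injective this
    have hφadj : ∀ x y, adj (φ x) (φ y) ↔ adj x y := by
      intro x y
      rw [hφ]
      simp only
      rw [zk_swp_adj, zk_sub_adj]
    obtain ⟨-, hiso⟩ := h_ISO φ hφinj hφadj
    obtain ⟨-, hisoC, hisow, -⟩ := hiso β (v :: T0)
    have hrlt : A.length < l := by
      rw [← hlen, hAB]
      simp
    refine ⟨(⟨A.length, hrlt⟩, bb, j), (v :: T0).map φ, ?_, ?_, ?_⟩
    · unfold KW
      rw [Finset.mem_filter, hCW]
      refine ⟨⟨?_, hisoC.2 hC0, ?_⟩, ?_, ?_⟩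
      · simp only [List.length_map, List.length_cons]
        rw [hlen0]; exact hTlen
      · have : φ v = 0 := by
          rw [hφ]
          funext k
          simp [zk_swp]
        simp [this]
      · rw [List.getLast?_map, List.getLast?_cons_of_ne_nil hT0ne, hlast0]
        have : φ (v - ev j) = -ev i1 := by
          rw [hφ]
          funext k
          simp only [zk_swp, Pi.sub_apply, Pi.neg_apply, ev, Pi.single_apply]
          by_cases hk : k = i1
          · subst hk
            simp
          · by_cases hk2 : k = j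
            · subst hk2
              simp only [Equiv.swap_apply_left]
              rw [if_neg (fun h => hk h.symm), if_neg hk]
              ring
            · rw [Equiv.swap_apply_of_ne_of_ne hk2 hk, if_neg hk2, if_neg hk]
              ring
        rw [Option.map_some, this]
      · intro x hx
        rw [List.mem_map] at hx
        obtain ⟨y, hy, rfl⟩ := hx
        have hyP : y ∈ P := by
          rw [hPT]
          rw [List.mem_cons, hmem0] at hy
          exact hy
        have h1 := hvmax y hyP
        have h2 : φ y i0 = y i0 - v i0 := by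
          rw [hφ]
          simp only [zk_swp, Pi.sub_apply]
          rw [Equiv.swap_apply_of_ne_of_ne hj.symm h01]
        rw [h2]
        linarith
    · rw [hisow]
      unfold wt
      congr 4
      ext x
      rw [List.mem_toFinset, List.mem_toFinset, hPT, List.mem_cons, hmem0]
    · have h1 : ((v :: T0).map φ).map (zk_swp j i1) = (v :: T0).map (fun x => x - v) := by
        rw [List.map_map]
        apply List.map_congr_left
        intro x _
        simp [hφ, zk_swp_swp]
      have h2 : (if bb then zk_rev ((v :: T0).map (fun x => x - v)) else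
          ((v :: T0).map (fun x => x - v))) = (v :: T).map (fun x => x - v) := by
        rw [← hbb]
        cases bb
        · simp
        · simp only [if_true]
          rw [zk_rev_map]
      have h3 : (v :: T).map (fun x => x - v) =
          (v :: B).map (fun x => x - v) ++ A.map (fun x => x - v) := by
        rw [hT]
        simp
      have h4 : l - A.length = ((v :: B).map (fun x => x - v)).length := by
        rw [← hlen, hAB]
        simp
      unfold zk_dec
      simp only
      rw [h1, h2, h3, h4, List.drop_left, List.take_left, ← List.map_append, ← hAB]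
      have h5 : (P.map (fun x => x - v)).headD 0 = -v := by
        cases hPc : P with
        | nil => exact absurd hPc hne
        | cons z P' =>
          rw [hPc] at hhead
          simp at hhead
          simp [hhead]
      rw [h5, List.map_map]
      have h6 : ((fun x => x - -v) ∘ fun x : Vx d => x - v) = id := by
        funext x
        simp
      rw [h6, List.map_id]
  have hnon : Nonempty (Fin l × Bool × Fin d) := ⟨(⟨0, by omega⟩, true, i0)⟩
  choose! c Q hQ hwt hdec using main
  unfold Zc Kr
  have h1 : ∑ P ∈ CW d l, wt β P ≤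
      ∑ z ∈ (Finset.univ : Finset (Fin l × Bool × Fin d)) ×ˢ KW i0 i1 l, wt β z.2 := by
    have hinj : Set.InjOn (fun P => (c P, Q P)) (CW d l : Set (List (Vx d))) := by
      intro P hP P' hP' h
      simp only [Prod.mk.injEq] at h
      rw [← hdec P hP, ← hdec P' hP', h.1, h.2]
    have h2 : ∑ P ∈ CW d l, wt β P = ∑ z ∈ (CW d l).image (fun P => (c P, Q P)), wt β z.2 := by
      rw [Finset.sum_image hinj]
      exact Finset.sum_congr rfl fun P hP => (hwt P hP).symm
    rw [h2]
    apply Finset.sum_le_sum_of_subset_of_nonneg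
    · intro z hz
      rw [Finset.mem_image] at hz
      obtain ⟨P, hP, rfl⟩ := hz
      rw [Finset.mem_product]
      exact ⟨Finset.mem_univ _, hQ P hP⟩
    · intro z _ _
      exact (Real.exp_pos _).le
  refine h1.trans (le_of_eq ?_)
  rw [Finset.sum_product]
  simp only [Finset.sum_const, Finset.card_univ, Fintype.card_prod, Fintype.card_fin,
    Fintype.card_bool, nsmul_eq_mul]
  push_cast
  ring

end Pool.Agent.H981R3.IS
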