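import Pool.Agent.H981R3.IS.ACM
import Pool.Agent.H981R3.IS.ARI
import Pool.Agent.H981R3.IS.BL
import Pool.Agent.H981R3.IS.BND
import Pool.Agent.H981R3.IS.BX
import Pool.Agent.H981R3.IS.CHN
import Pool.Agent.H981R3.IS.CLN
import Pool.Agent.H981R3.IS.CLO
import Pool.Agent.H981R3.IS.CLR
import Pool.Agent.H981R3.IS.CLS
import Pool.Agent.H981R3.IS.CNT
import Pool.Agent.H981R3.IS.CR
import Pool.Agent.H981R3.IS.CRA
import Pool.Agent.H981R3.IS.CRO
import Pool.Agent.H981R3.IS.DEC
import Pool.Agent.H981R3.IS.ENC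
import Pool.Agent.H981R3.IS.ENJ
import Pool.Agent.H981R3.IS.FAM
import Pool.Agent.H981R3.IS.GEO
import Pool.Agent.H981R3.IS.GU
import Pool.Agent.H981R3.IS.ISO
import Pool.Agent.H981R3.IS.JOIN
import Pool.Agent.H981R3.IS.K0
import Pool.Agent.H981R3.IS.KK
import Pool.Agent.H981R3.IS.LAL
import Pool.Agent.H981R3.IS.LF
import Pool.Agent.H981R3.IS.LIM
import Pool.Agent.H981R3.IS.LOW
import Pool.Agent.H981R3.IS.NB
import Pool.Agent.H981R3.IS.OBJ
import Pool.Agent.H981R3.IS.POL
import Pool.Agent.H981R3.IS.PSM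
import Pool.Agent.H981R3.IS.RG
import Pool.Agent.H981R3.IS.SCH
import Pool.Agent.H981R3.IS.SEL
import Pool.Agent.H981R3.IS.SEQ
import Pool.Agent.H981R3.IS.SH
import Pool.Agent.H981R3.IS.SHC
import Pool.Agent.H981R3.IS.STR
import Pool.Agent.H981R3.IS.UNIT
import Pool.Agent.H981R3.IS.ZK

/-!
# Interacting self-avoiding walks: the main theorem

For every `d ≥ 2` and `β ≥ 0` the free energy of interacting self-avoiding walks exists and equals
the free energy of interacting self-avoiding polygons.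
-/

set_option autoImplicit false

namespace Pool.Agent.H981R3.IS

theorem main_LIM (d : ℕ) : St_LIM d := by
  have hACM := p_ACM d
  have hISO := p_ISO d hACM
  have hGEO := p_GEO d
  have hCHN := p_CHN d
  have hSCH := p_SCH d
  have hJOIN := p_JOIN d hGEO hSCH hACM
  have hCLO := p_CLO d hGEO hSCH hACM
  have hBL := p_BL d hGEO hJOIN
  have hBX := p_BX d hBL hCHN
  have hSHC := p_SHC d hCHN
  have hSH := p_SH d hGEO hJOIN hCLO hSHC
  have hCLR := p_CLR d hBX hJOIN hCLO hCHN hGEO hACM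
  have hCLN := p_CLN d hBX hSH hGEO
  have hARI := p_ARI d
  have hCLS := p_CLS d
  have hFAM := p_FAM d hARI hCLS hGEO hACM
  have hUNIT := p_UNIT d hFAM hCLR hCLN hARI hCLS hGEO
  have hNB := p_NB d hCLS hARI
  have hGU := p_GU d p_LAL hCLS hARI
  have hLF := p_LF d p_LAL hNB hCLS hARI
  have hRG := p_RG d hCLS
  have hCNT := p_CNT d hNB hGU hLF hRG hARI hCLS
  have hSEL := p_SEL d
  have hSTR := p_STR d hSEL hUNIT hCNT hCLS hARI
  have hBND := p_BND d hACM hCLS hARI
  have hDEC := p_DEC d hCLS hARI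
  have hENJ := p_ENJ d p_PSM hDEC hBND hISO hACM hCLS hARI
  have hENC := p_ENC d hSTR hENJ
  have hCRA := p_CRA d hISO hACM
  have hCRO := p_CRO d hISO hACM
  have hCR := p_CR d hCRA hCRO
  have hOBJ := p_OBJ d hISO hACM hCR
  have hKK := p_KK d hISO hACM
  have hZK := p_ZK d hISO hACM
  have hK0 := p_K0 d hACM
  have hPOL := p_POL d hKK hZK hK0 p_SEQ
  have hLOW := p_LOW d hISO hACM
  exact p_LIM d hPOL hOBJ hENC hLOW

end Pool.Agent.H981R3.IS
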