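import Pool.Agent.H981R3.IS.Stubs

set_option autoImplicit false

/-! PSM: sum over codes. -/

namespace Pool.Agent.H981R3.IS

open Finset

theorem p_PSM : St_PSM := by
  classical
  intro ι κ τ Ω N T Q φ ψ f W A hA hW hφ hψ hinj hf
  let g : ι → (Fin N → τ) × κ := fun i => (φ i, ψ i)
  let G : (Fin N → τ) × κ → ℝ := fun y => ∏ t, W (y.1 t)
  have h1 : ∑ i ∈ Ω, f i ≤ A * ∑ i ∈ Ω, G (g i) := by
    rw [Finset.mul_sum]
    exact Finset.sum_le_sum hf
  have h2 : ∑ i ∈ Ω, G (g i) = ∑ y ∈ Ω.image g, G y := by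
    rw [Finset.sum_image]
    intro i hi j hj hij
    exact hinj i hi j hj (congrArg Prod.fst hij) (congrArg Prod.snd hij)
  have h3 : ∑ y ∈ Ω.image g, G y ≤
      ∑ y ∈ (Fintype.piFinset (fun _ : Fin N => T)) ×ˢ Q, G y := by
    apply Finset.sum_le_sum_of_subset_of_nonneg
    · intro y hy
      obtain ⟨i, hi, rfl⟩ := Finset.mem_image.1 hy
      rw [Finset.mem_product]
      exact ⟨Fintype.mem_piFinset.2 (hφ i hi), hψ i hi⟩
    · intro y hy _
      rw [Finset.mem_product] at hy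
      exact Finset.prod_nonneg (fun t _ => hW _ (Fintype.mem_piFinset.1 hy.1 t))
  have h4 : ∑ y ∈ (Fintype.piFinset (fun _ : Fin N => T)) ×ˢ Q, G y =
      Q.card * (∑ x ∈ T, W x) ^ N := by
    rw [Finset.sum_product_right]
    have : ∑ p ∈ Fintype.piFinset (fun _ : Fin N => T), ∏ t, W (p t) = (∑ x ∈ T, W x) ^ N := by
      rw [← Finset.prod_univ_sum]
      simp
    simp only [G]
    rw [this]
    simp
  calc ∑ i ∈ Ω, f i ≤ A * ∑ i ∈ Ω, G (g i) := h1
    _ ≤ A * (Q.card * (∑ x ∈ T, W x) ^ N) := by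
        apply mul_le_mul_of_nonneg_left _ hA
        rw [h2, ← h4]
        exact h3
    _ = A * Q.card * (∑ x ∈ T, W x) ^ N := by ring

end Pool.Agent.H981R3.IS
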