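import Pool.Agent.H981R3.IS.Defs

/-!
# Interacting self-avoiding walks: all statements, as propositions
-/

set_option autoImplicit false

namespace Pool.Agent.H981R3.IS

open Finset

/-! ### Part 0: base facts -/

/-- ISO: lattice automorphisms -/
def St_ISO (d : ℕ) : Prop := ∀ φ : Vx d → Vx d, Function.Injective φ →
  (∀ x y, adj (φ x) (φ y) ↔ adj x y) →
  (∀ S : Finset (Vx d), Ac (S.image φ) = Ac S) ∧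
  ∀ (β : ℝ) (P : List (Vx d)), (IsP (P.map φ) ↔ IsP P) ∧ (IsC (P.map φ) ↔ IsC P) ∧
    wt β (P.map φ) = wt β P ∧ ∀ x y, St (P.map φ) (φ x) (φ y) ↔ St P x y

/-- ACM: monotonicity and superadditivity of the number of bonds -/
def St_ACM (d : ℕ) : Prop :=
  (∀ S T : Finset (Vx d), S ⊆ T → Ac S ≤ Ac T) ∧
  (∀ S T : Finset (Vx d), Disjoint S T → Ac S + Ac T ≤ Ac (S ∪ T)) ∧
  (∀ S : Finset (Vx d), Ac S ≤ d * S.card) ∧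
  (∀ x y : Vx d, adj x y ↔ adj y x) ∧
  (∀ x y : Vx d, adj x y ↔ ∃ k, y = x + ev k ∨ x = y + ev k) ∧
  (∀ P : List (Vx d), IsP P → IsP P.reverse) ∧
  (∀ (P : List (Vx d)) (x y : Vx d), St P.reverse x y ↔ St P x y) ∧
  (∀ (P : List (Vx d)) (x y : Vx d), St P x y → x ∈ P ∧ y ∈ P) ∧
  (∀ (P Q : List (Vx d)) (a b x y : Vx d), St (P ++ a :: b :: Q) x y ↔
    St (P ++ [a]) x y ∨ St (b :: Q) x y ∨ (x = a ∧ y = b) ∨ (x = b ∧ y = a)) ∧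
  (∀ (P : List (Vx d)) (n : ℕ), P.IsChain adj → P.head? = some 0 → P.length ≤ n + 1 →
    ∀ x ∈ P, x ∈ cube d n)

/-! ### Part G: geometry, chains and closing of units -/

/-- GEO: elementary facts on columns, rays, feet and heights -/
def St_GEO (d : ℕ) : Prop := ∀ (α : Vx d) (h : ℕ), 1 ≤ h →
  (∀ x, x ∈ cel α h ↔ ht α h x = 0) ∧
  (∀ i σ t x, 1 ≤ t → x ∈ col α h i σ t →
    ht α h x = t ∧ foot α h x ∈ col α h i σ 1 ∧ ray α h (foot α h x) (t - 1) = x ∧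
    ∀ s, ray α h x s ∈ col α h i σ (t + s)) ∧
  (∀ i σ z, z ∈ col α h i σ 1 → foot α h z = z ∧ (∀ t, ht α h (ray α h z t) = t + 1) ∧
    (∀ t, foot α h (ray α h z t) = z) ∧ (∀ t, adj (ray α h z t) (ray α h z (t + 1))) ∧
    ray α h z 0 = z) ∧
  (∀ i σ i' σ' t x, 1 ≤ t → x ∈ col α h i σ t → ∀ t', 1 ≤ t' → x ∈ col α h i' σ' t' →
    i = i' ∧ σ = σ' ∧ t = t') ∧
  (∀ x i σ, foot α h x ∈ col α h i σ 1 → 1 ≤ ht α h x ∧ x ∈ col α h i σ (ht α h x)) ∧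
  (∀ i σ z z' t, z ∈ col α h i σ 1 → z' ∈ col α h i σ 1 → adj z z' →
    adj (ray α h z t) (ray α h z' t)) ∧
  (∀ x T, ht α h x ≤ T ↔ x ∈ bxT α h T) ∧
  (∀ x y, x ∈ cel α h → y ∉ cel α h → adj x y → ∃ i σ, y ∈ col α h i σ 1)

/-- CHN: monotone lattice paths -/
def St_CHN (d : ℕ) : Prop := ∀ u v : Vx d, ∃ C : List (Vx d), C.IsChain adj ∧
  C.head? = some u ∧ C.getLast? = some v ∧
  (∀ x ∈ C, ∀ k, min (u k) (v k) ≤ x k ∧ x k ≤ max (u k) (v k)) ∧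
  (C.length : ℤ) = ∑ k, |u k - v k| + 1

/-- SCH: a shortest chain between two disjoint sets of points of `S` -/
def St_SCH (d : ℕ) : Prop := ∀ (S A B : Set (Vx d)) (C : List (Vx d)) (x y : Vx d),
  Disjoint A B → C.IsChain adj → C.head? = some x → C.getLast? = some y →
  x ∈ A → y ∈ B → (∀ c ∈ C, c ∈ S) →
  ∃ (p q : Vx d) (M : List (Vx d)), p ∈ A ∧ p ∈ S ∧ q ∈ B ∧ q ∈ S ∧ IsP (p :: (M ++ [q])) ∧
    (∀ c ∈ M, c ∈ S ∧ c ∉ A ∧ c ∉ B) ∧ M.length + 2 ≤ C.length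

/-- JOIN: joining two paths through a layer `S` of height `t` -/
def St_JOIN (d : ℕ) : Prop := ∀ (α : Vx d) (h : ℕ) (F : Finset (List (Vx d))) (t : ℕ)
  (S : Set (Vx d)) (L1 L2 C : List (Vx d)) (x y : Vx d), 1 ≤ h → Sys α h F → 2 ≤ t →
  (∀ s ∈ S, ht α h s = t) → (∀ s ∈ S, ∀ L ∈ F, s ∉ L) → L1 ∈ F → L2 ∈ F → L1 ≠ L2 →
  tipz L1 x → tipz L2 y → ray α h x (t - 1) ∈ S → ray α h y (t - 1) ∈ S →
  C.IsChain adj → C.head? = some (ray α h x (t - 1)) → C.getLast? = some (ray α h y (t - 1)) →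
  (∀ c ∈ C, c ∈ S) →
  ∃ L3 ∈ F, L3 ≠ L1 ∧ ∃ (z1 w1 z2 w2 : Vx d) (N : List (Vx d)),
    z1 ≠ w1 ∧ z2 ≠ w2 ∧ (∀ z, tipz L1 z ↔ z = z1 ∨ z = w1) ∧ (∀ z, tipz L3 z ↔ z = z2 ∨ z = w2) ∧
    ray α h z1 (t - 1) ∈ S ∧ ray α h z2 (t - 1) ∈ S ∧
    (∀ z, tipz N z ↔ z = w1 ∨ z = w2) ∧ N ∉ F ∧
    Sys α h (insert N ((F.erase L1).erase L3)) ∧
    (∀ u ∈ cel α h, ∀ v, St N u v ↔ St L1 u v ∨ St L3 u v) ∧
    (∀ u, u ∈ L1 ∨ u ∈ L3 → u ∈ N) ∧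
    (∀ u ∈ N, u ∈ L1 ∨ u ∈ L3 ∨ u ∈ S ∨
      ∃ s, 1 ≤ s ∧ s ≤ t - 1 ∧ (u = ray α h z1 s ∨ u = ray α h z2 s)) ∧
    N.length ≤ L1.length + L3.length + 2 * (t - 1) + C.length

/-- CLO: closing a single path through a layer `S` of height `t` -/
def St_CLO (d : ℕ) : Prop := ∀ (α : Vx d) (h : ℕ) (t : ℕ)
  (S : Set (Vx d)) (L C : List (Vx d)) (z w : Vx d), 1 ≤ h → Sys α h {L} → 2 ≤ t →
  (∀ s ∈ S, ht α h s = t) → (∀ s ∈ S, s ∉ L) → z ≠ w → (∀ v, tipz L v ↔ v = z ∨ v = w) →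
  ray α h z (t - 1) ∈ S → ray α h w (t - 1) ∈ S →
  C.IsChain adj → C.head? = some (ray α h z (t - 1)) → C.getLast? = some (ray α h w (t - 1)) →
  (∀ c ∈ C, c ∈ S) →
  ∃ P : List (Vx d), IsC P ∧ (∀ u ∈ cel α h, ∀ v, St P u v ↔ St L u v) ∧ (∀ u ∈ L, u ∈ P) ∧
    (∀ u ∈ P, u ∈ L ∨ u ∈ S ∨ ∃ s, 1 ≤ s ∧ s ≤ t - 1 ∧ (u = ray α h z s ∨ u = ray α h w s)) ∧
    P.length ≤ L.length + 2 * (t - 1) + C.length

/-- BL: reducing the tips in one block to at most two -/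
def St_BL (d : ℕ) : Prop := ∀ (α : Vx d) (h : ℕ) (i : Fin d) (σ : Bool) (B I : Set (Vx d))
  (F : Finset (List (Vx d))) (H D : ℕ), 1 ≤ h → 1 ≤ H → B ⊆ col α h i σ 1 → B ⊆ I →
  Sys α h F → (∀ L ∈ F, ∀ x ∈ L, foot α h x ∈ B → ht α h x ≤ H) →
  (∀ z ∈ B, ∀ w ∈ B, ∃ C : List (Vx d), C.IsChain adj ∧ C.head? = some z ∧ C.getLast? = some w ∧
    (∀ c ∈ C, c ∈ B) ∧ C.length ≤ D) →
  ∃ F' : Finset (List (Vx d)), Sys α h F' ∧ Ext α h B (H + nt F B) F F' ∧ nt F' B ≤ 2 ∧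
    (1 ≤ nt F B → 1 ≤ nt F' B) ∧
    tot F' + (H + nt F B + D) * nt F' B ≤ tot F + (H + nt F B + D) * nt F B ∧
    (Thr F I → Thr F' I)

/-- BX: reducing the tips in a box of side `s` of a face to at most two, efficiently -/
def St_BX (d : ℕ) : Prop := ∀ (α : Vx d) (h s H : ℕ) (i : Fin d) (σ : Bool) (lo hi : Vx d)
  (I : Set (Vx d)) (F : Finset (List (Vx d))), 1 ≤ h → 1 ≤ s → 1 ≤ H →
  (∀ k, k ≠ i → α k ≤ lo k ∧ hi k < α k + h ∧ hi k < lo k + s) →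
  blk α h i σ lo hi ⊆ I → Sys α h F →
  (∀ L ∈ F, ∀ x ∈ L, foot α h x ∈ blk α h i σ lo hi → ht α h x ≤ H) →
  ∃ F' : Finset (List (Vx d)), Sys α h F' ∧ Ext α h (blk α h i σ lo hi) (H + 2 * d * s) F F' ∧
    nt F' (blk α h i σ lo hi) ≤ 2 ∧
    (1 ≤ nt F (blk α h i σ lo hi) → 1 ≤ nt F' (blk α h i σ lo hi)) ∧
    tot F' + (H + 4 * d * s) * nt F' (blk α h i σ lo hi) ≤
      tot F + (H + 4 * d * s) * nt F (blk α h i σ lo hi) ∧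
    (Thr F I → Thr F' I)

/-- SHC: shells are connected -/
def St_SHC (d : ℕ) : Prop := 2 ≤ d → ∀ (α : Vx d) (h t : ℕ) (i i' : Fin d) (σ σ' : Bool)
  (z w : Vx d), 1 ≤ h → 1 ≤ t → z ∈ col α h i σ t → w ∈ col α h i' σ' t →
  ∃ C : List (Vx d), C.IsChain adj ∧ C.head? = some z ∧ C.getLast? = some w ∧
    (∀ c ∈ C, ht α h c = t) ∧ C.length ≤ 4 * d * (h + 2 * t) + 4

/-- SH: closing everything into one polygon, far outside -/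
def St_SH (d : ℕ) : Prop := 2 ≤ d → ∀ (α : Vx d) (h H : ℕ) (F : Finset (List (Vx d))),
  1 ≤ h → 1 ≤ H → F.Nonempty → Sys α h F → (∀ L ∈ F, ∀ x ∈ L, ht α h x ≤ H) →
  ∃ P : List (Vx d), IsC P ∧ (∀ u ∈ cel α h, ∀ v, St P u v ↔ ∃ L ∈ F, St L u v) ∧
    (∀ L ∈ F, ∀ x ∈ L, x ∈ P) ∧ (∀ x ∈ P, ht α h x ≤ H + nt F Set.univ) ∧
    P.length ≤ tot F + nt F Set.univ * (5 * d * (h + 2 * H + 2 * nt F Set.univ) + 2)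

/-- CLR: closing a regular unit -/
def St_CLR (d : ℕ) : Prop := 2 ≤ d → ∀ (α : Vx d) (g h : ℕ) (i i' : Fin d) (σ σ' : Bool)
  (lo hi lo' hi' : Vx d) (F : Finset (List (Vx d))), 1 ≤ g → g ≤ h → (i, σ) ≠ (i', σ') →
  (∀ k, k ≠ i → α k ≤ lo k ∧ hi k < α k + h ∧ hi k < lo k + g) →
  (∀ k, k ≠ i' → α k ≤ lo' k ∧ hi' k < α k + h ∧ hi' k < lo' k + g) → Fam α h F →
  (∀ z, Tp F z → z ∈ blk α h i σ lo hi ∨ z ∈ blk α h i' σ' lo' hi') →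
  (∃ L ∈ F, ∃ z w, tipz L z ∧ tipz L w ∧ z ∈ blk α h i σ lo hi ∧ w ∈ blk α h i' σ' lo' hi') →
  ∃ P : List (Vx d), Obj α g h P ∧ (∀ u ∈ cel α h, ∀ v, St P u v ↔ ∃ L ∈ F, St L u v) ∧
    (∀ L ∈ F, ∀ x ∈ L, x ∈ P) ∧ P.length ≤ tot F + 30 * d * g * nt F Set.univ

/-- CLN: closing a non-regular unit whose tips lie in the blocks of `K` -/
def St_CLN (d : ℕ) : Prop := 2 ≤ d → ∀ (α : Vx d) (g h : ℕ)
  (K : Finset (Fin d × Bool × Vx d × Vx d)) (F : Finset (List (Vx d))), 1 ≤ g → g ≤ h →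
  (∀ c ∈ K, ∀ k, k ≠ c.1 → α k ≤ c.2.2.1 k ∧ c.2.2.2 k < α k + h ∧ c.2.2.2 k < c.2.2.1 k + g) →
  (∀ c ∈ K, ∀ c' ∈ K, c ≠ c' →
    Disjoint (blk α h c.1 c.2.1 c.2.2.1 c.2.2.2) (blk α h c'.1 c'.2.1 c'.2.2.1 c'.2.2.2)) →
  Fam α h F → F.Nonempty →
  (∀ z, Tp F z → ∃ c ∈ K, z ∈ blk α h c.1 c.2.1 c.2.2.1 c.2.2.2) →
  ∃ P : List (Vx d), Obj α g h P ∧ (∀ u ∈ cel α h, ∀ v, St P u v ↔ ∃ L ∈ F, St L u v) ∧
    (∀ L ∈ F, ∀ x ∈ L, x ∈ P) ∧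
    P.length ≤ tot F + (1 + 4 * d * g) * nt F Set.univ + 400 * d ^ 3 * h * K.card

/-! ### Part U: units of a walk -/

/-- ARI: arithmetic of cells and groups -/
def St_ARI (d : ℕ) : Prop := ∀ D : Dt d, 2 ≤ D.ρ → 1 ≤ D.g → Sw D.w D.n →
  (∀ x y, x ∈ cel (D.og y) D.h ↔ D.ci x = D.ci y) ∧
  (∀ x y, D.og x = D.og y ↔ D.ci x = D.ci y) ∧
  (∀ x k, D.ci x k = ((x k - D.a k) / (D.g : ℤ)) / (D.ρ : ℤ)) ∧
  (∀ p ∈ D.crs, p < D.n ∧ D.ci (D.w p) ≠ D.ci (D.w (p + 1))) ∧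
  (∀ p, p < D.n → p ∉ D.crs → D.ci (D.w p) = D.ci (D.w (p + 1))) ∧
  (∀ p ∈ D.crs, ∃ i : Fin d, (D.gc p).1 = ev i ∧ |D.w (p + 1) i - D.w p i| = 1 ∧
    (D.gc p).2 i = max (D.ci (D.w p) i) (D.ci (D.w (p + 1)) i) ∧
    D.ci (D.w (p + 1)) i - D.ci (D.w p) i = D.w (p + 1) i - D.w p i ∧
    ∀ k, k ≠ i → D.w (p + 1) k = D.w p k ∧ D.ci (D.w (p + 1)) k = D.ci (D.w p) k ∧
      (D.gc p).2 k = (D.w p k - D.a k) / (D.g : ℤ) ∧ D.ci (D.w p) k = (D.gc p).2 k / (D.ρ : ℤ)) ∧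
  (∀ p ∈ D.crs, ∀ q ∈ D.crs, D.gc p = D.gc q →
    (D.ci (D.w p) = D.ci (D.w q) ∧ D.ci (D.w (p + 1)) = D.ci (D.w (q + 1))) ∨
    (D.ci (D.w p) = D.ci (D.w (q + 1)) ∧ D.ci (D.w (p + 1)) = D.ci (D.w q)))

/-- CLS: bundles and units are classes -/
def St_CLS (d : ℕ) : Prop := ∀ D : Dt d, Sw D.w D.n →
  (∀ t ≤ D.n, t ∈ D.uc t ∧ t ∈ D.bc t) ∧
  (∀ s t, s ∈ D.uc t → s ≤ D.n ∧ t ≤ D.n ∧ D.ci (D.w s) = D.ci (D.w t) ∧ D.uc s = D.uc t) ∧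
  (∀ s t, s ∈ D.bc t → s ≤ D.n ∧ t ≤ D.n ∧ D.ci (D.w s) = D.ci (D.w t) ∧ D.bc s = D.bc t) ∧
  (∀ t, D.bc t ⊆ D.uc t) ∧
  (∀ u ∈ D.uns, u.Nonempty ∧ ∀ t ∈ u, t ≤ D.n ∧ D.uc t = u) ∧
  (∀ u ∈ D.bns, u.Nonempty ∧ ∀ t ∈ u, t ≤ D.n ∧ D.bc t = u) ∧
  (∀ s t, s ≤ D.n → t ≤ D.n → D.ci (D.w s) = D.ci (D.w t) → adj (D.w s) (D.w t) →
    D.uc s = D.uc t) ∧
  (∀ s, s < D.n → s ∉ D.crs → D.bc s = D.bc (s + 1) ∧ D.uc s = D.uc (s + 1)) ∧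
  (∀ p ∈ D.crs, ∀ q ∈ D.crs, D.gc p = D.gc q → ∀ s t, (s = p ∨ s = p + 1) →
    (t = q ∨ t = q + 1) → D.ci (D.w s) = D.ci (D.w t) → D.bc s = D.bc t ∧ D.uc s = D.uc t) ∧
  ∑ u ∈ D.uns, u.card = D.n + 1

/-- FAM: the strands of a unit -/
def St_FAM (d : ℕ) : Prop := ∀ D : Dt d, 2 ≤ D.ρ → 1 ≤ D.g → Sw D.w D.n →
  ∀ u ∈ D.uns, ¬ D.spc u → ∀ α : Vx d, (∀ t ∈ u, D.og (D.w t) = α) →
  ∃ F : Finset (List (Vx d)), Fam α D.h F ∧ F.Nonempty ∧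
    (∀ x ∈ cel α D.h, ∀ y, (∃ L ∈ F, St L x y) ↔
      ∃ t ∈ u, D.w t = x ∧ (D.w (t + 1) = y ∨ D.w (t - 1) = y)) ∧
    (∀ t ∈ u, ∃ L ∈ F, D.w t ∈ L) ∧ tot F = u.card + D.inc u ∧ nt F Set.univ = D.inc u ∧
    (∀ z, Tp F z → ∃ p ∈ D.crs, (p ∈ u ∧ z = D.w (p + 1)) ∨ (p + 1 ∈ u ∧ z = D.w p)) ∧
    (∀ p ∈ D.crs, ∀ q ∈ D.crs, p < q → (∀ t, p < t → t ≤ q → t ∈ u) →
      ∃ L ∈ F, tipz L (D.w p) ∧ tipz L (D.w (q + 1)))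

/-- the list `P` is an object for the unit `u` -/
def UO {d : ℕ} (D : Dt d) (u : Finset ℕ) (P : List (Vx d)) : Prop :=
  (∀ t ∈ u, Obj (D.og (D.w t)) D.g D.h P) ∧
  (∀ t ∈ u, ∀ x ∈ cel (D.og (D.w t)) D.h, ∀ y, St P x y ↔
    ∃ s ∈ u, D.w s = x ∧ (D.w (s + 1) = y ∨ D.w (s - 1) = y)) ∧
  (∀ t ∈ u, D.w t ∈ P)

open scoped Classical in
/-- UNIT: objects for all units which do not contain an endpoint -/
def St_UNIT (d : ℕ) : Prop := 2 ≤ d → ∀ D : Dt d, 2 ≤ D.ρ → 1 ≤ D.g → Sw D.w D.n →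
  ∀ u ∈ D.uns, ¬ D.spc u → ∃ P : List (Vx d), UO D u P ∧
    P.length ≤ u.card + 40 * d * D.g * D.inc u +
      (if D.reg u then 0 else 400 * d ^ 3 * D.h * (D.tgr u).card)

/-- LAL: linear algebra lemma on graphs all of whose edges are bridges -/
def St_LAL : Prop := ∀ (X E K : Type) [Fintype X] [Fintype E] [Fintype K]
  (lo hi : E → X) (S : E → Set X) (comp : X → K), Function.Surjective comp →
  (∀ e, lo e ∉ S e ∧ hi e ∈ S e) → (∀ e e', e' ≠ e → (lo e' ∈ S e ↔ hi e' ∈ S e)) →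
  (∀ e, comp (lo e) = comp (hi e)) → Fintype.card E + Fintype.card K ≤ Fintype.card X

/-- NB: number of bundles -/
def St_NB (d : ℕ) : Prop := ∀ D : Dt d, 2 ≤ D.ρ → 1 ≤ D.g → Sw D.w D.n →
  D.bns.card ≤ D.grs.card + 1

/-- GU: good groups are at most as many as units -/
def St_GU (d : ℕ) : Prop := ∀ D : Dt d, 2 ≤ D.ρ → 1 ≤ D.g → Sw D.w D.n →
  D.ggood.card ≤ D.uns.card

open scoped Classical in
/-- LF: bundles with at most one, or at least three, good groups -/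
def St_LF (d : ℕ) : Prop := ∀ D : Dt d, 2 ≤ D.ρ → 1 ≤ D.g → Sw D.w D.n →
  (D.bns.filter (fun x => (D.tgr x ∩ D.ggood).card ≤ 1)).card ≤
    (2 * d + 1) * (D.gbad.card + D.gbd.card + 1) ∧
  ∑ x ∈ D.bns, ((D.tgr x ∩ D.ggood).card - 2) ≤ (2 * d + 2) * (D.gbad.card + D.gbd.card + 1)

open scoped Classical in
/-- RG: a unit which is a single plain bundle is regular -/
def St_RG (d : ℕ) : Prop := ∀ D : Dt d, 2 ≤ D.ρ → 1 ≤ D.g → Sw D.w D.n →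
  ∀ u ∈ D.uns, u ∈ D.bns → ¬ D.spc u → D.tgr u ⊆ D.ggood → (D.tgr u).card = 2 → D.reg u

open scoped Classical in
/-- CNT: non-regular units are rare -/
def St_CNT (d : ℕ) : Prop := ∀ D : Dt d, 2 ≤ D.ρ → 1 ≤ D.g → Sw D.w D.n →
  ∑ u ∈ D.uns.filter (fun u => ¬ D.reg u), ((D.tgr u).card + 1) ≤
    (14 * d + 31) * (D.gbad.card + D.gbd.card + 1)

/-- SEL: choice of the scale and of the offset -/
def St_SEL (d : ℕ) : Prop := 1 ≤ d → ∀ (w : ℕ → Vx d) (n ρ J : ℕ), 2 ≤ ρ → 1 ≤ J → Sw w n →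
  ∃ j < J, ∃ a : Vx d, (∀ k, 0 ≤ a k ∧ a k < ((ρ ^ (2 * J) : ℕ) : ℤ)) ∧
    ρ ^ (2 * j + 1) * (Dt.mk w n a ρ (ρ ^ (2 * j))).crb ≤ 3 * d * (n + 1) ∧
    ρ ^ (2 * j + 2) * (Dt.mk w n a ρ (ρ ^ (2 * j))).gbd.card ≤ 3 * (n + 1) ∧
    J * ρ ^ (2 * j + 1) * (Dt.mk w n a ρ (ρ ^ (2 * j))).gbad.card ≤ 6 * (n + 1)

open scoped Classical in
/-- STR: the structure theorem -/
def St_STR (d : ℕ) : Prop := 2 ≤ d → ∀ (w : ℕ → Vx d) (n ρ J : ℕ), 2 ≤ ρ → 1 ≤ J → Sw w n →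
  ∃ j < J, ∃ a : Vx d, (∀ k, 0 ≤ a k ∧ a k < ((ρ ^ (2 * J) : ℕ) : ℤ)) ∧
    ρ ^ (2 * j + 1) * (Dt.mk w n a ρ (ρ ^ (2 * j))).crb ≤ 3 * d * (n + 1) ∧
    ∃ O : Finset ℕ → List (Vx d),
      (∀ u ∈ (Dt.mk w n a ρ (ρ ^ (2 * j))).uns, ¬ (Dt.mk w n a ρ (ρ ^ (2 * j))).spc u →
        UO (Dt.mk w n a ρ (ρ ^ (2 * j))) u (O u)) ∧
      ((∑ u ∈ (Dt.mk w n a ρ (ρ ^ (2 * j))).uns.filter
          (fun u => ¬ (Dt.mk w n a ρ (ρ ^ (2 * j))).spc u), (O u).length : ℕ) : ℝ) ≤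
        ((n : ℝ) + 1) + 200000 * (d : ℝ) ^ 4 *
          (((n : ℝ) + 1) * (1 / ρ + 1 / J) + (ρ : ℝ) ^ (2 * J))

/-! ### Part E: encoding -/

open scoped Classical in
/-- BND: bonds of a walk -/
def St_BND (d : ℕ) : Prop := 1 ≤ d → ∀ D : Dt d, 2 ≤ D.ρ → 1 ≤ D.g → Sw D.w D.n →
  ∀ O : Finset ℕ → List (Vx d),
  (∀ u ∈ D.uns, ¬ D.spc u → UO D u (O u)) →
  Ac D.vs ≤ D.crb + 2 * d * D.h ^ d +
    ∑ u ∈ D.uns.filter (fun u => ¬ D.spc u), Ac (O u).toFinset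

open scoped Classical in
/-- code of a walk with objects at time `t` -/
noncomputable def cod {d : ℕ} (D : Dt d) (O : Finset ℕ → List (Vx d)) (t : ℕ) :
    Option (Vx d × Option (List (Vx d))) :=
  if 1 ≤ t ∧ t - 1 ∈ D.crs then
    some (D.w t - D.w (t - 1),
      if ¬ D.spc (D.uc t) ∧ ∀ s ∈ D.uc t, t ≤ s then
        some ((O (D.uc t)).map (fun x => x - D.og (D.w t))) else none)
  else none

open scoped Classical in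
/-- content of the unit of time `t`, relative to the corner of its cell -/
noncomputable def con {d : ℕ} (D : Dt d) (t : ℕ) : Finset (Vx d × Vx d) :=
  ((range (D.n + 1) ×ˢ range (D.n + 1)).filter (fun p => p.1 ∈ D.uc t ∧
    (p.2 = p.1 + 1 ∨ p.1 = p.2 + 1))).image
      (fun p => (D.w p.1 - D.og (D.w t), D.w p.2 - D.og (D.w t)))

/-- DEC: the code determines the walk -/
def St_DEC (d : ℕ) : Prop := 1 ≤ d → ∀ (D D' : Dt d) (O O' : Finset ℕ → List (Vx d)),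
  2 ≤ D.ρ → 1 ≤ D.g → D.n = D'.n → D.a = D'.a → D.ρ = D'.ρ → D.g = D'.g →
  Sw D.w D.n → Sw D'.w D'.n → D.w 0 = 0 → D'.w 0 = 0 →
  (∀ u ∈ D.uns, ¬ D.spc u → UO D u (O u)) → (∀ u ∈ D'.uns, ¬ D'.spc u → UO D' u (O' u)) →
  (∀ t ≤ D.n, cod D O t = cod D' O' t) → con D 0 = con D' 0 → con D D.n = con D' D'.n →
  ∀ t ≤ D.n, D.w t = D'.w t

/-- PSM: sum over codes -/
def St_PSM : Prop := ∀ (ι κ τ : Type) (Ω : Finset ι) (N : ℕ) (T : Finset τ) (Q : Finset κ)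
  (φ : ι → Fin N → τ) (ψ : ι → κ) (f : ι → ℝ) (W : τ → ℝ) (A : ℝ), 0 ≤ A → (∀ x ∈ T, 0 ≤ W x) →
  (∀ i ∈ Ω, ∀ t, φ i t ∈ T) → (∀ i ∈ Ω, ψ i ∈ Q) →
  (∀ i ∈ Ω, ∀ i' ∈ Ω, φ i = φ i' → ψ i = ψ i' → i = i') →
  (∀ i ∈ Ω, f i ≤ A * ∏ t, W (φ i t)) → ∑ i ∈ Ω, f i ≤ A * Q.card * (∑ x ∈ T, W x) ^ N

open scoped Classical in
/-- ENJ: partition function of the walks with given scale and offset -/
def St_ENJ (d : ℕ) : Prop := 1 ≤ d → ∀ (β F0 S : ℝ) (ρ g : ℕ) (a : Vx d), 0 ≤ β → 0 ≤ F0 →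
  0 ≤ S → 2 ≤ ρ → 1 ≤ g →
  (∀ A : Finset (List (Vx d)), (∀ P ∈ A, Obj 0 g (ρ * g) P) →
    ∑ P ∈ A, Real.exp (β * (Ac P.toFinset : ℝ) - F0 * P.length) ≤ S) →
  ∀ (n m : ℕ) (Λ : ℝ) (Ω : Finset (List (Vx d))), Ω ⊆ SW d n →
  (∀ P ∈ Ω, ∃ w : ℕ → Vx d, Sw w n ∧ w 0 = 0 ∧ (∀ t ≤ n, P[t]? = some (w t)) ∧
    (Dt.mk w n a ρ g).crb ≤ m ∧ ∃ O : Finset ℕ → List (Vx d),
      (∀ u ∈ (Dt.mk w n a ρ g).uns, ¬ (Dt.mk w n a ρ g).spc u → UO (Dt.mk w n a ρ g) u (O u)) ∧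
      ((∑ u ∈ (Dt.mk w n a ρ g).uns.filter (fun u => ¬ (Dt.mk w n a ρ g).spc u),
        (O u).length : ℕ) : ℝ) ≤ Λ) →
  ∀ x : ℝ, 0 < x → x ≤ 1 →
  ∑ P ∈ Ω, wt β P ≤ Real.exp (β * (m + 2 * d * (ρ * g : ℝ) ^ d) + F0 * Λ) *
    (2 ^ (ρ * g + 2) ^ (2 * d)) ^ 2 * (x⁻¹) ^ m * (1 + x * (2 * d * (1 + S))) ^ (n + 1)

/-- ENC: upper bound for the partition function of walks -/
def St_ENC (d : ℕ) : Prop := 2 ≤ d → ∀ (β F0 B : ℝ), 0 ≤ β → 0 ≤ F0 → 1 ≤ B →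
  (∀ (g h : ℕ) (A : Finset (List (Vx d))), 1 ≤ g → g ≤ h → (∀ P ∈ A, Obj 0 g h P) →
    ∑ P ∈ A, Real.exp (β * (Ac P.toFinset : ℝ) - F0 * P.length) ≤ (B * h) ^ (6 * d)) →
  ∃ C1 : ℝ, 0 < C1 ∧ ∀ ρ J : ℕ, 2 ≤ ρ → 1 ≤ J → ∃ C2 : ℝ, 0 < C2 ∧ ∀ n : ℕ, 1 ≤ n →
    Zw d β n ≤ C2 * Real.exp (n * (F0 + C1 * (1 / Real.sqrt ρ + 1 / J)))

/-! ### Part X: crossing paths and objects -/

/-- the box `[0,s)^d` -/
noncomputable def bxF (d s : ℕ) : Finset (Vx d) := Fintype.piFinset (fun _ => Ico (0 : ℤ) s)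

open scoped Classical in
/-- partition function of the paths from `p` to `q` in the box, with `l` vertices -/
noncomputable def Pq (d : ℕ) (β : ℝ) (s : ℕ) (p q : Vx d) (l : ℕ) : ℝ :=
  ∑ P ∈ (LL (bxF d s) l).filter (fun P => IsP P ∧ P.head? = some p ∧ P.getLast? = some q), wt β P

/-- CRA: endpoints on faces of different directions -/
def St_CRA (d : ℕ) : Prop := ∀ (β : ℝ) (s l : ℕ) (i i' : Fin d) (p q : Vx d), 0 ≤ β → 1 ≤ s →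
  1 ≤ l → i ≠ i' → (p i = 0 ∨ p i = s - 1) → (q i' = 0 ∨ q i' = s - 1) →
  Pq d β s p q l ^ 4 ≤ Zc d β (4 * l)

/-- CRO: endpoints on opposite faces -/
def St_CRO (d : ℕ) : Prop := ∀ (β : ℝ) (s l M : ℕ) (i i' : Fin d) (p q : Vx d), 0 ≤ β →
  1 ≤ s → 1 ≤ l → 1 ≤ M → i ≠ i' → (p i = 0 ∧ q i = s - 1) ∨ (p i = s - 1 ∧ q i = 0) →
  ∃ e : ℕ, e ≤ 4 * s ∧ Pq d β s p q l ^ (4 * M) ≤ Zc d β (4 * M * l + e)

/-- CR: upper bound for crossing paths -/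
def St_CR (d : ℕ) : Prop := 2 ≤ d → ∀ (β F0 C0 : ℝ), 0 ≤ β → 0 ≤ F0 → 0 ≤ C0 →
  (∀ l : ℕ, 1 ≤ l → Zc d β l ≤ C0 * (l : ℝ) ^ 2 * Real.exp (F0 * l)) →
  ∀ (s l : ℕ) (i i' : Fin d) (p q : Vx d), 1 ≤ s → 1 ≤ l → (p i = 0 ∨ p i = s - 1) →
  (q i' = 0 ∨ q i' = s - 1) → (i = i' → p i ≠ q i) →
  Pq d β s p q l ≤ (1 + 64 * C0) * Real.exp F0 * (s : ℝ) ^ (2 * d + 2) * Real.exp (F0 * l)

/-- OBJ: sum over objects -/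
def St_OBJ (d : ℕ) : Prop := 2 ≤ d → ∀ (β F0 C0 : ℝ), 0 ≤ β → 0 ≤ F0 → 0 ≤ C0 →
  (∀ l : ℕ, 1 ≤ l → Zc d β l ≤ C0 * (l : ℝ) ^ 2 * Real.exp (F0 * l)) →
  ∃ B : ℝ, 1 ≤ B ∧ ∀ (g h : ℕ) (A : Finset (List (Vx d))), 1 ≤ g → g ≤ h →
    (∀ P ∈ A, Obj 0 g h P) →
    ∑ P ∈ A, Real.exp (β * (Ac P.toFinset : ℝ) - F0 * P.length) ≤ (B * h) ^ (6 * d)

/-! ### Part K: polygons -/

/-- KK: joining two rooted polygons -/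
def St_KK (d : ℕ) : Prop := ∀ (i0 i1 : Fin d) (β : ℝ) (m l : ℕ), i0 ≠ i1 → 0 ≤ β → 3 ≤ m → 3 ≤ l →
  Kr i0 i1 β m * Kr i0 i1 β l ≤ Zc d β (m + l)

/-- ZK: every polygon has a good root -/
def St_ZK (d : ℕ) : Prop := ∀ (i0 i1 : Fin d) (β : ℝ) (l : ℕ), i0 ≠ i1 → 3 ≤ l →
  Zc d β l ≤ 2 * l * d * Kr i0 i1 β l

/-- K0: rectangles, and trivial bounds -/
def St_K0 (d : ℕ) : Prop := ∀ (i0 i1 : Fin d) (β : ℝ) (l : ℕ), i0 ≠ i1 → 0 ≤ β →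
  (∀ m : ℕ, 1 ≤ m → 1 ≤ Kr i0 i1 β (2 * m + 2)) ∧ Kr i0 i1 β l ≤ Zc d β l ∧
  Zc d β l ≤ (2 * d) ^ l * Real.exp (β * d * l) ∧ (Odd l → Zc d β l = 0)

/-- SEQ: approximately superadditive sequences -/
def St_SEQ : Prop := ∀ (u : ℕ → ℝ) (C : ℝ), 1 ≤ C →
  (∀ m n : ℕ, 2 ≤ m → 2 ≤ n → u m + u n ≤ u (m + n) + Real.log (C * (m + n))) →
  (∀ m : ℕ, 2 ≤ m → 0 ≤ u m ∧ u m ≤ C * m) →
  ∃ F : ℝ, 0 ≤ F ∧ Filter.Tendsto (fun m : ℕ => u m / m) Filter.atTop (nhds F) ∧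
    ∀ m : ℕ, 2 ≤ m → u m ≤ F * m + Real.log (4 * C * m)

/-- POL: free energy of polygons -/
def St_POL (d : ℕ) : Prop := 2 ≤ d → ∀ β : ℝ, 0 ≤ β → ∃ F0 C0 : ℝ, 0 ≤ F0 ∧ 0 ≤ C0 ∧
  (∀ l : ℕ, 1 ≤ l → Zc d β l ≤ C0 * (l : ℝ) ^ 2 * Real.exp (F0 * l)) ∧
  Filter.Tendsto (fun m : ℕ => Real.log (Zc d β (2 * m)) / ((2 * m : ℕ) : ℝ)) Filter.atTop
    (nhds F0) ∧
  ∀ (i0 i1 : Fin d), i0 ≠ i1 → Filter.Tendsto
    (fun m : ℕ => Real.log (Kr i0 i1 β (2 * m)) / ((2 * m : ℕ) : ℝ)) Filter.atTop (nhds F0)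

/-- LOW: walks from polygons -/
def St_LOW (d : ℕ) : Prop := ∀ (i0 i1 : Fin d) (β : ℝ) (m : ℕ), i0 ≠ i1 → 0 ≤ β → 2 ≤ m →
  Kr i0 i1 β (2 * m) ≤ Zw d β (2 * m - 1) ∧ Kr i0 i1 β (2 * m) ≤ Zw d β (2 * m)

/-- LIM: the main theorem in our notation -/
def St_LIM (d : ℕ) : Prop := 2 ≤ d → ∀ β : ℝ, 0 ≤ β → ∃ F0 : ℝ,
  Filter.Tendsto (fun n : ℕ => Real.log (Zw d β n) / n) Filter.atTop (nhds F0) ∧
  Filter.Tendsto (fun m : ℕ => Real.log (Zc d β (2 * m)) / ((2 * m : ℕ) : ℝ)) Filter.atTop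
    (nhds F0)

/-- FZ1: translation of the sum of the frozen statement S13347 -/
def St_FZ1 : Prop := ∀ (d n : ℕ) (β : ℝ),
  (∑ w ∈ (Fintype.piFinset
      (fun _ : Fin (n + 1) =>
        Fintype.piFinset (fun _ : Fin d => Finset.Icc (-(n : ℤ)) (n : ℤ)))).filter
      (fun w : Fin (n + 1) → Fin d → ℤ =>
        w 0 = 0 ∧
        (∀ i j : Fin (n + 1), w i = w j → i = j) ∧
        (∀ i : Fin n, ∑ k : Fin d, |w i.succ k - w i.castSucc k| = 1)),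
    Real.exp (β * ((((Finset.univ : Finset (Fin (n + 1) × Fin (n + 1))).filter
      (fun p : Fin (n + 1) × Fin (n + 1) =>
        p.1.val + 1 < p.2.val ∧
        ∑ k : Fin d, |w p.1 k - w p.2 k| = 1)).card : ℕ) : ℝ))) =
  Real.exp (-(β * n)) * Zw d β n

/-- FZ2: translation of the walk sum of the frozen statement S13501 -/
def St_FZ2 : Prop := ∀ (d n : ℕ) (β : ℝ),
  (∑' w : {w : Fin (n+1) → Fin d → ℤ //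
      w 0 = 0 ∧ Function.Injective w ∧
      ∀ i : Fin n, ∑ j, |w i.castSucc j - w i.succ j| = 1},
    Real.exp (β * (((Finset.univ : Finset (Fin (n+1) × Fin (n+1))).filter
      (fun p => p.1.val + 2 ≤ p.2.val ∧
        ∑ j, |w.1 p.1 j - w.1 p.2 j| = 1)).card : ℝ))) =
  Real.exp (-(β * n)) * Zw d β n

/-- FZ3: translation of the polygon sum of the frozen statement S13501 -/
def St_FZ3 : Prop := ∀ (d m : ℕ) (β : ℝ), 2 ≤ m →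
  (∑' w : {w : Fin (2*m+1) → Fin d → ℤ //
      w 0 = 0 ∧ w (Fin.last (2*m)) = 0 ∧
      Function.Injective (fun i : Fin (2*m) => w i.castSucc) ∧
      ∀ i : Fin (2*m), ∑ j, |w i.castSucc j - w i.succ j| = 1},
    Real.exp (β * (((Finset.univ : Finset (Fin (2*m) × Fin (2*m))).filter
      (fun p => p.1.val + 2 ≤ p.2.val ∧
        ¬ (p.1.val = 0 ∧ p.2.val + 1 = 2*m) ∧
        ∑ j, |w.1 p.1.castSucc j - w.1 p.2.castSucc j| = 1)).card : ℝ))) =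
  Real.exp (-(β * (2 * m : ℕ))) * Zc d β (2 * m)

end Pool.Agent.H981R3.IS
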